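import Pool.Agent.PCx.Bas

/-!
# The constants depend only on the primes which divide the moduli

`rd m` = the product of the primes dividing `m`.  `gg_rad`: induction on `r`, using that `gg (rd B) (rd ∘ μ) r i x` depends only on
`x mod rd B` (`rd (μ i) ∣ rd B`).  For `b' < rd B` prime to `rd B` with `b' ≡ 2x + 1` modulo `rd (μ i)` the number of the `b < B` with
`b ≡ b'` modulo `rd B` and `b ≡ 2x + 1` modulo `μ i` is `B/lcm(rd B, μ i)`, `gcd(rd B, μ i) = rd (μ i)` (as `μ i ∣ B`), so it is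
`B rd(μ i)/(rd B * μ i)`; such a `b` is prime to `B`.  And `φ(B) = (B/rd B) φ(rd B)` (`Nat.totient_mul_of_prime...`, or
`Nat.totient_eq_mul_prod_factors`).  So `μ i/φ(B) * B rd(μ i)/(rd B * μ i) = rd(μ i)/φ(rd B)`.
`kapL_rad`: the same for the last average.
-/

namespace Pool.Agent.PCx

open Pool.Agent.PCn

/-- the product of the primes which divide `m` -/
def rd (m : ℕ) : ℕ := ∏ p ∈ m.primeFactors, p

private theorem RadX_rd_pos (m : ℕ) : 0 < rd m :=
  Finset.prod_pos fun _ hp => (Nat.prime_of_mem_primeFactors hp).pos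

private theorem RadX_rd_dvd (m : ℕ) : rd m ∣ m := Nat.prod_primeFactors_dvd m

private theorem RadX_pf (m : ℕ) : (rd m).primeFactors = m.primeFactors :=
  Nat.primeFactors_prod_primeFactors m

private theorem RadX_mono {m B : ℕ} (hB : 0 < B) (h : m ∣ B) : rd m ∣ rd B :=
  Finset.prod_dvd_prod_of_subset _ _ _ (Nat.primeFactors_mono h hB.ne')

private theorem RadX_sqf (m : ℕ) : Squarefree (rd m) := by
  unfold rd
  apply Finset.squarefree_prod_of_pairwise_isCoprime
  · intro p hp q hq hpq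
    rw [Function.onFun, ← Nat.coprime_iff_isRelPrime]
    exact (Nat.coprime_primes (Nat.prime_of_mem_primeFactors hp)
      (Nat.prime_of_mem_primeFactors hq)).mpr hpq
  · intro p hp
    exact (Nat.prime_of_mem_primeFactors hp).prime.squarefree

private theorem RadX_gcd {m B : ℕ} (hB : 0 < B) (h : m ∣ B) : Nat.gcd (rd B) m = rd m := by
  apply Nat.dvd_antisymm
  · have hm : 0 < m := Nat.pos_of_dvd_of_pos h hB
    have h1 : Squarefree (Nat.gcd (rd B) m) := (RadX_sqf B).squarefree_of_dvd (Nat.gcd_dvd_left _ _)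
    have h2 := Nat.prod_primeFactors_of_squarefree h1
    calc Nat.gcd (rd B) m = rd (Nat.gcd (rd B) m) := h2.symm
      _ ∣ rd m := RadX_mono hm (Nat.gcd_dvd_right _ _)
  · exact Nat.dvd_gcd (RadX_mono hB h) (RadX_rd_dvd m)

private theorem RadX_cop {B : ℕ} (hB : 0 < B) (b : ℕ) : Nat.Coprime b B ↔ Nat.Coprime b (rd B) := by
  constructor
  · intro h
    exact h.coprime_dvd_right (RadX_rd_dvd B)
  · intro h
    apply Nat.coprime_of_dvd
    intro p hp h1 h2
    have h3 : p ∣ rd B := Finset.dvd_prod_of_mem (fun p => p) (Nat.mem_primeFactors.mpr ⟨hp, h2, hB.ne'⟩)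
    exact hp.one_lt.ne' (Nat.eq_one_of_dvd_coprimes h h1 h3)

private theorem RadX_tot (B : ℕ) : B.totient * rd B = B * (rd B).totient := by
  have h1 := Nat.totient_mul_prod_primeFactors B
  have h2 := Nat.totient_mul_prod_primeFactors (rd B)
  rw [RadX_pf] at h2
  have h3 : (rd B).totient * rd B = rd B * ∏ p ∈ B.primeFactors, (p - 1) := h2
  have h4 : B.totient * rd B = B * ∏ p ∈ B.primeFactors, (p - 1) := h1
  have h5 : (rd B).totient = ∏ p ∈ B.primeFactors, (p - 1) := by
    rw [mul_comm] at h3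
    exact Nat.eq_of_mul_eq_mul_left (RadX_rd_pos B) h3
  rw [h4, h5]

/-- the number of solutions of two congruences -/
private theorem RadX_count {B R m : ℕ} (hB : 0 < B) (hR : R ∣ B) (hm : m ∣ B) (b' c : ℕ)
    (h : b' ≡ c [MOD Nat.gcd R m]) :
    ((Finset.range B).filter (fun b => b ≡ b' [MOD R] ∧ b ≡ c [MOD m])).card * Nat.lcm R m = B := by
  have hR0 : 0 < R := Nat.pos_of_dvd_of_pos hR hB
  have hm0 : 0 < m := Nat.pos_of_dvd_of_pos hm hB
  obtain ⟨z, hz1, hz2⟩ := Nat.chineseRemainder' h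
  have hlcm : 0 < Nat.lcm R m := Nat.lcm_pos hR0 hm0
  have hset : (Finset.range B).filter (fun b => b ≡ b' [MOD R] ∧ b ≡ c [MOD m]) =
      (Finset.range B).filter (fun b => b ≡ z [MOD Nat.lcm R m]) := by
    apply Finset.filter_congr
    intro b _
    constructor
    · rintro ⟨h1, h2⟩
      exact Nat.mod_lcm (h1.trans hz1.symm) (h2.trans hz2.symm)
    · intro h1
      exact ⟨(h1.of_dvd (Nat.dvd_lcm_left R m)).trans hz1, (h1.of_dvd (Nat.dvd_lcm_right R m)).trans hz2⟩
  rw [hset, ← Nat.count_eq_card_filter_range, Nat.count_modEq_card _ hlcm]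
  have hd : Nat.lcm R m ∣ B := Nat.lcm_dvd hR hm
  have h0 : B % Nat.lcm R m = 0 := Nat.mod_eq_zero_of_dvd hd
  rw [h0, if_neg (by omega), add_zero]
  exact Nat.div_mul_cancel hd

private theorem RadX_sum {B m : ℕ} (hB : 0 < B) (hm : m ∣ B) (c : ℕ) (f : ℕ → ℝ)
    (hf : ∀ b, f b = f (b % rd B)) :
    (m : ℝ) / B.totient * ∑ b ∈ (Finset.range B).filter (fun b => Nat.Coprime b B ∧ b ≡ c [MOD m]), f b =
      (rd m : ℝ) / (rd B).totient *
        ∑ b ∈ (Finset.range (rd B)).filter (fun b => Nat.Coprime b (rd B) ∧ b ≡ c [MOD rd m]), f b := by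
  have hR0 := RadX_rd_pos B
  have hm0 : 0 < m := Nat.pos_of_dvd_of_pos hm hB
  have hRB := RadX_rd_dvd B
  have hmap : ∀ b ∈ (Finset.range B).filter (fun b => Nat.Coprime b B ∧ b ≡ c [MOD m]),
      b % rd B ∈ (Finset.range (rd B)).filter (fun b => Nat.Coprime b (rd B) ∧ b ≡ c [MOD rd m]) := by
    intro b hb
    obtain ⟨h1, h2, h3⟩ := by simpa only [Finset.mem_filter, Finset.mem_range] using hb
    rw [Finset.mem_filter, Finset.mem_range]
    refine ⟨Nat.mod_lt _ hR0, ?_, ?_⟩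
    · have := (RadX_cop hB b).mp h2
      rw [Nat.Coprime, ← Nat.gcd_rec]
      exact this.symm
    · have h4 : b % rd B ≡ b [MOD rd B] := Nat.mod_modEq _ _
      exact (h4.of_dvd (RadX_mono hB hm)).trans (h3.of_dvd (RadX_rd_dvd m))
  rw [← Finset.sum_fiberwise_of_maps_to hmap]
  have hfib : ∀ b' ∈ (Finset.range (rd B)).filter (fun b => Nat.Coprime b (rd B) ∧ b ≡ c [MOD rd m]),
      ∑ b ∈ ((Finset.range B).filter (fun b => Nat.Coprime b B ∧ b ≡ c [MOD m])).filter
        (fun b => b % rd B = b'), f b = (B : ℝ) / (Nat.lcm (rd B) m : ℕ) * f b' := by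
    intro b' hb'
    obtain ⟨h1, h2, h3⟩ := by simpa only [Finset.mem_filter, Finset.mem_range] using hb'
    have hset : ((Finset.range B).filter (fun b => Nat.Coprime b B ∧ b ≡ c [MOD m])).filter
        (fun b => b % rd B = b') =
        (Finset.range B).filter (fun b => b ≡ b' [MOD rd B] ∧ b ≡ c [MOD m]) := by
      rw [Finset.filter_filter]
      apply Finset.filter_congr
      intro b _
      constructor
      · rintro ⟨⟨_, h5⟩, h6⟩
        refine ⟨?_, h5⟩
        rw [← h6]; exact (Nat.mod_modEq _ _).symm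
      · rintro ⟨h5, h6⟩
        have h7 : b % rd B = b' := by
          have := h5
          unfold Nat.ModEq at this
          rw [this, Nat.mod_eq_of_lt h1]
        refine ⟨⟨?_, h6⟩, h7⟩
        rw [RadX_cop hB]
        have h8 : Nat.gcd b (rd B) = Nat.gcd (b % rd B) (rd B) := by
          rw [Nat.gcd_comm, Nat.gcd_rec]
        rw [Nat.Coprime, h8, h7]; exact h2
    rw [hset]
    have hcount := RadX_count hB hRB hm b' c (by rw [RadX_gcd hB hm]; exact h3)
    have hconst : ∀ b ∈ (Finset.range B).filter (fun b => b ≡ b' [MOD rd B] ∧ b ≡ c [MOD m]),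
        f b = f b' := by
      intro b hb
      obtain ⟨_, h5, _⟩ := by simpa only [Finset.mem_filter, Finset.mem_range] using hb
      rw [hf b, hf b']
      congr 1
    rw [Finset.sum_congr rfl hconst, Finset.sum_const, nsmul_eq_mul]
    congr 1
    have hl : (0 : ℝ) < (Nat.lcm (rd B) m : ℕ) := by exact_mod_cast Nat.lcm_pos hR0 hm0
    rw [eq_div_iff hl.ne']
    exact_mod_cast hcount
  rw [Finset.sum_congr rfl hfib, ← Finset.mul_sum, ← mul_assoc]
  congr 1
  have hgl : Nat.gcd (rd B) m * Nat.lcm (rd B) m = rd B * m := Nat.gcd_mul_lcm _ _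
  rw [RadX_gcd hB hm] at hgl
  have htot := RadX_tot B
  have hgl' : (rd m : ℝ) * (Nat.lcm (rd B) m : ℕ) = (rd B : ℝ) * m := by exact_mod_cast hgl
  have htot' : (B.totient : ℝ) * rd B = B * ((rd B).totient : ℝ) := by exact_mod_cast htot
  have hl : (0 : ℝ) < (Nat.lcm (rd B) m : ℕ) := by exact_mod_cast Nat.lcm_pos hR0 hm0
  have ht1 : (0 : ℝ) < (B.totient : ℝ) := by exact_mod_cast Nat.totient_pos.mpr hB
  have ht2 : (0 : ℝ) < ((rd B).totient : ℝ) := by exact_mod_cast Nat.totient_pos.mpr hR0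
  have hR' : (0 : ℝ) < (rd B : ℝ) := by exact_mod_cast hR0
  rw [div_mul_div_comm, div_eq_div_iff (by positivity) ht2.ne']
  have : (rd B : ℝ) * ((m : ℝ) * B * ((rd B).totient : ℝ)) =
      (rd B : ℝ) * ((rd m : ℝ) * ((B.totient : ℝ) * (Nat.lcm (rd B) m : ℕ))) := by
    calc (rd B : ℝ) * ((m : ℝ) * B * ((rd B).totient : ℝ))
        = ((rd B : ℝ) * m) * (B * ((rd B).totient : ℝ)) := by ring
      _ = ((rd m : ℝ) * (Nat.lcm (rd B) m : ℕ)) * ((B.totient : ℝ) * rd B) := by rw [hgl', htot']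
      _ = _ := by ring
  exact mul_left_cancel₀ hR'.ne' this

private theorem RadX_per {R : ℕ} {ν : ℕ → ℕ} (hν : ∀ i, ν i ∣ R) (r i x : ℕ) :
    gg R ν r i x = gg R ν r i (x % R) := by
  cases r with
  | zero => rfl
  | succ r =>
    unfold gg
    congr 2
    apply Finset.filter_congr
    intro b _
    have h1 : 2 * x + 1 ≡ 2 * (x % R) + 1 [MOD ν i] := by
      have h2 : x ≡ x % R [MOD ν i] := ((Nat.mod_modEq x R).symm).of_dvd (hν i)
      exact (h2.mul_left 2).add_right 1
    constructor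
    · rintro ⟨h3, h4⟩; exact ⟨h3, h4.trans h1⟩
    · rintro ⟨h3, h4⟩; exact ⟨h3, h4.trans h1.symm⟩

theorem gg_rad {B : ℕ} (hB : 0 < B) {μ : ℕ → ℕ} (hμ : ∀ i, μ i ∣ B) (r i x : ℕ) :
    gg B μ r i x = gg (rd B) (fun j => rd (μ j)) r i x := by
  have hν : ∀ i, (fun j => rd (μ j)) i ∣ rd B := fun i => RadX_mono hB (hμ i)
  induction r generalizing i x with
  | zero => rfl
  | succ r ih =>
    have h1 : gg B μ (r + 1) i x = (μ i : ℝ) / B.totient *
      ∑ b ∈ (Finset.range B).filter (fun b => Nat.Coprime b B ∧ b ≡ 2 * x + 1 [MOD μ i]),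
        gg (rd B) (fun j => rd (μ j)) r (i + 1) b := by
      rw [gg]
      congr 1
      exact Finset.sum_congr rfl fun b _ => ih (i + 1) b
    rw [h1, RadX_sum hB (hμ i) (2 * x + 1) _ (fun b => RadX_per hν r (i + 1) b)]
    rfl

theorem kapL_rad {B : ℕ} (hB : 0 < B) {μ : ℕ → ℕ} (hμ : ∀ i, μ i ∣ B) (n : ℕ) :
    kapL B μ n = kapL (rd B) (fun j => rd (μ j)) n := by
  have hν : ∀ i, (fun j => rd (μ j)) i ∣ rd B := fun i => RadX_mono hB (hμ i)
  have h1 := RadX_sum hB (one_dvd B) 0 (fun b => gg (rd B) (fun j => rd (μ j)) n 0 b)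
    (fun b => RadX_per hν n 0 b)
  have hr1 : rd 1 = 1 := by simp [rd]
  rw [hr1] at h1
  simp only [Nat.cast_one, Nat.modEq_one, and_true] at h1
  unfold kapL
  rw [← h1]
  congr 1
  exact Finset.sum_congr rfl fun b _ => gg_rad hB hμ n 0 b

theorem rd_QQ (j : ℕ) : rd (QQ j) = PP j := by
  unfold rd QQ
  rw [Nat.primeFactors_pow _ (Nat.succ_ne_zero j)]
  unfold PP
  exact Nat.prod_primeFactors_of_squarefree (squarefree_primorial j)

end Pool.Agent.PCx
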