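import Pool.Agent.PCx.FacX
import Pool.Agent.PCx.RadX

/-!
# The Bateman-Horn constant

`PP (j+1) = PP j * (j+1)` if `j + 1` is prime, else `PP j`.  `kap_PP`: induction with `facX` (`i1 = 0`) and `kapL_const`
(`kap 1 n = 1`).  For a prime `ℓ > 2^(n+1)`: `nu ℓ r = r + 1` for `r ≤ n` (the roots `2^(-s) - 1` are different, as
`0 < 2^t - 1 < ℓ` for `1 ≤ t ≤ n`); in general `1 ≤ nu ℓ r ≤ r + 1` (each `s` excludes at most one `v`: `2^s` is a unit for odd `ℓ`; for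
`ℓ = 2` only `v = 0`), and `nu ℓ r < ℓ` (`v = ℓ - 1` is not excluded: `2^s ℓ - 1`).  So `bet ℓ n i1 > 0`,
`|bet ℓ n i1 - 1| ≤ C/ℓ` (`bet_close`), and `|bet ℓ n 0 - 1| ≤ C/ℓ²` (`bet_close2`: for `ℓ > 2^(n+1)` it is
`(1 - (n+1)/ℓ) (1 - 1/ℓ)^(-(n+1))`), so the product converges to a positive limit (`BH`).
`kapL_lim`: `kapL_rad` (`rd (QQ j) = PP j`), `facX`/`kapL_const`, `bet_close`.
-/

namespace Pool.Agent.PCx

open Filter Topology Pool.Agent.PCn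

theorem PP_succ (j : ℕ) : PP (j + 1) = if (j + 1).Prime then PP j * (j + 1) else PP j := by
  unfold PP primorial
  rw [Finset.range_add_one (n := j + 1), Finset.filter_insert]
  split_ifs with h
  · rw [Finset.prod_insert (by simp), mul_comm]
  · rfl

private theorem bhx_key {ℓ s v : ℕ} (h : ℓ ∣ 2 ^ s * (v + 1) - 1) :
    2 ^ s * (v + 1) ≡ 1 [MOD ℓ] :=
  ((Nat.modEq_iff_dvd' (Nat.one_le_iff_ne_zero.2 (by positivity))).2 h).symm

private theorem bhx_nu_lt {ℓ : ℕ} (hℓ : ℓ.Prime) (r : ℕ) : nu ℓ r < ℓ := by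
  unfold nu
  calc _ < (Finset.range ℓ).card := by
        apply Finset.card_lt_card
        refine ⟨Finset.filter_subset _ _, fun hsub => ?_⟩
        have h1 := hsub (Finset.mem_range.2 (Nat.sub_lt hℓ.pos one_pos))
        obtain ⟨-, s, -, hs⟩ := Finset.mem_filter.1 h1
        have h2 := bhx_key hs
        rw [Nat.sub_add_cancel hℓ.one_le] at h2
        have h3 : 2 ^ s * ℓ ≡ 0 [MOD ℓ] := (Nat.modEq_zero_iff_dvd).2 (Dvd.intro_left _ rfl)
        have h4 : 0 ≡ 1 [MOD ℓ] := h3.symm.trans h2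
        have h5 : ℓ ∣ 1 := (Nat.modEq_zero_iff_dvd).1 h4.symm
        exact hℓ.one_lt.ne' (Nat.dvd_one.1 h5)
    _ = ℓ := Finset.card_range ℓ

private theorem bhx_inj {ℓ s : ℕ} (v v' : ℕ) (hv : v < ℓ) (hv' : v' < ℓ)
    (h : 2 ^ s * (v + 1) ≡ 1 [MOD ℓ]) (h' : 2 ^ s * (v' + 1) ≡ 1 [MOD ℓ]) : v = v' := by
  have h1 : 2 ^ s * (v + 1) ≡ 2 ^ s * (v' + 1) [MOD ℓ] := h.trans h'.symm
  have hc : Nat.gcd ℓ (2 ^ s) = 1 := by
    have h2 : Nat.gcd ℓ (2 ^ s) ∣ 1 := by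
      have h3 : Nat.gcd ℓ (2 ^ s) ∣ 2 ^ s * (v + 1) :=
        (Nat.gcd_dvd_right _ _).trans (Dvd.intro _ rfl)
      have h4 : 2 ^ s * (v + 1) ≡ 1 [MOD Nat.gcd ℓ (2 ^ s)] :=
        h.of_dvd (Nat.gcd_dvd_left _ _)
      exact (h4.dvd_iff dvd_rfl).1 h3
    exact Nat.dvd_one.1 h2
  have h5 := Nat.ModEq.cancel_left_of_coprime hc h1
  have h6 := Nat.ModEq.add_right_cancel' 1 h5
  rwa [Nat.ModEq, Nat.mod_eq_of_lt hv, Nat.mod_eq_of_lt hv'] at h6

private theorem bhx_nu_le {ℓ : ℕ} (r : ℕ) : nu ℓ r ≤ r + 1 := by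
  classical
  unfold nu
  have hsub : (Finset.range ℓ).filter
      (fun v => ∃ s ∈ Finset.range (r + 1), ℓ ∣ 2 ^ s * (v + 1) - 1) ⊆
      (Finset.range (r + 1)).biUnion fun s =>
        (Finset.range ℓ).filter fun v => ℓ ∣ 2 ^ s * (v + 1) - 1 := by
    intro v hv
    obtain ⟨h1, s, h2, h3⟩ := Finset.mem_filter.1 hv
    exact Finset.mem_biUnion.2 ⟨s, h2, Finset.mem_filter.2 ⟨h1, h3⟩⟩
  calc _ ≤ _ := Finset.card_le_card hsub
    _ ≤ (Finset.range (r + 1)).card * 1 := by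
        apply Finset.card_biUnion_le_card_mul
        intro s _
        rw [Finset.card_le_one]
        intro v hv v' hv'
        rw [Finset.mem_filter, Finset.mem_range] at hv hv'
        exact bhx_inj v v' hv.1 hv'.1 (bhx_key hv.2) (bhx_key hv'.2)
    _ = r + 1 := by rw [Finset.card_range, mul_one]

private theorem bhx_nu_pos {ℓ : ℕ} (hℓ : ℓ.Prime) (r : ℕ) : 1 ≤ nu ℓ r := by
  unfold nu
  rw [Nat.one_le_iff_ne_zero, Finset.card_ne_zero]
  exact ⟨0, Finset.mem_filter.2 ⟨Finset.mem_range.2 hℓ.pos, 0, Finset.mem_range.2 (Nat.succ_pos r),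
    by simp⟩⟩

private theorem bhx_nu_eq {ℓ : ℕ} (hℓ : ℓ.Prime) (n : ℕ) (h : 2 ^ (n + 1) < ℓ) :
    nu ℓ n = n + 1 := by
  classical
  have : Fact ℓ.Prime := ⟨hℓ⟩
  have : NeZero ℓ := ⟨hℓ.ne_zero⟩
  apply le_antisymm (bhx_nu_le n)
  have h2 : (2 : ZMod ℓ) ≠ 0 := by
    intro h0
    have h1 : ((2 : ℕ) : ZMod ℓ) = 0 := by exact_mod_cast h0
    rw [ZMod.natCast_eq_zero_iff] at h1
    have h3 := Nat.le_of_dvd (by norm_num) h1
    have h4 : 2 ^ 1 ≤ 2 ^ (n + 1) := Nat.pow_le_pow_right (by norm_num) (by omega)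
    omega
  set g : ℕ → ℕ := fun s => ((((2 : ZMod ℓ) ^ s)⁻¹ - 1 : ZMod ℓ)).val with hg
  have hmem : ∀ s ∈ Finset.range (n + 1), g s ∈ (Finset.range ℓ).filter
      (fun v => ∃ s ∈ Finset.range (n + 1), ℓ ∣ 2 ^ s * (v + 1) - 1) := by
    intro s hs
    refine Finset.mem_filter.2 ⟨Finset.mem_range.2 (ZMod.val_lt _), s, hs, ?_⟩
    have h5 : ((2 ^ s * (g s + 1) : ℕ) : ZMod ℓ) = ((1 : ℕ) : ZMod ℓ) := by
      push_cast
      rw [hg]
      simp only [ZMod.natCast_val, ZMod.cast_id', id_eq, sub_add_cancel]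
      exact mul_inv_cancel₀ (pow_ne_zero s h2)
    rw [ZMod.natCast_eq_natCast_iff] at h5
    exact (Nat.modEq_iff_dvd' (Nat.one_le_iff_ne_zero.2 (by positivity))).1 h5.symm
  have hinj : Set.InjOn g (Finset.range (n + 1) : Set ℕ) := by
    intro s hs s' hs' hss
    have h6 : ((2 : ZMod ℓ) ^ s)⁻¹ - 1 = ((2 : ZMod ℓ) ^ s')⁻¹ - 1 := ZMod.val_injective ℓ hss
    have h7 : ((2 : ZMod ℓ) ^ s) = ((2 : ZMod ℓ) ^ s') := inv_injective (sub_left_injective h6)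
    have h8 : ((2 ^ s : ℕ) : ZMod ℓ) = ((2 ^ s' : ℕ) : ZMod ℓ) := by
      push_cast
      exact h7
    rw [ZMod.natCast_eq_natCast_iff, Nat.ModEq] at h8
    have hb : ∀ t ∈ (Finset.range (n + 1) : Set ℕ), 2 ^ t < ℓ := by
      intro t ht
      have ht' : t < n + 1 := by simpa using ht
      exact (Nat.pow_lt_pow_right (by norm_num) ht').trans h
    rw [Nat.mod_eq_of_lt (hb s hs), Nat.mod_eq_of_lt (hb s' hs')] at h8
    exact Nat.pow_right_injective (le_refl 2) h8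
  have hcard := Finset.card_le_card_of_injOn g hmem hinj
  rw [Finset.card_range] at hcard
  exact hcard

private theorem bhx_cast {ℓ : ℕ} (hℓ : ℓ.Prime) : (0 : ℝ) < (ℓ : ℝ) - 1 := by
  have : (1 : ℝ) < ℓ := by exact_mod_cast hℓ.one_lt
  linarith

theorem bet_pos {ℓ : ℕ} (hℓ : ℓ.Prime) (n i1 : ℕ) : 0 < bet ℓ n i1 := by
  have h1 := bhx_cast hℓ
  have h2 : (nu ℓ (n - i1) : ℝ) < ℓ := by exact_mod_cast bhx_nu_lt hℓ (n - i1)
  have h3 : (0 : ℝ) < ℓ := by exact_mod_cast hℓ.pos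
  unfold bet
  exact mul_pos (pow_pos (div_pos h3 h1) _) (div_pos (by linarith) h1)

theorem bet_zero {ℓ : ℕ} (hℓ : ℓ.Prime) (n : ℕ) :
    bet ℓ n 0 = (1 - (nu ℓ n : ℝ) / ℓ) / (1 - 1 / (ℓ : ℝ)) ^ (n + 1) := by
  have h1 := bhx_cast hℓ
  have h3 : (0 : ℝ) < ℓ := by exact_mod_cast hℓ.pos
  have h4 : (1 - 1 / (ℓ : ℝ)) = (ℓ - 1) / ℓ := by field_simp
  have h5 : (1 - (nu ℓ n : ℝ) / ℓ) = (ℓ - nu ℓ n) / ℓ := by field_simp
  unfold bet
  rw [h4, h5, Nat.sub_zero, div_pow, div_pow, pow_succ, pow_succ]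
  have h6 : (ℓ : ℝ) ≠ 0 := h3.ne'
  have h7 : (ℓ : ℝ) - 1 ≠ 0 := h1.ne'
  field_simp

private theorem bhx_pow1 (r : ℕ) {x : ℝ} (h0 : 0 ≤ x) (h1 : x ≤ 1) :
    (1 + x) ^ r ≤ 1 + (2 ^ r - 1) * x := by
  induction r with
  | zero => simp
  | succ r ih =>
    have h2 : (1 : ℝ) ≤ 2 ^ r := one_le_pow₀ (by norm_num)
    calc (1 + x) ^ (r + 1) = (1 + x) ^ r * (1 + x) := pow_succ _ _
      _ ≤ (1 + (2 ^ r - 1) * x) * (1 + x) := mul_le_mul_of_nonneg_right ih (by linarith)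
      _ = 1 + x + (2 ^ r - 1) * x + (2 ^ r - 1) * (x * x) := by ring
      _ ≤ 1 + x + (2 ^ r - 1) * x + (2 ^ r - 1) * (1 * x) := by
          gcongr
      _ = 1 + (2 ^ (r + 1) - 1) * x := by ring

private theorem bhx_pow2 (n : ℕ) {x : ℝ} (h0 : 0 ≤ x) (h1 : x ≤ 1) :
    (1 + x) ^ n ≤ 1 + n * x + 3 ^ n * x ^ 2 := by
  induction n with
  | zero =>
    simp only [pow_zero, Nat.cast_zero, zero_mul, add_zero, one_mul]
    nlinarith [sq_nonneg x]
  | succ n ih =>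
    have h2 : (n : ℝ) ≤ 3 ^ n := by
      have : n < 3 ^ n := Nat.lt_pow_self (by norm_num)
      exact_mod_cast this.le
    have h3 : (0 : ℝ) ≤ 3 ^ n := by positivity
    have h4 : x ^ 3 ≤ x ^ 2 := pow_le_pow_of_le_one h0 h1 (by norm_num)
    have h5 : 0 ≤ x ^ 2 := sq_nonneg x
    calc (1 + x) ^ (n + 1) = (1 + x) ^ n * (1 + x) := pow_succ _ _
      _ ≤ (1 + n * x + 3 ^ n * x ^ 2) * (1 + x) := mul_le_mul_of_nonneg_right ih (by linarith)
      _ = 1 + (n + 1) * x + n * x ^ 2 + 3 ^ n * x ^ 2 + 3 ^ n * x ^ 3 := by ring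
      _ ≤ 1 + (n + 1) * x + 3 ^ n * x ^ 2 + 3 ^ n * x ^ 2 + 3 ^ n * x ^ 2 := by
          gcongr
      _ = 1 + ((n + 1 : ℕ) : ℝ) * x + 3 ^ (n + 1) * x ^ 2 := by
          push_cast
          ring

private theorem bhx_x {ℓ : ℕ} (hℓ : ℓ.Prime) : (0 : ℝ) ≤ 1 / ((ℓ : ℝ) - 1) ∧
    1 / ((ℓ : ℝ) - 1) ≤ 1 ∧ 1 / ((ℓ : ℝ) - 1) ≤ 2 / ℓ := by
  have h1 := bhx_cast hℓ
  have h2 : (2 : ℝ) ≤ ℓ := by exact_mod_cast hℓ.two_le
  refine ⟨by positivity, ?_, ?_⟩
  · rw [div_le_one h1]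
    linarith
  · rw [div_le_div_iff₀ h1 (by linarith)]
    linarith

private theorem bhx_form {ℓ : ℕ} (hℓ : ℓ.Prime) (n i1 : ℕ) :
    bet ℓ n i1 = (1 + 1 / ((ℓ : ℝ) - 1)) ^ (n - i1) *
      (1 - ((nu ℓ (n - i1) : ℝ) - 1) * (1 / ((ℓ : ℝ) - 1))) := by
  have h1 := (bhx_cast hℓ).ne'
  unfold bet
  congr 1
  · congr 1
    field_simp
    ring
  · field_simp
    ring_nf

theorem bet_close (n : ℕ) : ∃ C : ℝ, 0 < C ∧ ∀ ℓ : ℕ, ℓ.Prime → ∀ i1 ≤ n,
    |bet ℓ n i1 - 1| ≤ C / ℓ := by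
  refine ⟨2 * (2 ^ n + n), by positivity, ?_⟩
  intro ℓ hℓ i1 hi1
  obtain ⟨hx0, hx1, hx2⟩ := bhx_x hℓ
  have hb := bhx_form hℓ n i1
  set x : ℝ := 1 / ((ℓ : ℝ) - 1) with hx
  set r : ℕ := n - i1 with hr
  have hrn : r ≤ n := Nat.sub_le _ _
  have hnu1 : (1 : ℝ) ≤ nu ℓ r := by exact_mod_cast bhx_nu_pos hℓ r
  have hnu2 : (nu ℓ r : ℝ) ≤ r + 1 := by exact_mod_cast bhx_nu_le (ℓ := ℓ) r
  have hrn' : (r : ℝ) ≤ n := by exact_mod_cast hrn
  have hp : (1 + x) ^ r ≤ 1 + 2 ^ n * x := by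
    have h1 := bhx_pow1 r hx0 hx1
    have h2 : (2 : ℝ) ^ r ≤ 2 ^ n := pow_le_pow_right₀ (by norm_num) hrn
    nlinarith
  have hp1 : 1 ≤ (1 + x) ^ r := one_le_pow₀ (by linarith)
  have hfac : 0 ≤ 1 - ((nu ℓ r : ℝ) - 1) * x := by
    have h2 : (nu ℓ r : ℝ) < ℓ := by exact_mod_cast bhx_nu_lt hℓ r
    have h3 := bhx_cast hℓ
    have h4 : 1 - ((nu ℓ r : ℝ) - 1) * x = (ℓ - nu ℓ r) / (ℓ - 1) := by
      rw [hx]
      field_simp
      ring
    rw [h4]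
    exact div_nonneg (by linarith) h3.le
  have hfac1 : 1 - ((nu ℓ r : ℝ) - 1) * x ≤ 1 := by nlinarith
  have hup : bet ℓ n i1 ≤ 1 + 2 ^ n * x := by
    rw [hb]
    calc (1 + x) ^ r * (1 - ((nu ℓ r : ℝ) - 1) * x) ≤ (1 + x) ^ r * 1 :=
          mul_le_mul_of_nonneg_left hfac1 (by linarith)
      _ ≤ _ := by linarith
  have hlo : 1 - n * x ≤ bet ℓ n i1 := by
    rw [hb]
    calc 1 - n * x ≤ 1 - ((nu ℓ r : ℝ) - 1) * x := by nlinarith
      _ = 1 * (1 - ((nu ℓ r : ℝ) - 1) * x) := (one_mul _).symm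
      _ ≤ _ := mul_le_mul_of_nonneg_right hp1 hfac
  have h2n : (0 : ℝ) ≤ 2 ^ n := by positivity
  have hn0 : (0 : ℝ) ≤ n := Nat.cast_nonneg n
  have hfin : (2 ^ n + n) * x ≤ 2 * (2 ^ n + n) / (ℓ : ℝ) := by
    calc (2 ^ n + n) * x ≤ (2 ^ n + n) * (2 / ℓ) := mul_le_mul_of_nonneg_left hx2 (by linarith)
      _ = _ := by ring
  rw [abs_le]
  constructor
  · nlinarith
  · nlinarith

theorem bet_close2 (n : ℕ) : ∃ C : ℝ, 0 < C ∧ ∀ ℓ : ℕ, ℓ.Prime →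
    |bet ℓ n 0 - 1| ≤ C / (ℓ : ℝ) ^ 2 := by
  obtain ⟨C1, hC1, hb1⟩ := bet_close n
  refine ⟨max (C1 * 2 ^ (n + 1)) (4 * (n ^ 2 + 3 ^ n)), lt_max_of_lt_left (by positivity), ?_⟩
  intro ℓ hℓ
  have hl0 : (0 : ℝ) < ℓ := by exact_mod_cast hℓ.pos
  by_cases hle : ℓ ≤ 2 ^ (n + 1)
  · have hle' : (ℓ : ℝ) ≤ 2 ^ (n + 1) := by exact_mod_cast hle
    calc |bet ℓ n 0 - 1| ≤ C1 / ℓ := hb1 ℓ hℓ 0 (Nat.zero_le n)
      _ = C1 * ℓ / (ℓ : ℝ) ^ 2 := by field_simp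
      _ ≤ C1 * 2 ^ (n + 1) / (ℓ : ℝ) ^ 2 := by gcongr
      _ ≤ _ := by
          gcongr
          exact le_max_left _ _
  · push Not at hle
    obtain ⟨hx0, hx1, hx2⟩ := bhx_x hℓ
    have hb := bhx_form hℓ n 0
    rw [Nat.sub_zero, bhx_nu_eq hℓ n hle] at hb
    set x : ℝ := 1 / ((ℓ : ℝ) - 1) with hx
    have hfac : 0 ≤ 1 - (((n + 1 : ℕ) : ℝ) - 1) * x := by
      have h2 : ((n + 1 : ℕ) : ℝ) < ℓ := by
        have := bhx_nu_lt hℓ n
        rw [bhx_nu_eq hℓ n hle] at this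
        exact_mod_cast this
      have h3 := bhx_cast hℓ
      have h4 : 1 - (((n + 1 : ℕ) : ℝ) - 1) * x = (ℓ - ((n + 1 : ℕ) : ℝ)) / (ℓ - 1) := by
        rw [hx]
        field_simp
        ring
      rw [h4]
      exact div_nonneg (by linarith) h3.le
    have hcast : (((n + 1 : ℕ) : ℝ) - 1) = n := by push_cast; ring
    rw [hcast] at hfac hb
    have hber : 1 + n * x ≤ (1 + x) ^ n := one_add_mul_le_pow (by linarith) n
    have hup := bhx_pow2 n hx0 hx1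
    have hn0 : (0 : ℝ) ≤ n := Nat.cast_nonneg n
    have hx2' : x ^ 2 ≤ 4 / (ℓ : ℝ) ^ 2 := by
      calc x ^ 2 ≤ (2 / (ℓ : ℝ)) ^ 2 := pow_le_pow_left₀ hx0 hx2 2
        _ = _ := by rw [div_pow]; norm_num
    have h1 : 1 - n ^ 2 * x ^ 2 ≤ bet ℓ n 0 := by
      rw [hb]
      calc 1 - n ^ 2 * x ^ 2 = (1 + n * x) * (1 - n * x) := by ring
        _ ≤ _ := mul_le_mul_of_nonneg_right hber hfac
    have h2 : bet ℓ n 0 ≤ 1 + 3 ^ n * x ^ 2 := by
      rw [hb]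
      have h3n : (0 : ℝ) ≤ 3 ^ n := by positivity
      have hx3 : 0 ≤ x ^ 3 := pow_nonneg hx0 3
      calc (1 + x) ^ n * (1 - n * x) ≤ (1 + n * x + 3 ^ n * x ^ 2) * (1 - n * x) :=
            mul_le_mul_of_nonneg_right hup hfac
        _ = 1 + 3 ^ n * x ^ 2 - n ^ 2 * x ^ 2 - 3 ^ n * n * x ^ 3 := by ring
        _ ≤ _ := by
            have h5 : 0 ≤ (n : ℝ) ^ 2 * x ^ 2 := by positivity
            have h6 : 0 ≤ 3 ^ n * (n : ℝ) * x ^ 3 := by positivity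
            linarith
    have h3n : (0 : ℝ) ≤ 3 ^ n := by positivity
    have hx20 : 0 ≤ x ^ 2 := sq_nonneg x
    have hn2 : (0 : ℝ) ≤ (n : ℝ) ^ 2 := by positivity
    calc |bet ℓ n 0 - 1| ≤ (n ^ 2 + 3 ^ n) * x ^ 2 := by
          rw [abs_le]
          constructor
          · nlinarith
          · nlinarith
      _ ≤ (n ^ 2 + 3 ^ n) * (4 / (ℓ : ℝ) ^ 2) :=
          mul_le_mul_of_nonneg_left hx2' (by linarith)
      _ = 4 * (n ^ 2 + 3 ^ n) / (ℓ : ℝ) ^ 2 := by ring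
      _ ≤ _ := by
          gcongr
          exact le_max_right _ _

private theorem bhx_cop {j : ℕ} (h : (j + 1).Prime) : Nat.Coprime (j + 1) (PP j) := by
  unfold PP primorial
  apply Nat.Coprime.prod_right
  intro p hp
  rw [Finset.mem_filter, Finset.mem_range] at hp
  exact (Nat.coprime_primes h hp.2).2 (by omega)

private theorem bhx_step {j : ℕ} (n : ℕ) (h : (j + 1).Prime) :
    kap (PP (j + 1)) n = kap (PP j) n * bet (j + 1) n 0 := by
  have h1 := facX (PP j) (j + 1) n 0 (PP_pos j) h (bhx_cop h) (Nat.zero_le n)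
    (fun _ => PP j * (j + 1)) (fun i _ => by simp)
  have h2 := kapL_const (PP j * (j + 1)) n (Nat.mul_pos (PP_pos j) (Nat.succ_pos j))
    (fun _ => PP j * (j + 1)) (fun i _ => rfl)
  rw [PP_succ, if_pos h, ← h2, h1]

theorem kap_PP (n j : ℕ) :
    kap (PP j) n = ∏ ℓ ∈ (Finset.range (j + 1)).filter Nat.Prime, bet ℓ n 0 := by
  induction j with
  | zero =>
    have h0 : PP 0 = 1 := rfl
    rw [h0]
    simp [kap, Finset.filter_singleton, Nat.not_prime_zero]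
  | succ j ih =>
    rw [Finset.range_add_one (n := j + 1), Finset.filter_insert]
    by_cases h : (j + 1).Prime
    · rw [if_pos h, Finset.prod_insert (by simp), bhx_step n h, ih, mul_comm]
    · rw [if_neg h, PP_succ, if_neg h, ih]

/-- the Bateman-Horn constant of the Cunningham chains of length `n + 1` -/
noncomputable def BH (n : ℕ) : ℝ := limUnder atTop (fun j => kap (PP j) n)

private theorem bhx_log {b : ℝ} (h : |b - 1| ≤ 1 / 2) : |Real.log b| ≤ 2 * |b - 1| := by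
  have hb := abs_le.1 h
  have hb0 : 0 < b := by linarith [hb.1]
  have h1 : Real.log b ≤ b - 1 := Real.log_le_sub_one_of_pos hb0
  have h2 : 1 - b⁻¹ ≤ Real.log b := Real.one_sub_inv_le_log_of_pos hb0
  have h3 : 1 - b⁻¹ = (b - 1) / b := by field_simp
  have h4 : |(b - 1) / b| ≤ 2 * |b - 1| := by
    rw [abs_div, abs_of_pos hb0, div_le_iff₀ hb0]
    nlinarith [abs_nonneg (b - 1), hb.1]
  rw [h3] at h2
  have h5 := abs_le.1 h4
  have h6 := le_abs_self (b - 1)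
  have h7 := abs_nonneg (b - 1)
  rw [abs_le]
  constructor
  · linarith [h5.1]
  · linarith

private theorem bhx_conv (n : ℕ) : ∃ B : ℝ, 0 < B ∧ Tendsto (fun j => kap (PP j) n) atTop (𝓝 B) := by
  classical
  obtain ⟨C, hC, hb⟩ := bet_close2 n
  set g : ℕ → ℝ := fun m => if m.Prime then Real.log (bet m n 0) else 0 with hg
  have hsum : Summable g := by
    have h1 : Summable (fun m : ℕ => 2 * C * (1 / (m : ℝ) ^ 2)) :=
      (Real.summable_one_div_nat_pow.2 (by norm_num)).mul_left _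
    apply Summable.of_norm_bounded_eventually_nat h1
    have h2 : Tendsto (fun m : ℕ => C / (m : ℝ) ^ 2) atTop (𝓝 0) := by
      apply Tendsto.div_atTop tendsto_const_nhds
      exact (tendsto_pow_atTop (by norm_num)).comp tendsto_natCast_atTop_atTop
    filter_upwards [h2.eventually (ge_mem_nhds (show (0 : ℝ) < 1 / 2 by norm_num))] with m hm
    rw [hg]
    by_cases hp : m.Prime
    · simp only [if_pos hp, Real.norm_eq_abs]
      calc |Real.log (bet m n 0)| ≤ 2 * |bet m n 0 - 1| := bhx_log ((hb m hp).trans hm)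
        _ ≤ 2 * (C / (m : ℝ) ^ 2) := by
            have := hb m hp
            linarith
        _ = _ := by ring
    · simp only [if_neg hp, norm_zero]
      positivity
  refine ⟨Real.exp (∑' m, g m), Real.exp_pos _, ?_⟩
  have h3 := (hsum.hasSum.tendsto_sum_nat).comp (tendsto_add_atTop_nat 1)
  have h4 := (Real.continuous_exp.tendsto _).comp h3
  refine h4.congr fun j => ?_
  rw [Function.comp_apply, Function.comp_apply, kap_PP, Real.exp_sum, Finset.prod_filter]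
  apply Finset.prod_congr rfl
  intro m _
  rw [hg]
  by_cases hp : m.Prime
  · simp only [if_pos hp]
    exact Real.exp_log (bet_pos hp n 0)
  · simp only [if_neg hp, Real.exp_zero]

private theorem bhx_eq (n : ℕ) {B : ℝ} (h : Tendsto (fun j => kap (PP j) n) atTop (𝓝 B)) :
    BH n = B := h.limUnder_eq

theorem BH_pos (n : ℕ) : 0 < BH n := by
  obtain ⟨B, hB, h⟩ := bhx_conv n
  rw [bhx_eq n h]
  exact hB

theorem BH_tendsto (n : ℕ) : Tendsto (fun j => kap (PP j) n) atTop (𝓝 (BH n)) := by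
  obtain ⟨B, hB, h⟩ := bhx_conv n
  rw [bhx_eq n h]
  exact h

private theorem bhx_PP_dvd (j : ℕ) : PP j ∣ PP (j + 1) := by
  rw [PP_succ]
  split_ifs with h
  · exact Dvd.intro _ rfl
  · exact dvd_rfl

private theorem bhx_QQ_dvd (j : ℕ) : QQ j ∣ QQ (j + 1) := by
  unfold QQ
  exact (pow_dvd_pow_of_dvd (bhx_PP_dvd j) (j + 1)).trans (pow_dvd_pow _ (by omega))

private theorem bhx_kapL (n j : ℕ) (μ : ℕ → ℕ) (i1 : ℕ) (hi1 : i1 ≤ n)
    (hμ : ∀ i < n, μ i = if i < i1 then QQ j else QQ (j + 1)) :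
    kapL (QQ (j + 1)) μ n = if (j + 1).Prime then kap (PP j) n * bet (j + 1) n i1
      else kap (PP j) n := by
  have h1 : kapL (QQ (j + 1)) μ n =
      kapL (QQ (j + 1)) (fun i => if i < i1 then QQ j else QQ (j + 1)) n := kapL_mu hμ
  have hdiv : ∀ i, (fun i => if i < i1 then QQ j else QQ (j + 1)) i ∣ QQ (j + 1) := by
    intro i
    by_cases hi : i < i1
    · simp only [if_pos hi]
      exact bhx_QQ_dvd j
    · simp only [if_neg hi]
      exact dvd_rfl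
  rw [h1, kapL_rad (QQ_pos (j + 1)) hdiv n, rd_QQ]
  have h2 : ∀ i < n, (fun i => rd (if i < i1 then QQ j else QQ (j + 1))) i =
      if i < i1 then PP j else PP (j + 1) := by
    intro i _
    by_cases hi : i < i1
    · simp only [if_pos hi]
      exact rd_QQ j
    · simp only [if_neg hi]
      exact rd_QQ (j + 1)
  split_ifs with h
  · have h3 : PP (j + 1) = PP j * (j + 1) := by rw [PP_succ, if_pos h]
    rw [h3] at h2 ⊢
    exact facX (PP j) (j + 1) n i1 (PP_pos j) h (bhx_cop h) hi1 _ h2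
  · have h3 : PP (j + 1) = PP j := by rw [PP_succ, if_neg h]
    rw [h3] at h2 ⊢
    apply kapL_const (PP j) n (PP_pos j)
    intro i hi
    exact (h2 i hi).trans (ite_self _)

theorem kapL_lim (n : ℕ) (δ : ℝ) (hδ : 0 < δ) : ∃ j0 : ℕ, ∀ j ≥ j0, ∀ μ : ℕ → ℕ, ∀ i1 ≤ n,
    (∀ i < n, μ i = if i < i1 then QQ j else QQ (j + 1)) →
    |kapL (QQ (j + 1)) μ n - BH n| ≤ δ := by
  obtain ⟨C, hC, hb⟩ := bet_close n
  have hB := BH_pos n
  have h1 : ∀ᶠ j : ℕ in atTop, |kap (PP j) n - BH n| ≤ min (δ / 2) 1 := by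
    have h2 := (BH_tendsto n).sub_const (BH n)
    rw [sub_self] at h2
    have h3 := h2.abs
    rw [abs_zero] at h3
    exact h3.eventually (ge_mem_nhds (lt_min (by linarith) one_pos))
  have h2 : ∀ᶠ j : ℕ in atTop, (BH n + 1) * (C / ((j : ℝ) + 1)) ≤ δ / 2 := by
    have h3 : Tendsto (fun j : ℕ => (BH n + 1) * (C / ((j : ℝ) + 1))) atTop (𝓝 ((BH n + 1) * 0)) := by
      apply Tendsto.const_mul
      apply Tendsto.div_atTop tendsto_const_nhds
      exact tendsto_atTop_add_const_right _ _ tendsto_natCast_atTop_atTop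
    rw [mul_zero] at h3
    exact h3.eventually (ge_mem_nhds (by linarith))
  obtain ⟨j0, hj0⟩ := eventually_atTop.1 (h1.and h2)
  refine ⟨j0, fun j hj μ i1 hi1 hμ => ?_⟩
  obtain ⟨ha, hc⟩ := hj0 j hj
  have ha1 : |kap (PP j) n - BH n| ≤ δ / 2 := ha.trans (min_le_left _ _)
  have ha2 : |kap (PP j) n - BH n| ≤ 1 := ha.trans (min_le_right _ _)
  rw [bhx_kapL n j μ i1 hi1 hμ]
  split_ifs with h
  · have h4 : |kap (PP j) n| ≤ BH n + 1 := by
      rw [abs_le] at ha2 ⊢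
      constructor
      · linarith [ha2.1]
      · linarith [ha2.2]
    have h5 := hb (j + 1) h i1 hi1
    push_cast at h5
    have h6 : |kap (PP j) n * (bet (j + 1) n i1 - 1)| ≤ δ / 2 := by
      rw [abs_mul]
      calc |kap (PP j) n| * |bet (j + 1) n i1 - 1| ≤ (BH n + 1) * (C / ((j : ℝ) + 1)) :=
            mul_le_mul h4 h5 (abs_nonneg _) (by linarith)
        _ ≤ _ := hc
    calc |kap (PP j) n * bet (j + 1) n i1 - BH n|
        = |kap (PP j) n * (bet (j + 1) n i1 - 1) + (kap (PP j) n - BH n)| := by ring_nf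
      _ ≤ |kap (PP j) n * (bet (j + 1) n i1 - 1)| + |kap (PP j) n - BH n| := abs_add_le _ _
      _ ≤ δ := by linarith
  · linarith

end Pool.Agent.PCx
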