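import Pool.Agent.PCx.Defs

/-!
# Mean values of `θ` with a weight which depends on the residue class modulo `B`

Adapt `Pool/Agent/PCn/Avg.lean`: `∫_0^t F(⌊z+s⌋) ds` differs from `∑_{z < k ≤ z + t} F(k)` by at most `2 max |F|`; the numbers
`2q + 1 + M k` run over the residue class of `2q + 1` modulo `M` in an interval `(x, x + M t]`, `x = 2q + 1 + M z`, between `y` and
`2^(n+4) y`.  Split them into the classes `b` modulo `B` (`b < B`, `b ≡ 2q + 1` modulo `M`, as `M ∣ B`), where the weight is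
`W b`: for `b` prime to `B` use `theta_window B` (`M t/φ(B) + O(y exp(-(log y)^{1/25}))` each), and the other classes contain no
prime `> B`.  `y exp(-(log y)^{1/25})/t ≤ e^{-2λ}` for large `y`.
-/

namespace Pool.Agent.PCx

open Pool.Agent.PCn
open MeasureTheory Filter Topology

private theorem AvgX_piece (G : ℤ → ℝ) (a : ℤ) :
    ∫ u in (a : ℝ)..(a + 1), G ⌊u⌋ = G a := by
  rw [intervalIntegral.integral_of_le (by linarith), MeasureTheory.integral_Ioc_eq_integral_Ioo,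
    MeasureTheory.setIntegral_congr_fun (g := fun _ => G a) measurableSet_Ioo]
  · simp
  · intro u hu
    have : ⌊u⌋ = a := Int.floor_eq_iff.mpr ⟨hu.1.le, hu.2⟩
    show G ⌊u⌋ = G a
    rw [this]

private theorem AvgX_intg (G : ℤ → ℝ) {B : ℝ} (h0 : ∀ k, 0 ≤ G k) (hB : ∀ k, G k ≤ B) (x y : ℝ) :
    IntervalIntegrable (fun u : ℝ => G ⌊u⌋) volume x y := by
  have hm : Measurable (fun u : ℝ => G ⌊u⌋) :=
    (Measurable.of_discrete (f := G)).comp Int.measurable_floor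
  have hc : IntervalIntegrable (fun _ : ℝ => B) volume x y := intervalIntegrable_const
  refine hc.mono_fun hm.aestronglyMeasurable (Filter.Eventually.of_forall fun u => ?_)
  show ‖G ⌊u⌋‖ ≤ ‖B‖
  rw [Real.norm_eq_abs, Real.norm_eq_abs, abs_of_nonneg (h0 _),
    abs_of_nonneg ((h0 ⌊u⌋).trans (hB _))]
  exact hB _

private theorem AvgX_sum (G : ℤ → ℝ) {B : ℝ} (h0 : ∀ k, 0 ≤ G k) (hB : ∀ k, G k ≤ B) (a : ℤ)
    (N : ℕ) : ∫ u in ((a : ℝ) + 1)..((a : ℝ) + N + 1), G ⌊u⌋ = ∑ k ∈ Finset.Ioc a (a + N), G k := by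
  induction N with
  | zero => simp
  | succ N ih =>
    have h1 := intervalIntegral.integral_add_adjacent_intervals
      (AvgX_intg G h0 hB ((a : ℝ) + 1) ((a : ℝ) + N + 1))
      (AvgX_intg G h0 hB ((a : ℝ) + N + 1) ((a : ℝ) + N + 1 + 1))
    have h2 := AvgX_piece G (a + N + 1)
    have h3 : Finset.Ioc a (a + ((N + 1 : ℕ) : ℤ)) = insert (a + N + 1) (Finset.Ioc a (a + N)) := by
      ext k
      simp only [Finset.mem_Ioc, Finset.mem_insert]
      push_cast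
      omega
    rw [h3, Finset.sum_insert (by simp [Finset.mem_Ioc]), ← ih, add_comm (G _)]
    have h4 : ((a + N + 1 : ℤ) : ℝ) = (a : ℝ) + N + 1 := by push_cast; ring
    rw [h4] at h2
    rw [← h2, h1]
    push_cast
    congr 1
    ring

private theorem AvgX_cmp (G : ℤ → ℝ) {B : ℝ} (h0 : ∀ k, 0 ≤ G k) (hB : ∀ k, G k ≤ B) (z t : ℝ)
    (ht : 0 ≤ t) :
    |(∫ s in (0 : ℝ)..t, G ⌊z + s⌋) - ∑ k ∈ Finset.Ioc ⌊z⌋ ⌊z + t⌋, G k| ≤ 2 * B := by
  have e1 : (∫ s in (0 : ℝ)..t, G ⌊z + s⌋) = ∫ u in z..(z + t), G ⌊u⌋ := by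
    rw [intervalIntegral.integral_comp_add_left (fun u => G ⌊u⌋) z, add_zero]
  have hle : ⌊z⌋ ≤ ⌊z + t⌋ := Int.floor_le_floor (by linarith)
  obtain ⟨N, hN⟩ := Int.eq_ofNat_of_zero_le (sub_nonneg.mpr hle)
  have hN' : ⌊z + t⌋ = ⌊z⌋ + N := by omega
  have e2 := AvgX_sum G h0 hB ⌊z⌋ N
  rw [e1, hN', ← e2]
  have i1 := AvgX_intg G h0 hB z (z + t)
  have i2 := AvgX_intg G h0 hB ((⌊z⌋ : ℝ) + 1) ((⌊z⌋ : ℝ) + N + 1)
  have i3 := AvgX_intg G h0 hB z ((⌊z⌋ : ℝ) + 1)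
  rw [intervalIntegral.integral_interval_sub_interval_comm i1 i2 i3]
  have hz1 := Int.floor_le z
  have hz2 := Int.lt_floor_add_one z
  have hw1 := Int.floor_le (z + t)
  have hw2 := Int.lt_floor_add_one (z + t)
  have hcast : ((⌊z + t⌋ : ℤ) : ℝ) = (⌊z⌋ : ℝ) + N := by rw [hN']; push_cast; ring
  rw [hcast] at hw1 hw2
  have hB0 : 0 ≤ B := (h0 0).trans (hB 0)
  have b1 : ‖∫ u in z..((⌊z⌋ : ℝ) + 1), G ⌊u⌋‖ ≤ B * |((⌊z⌋ : ℝ) + 1) - z| := by
    apply intervalIntegral.norm_integral_le_of_norm_le_const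
    intro u _
    rw [Real.norm_eq_abs, abs_of_nonneg (h0 _)]
    exact hB _
  have b2 : ‖∫ u in (z + t)..((⌊z⌋ : ℝ) + N + 1), G ⌊u⌋‖ ≤ B * |((⌊z⌋ : ℝ) + N + 1) - (z + t)| := by
    apply intervalIntegral.norm_integral_le_of_norm_le_const
    intro u _
    rw [Real.norm_eq_abs, abs_of_nonneg (h0 _)]
    exact hB _
  rw [abs_of_nonneg (by linarith)] at b1 b2
  rw [Real.norm_eq_abs] at b1 b2
  have c1 : B * (((⌊z⌋ : ℝ) + 1) - z) ≤ B := by nlinarith
  have c2 : B * (((⌊z⌋ : ℝ) + N + 1) - (z + t)) ≤ B := by nlinarith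
  refine (abs_sub _ _).trans ?_
  linarith

private theorem AvgX_th_nonneg (X : ℝ) (n : ℕ) : 0 ≤ thc X n := by
  unfold thc th
  split_ifs with h1 h2
  · exact Real.log_natCast_nonneg n
  · exact le_rfl
  · exact le_rfl

private theorem AvgX_th_le {X : ℝ} (hX : 1 ≤ X) (n : ℕ) : thc X n ≤ Real.log X := by
  have hl := Real.log_nonneg hX
  unfold thc th
  split_ifs with h1 h2
  · exact Real.log_le_log (by exact_mod_cast h2.pos) h1
  · exact hl
  · exact hl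

private theorem AvgX_bij {M : ℕ} (hM : 0 < M) (W : ℕ → ℝ) (q : ℕ) (X z t x x' : ℝ) (ht : 0 ≤ t)
    (hx : x = 2 * q + 1 + M * z) (hx' : x' = 2 * q + 1 + M * (z + t)) (hx0 : 0 ≤ x)
    (hX : x' ≤ X) :
    ∑ k ∈ Finset.Ioc ⌊z⌋ ⌊z + t⌋, thc X ((2 * (q : ℤ) + 1 + M * k).toNat) *
        W ((2 * (q : ℤ) + 1 + M * k).toNat) =
      ∑ p ∈ (Finset.Ioc ⌊x⌋₊ ⌊x'⌋₊).filter (fun p => p.Prime ∧ p ≡ (2 * q + 1) [MOD M]),
        Real.log p * W p := by
  have hM' : (0 : ℝ) < M := by exact_mod_cast hM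
  have hx'0 : 0 ≤ x' := by
    rw [hx'] ; rw [hx] at hx0
    nlinarith
  have hpos : ∀ k ∈ Finset.Ioc ⌊z⌋ ⌊z + t⌋, x < ((2 * (q : ℤ) + 1 + M * k : ℤ) : ℝ) ∧
      ((2 * (q : ℤ) + 1 + M * k : ℤ) : ℝ) ≤ x' := by
    intro k hk
    rw [Finset.mem_Ioc, Int.floor_lt, Int.le_floor] at hk
    push_cast
    rw [hx, hx']
    constructor
    · nlinarith [hk.1]
    · nlinarith [hk.2]
  have hcast : ∀ k ∈ Finset.Ioc ⌊z⌋ ⌊z + t⌋,
      (((2 * (q : ℤ) + 1 + M * k).toNat : ℕ) : ℝ) = ((2 * (q : ℤ) + 1 + M * k : ℤ) : ℝ) := by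
    intro k hk
    have h1 : (0 : ℝ) < ((2 * (q : ℤ) + 1 + M * k : ℤ) : ℝ) := lt_of_le_of_lt hx0 (hpos k hk).1
    have h2 : 0 < (2 * (q : ℤ) + 1 + M * k : ℤ) := by exact_mod_cast h1
    have h3 : (((2 * (q : ℤ) + 1 + M * k).toNat : ℕ) : ℤ) = 2 * (q : ℤ) + 1 + M * k :=
      Int.toNat_of_nonneg h2.le
    exact_mod_cast congrArg (fun i : ℤ => (i : ℝ)) h3
  have hz : ∀ k ∈ Finset.Ioc ⌊z⌋ ⌊z + t⌋,
      (((2 * (q : ℤ) + 1 + M * k).toNat : ℕ) : ℤ) = 2 * (q : ℤ) + 1 + M * k := by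
    intro k hk
    have h1 : (0 : ℝ) < ((2 * (q : ℤ) + 1 + M * k : ℤ) : ℝ) := lt_of_le_of_lt hx0 (hpos k hk).1
    have h2 : 0 < (2 * (q : ℤ) + 1 + M * k : ℤ) := by exact_mod_cast h1
    exact Int.toNat_of_nonneg h2.le
  have s1 : ∑ k ∈ Finset.Ioc ⌊z⌋ ⌊z + t⌋, thc X ((2 * (q : ℤ) + 1 + M * k).toNat) *
        W ((2 * (q : ℤ) + 1 + M * k).toNat) =
      ∑ k ∈ (Finset.Ioc ⌊z⌋ ⌊z + t⌋).filter
        (fun k => ((2 * (q : ℤ) + 1 + M * k).toNat).Prime),
        Real.log ((2 * (q : ℤ) + 1 + M * k).toNat : ℕ) *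
          W ((2 * (q : ℤ) + 1 + M * k).toNat) := by
    rw [Finset.sum_filter]
    refine Finset.sum_congr rfl (fun k hk => ?_)
    have hle : (((2 * (q : ℤ) + 1 + M * k).toNat : ℕ) : ℝ) ≤ X := by
      rw [hcast k hk]
      exact (hpos k hk).2.trans hX
    unfold thc th
    rw [if_pos hle, ite_mul, zero_mul]
  rw [s1]
  refine Finset.sum_bij (fun k _ => (2 * (q : ℤ) + 1 + M * k).toNat) ?_ ?_ ?_ ?_
  · intro k hk
    rw [Finset.mem_filter] at hk
    rw [Finset.mem_filter, Finset.mem_Ioc, Nat.floor_lt hx0, Nat.le_floor_iff hx'0,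
      hcast k hk.1]
    refine ⟨hpos k hk.1, hk.2, ?_⟩
    have h1 := hz k hk.1
    rw [← Int.natCast_modEq_iff, h1]
    push_cast
    exact (Int.modEq_iff_dvd.mpr ⟨-k, by ring⟩)
  · intro k hk k' hk' h
    rw [Finset.mem_filter] at hk hk'
    have h1 := hz k hk.1
    have h2 := hz k' hk'.1
    have h3 : (2 * (q : ℤ) + 1 + M * k) = 2 * (q : ℤ) + 1 + M * k' := by
      rw [← h1, ← h2]
      exact_mod_cast h
    have h4 : (M : ℤ) * k = M * k' := by linarith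
    exact mul_left_cancel₀ (by exact_mod_cast hM.ne') h4
  · intro p hp
    rw [Finset.mem_filter, Finset.mem_Ioc, Nat.floor_lt hx0, Nat.le_floor_iff hx'0] at hp
    obtain ⟨⟨hp1, hp2⟩, hp3, hp4⟩ := hp
    have h1 : ((2 * q + 1 : ℕ) : ℤ) ≡ (p : ℤ) [ZMOD M] := (Int.natCast_modEq_iff.mpr hp4).symm
    obtain ⟨k, hk⟩ := Int.modEq_iff_dvd.mp h1
    push_cast at hk
    have hpk : (p : ℤ) = 2 * (q : ℤ) + 1 + M * k := by linarith
    have hpk' : (p : ℝ) = 2 * q + 1 + M * k := by exact_mod_cast hpk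
    have hkk : k ∈ Finset.Ioc ⌊z⌋ ⌊z + t⌋ := by
      rw [Finset.mem_Ioc, Int.floor_lt, Int.le_floor]
      rw [hx, hpk'] at hp1
      rw [hx', hpk'] at hp2
      constructor
      · have : (M : ℝ) * z < M * k := by linarith
        exact lt_of_mul_lt_mul_left this hM'.le
      · have : (M : ℝ) * k ≤ M * (z + t) := by linarith
        exact le_of_mul_le_mul_left this hM'
    have hpt : (2 * (q : ℤ) + 1 + M * k).toNat = p := by
      rw [← hpk]; exact Int.toNat_natCast p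
    refine ⟨k, ?_, hpt⟩
    rw [Finset.mem_filter]
    exact ⟨hkk, by rw [hpt]; exact hp3⟩
  · intro k hk
    rfl

private theorem AvgX_ev (n : ℕ) (A C : ℝ) (hC : 0 < C) : ∀ᶠ y : ℝ in atTop,
    Real.exp ((A + 1) * lam y) * (2 * Real.log (2 ^ (n + 4) * y) / y +
      C * 2 ^ (n + 4) * Real.exp (-(Real.log y) ^ (1 / 25 : ℝ))) ≤ 1 := by
  -- in terms of `L = log y`
  have hL : Tendsto Real.log atTop atTop := Real.tendsto_log_atTop
  have h1 : ∀ᶠ L : ℝ in atTop, 2 * (A + 1) ≤ L ^ (3 / 700 : ℝ) :=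
    (tendsto_rpow_atTop (by norm_num)).eventually_ge_atTop _
  have h2 : Tendsto (fun L : ℝ => L ^ (1 / 25 : ℝ)) atTop atTop := tendsto_rpow_atTop (by norm_num)
  have h3 : Tendsto (fun L : ℝ => C * 2 ^ (n + 4) * Real.exp (-(L ^ (1 / 25 : ℝ) / 2))) atTop
      (𝓝 (C * 2 ^ (n + 4) * 0)) := by
    refine Tendsto.const_mul _ ?_
    exact Real.tendsto_exp_neg_atTop_nhds_zero.comp (h2.atTop_div_const (by norm_num))
  have h4 : Tendsto (fun L : ℝ => (2 * (Real.log (2 ^ (n + 4)) + L)) * Real.exp (-(L / 2))) atTop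
      (𝓝 0) := by
    have a1 : Tendsto (fun u : ℝ => u ^ 1 * Real.exp (-u)) atTop (𝓝 0) :=
      Real.tendsto_pow_mul_exp_neg_atTop_nhds_zero 1
    have a2 := a1.comp (tendsto_id.atTop_div_const (by norm_num : (0 : ℝ) < 2))
    have a3 := Real.tendsto_exp_neg_atTop_nhds_zero.comp
      (tendsto_id.atTop_div_const (by norm_num : (0 : ℝ) < 2))
    have a4 := (a2.const_mul 4).add (a3.const_mul (2 * Real.log (2 ^ (n + 4))))
    simp only [mul_zero, add_zero] at a4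
    refine a4.congr (fun L => ?_)
    simp only [Function.comp, id, pow_one]
    ring
  rw [mul_zero] at h3
  have h5 := h3.add h4
  rw [add_zero] at h5
  have h6 : ∀ᶠ L : ℝ in atTop, C * 2 ^ (n + 4) * Real.exp (-(L ^ (1 / 25 : ℝ) / 2)) +
      (2 * (Real.log (2 ^ (n + 4)) + L)) * Real.exp (-(L / 2)) < 1 :=
    h5.eventually_lt_const (by norm_num)
  filter_upwards [hL.eventually h1, hL.eventually h6, hL.eventually_ge_atTop 1,
    eventually_gt_atTop (0 : ℝ)] with y g1 g2 g3 g4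
  set L := Real.log y with hLdef
  have hL0 : 0 < L := by linarith
  have e1 : L ^ (1 / 25 : ℝ) = L ^ (1 / 28 : ℝ) * L ^ (3 / 700 : ℝ) := by
    rw [← Real.rpow_add hL0]; norm_num
  have e2 : (A + 1) * lam y ≤ L ^ (1 / 25 : ℝ) / 2 := by
    unfold lam
    rw [← hLdef, e1]
    have : 0 ≤ L ^ (1 / 28 : ℝ) := Real.rpow_nonneg hL0.le _
    nlinarith
  have e3 : L ^ (1 / 25 : ℝ) ≤ L := by
    calc L ^ (1 / 25 : ℝ) ≤ L ^ (1 : ℝ) := Real.rpow_le_rpow_of_exponent_le g3 (by norm_num)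
      _ = L := Real.rpow_one L
  have hlog : Real.log (2 ^ (n + 4) * y) = Real.log (2 ^ (n + 4)) + L := by
    rw [Real.log_mul (by positivity) g4.ne', hLdef]
  have hyL : y = Real.exp L := (Real.exp_log g4).symm
  have hc0 : 0 ≤ Real.log ((2 : ℝ) ^ (n + 4)) := Real.log_nonneg (one_le_pow₀ (by norm_num))
  rw [mul_add, hlog]
  have f1 : Real.exp ((A + 1) * lam y) * (2 * (Real.log (2 ^ (n + 4)) + L) / y) ≤
      (2 * (Real.log (2 ^ (n + 4)) + L)) * Real.exp (-(L / 2)) := by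
    have k1 : Real.exp ((A + 1) * lam y) ≤ Real.exp (L / 2) := by
      apply Real.exp_le_exp.mpr; linarith
    have k2 : 2 * (Real.log (2 ^ (n + 4)) + L) / y =
        2 * (Real.log (2 ^ (n + 4)) + L) * Real.exp (-L) := by
      rw [div_eq_mul_inv, Real.exp_neg, ← hyL]
    rw [k2]
    have k3 : Real.exp (-(L / 2)) = Real.exp (L / 2) * Real.exp (-L) := by
      rw [← Real.exp_add]; congr 1; ring
    rw [k3]
    have k4 : 0 ≤ 2 * (Real.log ((2 : ℝ) ^ (n + 4)) + L) * Real.exp (-L) := by positivity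
    calc Real.exp ((A + 1) * lam y) * (2 * (Real.log (2 ^ (n + 4)) + L) * Real.exp (-L))
        ≤ Real.exp (L / 2) * (2 * (Real.log (2 ^ (n + 4)) + L) * Real.exp (-L)) :=
          mul_le_mul_of_nonneg_right k1 k4
      _ = _ := by ring
  have f2 : Real.exp ((A + 1) * lam y) * (C * 2 ^ (n + 4) * Real.exp (-L ^ (1 / 25 : ℝ))) ≤
      C * 2 ^ (n + 4) * Real.exp (-(L ^ (1 / 25 : ℝ) / 2)) := by
    have k1 : Real.exp ((A + 1) * lam y) ≤ Real.exp (L ^ (1 / 25 : ℝ) / 2) :=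
      Real.exp_le_exp.mpr e2
    have k3 : Real.exp (-(L ^ (1 / 25 : ℝ) / 2)) =
        Real.exp (L ^ (1 / 25 : ℝ) / 2) * Real.exp (-L ^ (1 / 25 : ℝ)) := by
      rw [← Real.exp_add]; congr 1; ring
    rw [k3]
    have k4 : 0 ≤ C * 2 ^ (n + 4) * Real.exp (-L ^ (1 / 25 : ℝ)) := by positivity
    calc Real.exp ((A + 1) * lam y) * (C * 2 ^ (n + 4) * Real.exp (-L ^ (1 / 25 : ℝ)))
        ≤ Real.exp (L ^ (1 / 25 : ℝ) / 2) * (C * 2 ^ (n + 4) * Real.exp (-L ^ (1 / 25 : ℝ))) :=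
          mul_le_mul_of_nonneg_right k1 k4
      _ = _ := by ring
  linarith

private theorem AvgX_ev2 (n : ℕ) (A C w : ℝ) (hC : 0 < C) : ∀ᶠ y : ℝ in atTop,
    Real.exp ((A + 1) * lam y) * ((w + 1) * (2 * Real.log (2 ^ (n + 4) * y) / y +
      C * 2 ^ (n + 4) * Real.exp (-(Real.log y) ^ (1 / 25 : ℝ)))) ≤ 1 := by
  have h1 : Tendsto (fun y : ℝ => Real.exp (lam y)) atTop atTop := by
    refine Real.tendsto_exp_atTop.comp ?_
    exact (tendsto_rpow_atTop (by norm_num)).comp Real.tendsto_log_atTop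
  filter_upwards [AvgX_ev n (A + 1) C hC, h1.eventually_ge_atTop (w + 1),
    eventually_ge_atTop (1 : ℝ)] with y g1 g2 g3
  have h2 : (1 : ℝ) ≤ 2 ^ (n + 4) * y := by
    have : (1 : ℝ) ≤ 2 ^ (n + 4) := one_le_pow₀ (by norm_num)
    nlinarith
  have h3 : 0 ≤ Real.log (2 ^ (n + 4) * y) := Real.log_nonneg h2
  have h4 : 0 ≤ 2 * Real.log (2 ^ (n + 4) * y) / y +
      C * 2 ^ (n + 4) * Real.exp (-(Real.log y) ^ (1 / 25 : ℝ)) := by positivity
  refine le_trans ?_ g1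
  have h5 : Real.exp ((A + 1 + 1) * lam y) = Real.exp ((A + 1) * lam y) * Real.exp (lam y) := by
    rw [← Real.exp_add]
    congr 1
    ring
  rw [h5, mul_assoc (Real.exp _) (Real.exp _)]
  exact mul_le_mul_of_nonneg_left (mul_le_mul_of_nonneg_right g2 h4) (Real.exp_pos _).le

/-- splitting into the classes modulo `B` -/
private theorem AvgX_split (B : ℕ) (hB : 0 < B) {C : ℝ}
    (hw : ∀ b : ℕ, Nat.Coprime b B → ∀ x z : ℝ, 2 ≤ x → x ≤ z → z ≤ 2 * x →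
      |∑ p ∈ (Finset.Ioc ⌊x⌋₊ ⌊z⌋₊).filter (fun p => p.Prime ∧ p ≡ b [MOD B]), Real.log p -
        (z - x) / B.totient| ≤ C * x * Real.exp (-(Real.log x) ^ (1 / 25 : ℝ)))
    {M : ℕ} (hMB : M ∣ B) (W : ℕ → ℝ) (hW : ∀ c, W c = W (c % B)) {w : ℝ}
    (hWw : ∀ c, 0 ≤ W c ∧ W c ≤ w) (r : ℕ) {x x' D : ℝ} (hx : 2 ≤ x) (hxx : x ≤ x')
    (hx2 : x' ≤ 2 * x) (hBx : (B : ℝ) ≤ x) (hD : 0 ≤ D)
    (hxD : C * x * Real.exp (-(Real.log x) ^ (1 / 25 : ℝ)) ≤ D) :
    |∑ p ∈ (Finset.Ioc ⌊x⌋₊ ⌊x'⌋₊).filter (fun p => p.Prime ∧ p ≡ r [MOD M]),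
        Real.log p * W p - (x' - x) / B.totient *
        ∑ b ∈ (Finset.range B).filter (fun b => Nat.Coprime b B ∧ b ≡ r [MOD M]), W b| ≤
      B * (D * w) := by
  have hx0 : 0 ≤ x := by linarith
  have hw0 : 0 ≤ w := (hWw 0).1.trans (hWw 0).2
  obtain ⟨P, hP⟩ : ∃ P, P = (Finset.Ioc ⌊x⌋₊ ⌊x'⌋₊).filter
    (fun p => p.Prime ∧ p ≡ r [MOD M]) := ⟨_, rfl⟩
  have h1 : ∑ p ∈ P, Real.log p * W p =
      ∑ b ∈ Finset.range B, ∑ p ∈ P.filter (fun p => p % B = b), Real.log p * W p :=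
    (Finset.sum_fiberwise_of_maps_to (fun p _ => Finset.mem_range.2 (Nat.mod_lt p hB)) _).symm
  rw [← hP, h1, Finset.sum_filter, Finset.mul_sum, ← Finset.sum_sub_distrib]
  refine (Finset.abs_sum_le_sum_abs _ _).trans ?_
  have h2 : ∀ b ∈ Finset.range B,
      |∑ p ∈ P.filter (fun p => p % B = b), Real.log p * W p - (x' - x) / B.totient *
        (if Nat.Coprime b B ∧ b ≡ r [MOD M] then W b else 0)| ≤ D * w := by
    intro b hb
    have hbB : b % B = b := Nat.mod_eq_of_lt (Finset.mem_range.1 hb)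
    by_cases hbr : b ≡ r [MOD M]
    · have h3 : P.filter (fun p => p % B = b) = (Finset.Ioc ⌊x⌋₊ ⌊x'⌋₊).filter
          (fun p => p.Prime ∧ p ≡ b [MOD B]) := by
        ext p
        rw [hP, Finset.mem_filter, Finset.mem_filter, Finset.mem_filter]
        constructor
        · rintro ⟨⟨h4, h5, _⟩, h6⟩
          refine ⟨h4, h5, ?_⟩
          unfold Nat.ModEq
          rw [h6, hbB]
        · rintro ⟨h4, h5, h6⟩
          refine ⟨⟨h4, h5, (h6.of_dvd hMB).trans hbr⟩, ?_⟩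
          unfold Nat.ModEq at h6
          rw [h6, hbB]
      have h4 : ∑ p ∈ P.filter (fun p => p % B = b), Real.log p * W p =
          (∑ p ∈ (Finset.Ioc ⌊x⌋₊ ⌊x'⌋₊).filter (fun p => p.Prime ∧ p ≡ b [MOD B]),
            Real.log p) * W b := by
        rw [h3, Finset.sum_mul]
        refine Finset.sum_congr rfl fun p hp => ?_
        rw [Finset.mem_filter] at hp
        have h5 : p % B = b := by
          have h6 := hp.2.2
          unfold Nat.ModEq at h6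
          rw [h6, hbB]
        rw [hW p, h5]
      rw [h4]
      by_cases hcop : Nat.Coprime b B
      · rw [if_pos ⟨hcop, hbr⟩, ← sub_mul, abs_mul, abs_of_nonneg (hWw b).1]
        exact mul_le_mul ((hw b hcop x x' hx hxx hx2).trans hxD) (hWw b).2 (hWw b).1 hD
      · rw [if_neg (fun h => hcop h.1), mul_zero, sub_zero]
        have h5 : ∑ p ∈ (Finset.Ioc ⌊x⌋₊ ⌊x'⌋₊).filter (fun p => p.Prime ∧ p ≡ b [MOD B]),
            Real.log p = 0 := by
          rw [Finset.sum_eq_zero]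
          intro p hp
          exfalso
          rw [Finset.mem_filter, Finset.mem_Ioc, Nat.floor_lt hx0] at hp
          obtain ⟨⟨hp1, _⟩, hp2, hp3⟩ := hp
          have h4 : Nat.gcd p B = Nat.gcd b B := Nat.ModEq.gcd_eq hp3
          have h5 : p ∣ B := by
            by_contra hcon
            exact hcop (by
              rw [Nat.Coprime, ← h4]
              exact (Nat.Prime.coprime_iff_not_dvd hp2).mpr hcon)
          have h6 : (p : ℝ) ≤ B := by exact_mod_cast Nat.le_of_dvd hB h5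
          linarith
        rw [h5, zero_mul, abs_zero]
        exact mul_nonneg hD hw0
    · have h3 : P.filter (fun p => p % B = b) = ∅ := by
        rw [Finset.filter_eq_empty_iff]
        intro p hp hpb
        rw [hP, Finset.mem_filter] at hp
        have h4 : p ≡ b [MOD B] := by
          unfold Nat.ModEq
          rw [hpb, hbB]
        exact hbr ((h4.of_dvd hMB).symm.trans hp.2.2)
      rw [h3, Finset.sum_empty, if_neg (fun h => hbr h.2), mul_zero, sub_zero, abs_zero]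
      exact mul_nonneg hD hw0
  refine (Finset.sum_le_sum h2).trans ?_
  rw [Finset.sum_const, Finset.card_range, nsmul_eq_mul]

theorem avgX (B n : ℕ) (hB : 0 < B) (A w : ℝ) (hw : 0 ≤ w) : ∃ Y : ℝ, 3 ≤ Y ∧ ∀ y ≥ Y,
    ∀ M : ℕ, M ∣ B → ∀ W : ℕ → ℝ, (∀ c, W c = W (c % B)) → (∀ c, 0 ≤ W c ∧ W c ≤ w) →
    ∀ q : ℕ, 7 / 8 * y ≤ q → (q : ℝ) ≤ 2 ^ (n + 2) * y →
    ∀ z : ℝ, |z| ≤ y / (40 * M) → ∀ t : ℝ,
    y * Real.exp (-(A * lam y)) ≤ t → t ≤ y / (40 * M) →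
    |(1 / t) * (∫ s in (0 : ℝ)..t, thc (2 ^ (n + 4) * y) ((2 * (q : ℤ) + 1 + M * ⌊z + s⌋).toNat) *
        W ((2 * (q : ℤ) + 1 + M * ⌊z + s⌋).toNat)) -
      (M : ℝ) / B.totient *
        ∑ b ∈ (Finset.range B).filter (fun b => Nat.Coprime b B ∧ b ≡ 2 * q + 1 [MOD M]), W b| ≤
      Real.exp (-lam y) := by
  obtain ⟨C, hC, hth⟩ := PNE.theta_window B hB
  have hB0 : (0 : ℝ) < B := by exact_mod_cast hB
  obtain ⟨Y0, hY0⟩ := Filter.eventually_atTop.1 (AvgX_ev2 n A (B * C) w (mul_pos hB0 hC))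
  refine ⟨max (max Y0 3) (40 * B), (le_max_right _ _).trans (le_max_left _ _), ?_⟩
  intro y hy M hMB W hW hWw q hq1 hq2 z hz t ht1 ht2
  have hM : 0 < M := Nat.pos_of_dvd_of_pos hMB hB
  have hyY : Y0 ≤ y := (le_max_left _ _).trans ((le_max_left _ _).trans hy)
  have hyB : 40 * (B : ℝ) ≤ y := (le_max_right _ _).trans hy
  have hM1 : (1 : ℝ) ≤ M := by exact_mod_cast hM
  have hB1 : (1 : ℝ) ≤ B := by exact_mod_cast hB
  have hev := hY0 y hyY
  have hy40 : 40 ≤ y := by linarith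
  have hy0 : 0 < y := by linarith
  have ht0 : 0 < t := lt_of_lt_of_le (by positivity) ht1
  have hMt : M * t ≤ y / 40 := by
    rw [le_div_iff₀ (by positivity)] at ht2
    linarith
  have hMz : |M * z| ≤ y / 40 := by
    rw [abs_mul, abs_of_pos (by linarith : (0 : ℝ) < M)]
    rw [le_div_iff₀ (by positivity)] at hz
    linarith
  rw [abs_le] at hMz
  obtain ⟨X, hX⟩ : ∃ X : ℝ, X = 2 ^ (n + 4) * y := ⟨_, rfl⟩
  obtain ⟨x, hx⟩ : ∃ x : ℝ, x = 2 * q + 1 + M * z := ⟨_, rfl⟩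
  obtain ⟨x', hx'⟩ : ∃ x' : ℝ, x' = 2 * q + 1 + M * (z + t) := ⟨_, rfl⟩
  have hMt0 : 0 ≤ M * t := by positivity
  have hxx' : x' - x = M * t := by rw [hx, hx']; ring
  have hxy : y ≤ x := by rw [hx]; linarith [hMz.1]
  have hx0 : 0 ≤ x := by linarith
  have h2n : (1 : ℝ) ≤ 2 ^ (n + 2) := one_le_pow₀ (by norm_num)
  have hX4 : X = 4 * (2 ^ (n + 2) * y) := by rw [hX, pow_add, pow_add]; ring
  have hy2 : y ≤ 2 ^ (n + 2) * y := by nlinarith
  have hx'X : x' ≤ X := by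
    rw [hX4, hx']
    linarith [hMz.2]
  have hxX : x ≤ X := by linarith
  have hX1 : 1 ≤ X := by linarith
  have hlX : 0 ≤ Real.log X := Real.log_nonneg hX1
  rw [← hX] at hev ⊢
  have hG0 : ∀ k : ℤ, 0 ≤ thc X ((2 * (q : ℤ) + 1 + M * k).toNat) *
      W ((2 * (q : ℤ) + 1 + M * k).toNat) := fun k =>
    mul_nonneg (AvgX_th_nonneg X _) (hWw _).1
  have hGB : ∀ k : ℤ, thc X ((2 * (q : ℤ) + 1 + M * k).toNat) *
      W ((2 * (q : ℤ) + 1 + M * k).toNat) ≤ Real.log X * w := fun k =>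
    mul_le_mul (AvgX_th_le hX1 _) (hWw _).2 (hWw _).1 hlX
  have hcmp := AvgX_cmp (fun k : ℤ => thc X ((2 * (q : ℤ) + 1 + M * k).toNat) *
      W ((2 * (q : ℤ) + 1 + M * k).toNat)) hG0 hGB z t ht0.le
  have hbij := AvgX_bij hM W q X z t x x' ht0.le hx hx' hx0 hx'X
  rw [hbij] at hcmp
  obtain ⟨E, hE⟩ : ∃ E, E = Real.exp (-(Real.log y) ^ (1 / 25 : ℝ)) := ⟨_, rfl⟩
  have hE0 : 0 < E := by
    rw [hE]
    exact Real.exp_pos _
  have hxD : C * x * Real.exp (-(Real.log x) ^ (1 / 25 : ℝ)) ≤ C * X * E := by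
    have h3 : Real.exp (-(Real.log x) ^ (1 / 25 : ℝ)) ≤ E := by
      rw [hE]
      apply Real.exp_le_exp.mpr
      apply neg_le_neg
      apply Real.rpow_le_rpow (Real.log_nonneg (by linarith)) _ (by norm_num)
      exact Real.log_le_log hy0 hxy
    exact mul_le_mul (mul_le_mul_of_nonneg_left hxX hC.le) h3 (by positivity) (by positivity)
  have hsp := AvgX_split B hB hth hMB W hW hWw (2 * q + 1) (x := x) (x' := x') (D := C * X * E)
    (by linarith) (by linarith) (by linarith) (by linarith) (by positivity) hxD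
  obtain ⟨D, hD⟩ : ∃ D, D = (M : ℝ) / B.totient *
        ∑ b ∈ (Finset.range B).filter (fun b => Nat.Coprime b B ∧ b ≡ 2 * q + 1 [MOD M]), W b :=
    ⟨_, rfl⟩
  have hDD : (x' - x) / B.totient *
        ∑ b ∈ (Finset.range B).filter (fun b => Nat.Coprime b B ∧ b ≡ 2 * q + 1 [MOD M]), W b =
      t * D := by
    rw [hxx', hD]
    ring
  rw [hDD] at hsp
  rw [← hD]
  obtain ⟨I, hI⟩ : ∃ I, I = ∫ s in (0 : ℝ)..t, thc X ((2 * (q : ℤ) + 1 + M * ⌊z + s⌋).toNat) *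
        W ((2 * (q : ℤ) + 1 + M * ⌊z + s⌋).toNat) := ⟨_, rfl⟩
  rw [← hI] at hcmp ⊢
  obtain ⟨S, hS⟩ : ∃ S, S = ∑ p ∈ (Finset.Ioc ⌊x⌋₊ ⌊x'⌋₊).filter
    (fun p => p.Prime ∧ p ≡ (2 * q + 1) [MOD M]), Real.log p * W p := ⟨_, rfl⟩
  rw [← hS] at hcmp hsp
  have hfin : |I - t * D| ≤ 2 * (Real.log X * w) + B * (C * X * E * w) := by
    have : I - t * D = (I - S) + (S - t * D) := by ring
    rw [this]
    exact (abs_add_le _ _).trans (add_le_add hcmp hsp)
  have hfin2 : |I - t * D| ≤ (w + 1) * (2 * Real.log X + B * C * X * E) := by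
    refine hfin.trans ?_
    have h1 : 0 ≤ 2 * Real.log X + B * C * X * E := by positivity
    have h2 : 2 * (Real.log X * w) + B * (C * X * E * w) =
        w * (2 * Real.log X + B * C * X * E) := by ring
    rw [h2]
    exact mul_le_mul_of_nonneg_right (by linarith) h1
  have e1 : (1 / t) * I - D = (I - t * D) / t := by field_simp
  rw [e1, abs_div, abs_of_pos ht0, div_le_iff₀ ht0]
  refine hfin2.trans ?_
  have e2 : (w + 1) * (2 * Real.log X + B * C * X * E) =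
      y * ((w + 1) * (2 * Real.log X / y + B * C * 2 ^ (n + 4) * E)) := by
    rw [hX]; field_simp
  have e3 : Real.exp ((A + 1) * lam y) * (Real.exp (-lam y) * Real.exp (-(A * lam y))) = 1 := by
    rw [← Real.exp_add, ← Real.exp_add]
    have h0 : (A + 1) * lam y + (-lam y + -(A * lam y)) = 0 := by ring
    rw [h0, Real.exp_zero]
  rw [← hE] at hev
  have e4 : (w + 1) * (2 * Real.log X / y + B * C * 2 ^ (n + 4) * E) ≤
      Real.exp (-lam y) * Real.exp (-(A * lam y)) := by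
    have hpos : 0 < Real.exp ((A + 1) * lam y) := Real.exp_pos _
    exact le_of_mul_le_mul_left (hev.trans (le_of_eq e3.symm)) hpos
  calc (w + 1) * (2 * Real.log X + B * C * X * E) =
        y * ((w + 1) * (2 * Real.log X / y + B * C * 2 ^ (n + 4) * E)) := e2
    _ ≤ y * (Real.exp (-lam y) * Real.exp (-(A * lam y))) := mul_le_mul_of_nonneg_left e4 hy0.le
    _ = Real.exp (-lam y) * (y * Real.exp (-(A * lam y))) := by ring
    _ ≤ Real.exp (-lam y) * t := mul_le_mul_of_nonneg_left ht1 (Real.exp_pos _).le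

end Pool.Agent.PCx
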