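import Pool.Agent.PCx.Defs

/-!
# Measurability and congruence for the chains with level dependent moduli

As `Pool/Agent/PCn/Basic.lean` (copy and adapt): `measurable_cl` by induction (the map
`x ↦ Tr M (S x) (c x)` for a measurable `c : X → ℕ`: countable union over the values of `c`); `cl_congr`, `cl_mu`
by induction; `measurable_trX`: everything is measurable on a countable type.
`cl_bdd`: induction on `i`: for `q ≤ K` and `a` in the cube `|SS G ε a q| ≤ |G q| + |ε q| q ∑_j |log q|^(-j)` is bounded.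
-/

namespace Pool.Agent.PCx

open Pool.Agent.PCn

theorem cl_zero (μ : ℕ → ℕ) (S : ℕ → ℝ) (p : ℕ) : cl μ S p 0 = p := rfl

theorem cl_succ (μ : ℕ → ℕ) (S : ℕ → ℝ) (p i : ℕ) :
    cl μ S p (i + 1) = Tr (μ i) S (cl μ S p i) := rfl

private theorem Bas_Tr {X : Type*} [MeasurableSpace X] (M : ℕ) (S : X → ℕ → ℝ)
    (hS : ∀ q, Measurable (fun x => S x q)) (q : ℕ) : Measurable (fun x => Tr M (S x) q) := by
  unfold Tr
  have h : Measurable (fun z : ℤ => (2 * (q : ℤ) + 1 + M * z).toNat) := measurable_of_countable _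
  exact h.comp ((hS q).div_const (M : ℝ)).floor

theorem measurable_cl {X : Type*} [MeasurableSpace X] (μ : ℕ → ℕ) (S : X → ℕ → ℝ)
    (hS : ∀ q, Measurable (fun x => S x q)) (p i : ℕ) :
    Measurable (fun x => cl μ (S x) p i) := by
  induction i with
  | zero => exact measurable_const
  | succ i ih =>
    simp_rw [cl_succ]
    have h : Measurable (fun z : X × ℕ => Tr (μ i) (S z.1) z.2) :=
      measurable_from_prod_countable_left fun q => Bas_Tr (μ i) S hS q
    exact h.comp (measurable_id.prodMk ih)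

theorem cl_congr {μ : ℕ → ℕ} {S S' : ℕ → ℝ} {p i : ℕ}
    (h : ∀ j < i, S (cl μ S p j) = S' (cl μ S p j)) : ∀ j ≤ i, cl μ S' p j = cl μ S p j := by
  intro j
  induction j with
  | zero => intro _; rfl
  | succ j ih =>
    intro hj
    rw [cl_succ, cl_succ, ih (by omega)]
    unfold Tr
    rw [h j (by omega)]

theorem measurable_trX {X : Type*} [MeasurableSpace X] (μ : ℕ → ℕ) (S : X → ℕ → ℝ)
    (hS : ∀ q, Measurable (fun x => S x q)) (p p' i k : ℕ) (Φ : (ℕ → ℕ) → (ℕ → ℕ) → ℝ) :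
    Measurable (fun x => Φ (tr i (cl μ (S x) p)) (tr k (cl μ (S x) p'))) := by
  have h1 : Measurable (fun x => ((fun j : Fin (i + 1) => cl μ (S x) p j,
      fun j : Fin (k + 1) => cl μ (S x) p' j) : (Fin (i + 1) → ℕ) × (Fin (k + 1) → ℕ))) := by
    apply Measurable.prodMk
    · exact measurable_pi_lambda _ fun j => measurable_cl μ S hS p j
    · exact measurable_pi_lambda _ fun j => measurable_cl μ S hS p' j
  let e : ∀ n : ℕ, (Fin (n + 1) → ℕ) → ℕ → ℕ := fun n f j =>
    if h : j ≤ n then f ⟨j, by omega⟩ else 0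
  have he : ∀ (n : ℕ) (c : ℕ → ℕ), e n (fun j : Fin (n + 1) => c j) = tr n c := by
    intro n c
    funext j
    simp only [e, tr]
    by_cases h : j ≤ n
    · rw [dif_pos h, if_pos h]
    · rw [dif_neg h, if_neg h]
  have h2 : Measurable (fun z : (Fin (i + 1) → ℕ) × (Fin (k + 1) → ℕ) =>
      Φ (e i z.1) (e k z.2)) := measurable_of_countable _
  have h3 := h2.comp h1
  have h4 : (fun x => Φ (tr i (cl μ (S x) p)) (tr k (cl μ (S x) p'))) =
      ((fun z : (Fin (i + 1) → ℕ) × (Fin (k + 1) → ℕ) => Φ (e i z.1) (e k z.2)) ∘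
      fun x => ((fun j : Fin (i + 1) => cl μ (S x) p j), (fun j : Fin (k + 1) => cl μ (S x) p' j))) := by
    funext x
    simp only [Function.comp_apply]
    rw [he i (cl μ (S x) p), he k (cl μ (S x) p')]
  rw [h4]
  exact h3

private theorem Bas_Tr_le (M : ℕ) (S : ℕ → ℝ) (q : ℕ) : (Tr M S q : ℝ) ≤ 2 * q + 1 + |S q| := by
  have h1 : (M : ℝ) * ⌊S q / M⌋ ≤ |S q| := by
    rcases Nat.eq_zero_or_pos M with h0 | h0
    · rw [h0]
      simp
    · have hM : (0 : ℝ) < M := by exact_mod_cast h0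
      have h2 : (⌊S q / M⌋ : ℝ) ≤ S q / M := Int.floor_le _
      have h3 : (M : ℝ) * ⌊S q / M⌋ ≤ M * (S q / M) := mul_le_mul_of_nonneg_left h2 hM.le
      have h4 : (M : ℝ) * (S q / M) = S q := by field_simp
      rw [h4] at h3
      exact h3.trans (le_abs_self _)
  have h2 : ((Tr M S q : ℕ) : ℤ) = max (2 * (q : ℤ) + 1 + M * ⌊S q / M⌋) 0 := by
    unfold Tr
    exact Int.toNat_eq_max _
  have h3 : ((Tr M S q : ℕ) : ℝ) = max (2 * (q : ℝ) + 1 + M * ⌊S q / M⌋) 0 := by
    have : (((Tr M S q : ℕ) : ℤ) : ℝ) = ((max (2 * (q : ℤ) + 1 + M * ⌊S q / M⌋) 0 : ℤ) : ℝ) := by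
      rw [h2]
    push_cast at this
    exact this
  rw [h3]
  apply max_le
  · linarith
  · have := abs_nonneg (S q)
    positivity

private theorem Bas_SS_le (G ε : ℕ → ℝ) (m q : ℕ) {a : Fin m → ℝ} (ha : a ∈ Cu m) :
    |SS G ε a q| ≤ |G q| + |ε q| * q * ∑ j : Fin m, |1 / Real.log q ^ (j : ℕ)| := by
  unfold SS pf
  refine (abs_add_le _ _).trans ?_
  apply add_le_add_right
  rw [abs_mul, abs_mul, Nat.abs_cast]
  apply mul_le_mul_of_nonneg_left _ (by positivity)
  refine (Finset.abs_sum_le_sum_abs _ _).trans (Finset.sum_le_sum fun j _ => ?_)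
  have h0 : (0 : ℝ) ≤ a j := ha.1 j
  have h1 : a j ≤ (1 : ℝ) := ha.2 j
  rw [abs_div, abs_div, abs_one, abs_of_nonneg h0]
  exact div_le_div_of_nonneg_right h1 (abs_nonneg _)

theorem cl_bdd (μ : ℕ → ℕ) (G ε : ℕ → ℝ) (m p i : ℕ) :
    ∃ K : ℕ, ∀ a ∈ Cu m, cl μ (SS G ε a) p i ≤ K := by
  induction i with
  | zero => exact ⟨p, fun a _ => le_refl _⟩
  | succ i ih =>
    obtain ⟨K, hK⟩ := ih
    set f : ℕ → ℝ := fun q => |G q| + |ε q| * q * ∑ j : Fin m, |1 / Real.log q ^ (j : ℕ)| with hf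
    have hf0 : ∀ q, 0 ≤ f q := fun q => by positivity
    refine ⟨⌈2 * (K : ℝ) + 1 + ∑ q ∈ Finset.range (K + 1), f q⌉₊, fun a ha => ?_⟩
    have h1 : ((cl μ (SS G ε a) p (i + 1) : ℕ) : ℝ) ≤
        2 * (K : ℝ) + 1 + ∑ q ∈ Finset.range (K + 1), f q := by
      rw [cl_succ]
      have hq := hK a ha
      set q := cl μ (SS G ε a) p i
      have h2 := Bas_Tr_le (μ i) (SS G ε a) q
      have h3 := Bas_SS_le G ε m q ha
      have h4 : f q ≤ ∑ q ∈ Finset.range (K + 1), f q :=
        Finset.single_le_sum (fun q _ => hf0 q) (Finset.mem_range.mpr (by omega))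
      have h5 : (q : ℝ) ≤ K := by exact_mod_cast hq
      have h6 : |G q| + |ε q| * q * ∑ j : Fin m, |1 / Real.log q ^ (j : ℕ)| = f q := rfl
      rw [h6] at h3
      linarith
    exact_mod_cast h1.trans (Nat.le_ceil _)

theorem measurable_VL (μ : ℕ → ℕ) (G ε : ℕ → ℝ) (m n : ℕ) (y z : ℝ) :
    Measurable (fun a : Fin m → ℝ => VL μ (SS G ε a) n y z) := by
  unfold VL
  apply Finset.measurable_sum
  intro p _
  apply Finset.measurable_prod
  intro i _
  have h : Measurable th := measurable_of_countable _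
  exact h.comp (measurable_cl μ (fun a : Fin m → ℝ => SS G ε a) (measurable_SS G ε) p i)

private theorem Bas_th_nonneg (n : ℕ) : 0 ≤ th n := by
  unfold th
  split_ifs with h
  · exact Real.log_natCast_nonneg n
  · exact le_refl _

private theorem Bas_th_le (n : ℕ) : th n ≤ n := by
  unfold th
  split_ifs with h
  · exact Real.log_le_self (Nat.cast_nonneg n)
  · exact Nat.cast_nonneg n

theorem VL_bdd (μ : ℕ → ℕ) (G ε : ℕ → ℝ) (m n : ℕ) (y z : ℝ) :
    ∃ K : ℝ, ∀ a ∈ Cu m, 0 ≤ VL μ (SS G ε a) n y z ∧ VL μ (SS G ε a) n y z ≤ K := by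
  choose K hK using fun p i => cl_bdd μ G ε m p i
  refine ⟨∑ p ∈ Finset.Ioc ⌊y⌋₊ ⌊z⌋₊, ∏ i ∈ Finset.range (n + 1), (K p i : ℝ), fun a ha => ?_⟩
  constructor
  · exact Finset.sum_nonneg fun p _ => Finset.prod_nonneg fun i _ => Bas_th_nonneg _
  · apply Finset.sum_le_sum
    intro p _
    apply Finset.prod_le_prod
    · intro i _
      exact Bas_th_nonneg _
    · intro i _
      refine (Bas_th_le _).trans ?_
      exact_mod_cast hK p i a ha

/-- the chain depends only on the moduli of the steps -/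
theorem cl_mu {μ μ' : ℕ → ℕ} {S : ℕ → ℝ} {p n : ℕ} (h : ∀ i < n, μ i = μ' i) :
    ∀ i ≤ n, cl μ S p i = cl μ' S p i := by
  intro i
  induction i with
  | zero => intro _; rfl
  | succ i ih =>
    intro hi
    rw [cl_succ, cl_succ, ih (by omega), h i (by omega)]

theorem VL_mu {μ μ' : ℕ → ℕ} {S : ℕ → ℝ} {n : ℕ} (h : ∀ i < n, μ i = μ' i) (y z : ℝ) :
    VL μ S n y z = VL μ' S n y z := by
  unfold VL
  refine Finset.sum_congr rfl fun p _ => Finset.prod_congr rfl fun i hi => ?_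
  rw [Finset.mem_range] at hi
  rw [cl_mu h i (by omega)]

theorem gg_mu {B : ℕ} {μ μ' : ℕ → ℕ} : ∀ (r i x : ℕ), (∀ j < i + r, μ j = μ' j) →
    gg B μ r i x = gg B μ' r i x := by
  intro r
  induction r with
  | zero => intro i x _; rfl
  | succ r ih =>
    intro i x h
    unfold gg
    rw [h i (by omega)]
    congr 1
    refine Finset.sum_congr rfl fun b _ => ?_
    exact ih (i + 1) b fun j hj => h j (by omega)

theorem kapL_mu {B : ℕ} {μ μ' : ℕ → ℕ} {n : ℕ} (h : ∀ i < n, μ i = μ' i) :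
    kapL B μ n = kapL B μ' n := by
  unfold kapL
  congr 1
  refine Finset.sum_congr rfl fun b _ => ?_
  exact gg_mu n 0 b fun j hj => h j (by omega)

/-- the chain of the map with the modulus function, as a chain with level dependent moduli -/
theorem cl_TZ (Z : ℕ → ℕ) (S : ℕ → ℝ) (p : ℕ) (μ : ℕ → ℕ) (n : ℕ)
    (h : ∀ i < n, μ i = MM Z ((TZ Z S)^[i] p)) : ∀ i ≤ n, cl μ S p i = (TZ Z S)^[i] p := by
  intro i
  induction i with
  | zero => intro _; rfl
  | succ i ih =>
    intro hi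
    rw [cl_succ, Function.iterate_succ_apply', ih (by omega), h i (by omega)]
    rfl

end Pool.Agent.PCx
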