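import Pool.Agent.PCn.Main

/-!
# Perturbations of `q ↦ 2q + 1` which are small at all places: definitions

Project PCx, the Bateman-Horn constant itself.  `MM : ℕ → ℕ` grows slowly, and every `d > 0` divides `MM q` for all
large `q`.  Map: `q ↦ 2q + 1 + (the largest multiple of MM q below S q)`,
`S q = G q + ε q * q * ∑_j a_j / (log q)^j`, `G q = o(q)`, `ε q → 0`, `ε q ≥ exp(-(log q)^{1/31})`.
THEOREM (`Main.lean`): for a suitable `MM` (depending only on `G` and `ε`) and almost every `(a_j)`, for every `k` the number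
of the `p ≤ x` which start a chain of exact length `k` is `~ C_k x/(log x)^k` with the Bateman-Horn constant
`C_k = ∏_ℓ (1 - ν_ℓ/ℓ) (1 - 1/ℓ)^{-k}` of the Cunningham chains of length `k`.

METHOD.  In a window `y < p ≤ r y` the chains of `p` use the moduli `μ i` (`i < n`) in the steps `i → i + 1`, which take at most
two values `Q_j | Q_{j+1}` (`Q_j = P_j^(j+1)`, `P_j` = product of the primes `≤ j`; for the constants only the primes
which divide the moduli matter, `kapL_rad`).  The moment method of PCn, uniformly in the base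
function `G` with `|G q| ≤ ρ q * q` (`ρ → 0` fixed), for level dependent moduli `μ i | B`, gives the window sums, with the constant
`kapL B μ n`, which is `κ(P_j) (1 + O_n(1/ℓ))`, `ℓ = j + 1` the new prime (if `j + 1` is a prime).  The thresholds where the modulus changes are chosen
so sparse that the implied constants do not matter; the windows which meet a threshold are few.
From PCn: `th`, `thc`, `pf`, `SS`, `lam`, `tt`, `Cu`, `tr`, `Asq`, `kap`, `muI`, `comb`.
-/

namespace Pool.Agent.PCx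

open Filter Topology Pool.Agent.PCn

/-- `q ↦ 2q + 1 + (the largest multiple of M below S q)` -/
noncomputable def Tr (M : ℕ) (S : ℕ → ℝ) (q : ℕ) : ℕ := (2 * (q : ℤ) + 1 + M * ⌊S q / M⌋).toNat

/-- the chain of `p` with the modulus `μ i` in the step from `i` to `i + 1` -/
noncomputable def cl (μ : ℕ → ℕ) (S : ℕ → ℝ) (p : ℕ) : ℕ → ℕ
  | 0 => p
  | i + 1 => Tr (μ i) S (cl μ S p i)

/-- the assumptions on the sizes -/
structure Hx (ρ ε : ℕ → ℝ) : Prop where
  ρ0 : Tendsto ρ atTop (𝓝 0)
  ε0 : Tendsto ε atTop (𝓝 0)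
  εlow : ∀ᶠ q : ℕ in atTop, Real.exp (-(Real.log q) ^ (1 / 31 : ℝ)) ≤ ε q

/-- the admissible base functions -/
def Adm (ρ G : ℕ → ℝ) : Prop := ∀ q : ℕ, |G q| ≤ ρ q * q

/-- the expected mean value of the product of the next `r` factors `θ`, given the term `x` of index `i` -/
noncomputable def gg (B : ℕ) (μ : ℕ → ℕ) : ℕ → ℕ → ℕ → ℝ
  | 0, _, _ => 1
  | r + 1, i, x => (μ i : ℝ) / B.totient *
      ∑ b ∈ (Finset.range B).filter (fun b => Nat.Coprime b B ∧ b ≡ 2 * x + 1 [MOD μ i]),
        gg B μ r (i + 1) b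

/-- the constant for the level dependent moduli `μ` -/
noncomputable def kapL (B : ℕ) (μ : ℕ → ℕ) (n : ℕ) : ℝ :=
  1 / (B.totient : ℝ) * ∑ b ∈ (Finset.range B).filter (fun b => Nat.Coprime b B), gg B μ n 0 b

/-- the window sum -/
noncomputable def VL (μ : ℕ → ℕ) (S : ℕ → ℝ) (n : ℕ) (y z : ℝ) : ℝ :=
  ∑ p ∈ Finset.Ioc ⌊y⌋₊ ⌊z⌋₊, ∏ i ∈ Finset.range (n + 1), th (cl μ S p i)

/-- the product of the primes `≤ j` -/
def PP (j : ℕ) : ℕ := primorial j

/-- the moduli; every `d > 0` divides `QQ j` for all large `j` -/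
def QQ (j : ℕ) : ℕ := PP j ^ (j + 1)

/-- the number of the thresholds `≤ q` -/
def JJ (Z : ℕ → ℕ) (q : ℕ) : ℕ := ((Finset.range (q + 1)).filter (fun j => Z j ≤ q)).card

/-- the modulus function -/
def MM (Z : ℕ → ℕ) (q : ℕ) : ℕ := QQ (JJ Z q)

/-- the map with the modulus function -/
noncomputable def TZ (Z : ℕ → ℕ) (S : ℕ → ℝ) (q : ℕ) : ℕ := Tr (MM Z q) S q

/-- the number of residues `v` modulo `ℓ` such that one of `2^s (v+1) - 1`, `s ≤ r`, is divisible by `ℓ` -/
def nu (ℓ r : ℕ) : ℕ :=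
  ((Finset.range ℓ).filter (fun v => ∃ s ∈ Finset.range (r + 1), ℓ ∣ 2 ^ s * (v + 1) - 1)).card

/-- the local factor at `ℓ`, if the modulus is divisible by `ℓ` from the level `i1` on -/
noncomputable def bet (ℓ n i1 : ℕ) : ℝ :=
  ((ℓ : ℝ) / (ℓ - 1)) ^ (n - i1) * ((ℓ - nu ℓ (n - i1)) / (ℓ - 1))

open Classical in
/-- the number of the `p ≤ x` such that `p` and its first `n` successors under `T` are prime -/
noncomputable def NT (T : ℕ → ℕ) (n x : ℕ) : ℕ :=
  ((Finset.range (x + 1)).filter (fun p => ∀ i ≤ n, (T^[i] p).Prime)).card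

theorem PP_pos (j : ℕ) : 0 < PP j := primorial_pos j

theorem QQ_pos (j : ℕ) : 0 < QQ j := pow_pos (PP_pos j) _

end Pool.Agent.PCx
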