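import Pool.Agent.PCx.Defs

/-!
# From weights to numbers, and changing finitely many values, for a general map

As `Pool/Agent/PCn/DetB.lean` and `Pool/Agent/PCn/NNc.lean`, for a map `T : ℕ → ℕ` with `T q / q → 2` (copy and adapt:
only `q ≤ T q ≤ 4 q` for large `q` is needed).
-/

namespace Pool.Agent.PCx

open Filter Topology Pool.Agent.PCn

private theorem DetBX_T {T : ℕ → ℕ} (hT : Tendsto (fun q : ℕ => (T q : ℝ) / q) atTop (𝓝 2)) :
    ∃ Q : ℕ, 1 ≤ Q ∧ ∀ q ≥ Q, q ≤ T q ∧ T q ≤ 4 * q := by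
  have h1 := hT.eventually (lt_mem_nhds (show (1 : ℝ) < 2 by norm_num))
  have h2 := hT.eventually (gt_mem_nhds (show (2 : ℝ) < 4 by norm_num))
  obtain ⟨Q0, hQ0⟩ := eventually_atTop.1 (h1.and h2)
  refine ⟨max Q0 1, le_max_right _ _, fun q hq => ?_⟩
  obtain ⟨h3, h4⟩ := hQ0 q ((le_max_left _ _).trans hq)
  have hq1 : 1 ≤ q := (le_max_right _ _).trans hq
  have hq0 : (0 : ℝ) < q := by exact_mod_cast (by omega : 0 < q)
  rw [lt_div_iff₀ hq0, one_mul] at h3
  rw [div_lt_iff₀ hq0] at h4
  constructor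
  · exact_mod_cast h3.le
  · exact_mod_cast h4.le

private theorem DetBX_ch {T : ℕ → ℕ} {Q : ℕ}
    (hQ : ∀ q ≥ Q, q ≤ T q ∧ T q ≤ 4 * q) {p : ℕ} (hp : Q ≤ p) (i : ℕ) :
    p ≤ (T^[i] p) ∧ (T^[i] p) ≤ 4 ^ i * p := by
  induction i with
  | zero => simp
  | succ i ih =>
    obtain ⟨h1, h2⟩ := ih
    obtain ⟨h3, h4⟩ := hQ _ (hp.trans h1)
    rw [Function.iterate_succ_apply']
    refine ⟨h1.trans h3, h4.trans ?_⟩
    rw [pow_succ]
    calc 4 * (T^[i] p) ≤ 4 * (4 ^ i * p) := Nat.mul_le_mul_left 4 h2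
      _ = 4 ^ i * 4 * p := by ring

private theorem DetBX_th_nonneg (m : ℕ) : 0 ≤ th m := by
  unfold th
  split_ifs
  · exact Real.log_natCast_nonneg m
  · exact le_rfl

private theorem DetBX_th_le (m : ℕ) : th m ≤ Real.log m := by
  unfold th
  split_ifs
  · exact le_rfl
  · exact Real.log_natCast_nonneg m

private theorem DetBX_upper {T : ℕ → ℕ} {Q : ℕ} (hQ1 : 1 ≤ Q)
    (hQ : ∀ q ≥ Q, q ≤ T q ∧ T q ≤ 4 * q) (n : ℕ) {p : ℕ} (hp : Q ≤ p) :
    ∏ i ∈ Finset.range (n + 1), th (T^[i] p) ≤ (Real.log p + n * Real.log 4) ^ (n + 1) := by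
  calc ∏ i ∈ Finset.range (n + 1), th (T^[i] p)
      ≤ ∏ _i ∈ Finset.range (n + 1), (Real.log p + n * Real.log 4) := by
        refine Finset.prod_le_prod (fun i _ => DetBX_th_nonneg _) fun i hi => ?_
        obtain ⟨h1, h2⟩ := DetBX_ch hQ hp i
        have hp0 : (0 : ℝ) < p := by
          have : 0 < p := by omega
          exact_mod_cast this
        have hc0 : (0 : ℝ) < (T^[i] p) := by
          have : 0 < (T^[i] p) := by omega
          exact_mod_cast this
        refine (DetBX_th_le _).trans ?_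
        have h3 : (((T^[i] p) : ℕ) : ℝ) ≤ 4 ^ i * p := by exact_mod_cast h2
        refine (Real.log_le_log hc0 h3).trans ?_
        rw [Real.log_mul (by positivity) hp0.ne', Real.log_pow]
        have hi' : (i : ℝ) ≤ n := by
          have := Finset.mem_range.1 hi
          exact_mod_cast (by omega : i ≤ n)
        have h4 : (0 : ℝ) ≤ Real.log 4 := Real.log_nonneg (by norm_num)
        nlinarith
    _ = (Real.log p + n * Real.log 4) ^ (n + 1) := by
        rw [Finset.prod_const, Finset.card_range]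

private theorem DetBX_lower {T : ℕ → ℕ} {Q : ℕ} (hQ1 : 1 ≤ Q)
    (hQ : ∀ q ≥ Q, q ≤ T q ∧ T q ≤ 4 * q) (n : ℕ) {p : ℕ} (hp : Q ≤ p)
    (hG : ∀ i ≤ n, (T^[i] p).Prime) :
    Real.log p ^ (n + 1) ≤ ∏ i ∈ Finset.range (n + 1), th (T^[i] p) := by
  calc Real.log p ^ (n + 1) = ∏ _i ∈ Finset.range (n + 1), Real.log p := by
        rw [Finset.prod_const, Finset.card_range]
    _ ≤ ∏ i ∈ Finset.range (n + 1), th (T^[i] p) := by
        refine Finset.prod_le_prod (fun i _ => Real.log_natCast_nonneg p) fun i hi => ?_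
        have hi' : i ≤ n := by
          have := Finset.mem_range.1 hi
          omega
        obtain ⟨h1, h2⟩ := DetBX_ch hQ hp i
        unfold th
        rw [if_pos (hG i hi')]
        refine Real.log_le_log ?_ (by exact_mod_cast h1)
        have : 0 < p := by omega
        exact_mod_cast this

theorem iter_large {T : ℕ → ℕ} (hT : Tendsto (fun q : ℕ => (T q : ℝ) / q) atTop (𝓝 2)) (Q : ℕ) :
    ∃ P : ℕ, ∀ p ≥ P, ∀ i, Q ≤ T^[i] p := by
  obtain ⟨Q1, -, hQ1⟩ := DetBX_T hT
  refine ⟨max Q Q1, fun p hp i => ?_⟩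
  have h : max Q Q1 ≤ T^[i] p := by
    induction i with
    | zero => exact hp
    | succ i ih =>
      rw [Function.iterate_succ_apply']
      exact ih.trans (hQ1 _ ((le_max_right _ _).trans ih)).1
  exact (le_max_left _ _).trans h

theorem det_bX (T : ℕ → ℕ) (hT : Tendsto (fun q : ℕ => (T q : ℝ) / q) atTop (𝓝 2)) (n : ℕ)
    (κ : ℝ) (h : Tendsto (fun x : ℕ =>
      (∑ p ∈ Finset.range (x + 1), ∏ i ∈ Finset.range (n + 1), th (T^[i] p)) / x) atTop
        (𝓝 κ)) :
    Tendsto (fun x : ℕ => (NT T n x : ℝ) * Real.log x ^ (n + 1) / x) atTop (𝓝 κ) := by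
  obtain ⟨Q, hQ1, hQ⟩ := DetBX_T hT
  set W : ℕ → ℝ := fun p => ∏ i ∈ Finset.range (n + 1), th (T^[i] p) with hW
  set c : ℝ := n * Real.log 4 with hc
  have hc0 : 0 ≤ c := by
    have : (0 : ℝ) ≤ Real.log 4 := Real.log_nonneg (by norm_num)
    positivity
  have hW0 : ∀ p, 0 ≤ W p := fun p => Finset.prod_nonneg fun i _ => DetBX_th_nonneg _
  set C0 : ℝ := ∑ p ∈ Finset.range Q, W p with hC0
  have hC00 : 0 ≤ C0 := Finset.sum_nonneg fun p _ => hW0 p
  -- limits
  have tL : Tendsto (fun x : ℕ => Real.log (x : ℝ)) atTop atTop :=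
    Real.tendsto_log_atTop.comp tendsto_natCast_atTop_atTop
  have tX : Tendsto (fun x : ℕ => (x : ℝ)) atTop atTop := tendsto_natCast_atTop_atTop
  have tpow : ∀ k : ℕ, Tendsto (fun x : ℕ => Real.log (x : ℝ) ^ k / x) atTop (𝓝 0) := by
    intro k
    have h1 := (Real.isLittleO_pow_log_id_atTop (n := k)).tendsto_div_nhds_zero
    exact h1.comp tX
  have tll : Tendsto (fun x : ℕ => Real.log (Real.log (x : ℝ)) / Real.log x) atTop (𝓝 0) := by
    have h1 := (Real.isLittleO_log_id_atTop).tendsto_div_nhds_zero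
    exact h1.comp tL
  -- the lower function
  have low : ∀ᶠ x : ℕ in atTop,
      ((∑ p ∈ Finset.range (x + 1), W p) / x - C0 / x) * (1 / (1 + c / Real.log x)) ^ (n + 1) ≤
        (NT T n x : ℝ) * Real.log x ^ (n + 1) / x := by
    filter_upwards [eventually_ge_atTop (max Q 2), tL.eventually_gt_atTop 0] with x hx hL
    have hxQ : Q ≤ x := le_trans (le_max_left _ _) hx
    have hx0 : (0 : ℝ) < x := by
      have : 0 < x := lt_of_lt_of_le (by omega) (le_trans (le_max_right _ _) hx)
      exact_mod_cast this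
    have hsum : ∑ p ∈ Finset.range (x + 1), W p ≤
        C0 + NT T n x * (Real.log x + c) ^ (n + 1) := by
      have h1 : ∀ p ∈ Finset.range (x + 1), W p ≤ (if p < Q then W p else 0) +
          (if ∀ i ≤ n, (T^[i] p).Prime then (Real.log x + c) ^ (n + 1) else 0) := by
        intro p hp
        have hpx : p ≤ x := by
          have := Finset.mem_range.1 hp
          omega
        by_cases hpQ : p < Q
        · rw [if_pos hpQ]
          split_ifs
          · have : (0 : ℝ) ≤ (Real.log x + c) ^ (n + 1) := by positivity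
            linarith
          · linarith
        · rw [if_neg hpQ, zero_add]
          push Not at hpQ
          split_ifs with hG
          · refine (DetBX_upper hQ1 hQ n hpQ).trans ?_
            have hp0 : (0 : ℝ) < p := by
              have : 0 < p := by omega
              exact_mod_cast this
            refine pow_le_pow_left₀ ?_ ?_ _
            · have := Real.log_natCast_nonneg p
              positivity
            · have : Real.log p ≤ Real.log x := Real.log_le_log hp0 (by exact_mod_cast hpx)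
              linarith
          · push Not at hG
            obtain ⟨i, hi, hpr⟩ := hG
            refine le_of_eq ?_
            simp only [hW]
            refine Finset.prod_eq_zero (Finset.mem_range.2 (Nat.lt_succ_of_le hi)) ?_
            unfold th
            rw [if_neg hpr]
      refine (Finset.sum_le_sum h1).trans ?_
      rw [Finset.sum_add_distrib, ← Finset.sum_filter, ← Finset.sum_filter, Finset.sum_const,
        nsmul_eq_mul]
      refine add_le_add ?_ ?_
      · refine Finset.sum_le_sum_of_subset_of_nonneg ?_ fun p _ _ => hW0 p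
        intro p hp
        exact Finset.mem_range.2 (Finset.mem_filter.1 hp).2
      · refine le_of_eq ?_
        unfold NT
        rfl
    have hLc : 0 < Real.log x + c := by linarith
    have e1 : (1 / (1 + c / Real.log x)) ^ (n + 1) =
        Real.log x ^ (n + 1) / (Real.log x + c) ^ (n + 1) := by
      rw [← div_pow]
      congr 1
      field_simp
    rw [e1, ← sub_div, div_mul_div_comm, div_le_div_iff₀ (by positivity) hx0]
    have h2 : (∑ p ∈ Finset.range (x + 1), W p) - C0 ≤
        NT T n x * (Real.log x + c) ^ (n + 1) := by linarith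
    have h3 : (0 : ℝ) ≤ Real.log x ^ (n + 1) * x := by positivity
    calc (∑ p ∈ Finset.range (x + 1), W p - C0) * Real.log x ^ (n + 1) * x
        = (∑ p ∈ Finset.range (x + 1), W p - C0) * (Real.log x ^ (n + 1) * x) := by ring
      _ ≤ (NT T n x * (Real.log x + c) ^ (n + 1)) * (Real.log x ^ (n + 1) * x) :=
        mul_le_mul_of_nonneg_right h2 h3
      _ = _ := by ring
  have lowlim : Tendsto (fun x : ℕ => ((∑ p ∈ Finset.range (x + 1), W p) / x - C0 / x) *
      (1 / (1 + c / Real.log x)) ^ (n + 1)) atTop (𝓝 κ) := by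
    have h1 : Tendsto (fun x : ℕ => C0 / (x : ℝ)) atTop (𝓝 0) := tX.const_div_atTop C0
    have h2 : Tendsto (fun x : ℕ => c / Real.log (x : ℝ)) atTop (𝓝 0) := tL.const_div_atTop c
    have h3 : Tendsto (fun x : ℕ => (1 / (1 + c / Real.log (x : ℝ))) ^ (n + 1)) atTop
        (𝓝 ((1 / (1 + 0)) ^ (n + 1))) :=
      ((tendsto_const_nhds.div (tendsto_const_nhds.add h2) (by norm_num)).pow (n + 1))
    have h4 := (h.sub h1).mul h3
    simpa using h4
  -- the upper function
  have tlogy : Tendsto (fun x : ℕ => 1 - (n + 2) * (Real.log (Real.log (x : ℝ)) / Real.log x))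
      atTop (𝓝 1) := by
    have h1 := tll.const_mul ((n : ℝ) + 2)
    have h2 := (tendsto_const_nhds (x := (1 : ℝ)) (f := atTop (α := ℕ))).sub h1
    simpa using h2
  have upp : ∀ᶠ x : ℕ in atTop, (NT T n x : ℝ) * Real.log x ^ (n + 1) / x ≤
      ((∑ p ∈ Finset.range (x + 1), W p) / x) *
        (1 / (1 - (n + 2) * (Real.log (Real.log (x : ℝ)) / Real.log x))) ^ (n + 1) +
        (((Q : ℝ) + 1) * (Real.log x ^ (n + 1) / x) + 1 / Real.log x) := by
    filter_upwards [eventually_ge_atTop (max Q 2), tL.eventually_gt_atTop 0,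
      tlogy.eventually (lt_mem_nhds (show (0 : ℝ) < 1 by norm_num))] with x hx hL hy
    have hx0 : (0 : ℝ) < x := by
      have : 0 < x := lt_of_lt_of_le (by omega) (le_trans (le_max_right _ _) hx)
      exact_mod_cast this
    set L : ℝ := Real.log x with hLdef
    set y : ℝ := x / L ^ (n + 2) with hydef
    have hy0 : 0 < y := by positivity
    have hlogy : Real.log y = L * (1 - (n + 2) * (Real.log L / L)) := by
      rw [hydef, Real.log_div hx0.ne' (by positivity), Real.log_pow, ← hLdef]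
      push_cast
      field_simp
    have hlogy0 : 0 < Real.log y := by
      rw [hlogy]
      exact mul_pos hL hy
    set z : ℕ := Q + ⌊y⌋₊ + 1 with hz
    have hcount : (NT T n x : ℝ) ≤ z + ((Finset.range (x + 1)).filter
        (fun p => z ≤ p ∧ ∀ i ≤ n, (T^[i] p).Prime)).card := by
      have hsub : (Finset.range (x + 1)).filter (fun p => ∀ i ≤ n, (T^[i] p).Prime) ⊆
          Finset.range z ∪ (Finset.range (x + 1)).filter
            (fun p => z ≤ p ∧ ∀ i ≤ n, (T^[i] p).Prime) := by
        intro p hp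
        rw [Finset.mem_filter] at hp
        rw [Finset.mem_union, Finset.mem_filter, Finset.mem_range]
        by_cases hpz : p < z
        · exact Or.inl hpz
        · exact Or.inr ⟨hp.1, by omega, hp.2⟩
      have h1 := (Finset.card_le_card hsub).trans (Finset.card_union_le _ _)
      rw [Finset.card_range] at h1
      unfold NT
      exact_mod_cast h1
    have hsum : (((Finset.range (x + 1)).filter
        (fun p => z ≤ p ∧ ∀ i ≤ n, (T^[i] p).Prime)).card : ℝ) * Real.log y ^ (n + 1) ≤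
        ∑ p ∈ Finset.range (x + 1), W p := by
      rw [← nsmul_eq_mul, ← Finset.sum_const]
      refine le_trans (Finset.sum_le_sum (g := W) ?_)
        (Finset.sum_le_sum_of_subset_of_nonneg (Finset.filter_subset _ _) fun p _ _ => hW0 p)
      intro p hp
      rw [Finset.mem_filter] at hp
      obtain ⟨-, hpz, hG⟩ := hp
      have hpQ : Q ≤ p := by omega
      refine le_trans ?_ (DetBX_lower hQ1 hQ n hpQ hG)
      refine pow_le_pow_left₀ hlogy0.le (Real.log_le_log hy0 ?_) _
      have h1 : y < ⌊y⌋₊ + 1 := Nat.lt_floor_add_one y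
      have h2 : ((⌊y⌋₊ + 1 : ℕ) : ℝ) ≤ p := by exact_mod_cast (by omega : ⌊y⌋₊ + 1 ≤ p)
      push_cast at h2
      linarith
    have hzr : (z : ℝ) ≤ Q + 1 + y := by
      have h1 : (⌊y⌋₊ : ℝ) ≤ y := Nat.floor_le hy0.le
      rw [hz]
      push_cast
      linarith
    have hLy : 0 < Real.log y ^ (n + 1) := by positivity
    have hN : (NT T n x : ℝ) ≤ Q + 1 + y +
        (∑ p ∈ Finset.range (x + 1), W p) / Real.log y ^ (n + 1) := by
      have h1 := (le_div_iff₀ hLy).2 hsum
      linarith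
    have e1 : (1 / (1 - (n + 2) * (Real.log L / L))) ^ (n + 1) =
        L ^ (n + 1) / Real.log y ^ (n + 1) := by
      rw [← div_pow, hlogy]
      congr 1
      have hy' : (1 - (n + 2) * (Real.log L / L)) ≠ 0 := hy.ne'
      rw [div_mul_eq_div_div, div_self hL.ne']
    have e2 : 1 / L = y * (L ^ (n + 1) / x) := by
      rw [hydef]
      field_simp
      ring
    rw [e1, e2]
    have h5 : (0 : ℝ) ≤ L ^ (n + 1) / x := by positivity
    calc (NT T n x : ℝ) * L ^ (n + 1) / x = NT T n x * (L ^ (n + 1) / x) := by ring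
      _ ≤ (Q + 1 + y + (∑ p ∈ Finset.range (x + 1), W p) / Real.log y ^ (n + 1)) *
          (L ^ (n + 1) / x) := mul_le_mul_of_nonneg_right hN h5
      _ = _ := by ring
  have upplim : Tendsto (fun x : ℕ => ((∑ p ∈ Finset.range (x + 1), W p) / x) *
        (1 / (1 - (n + 2) * (Real.log (Real.log (x : ℝ)) / Real.log x))) ^ (n + 1) +
        (((Q : ℝ) + 1) * (Real.log x ^ (n + 1) / x) + 1 / Real.log x)) atTop (𝓝 κ) := by
    have h1 : Tendsto (fun x : ℕ =>
        (1 / (1 - (n + 2) * (Real.log (Real.log (x : ℝ)) / Real.log x))) ^ (n + 1)) atTop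
        (𝓝 ((1 / 1) ^ (n + 1))) :=
      (tendsto_const_nhds.div tlogy (by norm_num)).pow (n + 1)
    have h2 := (tpow (n + 1)).const_mul ((Q : ℝ) + 1)
    have h3 : Tendsto (fun x : ℕ => 1 / Real.log (x : ℝ)) atTop (𝓝 0) := tL.const_div_atTop 1
    have h4 := (h.mul h1).add (h2.add h3)
    simpa using h4
  exact tendsto_of_tendsto_of_tendsto_of_le_of_le' lowlim upplim low upp

open Classical in
private theorem DetBX_card {T T' : ℕ → ℕ} {P n : ℕ}
    (h : ∀ p ≥ P, ∀ i, T'^[i] p = T^[i] p) (x : ℕ) :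
    NT T' n x ≤ NT T n x + P := by
  unfold NT
  have hsub : (Finset.range (x + 1)).filter (fun p => ∀ i ≤ n, (T'^[i] p).Prime) ⊆
      (Finset.range (x + 1)).filter (fun p => ∀ i ≤ n, (T^[i] p).Prime) ∪ Finset.range P := by
    intro p hp
    rw [Finset.mem_filter] at hp
    rw [Finset.mem_union, Finset.mem_filter]
    by_cases hpP : p < P
    · exact Or.inr (Finset.mem_range.2 hpP)
    · push Not at hpP
      refine Or.inl ⟨hp.1, fun i hi => ?_⟩
      rw [← h p hpP i]
      exact hp.2 i hi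
  have h1 := (Finset.card_le_card hsub).trans (Finset.card_union_le _ _)
  rwa [Finset.card_range] at h1

theorem nt_congr (T T' : ℕ → ℕ) (hT : Tendsto (fun q : ℕ => (T q : ℝ) / q) atTop (𝓝 2))
    (Q : ℕ) (hQ : ∀ q ≥ Q, T q = T' q) (n : ℕ) (κ : ℝ)
    (h : Tendsto (fun x : ℕ => (NT T n x : ℝ) * Real.log x ^ (n + 1) / x) atTop (𝓝 κ)) :
    Tendsto (fun x : ℕ => (NT T' n x : ℝ) * Real.log x ^ (n + 1) / x) atTop (𝓝 κ) := by
  obtain ⟨P, hP⟩ := iter_large hT Q
  have hc : ∀ p ≥ P, ∀ i, T'^[i] p = T^[i] p := by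
    intro p hp i
    induction i with
    | zero => rfl
    | succ i ih =>
      rw [Function.iterate_succ_apply', Function.iterate_succ_apply', ih]
      exact (hQ _ (hP p hp i)).symm
  have hd : Tendsto (fun x : ℕ => (NT T' n x : ℝ) * Real.log x ^ (n + 1) / x -
      (NT T n x : ℝ) * Real.log x ^ (n + 1) / x) atTop (𝓝 0) := by
    have tX : Tendsto (fun x : ℕ => (x : ℝ)) atTop atTop := tendsto_natCast_atTop_atTop
    have h1 : Tendsto (fun x : ℕ => (P : ℝ) * (Real.log (x : ℝ) ^ (n + 1) / x)) atTop (𝓝 0) := by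
      have h2 := ((Real.isLittleO_pow_log_id_atTop (n := n + 1)).tendsto_div_nhds_zero).comp tX
      have h3 := h2.const_mul (P : ℝ)
      simpa using h3
    refine squeeze_zero_norm (fun x => ?_) h1
    have h4 : (NT T' n x : ℝ) ≤ NT T n x + P := by exact_mod_cast DetBX_card hc x
    have h5 : (NT T n x : ℝ) ≤ NT T' n x + P := by
      exact_mod_cast DetBX_card (fun p hp i => (hc p hp i).symm) x
    have h6 : (0 : ℝ) ≤ Real.log (x : ℝ) ^ (n + 1) / x :=
      div_nonneg (pow_nonneg (Real.log_natCast_nonneg x) _) (Nat.cast_nonneg x)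
    rw [show (NT T' n x : ℝ) * Real.log x ^ (n + 1) / x -
      (NT T n x : ℝ) * Real.log x ^ (n + 1) / x =
      ((NT T' n x : ℝ) - NT T n x) * (Real.log (x : ℝ) ^ (n + 1) / x) by ring,
      norm_mul, Real.norm_eq_abs, Real.norm_eq_abs, abs_of_nonneg h6]
    refine mul_le_mul_of_nonneg_right ?_ h6
    rw [abs_le]
    constructor <;> linarith
  have h7 := h.add hd
  simpa using h7

/-- the map with the modulus function is `2q + o(q)` -/
theorem TZ_two {Z : ℕ → ℕ} (hZ : ∀ᶠ q : ℕ in atTop, (MM Z q : ℝ) ≤ Real.log q) {S : ℕ → ℝ}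
    (hS : Tendsto (fun q : ℕ => S q / q) atTop (𝓝 0)) :
    Tendsto (fun q : ℕ => (TZ Z S q : ℝ) / q) atTop (𝓝 2) := by
  have tX : Tendsto (fun x : ℕ => (x : ℝ)) atTop atTop := tendsto_natCast_atTop_atTop
  have tlog : Tendsto (fun x : ℕ => Real.log (x : ℝ) / x) atTop (𝓝 0) := by
    have h2 := ((Real.isLittleO_pow_log_id_atTop (n := 1)).tendsto_div_nhds_zero).comp tX
    simpa using! h2
  have tone : Tendsto (fun x : ℕ => 1 / (x : ℝ)) atTop (𝓝 0) := tX.const_div_atTop 1
  have tb : Tendsto (fun q : ℕ => 1 / (q : ℝ) + |S q / q| + Real.log q / q) atTop (𝓝 0) := by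
    have h1 := (tone.add hS.abs).add tlog
    simpa using h1
  have hev : ∀ᶠ q : ℕ in atTop, ‖(TZ Z S q : ℝ) / q - 2‖ ≤
      1 / (q : ℝ) + |S q / q| + Real.log q / q := by
    filter_upwards [hZ, eventually_gt_atTop 0,
      tb.eventually (gt_mem_nhds (show (0 : ℝ) < 1 by norm_num))] with q hM hq hb
    have hq0 : (0 : ℝ) < q := by exact_mod_cast hq
    have hMpos : (0 : ℝ) < MM Z q := by
      have : 0 < MM Z q := QQ_pos _
      exact_mod_cast this
    set M : ℕ := MM Z q with hMdef
    have f1 := Int.floor_le (S q / M)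
    have f2 := Int.lt_floor_add_one (S q / M)
    have g1 : (M : ℝ) * ⌊S q / M⌋ ≤ S q := by
      have h1 := mul_le_mul_of_nonneg_left f1 hMpos.le
      rwa [mul_div_cancel₀ _ hMpos.ne'] at h1
    have g2 : S q - M < (M : ℝ) * ⌊S q / M⌋ := by
      have h1 := mul_lt_mul_of_pos_left f2 hMpos
      rw [mul_div_cancel₀ _ hMpos.ne'] at h1
      linarith
    have e1 : |S q / q| = |S q| / q := by rw [abs_div, abs_of_pos hq0]
    rw [e1] at hb ⊢
    have hb' : 1 + |S q| + Real.log q < q := by
      rw [← add_div, ← add_div, div_lt_one hq0] at hb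
      exact hb
    have a1 := neg_abs_le (S q)
    have a2 := le_abs_self (S q)
    have z1 : (0 : ℤ) ≤ 2 * (q : ℤ) + 1 + M * ⌊S q / M⌋ := by
      have : (0 : ℝ) ≤ 2 * (q : ℝ) + 1 + M * ⌊S q / M⌋ := by linarith
      exact_mod_cast this
    have e2 : (TZ Z S q : ℝ) = 2 * (q : ℝ) + 1 + M * ⌊S q / M⌋ := by
      have h1 : (TZ Z S q : ℤ) = 2 * (q : ℤ) + 1 + M * ⌊S q / M⌋ := by
        unfold TZ Tr
        exact Int.toNat_of_nonneg z1
      exact_mod_cast h1
    rw [e2, ← add_div, ← add_div, Real.norm_eq_abs]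
    have e3 : (2 * (q : ℝ) + 1 + M * ⌊S q / M⌋) / q - 2 = (1 + M * ⌊S q / M⌋) / q := by
      field_simp
      ring
    rw [e3, abs_div, abs_of_pos hq0]
    refine div_le_div_of_nonneg_right ?_ hq0.le
    rw [abs_le]
    constructor <;> linarith
  have h3 := squeeze_zero_norm' hev tb
  have h4 := h3.add_const 2
  simpa using h4

end Pool.Agent.PCx
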