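import Mathlib

/-!
# From windows to all `x` (deterministic), with exceptional windows

Fix `l ≥ 10`, `r = 1 + 1/l`, `f(x) = ∑_{p ≤ x} w p`, `V_k = f(r^(k+1)) - f(r^k)` (the sum over the window), `D = 3 (κ+1)/l`.
`f(r^J)/r^J = f(1)/r^J + ∑_{k<J} r^(k-J) (κ/l + e_k)`, `∑_{k<J} r^(k-J) κ/l → κ`; `|e_k| ≤ δ_k → 0` for `k` not in `E`
and `|e_k| ≤ D` for large `k` in `E` (as `0 ≤ V_k/r^k ≤ D`, `κ/l ≤ D`).  For every `R`, the `k ∈ E` with `J - R ≤ k` contribute at most `K D`, those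
with `k < J - R` at most `D r^(-R)/(r-1)`.  So `limsup |f(r^J)/r^J - κ| ≤ K D = 3 K (κ+1)/l` (`R → ∞`).  For `r^J ≤ x < r^(J+1)`:
`f(r^J)/r^(J+1) ≤ f(x)/x ≤ f(r^(J+1))/r^J`.  Let `l → ∞`.  (See `Pool/Agent/PCn/DetA.lean` for the case without exceptions.)
-/

set_option linter.all false
namespace Pool.Agent.PCx

open Filter Topology

private noncomputable def DetX_f (w : ℕ → ℝ) (x : ℝ) : ℝ :=
  ∑ p ∈ Finset.range (⌊x⌋₊ + 1), w p

private theorem DetX_step (w : ℕ → ℝ) {x y : ℝ} (h : x ≤ y) :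
    DetX_f w y = DetX_f w x + ∑ p ∈ Finset.Ioc ⌊x⌋₊ ⌊y⌋₊, w p := by
  unfold DetX_f
  have h1 : ⌊x⌋₊ ≤ ⌊y⌋₊ := Nat.floor_le_floor h
  have h2 : Finset.Ioc ⌊x⌋₊ ⌊y⌋₊ = Finset.Ico (⌊x⌋₊ + 1) (⌊y⌋₊ + 1) := by
    ext k
    rw [Finset.mem_Ioc, Finset.mem_Ico]
    omega
  rw [h2, Finset.sum_range_add_sum_Ico _ (by omega)]

open Classical in
private theorem DetX_ind {q c δ D : ℝ} {E : Set ℕ} (hq0 : 0 ≤ q) (hq1 : q ≤ 1)
    (hc0 : 0 ≤ c) (hc : q * (c + 1) = c) (hδ : 0 ≤ δ) (hD : 0 ≤ D) {g e : ℕ → ℝ}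
    (hg : ∀ j, |g (j + 1)| ≤ q * |g j| + q * e j) {k0 : ℕ} (he : ∀ k ≥ k0, e k ≤ D)
    (he2 : ∀ k ≥ k0, k ∉ E → e k ≤ δ) (j : ℕ) (hj : k0 ≤ j) (m : ℕ) :
    |g (j + m)| ≤ q ^ m * |g j| + δ * c +
      D * ∑ k ∈ Finset.Ico j (j + m), (if k ∈ E then (1 : ℝ) else 0) := by
  induction m with
  | zero =>
    have : 0 ≤ δ * c := mul_nonneg hδ hc0
    simp
    linarith
  | succ m ih =>
    have h1 := hg (j + m)
    have h2 : e (j + m) ≤ δ + D * (if j + m ∈ E then (1 : ℝ) else 0) := by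
      split_ifs with hE
      · have := he (j + m) (by omega)
        linarith
      · have := he2 (j + m) (by omega) hE
        linarith
    have h3 : q * |g (j + m)| ≤ q * (q ^ m * |g j| + δ * c +
      D * ∑ k ∈ Finset.Ico j (j + m), (if k ∈ E then (1 : ℝ) else 0)) :=
      mul_le_mul_of_nonneg_left ih hq0
    have h4 : q * e (j + m) ≤ q * (δ + D * (if j + m ∈ E then (1 : ℝ) else 0)) :=
      mul_le_mul_of_nonneg_left h2 hq0
    have e1 : j + (m + 1) = j + m + 1 := by omega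
    rw [e1, Finset.sum_Ico_succ_top (by omega), pow_succ]
    set A := ∑ k ∈ Finset.Ico j (j + m), (if k ∈ E then (1 : ℝ) else 0) with hA
    have hA0 : 0 ≤ A := Finset.sum_nonneg fun k _ => by split_ifs <;> norm_num
    set b := (if j + m ∈ E then (1 : ℝ) else 0) with hb
    have hb0 : 0 ≤ b := by rw [hb]; split_ifs <;> norm_num
    have h5 : q * (D * A) ≤ D * A := by
      have : 0 ≤ D * A := mul_nonneg hD hA0
      nlinarith
    have h6 : q * (D * b) ≤ D * b := by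
      have : 0 ≤ D * b := mul_nonneg hD hb0
      nlinarith
    have h7 : q * (δ * c) + q * δ = δ * c := by
      calc q * (δ * c) + q * δ = δ * (q * (c + 1)) := by ring
        _ = δ * c := by rw [hc]
    nlinarith

open Classical in
private theorem DetX_lim (w : ℕ → ℝ) (hw : ∀ p, 0 ≤ w p) (κ K : ℝ) (hκ : 0 ≤ κ) (hK : 0 ≤ K)
    {l : ℕ} (hl : 10 ≤ l) (E : Set ℕ)
    (h1 : ∀ R : ℕ, ∀ᶠ J : ℕ in atTop,
        (((Finset.Icc (J - R) J).filter (fun k => k ∈ E)).card : ℝ) ≤ K)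
    (h2 : ∀ δ : ℝ, 0 < δ → ∀ᶠ k : ℕ in atTop, k ∉ E →
        |(∑ p ∈ Finset.Ioc ⌊(1 + 1 / (l : ℝ)) ^ k⌋₊ ⌊(1 + 1 / (l : ℝ)) ^ (k + 1)⌋₊, w p) /
          (1 + 1 / (l : ℝ)) ^ k - κ * (1 / (l : ℝ))| ≤ δ)
    (h3 : ∀ᶠ k : ℕ in atTop,
        (∑ p ∈ Finset.Ioc ⌊(1 + 1 / (l : ℝ)) ^ k⌋₊ ⌊(1 + 1 / (l : ℝ)) ^ (k + 1)⌋₊, w p) /
          (1 + 1 / (l : ℝ)) ^ k ≤ 3 * (κ + 1) * (1 / (l : ℝ)))
    (η : ℝ) (hη : 0 < η) :
    ∃ J0 : ℕ, ∀ J ≥ J0, |DetX_f w ((1 + 1 / (l : ℝ)) ^ J) / (1 + 1 / (l : ℝ)) ^ J - κ| ≤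
      K * (3 * (κ + 1) * (1 / (l : ℝ))) + η := by
  have hl0 : (0 : ℝ) < l := by
    have : 0 < l := by omega
    exact_mod_cast this
  obtain ⟨r, hr⟩ : ∃ r : ℝ, r = 1 + 1 / (l : ℝ) := ⟨_, rfl⟩
  have hr1 : 1 < r := by
    rw [hr]
    have : 0 < 1 / (l : ℝ) := by positivity
    linarith
  have hr0 : 0 < r := by linarith
  rw [← hr] at h2 h3 ⊢
  obtain ⟨D, hD⟩ : ∃ D : ℝ, D = 3 * (κ + 1) * (1 / (l : ℝ)) := ⟨_, rfl⟩
  have hD0 : 0 ≤ D := by rw [hD]; positivity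
  rw [← hD] at h3 ⊢
  have hk : 1 / (l : ℝ) = r - 1 := by rw [hr]; ring
  obtain ⟨q, hq⟩ : ∃ q : ℝ, q = r⁻¹ := ⟨_, rfl⟩
  have hq0 : 0 < q := by rw [hq]; positivity
  have hq1 : q < 1 := by rw [hq]; exact inv_lt_one_of_one_lt₀ hr1
  have hqc : q * ((l : ℝ) + 1) = l := by
    rw [hq, hr]
    field_simp
  -- the sequences
  obtain ⟨V, hV⟩ : ∃ V : ℕ → ℝ, V = fun k =>
    (∑ p ∈ Finset.Ioc ⌊r ^ k⌋₊ ⌊r ^ (k + 1)⌋₊, w p) / r ^ k := ⟨_, rfl⟩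
  obtain ⟨g, hgd⟩ : ∃ g : ℕ → ℝ, g = fun j => DetX_f w (r ^ j) / r ^ j - κ := ⟨_, rfl⟩
  have hV0 : ∀ k, 0 ≤ V k := fun k => by
    rw [hV]
    exact div_nonneg (Finset.sum_nonneg fun p _ => hw p) (by positivity)
  have hg : ∀ j, |g (j + 1)| ≤ q * |g j| + q * |V j - κ * (1 / (l : ℝ))| := by
    intro j
    have h5 : DetX_f w (r ^ (j + 1)) = DetX_f w (r ^ j) +
        ∑ p ∈ Finset.Ioc ⌊r ^ j⌋₊ ⌊r ^ (j + 1)⌋₊, w p :=
      DetX_step w (pow_le_pow_right₀ hr1.le (Nat.le_succ j))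
    have h6 : g (j + 1) = q * g j + q * (V j - κ * (1 / (l : ℝ))) := by
      rw [hgd, hV, hk, hq]
      simp only
      rw [h5, pow_succ]
      have : r ^ j ≠ 0 := by positivity
      field_simp
      ring
    rw [h6]
    refine le_trans (abs_add_le _ _) (le_of_eq ?_)
    rw [abs_mul, abs_mul, abs_of_pos hq0]
  have hκD : κ * (1 / (l : ℝ)) ≤ D := by
    rw [hD]
    apply mul_le_mul_of_nonneg_right _ (by positivity)
    linarith
  have hκ0 : 0 ≤ κ * (1 / (l : ℝ)) := by positivity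
  obtain ⟨k1, hk1⟩ := eventually_atTop.mp h3
  have he : ∀ k ≥ k1, |V k - κ * (1 / (l : ℝ))| ≤ D := by
    intro k hk
    have h5 : V k ≤ D := by
      rw [hV]
      exact hk1 k hk
    have := hV0 k
    rw [abs_le]
    constructor <;> linarith
  -- boundedness
  obtain ⟨B, hB⟩ : ∃ B : ℝ, B = max |g k1| (D * l) := ⟨_, rfl⟩
  have hB0 : 0 ≤ B := by rw [hB]; exact le_max_of_le_left (abs_nonneg _)
  have hbdd : ∀ m, |g (k1 + m)| ≤ B := by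
    intro m
    induction m with
    | zero => rw [hB]; exact le_max_left _ _
    | succ m ih =>
      have h5 := hg (k1 + m)
      have h6 := he (k1 + m) (by omega)
      have h7 : D * l ≤ B := by rw [hB]; exact le_max_right _ _
      have e1 : k1 + (m + 1) = k1 + m + 1 := by omega
      rw [e1]
      have h8 : q * |g (k1 + m)| ≤ q * B := mul_le_mul_of_nonneg_left ih hq0.le
      have h9 : q * |V (k1 + m) - κ * (1 / (l : ℝ))| ≤ q * D := mul_le_mul_of_nonneg_left h6 hq0.le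
      -- q (B + D) ≤ B
      have h10 : q * D ≤ (1 - q) * B := by
        have h11 : (1 - q) * (D * l) ≤ (1 - q) * B := mul_le_mul_of_nonneg_left h7 (by linarith)
        have h12 : (1 - q) * (D * l) = q * D := by
          have : (1 - q) * l = q := by linarith
          calc (1 - q) * (D * l) = ((1 - q) * l) * D := by ring
            _ = q * D := by rw [this]
        linarith
      linarith
  -- choose R and δ
  obtain ⟨R, hR⟩ : ∃ R : ℕ, q ^ R * B ≤ η / 2 := by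
    have h5 : Tendsto (fun m : ℕ => q ^ m * B) atTop (𝓝 0) := by
      have h6 := (tendsto_pow_atTop_nhds_zero_of_lt_one hq0.le hq1).mul_const B
      rwa [zero_mul] at h6
    exact (h5.eventually_le_const (half_pos hη)).exists
  obtain ⟨δ, hδ⟩ : ∃ δ : ℝ, δ = η / (2 * l) := ⟨_, rfl⟩
  have hδ0 : 0 < δ := by rw [hδ]; positivity
  obtain ⟨k2, hk2⟩ := eventually_atTop.mp (h2 δ hδ0)
  obtain ⟨J1, hJ1⟩ := eventually_atTop.mp (h1 R)
  refine ⟨max (max k1 k2 + R) J1, fun J hJ => ?_⟩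
  have hJa : max k1 k2 + R ≤ J := le_trans (le_max_left _ _) hJ
  have hJb : J1 ≤ J := le_trans (le_max_right _ _) hJ
  obtain ⟨j, rfl⟩ : ∃ j, J = j + R := ⟨J - R, by omega⟩
  have hj : max k1 k2 ≤ j := by omega
  have h5 := DetX_ind (E := E) (k0 := max k1 k2) hq0.le hq1.le hl0.le hqc hδ0.le hD0 hg
    (fun k hk => he k ((le_max_left _ _).trans hk))
    (fun k hk hkE => by
      have := hk2 k ((le_max_right _ _).trans hk) hkE
      rw [hV]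
      exact this) j hj R
  have h6 : (∑ k ∈ Finset.Ico j (j + R), (if k ∈ E then (1 : ℝ) else 0)) ≤ K := by
    rw [Finset.sum_boole]
    refine le_trans ?_ (hJ1 (j + R) hJb)
    norm_cast
    apply Finset.card_le_card
    intro k hk
    rw [Finset.mem_filter, Finset.mem_Ico] at hk
    rw [Finset.mem_filter, Finset.mem_Icc]
    exact ⟨⟨by omega, by omega⟩, hk.2⟩
  have h7 : |g j| ≤ B := by
    obtain ⟨m, rfl⟩ : ∃ m, j = k1 + m := ⟨j - k1, by omega⟩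
    exact hbdd m
  have h8 : q ^ R * |g j| ≤ η / 2 :=
    (mul_le_mul_of_nonneg_left h7 (by positivity)).trans hR
  have h9 : δ * l = η / 2 := by
    rw [hδ]; field_simp
  have h10 : D * (∑ k ∈ Finset.Ico j (j + R), (if k ∈ E then (1 : ℝ) else 0)) ≤ D * K :=
    mul_le_mul_of_nonneg_left h6 hD0
  have h11 : g (j + R) = DetX_f w (r ^ (j + R)) / r ^ (j + R) - κ := by rw [hgd]
  rw [← h11]
  linarith

open Classical in
theorem det_x (w : ℕ → ℝ) (hw : ∀ p, 0 ≤ w p) (κ K : ℝ) (hκ : 0 ≤ κ) (hK : 0 ≤ K)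
    (h : ∀ l : ℕ, 10 ≤ l → ∃ E : Set ℕ,
      (∀ R : ℕ, ∀ᶠ J : ℕ in atTop,
        (((Finset.Icc (J - R) J).filter (fun k => k ∈ E)).card : ℝ) ≤ K) ∧
      (∀ δ : ℝ, 0 < δ → ∀ᶠ k : ℕ in atTop, k ∉ E →
        |(∑ p ∈ Finset.Ioc ⌊(1 + 1 / (l : ℝ)) ^ k⌋₊ ⌊(1 + 1 / (l : ℝ)) ^ (k + 1)⌋₊, w p) /
          (1 + 1 / (l : ℝ)) ^ k - κ * (1 / (l : ℝ))| ≤ δ) ∧
      (∀ᶠ k : ℕ in atTop,
        (∑ p ∈ Finset.Ioc ⌊(1 + 1 / (l : ℝ)) ^ k⌋₊ ⌊(1 + 1 / (l : ℝ)) ^ (k + 1)⌋₊, w p) /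
          (1 + 1 / (l : ℝ)) ^ k ≤ 3 * (κ + 1) * (1 / (l : ℝ)))) :
    Tendsto (fun x : ℕ => (∑ p ∈ Finset.range (x + 1), w p) / x) atTop (𝓝 κ) := by
  have hfpos : ∀ x : ℝ, 0 ≤ DetX_f w x := fun x => Finset.sum_nonneg fun p _ => hw p
  rw [Metric.tendsto_atTop]
  intro ε hε
  obtain ⟨l₀, hl₀⟩ := exists_nat_gt (max (4 * κ / ε) (24 * (K * (κ + 1)) / ε))
  obtain ⟨l, hl⟩ : ∃ l : ℕ, l = max l₀ 10 := ⟨_, rfl⟩
  have hl10 : 10 ≤ l := by omega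
  have hll : l₀ ≤ l := by omega
  have hl0 : (10 : ℝ) ≤ l := by exact_mod_cast hl10
  have hlpos : (0 : ℝ) < l := by linarith
  have hlgt : max (4 * κ / ε) (24 * (K * (κ + 1)) / ε) < l :=
    lt_of_lt_of_le hl₀ (by exact_mod_cast hll)
  have hκl : κ * (1 / (l : ℝ)) < ε / 4 := by
    have h1 : 4 * κ / ε < l := lt_of_le_of_lt (le_max_left _ _) hlgt
    rw [div_lt_iff₀ hε] at h1
    rw [mul_one_div, div_lt_iff₀ hlpos]
    linarith
  have hKl : K * (3 * (κ + 1) * (1 / (l : ℝ))) < ε / 8 := by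
    have h1 : 24 * (K * (κ + 1)) / ε < l := lt_of_le_of_lt (le_max_right _ _) hlgt
    rw [div_lt_iff₀ hε] at h1
    have e : K * (3 * (κ + 1) * (1 / (l : ℝ))) = 3 * (K * (κ + 1)) / l := by ring
    rw [e, div_lt_iff₀ hlpos]
    linarith
  obtain ⟨E, hE1, hE2, hE3⟩ := h l hl10
  obtain ⟨J, hJ⟩ := DetX_lim w hw κ K hκ hK hl10 E hE1 hE2 hE3 (ε / 16) (by positivity)
  obtain ⟨s, hs⟩ : ∃ s : ℝ, s = 1 / (l : ℝ) := ⟨_, rfl⟩
  have hs0 : 0 < s := by rw [hs]; positivity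
  have hs1 : s ≤ 1 / 10 := by
    rw [hs]
    exact one_div_le_one_div_of_le (by norm_num) hl0
  rw [← hs] at hJ hκl hKl
  obtain ⟨r, hr⟩ : ∃ r : ℝ, r = 1 + s := ⟨_, rfl⟩
  rw [← hr] at hJ
  have hr1 : 1 < r := by rw [hr]; linarith
  have hr0 : 0 < r := by linarith
  obtain ⟨x₀, hx₀⟩ := exists_nat_gt (r ^ J)
  refine ⟨max x₀ 1, fun x hx => ?_⟩
  have hx1 : 1 ≤ x := le_trans (le_max_right _ _) hx
  have hx0' : x₀ ≤ x := le_trans (le_max_left _ _) hx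
  have hxJ : r ^ J < (x : ℝ) := lt_of_lt_of_le hx₀ (by exact_mod_cast hx0')
  have hx1' : (1 : ℝ) ≤ x := by exact_mod_cast hx1
  have hxpos : (0 : ℝ) < x := by linarith
  obtain ⟨j, hj1, hj2⟩ := exists_nat_pow_near hx1' hr1
  have hjJ : J ≤ j := by
    by_contra hlt
    have h1 : r ^ (j + 1) ≤ r ^ J := pow_le_pow_right₀ hr1.le (by omega)
    linarith
  have hfx : ∑ p ∈ Finset.range (x + 1), w p = DetX_f w (x : ℝ) := by
    unfold DetX_f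
    rw [Nat.floor_natCast]
  have hlow : DetX_f w (r ^ j) ≤ DetX_f w (x : ℝ) := by
    rw [DetX_step w hj1]
    have := Finset.sum_nonneg (s := Finset.Ioc ⌊r ^ j⌋₊ ⌊(x : ℝ)⌋₊) fun p _ => hw p
    linarith
  have hup : DetX_f w (x : ℝ) ≤ DetX_f w (r ^ (j + 1)) := by
    rw [DetX_step w hj2.le]
    have := Finset.sum_nonneg (s := Finset.Ioc ⌊(x : ℝ)⌋₊ ⌊r ^ (j + 1)⌋₊) fun p _ => hw p
    linarith
  have hg1 := hJ j hjJ
  have hg2 := hJ (j + 1) (by omega)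
  obtain ⟨g1, hg1'⟩ : ∃ g, g = DetX_f w (r ^ j) / r ^ j := ⟨_, rfl⟩
  obtain ⟨g2, hg2'⟩ : ∃ g, g = DetX_f w (r ^ (j + 1)) / r ^ (j + 1) := ⟨_, rfl⟩
  rw [← hg1'] at hg1
  rw [← hg2'] at hg2
  have hg1 : |g1 - κ| < ε / 4 := by linarith
  have hg2 : |g2 - κ| < ε / 4 := by linarith
  have hrj : 0 < r ^ j := by positivity
  have hrj1 : 0 < r ^ (j + 1) := by positivity
  have e1 : DetX_f w (r ^ j) = g1 * r ^ j := by
    rw [hg1', div_mul_cancel₀ _ hrj.ne']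
  have e2 : DetX_f w (r ^ (j + 1)) = g2 * r ^ (j + 1) := by
    rw [hg2', div_mul_cancel₀ _ hrj1.ne']
  have hg10 : 0 ≤ g1 := by
    rw [hg1']
    exact div_nonneg (hfpos _) hrj.le
  have hg20 : 0 ≤ g2 := by
    rw [hg2']
    exact div_nonneg (hfpos _) hrj1.le
  have u1 : DetX_f w (x : ℝ) / x ≤ g2 * r := by
    rw [div_le_iff₀ hxpos]
    calc DetX_f w (x : ℝ) ≤ g2 * r ^ (j + 1) := by rw [← e2]; exact hup
      _ = g2 * r * r ^ j := by rw [pow_succ]; ring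
      _ ≤ g2 * r * x := mul_le_mul_of_nonneg_left hj1 (mul_nonneg hg20 hr0.le)
  have u2 : g1 * (1 - s) ≤ DetX_f w (x : ℝ) / x := by
    rw [le_div_iff₀ hxpos]
    have h1 : (1 - s) * x ≤ r ^ j := by
      have h2 : (1 - s) * r ≤ 1 := by
        rw [hr]
        nlinarith
      have h3 : 0 ≤ 1 - s := by linarith
      calc (1 - s) * x ≤ (1 - s) * (r ^ (j + 1)) := mul_le_mul_of_nonneg_left hj2.le h3
        _ = ((1 - s) * r) * r ^ j := by rw [pow_succ]; ring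
        _ ≤ 1 * r ^ j := mul_le_mul_of_nonneg_right h2 hrj.le
        _ = r ^ j := one_mul _
    calc g1 * (1 - s) * x = g1 * ((1 - s) * x) := by ring
      _ ≤ g1 * r ^ j := mul_le_mul_of_nonneg_left h1 hg10
      _ ≤ DetX_f w (x : ℝ) := by rw [← e1]; exact hlow
  rw [Real.dist_eq, hfx, abs_lt]
  rw [abs_lt] at hg1 hg2
  have hks : κ * s < ε / 4 := hκl
  constructor
  · have h1 : g1 * s ≤ (κ + ε / 4) * s := mul_le_mul_of_nonneg_right (by linarith) hs0.le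
    nlinarith
  · have h1 : g2 * s ≤ (κ + ε / 4) * s := mul_le_mul_of_nonneg_right (by linarith) hs0.le
    rw [hr] at u1
    nlinarith

end Pool.Agent.PCx
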