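import Pool.Agent.PCx.Bas

/-!
# The constants `kapL`: one new prime

`kapL_const`: if all the moduli are `M = B`, then `gg M μ r i x = ∏_{s=1}^r (M/φ(M)) 1[2^s (x+1) - 1 prime to M]` (induction on `r`; the
only `b < M` with `b ≡ 2x + 1` is `(2x+1) % M`, and `2^s (b + 1) - 1 ≡ 2^(s+1) (x+1) - 1`), and the sum over `b` counts the `b < M` with
`2^s (b+1) - 1` prime to `M` for `0 ≤ s ≤ n`.
`facX`: `B = M ℓ`.  The constants are multiplicative (`FacX_gg_mul`, Chinese remainder theorem): `kapL (M ℓ) μ = kapL M M * kapL ℓ μ2` with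
`μ2 i = 1` for `i < i1` and `μ2 i = ℓ` for `i ≥ i1`.  For `i ≥ i1` the factor at `ℓ` is given by `FacX_gg_const`; for `i < i1` it is the mean
value of the one at level `i1`, which passes unchanged to the lower levels.
-/

namespace Pool.Agent.PCx

open Pool.Agent.PCn

private theorem FacX_gg_succ (B : ℕ) (μ : ℕ → ℕ) (r i x : ℕ) :
    gg B μ (r + 1) i x = (μ i : ℝ) / B.totient *
      ∑ b ∈ (Finset.range B).filter (fun b => Nat.Coprime b B ∧ b ≡ 2 * x + 1 [MOD μ i]),
        gg B μ r (i + 1) b := rfl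

/-- coprimality depends on the residue only -/
private theorem FacX_cop {a b m : ℕ} (h : a ≡ b [MOD m]) : Nat.Coprime a m ↔ Nat.Coprime b m := by
  unfold Nat.Coprime
  rw [h.gcd_eq]

/-- `gg` depends on the residue only -/
private theorem FacX_gg_congr {B : ℕ} {μ : ℕ → ℕ} (hμ : ∀ i, μ i ∣ B) (r i : ℕ) {x y : ℕ}
    (h : x ≡ y [MOD B]) : gg B μ r i x = gg B μ r i y := by
  cases r with
  | zero => rfl
  | succ r =>
    have h2 : 2 * x + 1 ≡ 2 * y + 1 [MOD μ i] := ((h.mul_left 2).add_right 1).of_dvd (hμ i)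
    have hf : (Finset.range B).filter (fun b => Nat.Coprime b B ∧ b ≡ 2 * x + 1 [MOD μ i]) =
        (Finset.range B).filter (fun b => Nat.Coprime b B ∧ b ≡ 2 * y + 1 [MOD μ i]) := by
      apply Finset.filter_congr
      intro b _
      constructor
      · rintro ⟨h1, h3⟩
        exact ⟨h1, h3.trans h2⟩
      · rintro ⟨h1, h3⟩
        exact ⟨h1, h3.trans h2.symm⟩
    simp only [gg]
    rw [hf]

/-- sums over a product modulus -/
private theorem FacX_sum_mul {B1 B2 m1 m2 c : ℕ} (hB1 : 0 < B1) (hB2 : 0 < B2)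
    (hcop : Nat.Coprime B1 B2) (h1 : m1 ∣ B1) (h2 : m2 ∣ B2) (g1 g2 : ℕ → ℝ)
    (hg1 : ∀ x y : ℕ, x ≡ y [MOD B1] → g1 x = g1 y) (hg2 : ∀ x y : ℕ, x ≡ y [MOD B2] → g2 x = g2 y) :
    ∑ b ∈ (Finset.range (B1 * B2)).filter
        (fun b => Nat.Coprime b (B1 * B2) ∧ b ≡ c [MOD m1 * m2]), g1 b * g2 b =
      (∑ b ∈ (Finset.range B1).filter (fun b => Nat.Coprime b B1 ∧ b ≡ c [MOD m1]), g1 b) *
      (∑ b ∈ (Finset.range B2).filter (fun b => Nat.Coprime b B2 ∧ b ≡ c [MOD m2]), g2 b) := by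
  have hm : Nat.Coprime m1 m2 := Nat.Coprime.of_dvd h1 h2 hcop
  rw [Finset.sum_mul_sum, ← Finset.sum_product']
  apply Finset.sum_nbij (fun b => (b % B1, b % B2))
  · intro b hb
    simp only [Finset.mem_filter, Finset.mem_range, Finset.mem_product] at hb ⊢
    obtain ⟨hb, hc, hm'⟩ := hb
    have e1 : b % B1 ≡ b [MOD B1] := Nat.mod_modEq b B1
    have e2 : b % B2 ≡ b [MOD B2] := Nat.mod_modEq b B2
    refine ⟨⟨Nat.mod_lt _ hB1, ?_, ?_⟩, Nat.mod_lt _ hB2, ?_, ?_⟩
    · exact (FacX_cop e1).2 (Nat.Coprime.coprime_mul_right_right hc)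
    · exact (e1.of_dvd h1).trans (hm'.of_dvd (Dvd.intro _ rfl))
    · exact (FacX_cop e2).2 (Nat.Coprime.coprime_mul_left_right hc)
    · exact (e2.of_dvd h2).trans (hm'.of_dvd (Dvd.intro_left _ rfl))
  · intro b hb b' hb' hbb
    simp only [Finset.coe_filter, Finset.mem_range, Set.mem_ofPred_eq] at hb hb'
    simp only [Prod.mk.injEq] at hbb
    have e : b ≡ b' [MOD B1 * B2] :=
      (Nat.modEq_and_modEq_iff_modEq_mul hcop).1 ⟨hbb.1, hbb.2⟩
    exact Nat.ModEq.eq_of_lt_of_lt e hb.1 hb'.1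
  · rintro ⟨u, v⟩ huv
    simp only [Finset.coe_product, Finset.coe_filter, Finset.mem_range, Set.mem_prod,
      Set.mem_ofPred_eq] at huv
    obtain ⟨⟨hu, hu1, hu2⟩, hv, hv1, hv2⟩ := huv
    refine ⟨(Nat.chineseRemainder hcop u v : ℕ), ?_, ?_⟩
    · simp only [Finset.coe_filter, Finset.mem_range, Set.mem_ofPred_eq]
      have k1 := (Nat.chineseRemainder hcop u v).2.1
      have k2 := (Nat.chineseRemainder hcop u v).2.2
      refine ⟨Nat.chineseRemainder_lt_mul hcop u v hB1.ne' hB2.ne', ?_, ?_⟩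
      · exact Nat.Coprime.mul_right ((FacX_cop k1).2 hu1) ((FacX_cop k2).2 hv1)
      · exact (Nat.modEq_and_modEq_iff_modEq_mul hm).1
          ⟨(k1.of_dvd h1).trans hu2, (k2.of_dvd h2).trans hv2⟩
    · have k1 := (Nat.chineseRemainder hcop u v).2.1
      have k2 := (Nat.chineseRemainder hcop u v).2.2
      simp only [Prod.mk.injEq]
      exact ⟨by rw [k1, Nat.mod_eq_of_lt hu], by rw [k2, Nat.mod_eq_of_lt hv]⟩
  · intro b _
    rw [hg1 (b % B1) b (Nat.mod_modEq b B1), hg2 (b % B2) b (Nat.mod_modEq b B2)]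

/-- `gg` is multiplicative -/
private theorem FacX_gg_mul {B1 B2 : ℕ} (hB1 : 0 < B1) (hB2 : 0 < B2) (hcop : Nat.Coprime B1 B2)
    {μ1 μ2 : ℕ → ℕ} (h1 : ∀ i, μ1 i ∣ B1) (h2 : ∀ i, μ2 i ∣ B2) (r : ℕ) :
    ∀ i x : ℕ, gg (B1 * B2) (fun j => μ1 j * μ2 j) r i x = gg B1 μ1 r i x * gg B2 μ2 r i x := by
  induction r with
  | zero => intro i x; simp [gg]
  | succ r ih =>
    intro i x
    simp only [gg]
    rw [Finset.sum_congr rfl (fun b _ => ih (i + 1) b),
      FacX_sum_mul hB1 hB2 hcop (h1 i) (h2 i) _ _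
        (fun x y h => FacX_gg_congr h1 r (i + 1) h) (fun x y h => FacX_gg_congr h2 r (i + 1) h),
      Nat.totient_mul hcop]
    push_cast
    ring

/-- `kapL` is multiplicative -/
private theorem FacX_kapL_mul {B1 B2 : ℕ} (hB1 : 0 < B1) (hB2 : 0 < B2) (hcop : Nat.Coprime B1 B2)
    {μ1 μ2 : ℕ → ℕ} (h1 : ∀ i, μ1 i ∣ B1) (h2 : ∀ i, μ2 i ∣ B2) (n : ℕ) :
    kapL (B1 * B2) (fun j => μ1 j * μ2 j) n = kapL B1 μ1 n * kapL B2 μ2 n := by
  have hs := FacX_sum_mul (m1 := 1) (m2 := 1) (c := 0) hB1 hB2 hcop (one_dvd _) (one_dvd _)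
    (fun b => gg B1 μ1 n 0 b) (fun b => gg B2 μ2 n 0 b)
    (fun x y h => FacX_gg_congr h1 n 0 h) (fun x y h => FacX_gg_congr h2 n 0 h)
  simp only [Nat.mul_one, Nat.modEq_one, and_true] at hs
  unfold kapL
  rw [Finset.sum_congr rfl (fun b _ => FacX_gg_mul hB1 hB2 hcop h1 h2 n 0 b), hs,
    Nat.totient_mul hcop]
  push_cast
  ring

/-- the shifted condition -/
private theorem FacX_shift {M b x s : ℕ} (h : b ≡ 2 * x + 1 [MOD M]) :
    2 ^ s * (b + 1) - 1 ≡ 2 ^ (s + 1) * (x + 1) - 1 [MOD M] := by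
  have e : 2 ^ s * (b + 1) ≡ 2 ^ (s + 1) * (x + 1) [MOD M] := by
    have := (h.add_right 1).mul_left (2 ^ s)
    have e2 : 2 ^ s * (2 * x + 1 + 1) = 2 ^ (s + 1) * (x + 1) := by ring
    rwa [e2] at this
  have p1 : 0 < 2 ^ s * (b + 1) := by positivity
  have p2 : 0 < 2 ^ (s + 1) * (x + 1) := by positivity
  apply Nat.ModEq.add_right_cancel' 1
  rwa [Nat.sub_add_cancel p1, Nat.sub_add_cancel p2]

open Classical in
/-- constant moduli -/
private theorem FacX_gg_const {M : ℕ} (hM : 0 < M) {μ : ℕ → ℕ} (r : ℕ) :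
    ∀ i x : ℕ, (∀ j, i ≤ j → j < i + r → μ j = M) →
      gg M μ r i x = ((M : ℝ) / M.totient) ^ r *
        (if ∀ s, 1 ≤ s → s ≤ r → Nat.Coprime (2 ^ s * (x + 1) - 1) M then 1 else 0) := by
  induction r with
  | zero =>
    intro i x _
    have : ∀ s, 1 ≤ s → s ≤ 0 → Nat.Coprime (2 ^ s * (x + 1) - 1) M := by
      intro s h1 h2; omega
    rw [if_pos this]
    simp [gg]
  | succ r ih =>
    intro i x hμ
    have hi : μ i = M := hμ i le_rfl (by omega)
    have hμ' : ∀ j, i + 1 ≤ j → j < i + 1 + r → μ j = M := fun j h1 h2 =>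
      hμ j (by omega) (by omega)
    set b0 := (2 * x + 1) % M with hb0
    have hb0' : b0 ≡ 2 * x + 1 [MOD M] := Nat.mod_modEq _ _
    have hb0lt : b0 < M := Nat.mod_lt _ hM
    have key : (∀ s, 1 ≤ s → s ≤ r + 1 → Nat.Coprime (2 ^ s * (x + 1) - 1) M) ↔
        (Nat.Coprime b0 M ∧ ∀ s, 1 ≤ s → s ≤ r → Nat.Coprime (2 ^ s * (b0 + 1) - 1) M) := by
      constructor
      · intro h
        refine ⟨?_, fun s h1 h2 => ?_⟩
        · have e := FacX_shift (s := 0) hb0'
          have := (FacX_cop e).2 (h 1 le_rfl (by omega))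
          simpa using this
        · exact (FacX_cop (FacX_shift (s := s) hb0')).2 (h (s + 1) (by omega) (by omega))
      · rintro ⟨h0, h⟩ s h1 h2
        obtain ⟨t, rfl⟩ : ∃ t, s = t + 1 := ⟨s - 1, by omega⟩
        rw [← FacX_cop (FacX_shift (s := t) hb0')]
        rcases Nat.eq_zero_or_pos t with rfl | ht
        · simpa using h0
        · exact h t ht (by omega)
    have hf : (Finset.range M).filter (fun b => Nat.Coprime b M ∧ b ≡ 2 * x + 1 [MOD μ i]) =
        if Nat.Coprime b0 M then {b0} else ∅ := by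
      ext b
      simp only [Finset.mem_filter, Finset.mem_range, hi]
      constructor
      · rintro ⟨h1, h2, h3⟩
        have e : b = b0 := Nat.ModEq.eq_of_lt_of_lt (h3.trans hb0'.symm) h1 hb0lt
        subst e
        rw [if_pos h2]
        exact Finset.mem_singleton_self _
      · intro h
        split_ifs at h with hc
        · rw [Finset.mem_singleton] at h
          subst h
          exact ⟨hb0lt, hc, hb0'⟩
        · simp at h
    simp only [gg]
    rw [hf, hi]
    by_cases hc : Nat.Coprime b0 M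
    · rw [if_pos hc, Finset.sum_singleton, ih (i + 1) b0 hμ', pow_succ]
      have : (∀ s, 1 ≤ s → s ≤ r + 1 → Nat.Coprime (2 ^ s * (x + 1) - 1) M) ↔
          (∀ s, 1 ≤ s → s ≤ r → Nat.Coprime (2 ^ s * (b0 + 1) - 1) M) := by
        rw [key]; exact ⟨fun h => h.2, fun h => ⟨hc, h⟩⟩
      simp only [this]
      ring
    · rw [if_neg hc, Finset.sum_empty, if_neg (fun h => hc (key.1 h).1)]
      ring

open Classical in
/-- the mean value for constant moduli -/
private theorem FacX_mean {M : ℕ} (hM : 0 < M) {μ : ℕ → ℕ} (r i : ℕ)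
    (hμ : ∀ j, i ≤ j → j < i + r → μ j = M) :
    ∑ b ∈ (Finset.range M).filter (fun b => Nat.Coprime b M), gg M μ r i b =
      ((M : ℝ) / M.totient) ^ r *
        ((Finset.range M).filter (fun b => ∀ i ≤ r, Nat.Coprime (2 ^ i * (b + 1) - 1) M)).card := by
  rw [Finset.sum_congr rfl (fun b _ => FacX_gg_const hM r i b hμ), ← Finset.mul_sum]
  congr 1
  rw [← Finset.sum_filter, Finset.filter_filter, Finset.sum_const, nsmul_eq_mul, mul_one]
  congr 2
  apply Finset.filter_congr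
  intro b _
  constructor
  · rintro ⟨h0, h⟩ s hs
    rcases Nat.eq_zero_or_pos s with rfl | hs'
    · simpa using h0
    · exact h s hs' hs
  · intro h
    exact ⟨by simpa using h 0 (Nat.zero_le _), fun s _ h2 => h s h2⟩

theorem kapL_const (M n : ℕ) (hM : 0 < M) (μ : ℕ → ℕ) (hμ : ∀ i < n, μ i = M) :
    kapL M μ n = kap M n := by
  unfold kapL kap
  rw [FacX_mean hM n 0 (fun j _ h => hμ j (by omega))]
  rw [div_pow, pow_succ]
  have h0 : (M.totient : ℝ) ≠ 0 := by
    have := Nat.totient_pos.2 hM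
    positivity
  field_simp

/-- the factor at `ℓ` -/
private theorem FacX_loc (ℓ n i1 : ℕ) (hℓ : ℓ.Prime) (hi1 : i1 ≤ n) :
    kapL ℓ (fun i => if i < i1 then 1 else ℓ) n = bet ℓ n i1 := by
  set μ : ℕ → ℕ := fun i => if i < i1 then 1 else ℓ with hμdef
  have hℓ0 : 0 < ℓ := hℓ.pos
  have hφ : (ℓ.totient : ℝ) = ℓ - 1 := by
    rw [Nat.totient_prime hℓ, Nat.cast_sub hℓ.one_lt.le, Nat.cast_one]
  have hφ0 : (ℓ.totient : ℝ) ≠ 0 := by
    have := Nat.totient_pos.2 hℓ0
    positivity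
  set A : ℝ := 1 / (ℓ.totient : ℝ) *
    ∑ b ∈ (Finset.range ℓ).filter (fun b => Nat.Coprime b ℓ), gg ℓ μ (n - i1) i1 b with hA
  have hcard : ((Finset.range ℓ).filter (fun b => Nat.Coprime b ℓ)).card = ℓ.totient := by
    rw [Nat.totient_eq_card_coprime]
    congr 1
    apply Finset.filter_congr
    intro b _
    exact Nat.coprime_comm
  have hconst : ∀ c : ℝ, 1 / (ℓ.totient : ℝ) *
      ∑ b ∈ (Finset.range ℓ).filter (fun b => Nat.Coprime b ℓ), c = c := by
    intro c
    rw [Finset.sum_const, hcard, nsmul_eq_mul]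
    field_simp
  -- the levels below `i1`
  have hlow : ∀ k, k < i1 → ∀ x, gg ℓ μ (n - i1 + (k + 1)) (i1 - (k + 1)) x = A := by
    intro k
    induction k with
    | zero =>
      intro hk x
      have e : i1 - (0 + 1) + 1 = i1 := by omega
      have hm : μ (i1 - (0 + 1)) = 1 := by
        simp only [hμdef]
        rw [if_pos (by omega)]
      show gg ℓ μ (n - i1 + 1) (i1 - (0 + 1)) x = A
      rw [FacX_gg_succ, hm, e]
      simp only [Nat.modEq_one, and_true, Nat.cast_one]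
      rw [hA]
    | succ k ih =>
      intro hk x
      have e : i1 - (k + 1 + 1) + 1 = i1 - (k + 1) := by omega
      have hm : μ (i1 - (k + 1 + 1)) = 1 := by
        simp only [hμdef]
        rw [if_pos (by omega)]
      have e2 : n - i1 + (k + 1 + 1) = (n - i1 + (k + 1)) + 1 := by ring
      rw [e2, FacX_gg_succ, hm, e]
      simp only [Nat.modEq_one, and_true, Nat.cast_one]
      rw [Finset.sum_congr rfl (fun b _ => ih (by omega) b)]
      exact hconst A
  have hkA : kapL ℓ μ n = A := by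
    unfold kapL
    rcases Nat.eq_zero_or_pos i1 with h | h
    · subst h
      rw [hA]
      simp
    · have e0 : ∀ b, gg ℓ μ n 0 b = A := by
        intro b
        have := hlow (i1 - 1) (by omega) b
        have e1 : n - i1 + (i1 - 1 + 1) = n := by omega
        have e2 : i1 - (i1 - 1 + 1) = 0 := by omega
        rwa [e1, e2] at this
      rw [Finset.sum_congr rfl (fun b _ => e0 b)]
      exact hconst A
  rw [hkA, hA, FacX_mean hℓ0 (n - i1) i1 (fun j h1 _ => by
    simp only [hμdef]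
    rw [if_neg (by omega)])]
  unfold bet nu
  have hc : (((Finset.range ℓ).filter
      (fun b => ∀ i ≤ n - i1, Nat.Coprime (2 ^ i * (b + 1) - 1) ℓ)).card : ℝ) =
      ℓ - (((Finset.range ℓ).filter
        (fun v => ∃ s ∈ Finset.range (n - i1 + 1), ℓ ∣ 2 ^ s * (v + 1) - 1)).card : ℝ) := by
    have h := Finset.card_filter_add_card_filter_not (s := Finset.range ℓ)
      (p := fun b => ∀ i ≤ n - i1, Nat.Coprime (2 ^ i * (b + 1) - 1) ℓ)
    rw [Finset.card_range] at h
    have h' : (Finset.range ℓ).filter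
        (fun b => ¬ ∀ i ≤ n - i1, Nat.Coprime (2 ^ i * (b + 1) - 1) ℓ) =
        (Finset.range ℓ).filter
          (fun v => ∃ s ∈ Finset.range (n - i1 + 1), ℓ ∣ 2 ^ s * (v + 1) - 1) := by
      apply Finset.filter_congr
      intro v _
      constructor
      · intro hn
        by_contra hc
        apply hn
        intro s hs
        rw [Nat.coprime_comm, hℓ.coprime_iff_not_dvd]
        intro hd
        exact hc ⟨s, Finset.mem_range.2 (by omega), hd⟩
      · rintro ⟨s, hs, hd⟩ hall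
        have := hall s (by have := Finset.mem_range.1 hs; omega)
        rw [Nat.coprime_comm, hℓ.coprime_iff_not_dvd] at this
        exact this hd
    rw [h'] at h
    rw [eq_sub_iff_add_eq, ← Nat.cast_add]
    exact congrArg _ h
  rw [hc, hφ]
  have h1 : (ℓ : ℝ) - 1 ≠ 0 := by rw [← hφ]; exact hφ0
  field_simp

theorem facX (M ℓ n i1 : ℕ) (hM : 0 < M) (hℓ : ℓ.Prime) (hcop : Nat.Coprime ℓ M) (hi1 : i1 ≤ n)
    (μ : ℕ → ℕ) (hμ : ∀ i < n, μ i = if i < i1 then M else M * ℓ) :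
    kapL (M * ℓ) μ n = kap M n * bet ℓ n i1 := by
  have h1 : kapL (M * ℓ) μ n = kapL (M * ℓ) (fun j => (fun _ => M) j *
      (fun i => if i < i1 then 1 else ℓ) j) n := by
    apply kapL_mu
    intro i hi
    rw [hμ i hi]
    by_cases h : i < i1
    · simp [h]
    · simp [h]
  rw [h1, FacX_kapL_mul hM hℓ.pos hcop.symm (fun _ => dvd_rfl)
    (fun i => by
      by_cases h : i < i1
      · simp [h]
      · simp [h]) n,
    kapL_const M n hM _ (fun _ _ => rfl), FacX_loc ℓ n i1 hℓ hi1]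

end Pool.Agent.PCx
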