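import Pool.Agent.PCx.AeX
import Pool.Agent.PCx.DetX
import Pool.Agent.PCx.DetBX

/-!
# The finite dimensional theorem

For almost every `a` in the cube: `aeX` for all `l ≥ 10` and `θ = 1 - 1/(8l)`, `θ' = (1 + 1/l)(1 + 1/(8l))` (countably many).  Let
`T = TZ Z (SS G ε a)`, `w p = ∏_{i ≤ n} th (T^[i] p)`.  Window `k`, `y = r^k`, `p` in the window: `growthZ` with `δ = 1/(8l)` and `pat_chain`
for `c i = T^[i] p` show that `MM Z (c i)`, `i < n`, is `pq Z (y θ)` or `pq Z (y θ')`, so by `cl_TZ` `c i = cl (pq Z (y θ)) .. p i` for all `i ≤ n`, or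
the same with `θ'`.  So the window sum is at most `VL (pq Z (y θ)) + VL (pq Z (y θ'))`, and if `k ∉ Exc Z n l` it is equal to
`VL (pq Z (y θ))` (`cl_mu`).  `det_x` with `κ = BH n`, `K = 4 n`, `E = Exc Z n l` (`exc`); then `det_bX` (`TZ_two`, `MM_log`; `SS G ε a` is `o(q)`
as `|SS G ε a q| ≤ (ρ q + 2 |ε q|) q` for `q ≥ 9`).
-/

namespace Pool.Agent.PCx

open MeasureTheory Filter Topology Pool.Agent.PCn

private theorem FinX_lim {ρ ε : ℕ → ℝ} (h : Hx ρ ε) {G : ℕ → ℝ} (hG : Adm ρ G) {m : ℕ}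
    (a : Fin m → ℝ) :
    Tendsto (fun q : ℕ => SS G ε a q / q) atTop (𝓝 0) := by
  have h0 : Tendsto (fun q : ℕ => G q / q) atTop (𝓝 0) := by
    have h2 : Tendsto (fun q : ℕ => |ρ q|) atTop (𝓝 0) := by
      have := h.ρ0.abs
      rwa [abs_zero] at this
    refine squeeze_zero_norm' ?_ h2
    filter_upwards [eventually_ge_atTop 1] with q hq
    have hq0 : (0 : ℝ) < q := by exact_mod_cast hq
    rw [Real.norm_eq_abs, abs_div, abs_of_pos hq0, div_le_iff₀ hq0]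
    exact (hG q).trans (mul_le_mul_of_nonneg_right (le_abs_self _) hq0.le)
  have h1 : Tendsto (fun q : ℕ => ε q * ∑ j : Fin m, a j / Real.log q ^ (j : ℕ)) atTop (𝓝 0) := by
    have h2 : Tendsto (fun q : ℕ => |ε q| * ∑ j : Fin m, |a j|) atTop (𝓝 0) := by
      have := h.ε0.abs.mul_const (∑ j : Fin m, |a j|)
      rwa [abs_zero, zero_mul] at this
    refine squeeze_zero_norm' ?_ h2
    filter_upwards [eventually_ge_atTop 3] with q hq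
    rw [Real.norm_eq_abs, abs_mul]
    refine mul_le_mul_of_nonneg_left ?_ (abs_nonneg _)
    refine (Finset.abs_sum_le_sum_abs _ _).trans (Finset.sum_le_sum fun j _ => ?_)
    have hq3 : (3 : ℝ) ≤ q := by exact_mod_cast hq
    have hlog : 1 ≤ Real.log q := by
      rw [Real.le_log_iff_exp_le (by linarith)]
      exact Real.exp_one_lt_three.le.trans hq3
    have hp : 1 ≤ Real.log q ^ (j : ℕ) := one_le_pow₀ hlog
    rw [abs_div, abs_of_pos (lt_of_lt_of_le one_pos hp)]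
    exact div_le_self (abs_nonneg _) hp
  have h3 := h0.add h1
  rw [add_zero] at h3
  refine h3.congr' ?_
  filter_upwards [eventually_ge_atTop 1] with q hq
  have hq0 : (q : ℝ) ≠ 0 := by
    have : q ≠ 0 := by omega
    exact_mod_cast this
  unfold SS pf
  field_simp

private theorem FinX_th (x : ℕ) : 0 ≤ th x := by
  unfold th
  split_ifs
  · exact Real.log_natCast_nonneg _
  · exact le_rfl

private theorem FinX_prod (f : ℕ → ℕ) (n : ℕ) : 0 ≤ ∏ i ∈ Finset.range (n + 1), th (f i) :=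
  Finset.prod_nonneg fun i _ => FinX_th _

/-- the chain in a window follows one of the two patterns -/
private theorem FinX_pat {ρ ε : ℕ → ℝ} (h : Hx ρ ε) {Z : ℕ → ℕ}
    (hZ : ∀ j, 2 ^ (j + 10) * (Z j + 1) ≤ Z (j + 1)) (hZ2 : ∀ j, Real.exp (QQ (j + 1)) ≤ Z j)
    (n m l : ℕ) (hl : 10 ≤ l) : ∃ Y : ℝ, 1 ≤ Y ∧ ∀ y ≥ Y, ∀ G : ℕ → ℝ, Adm ρ G → ∀ a ∈ Cu m,
      ∀ p : ℕ, y < p → (p : ℝ) ≤ (1 + 1 / (l : ℝ)) * y →
      (∀ i < n, MM Z ((TZ Z (SS G ε a))^[i] p) = pq Z (y * (1 - 1 / (8 * (l : ℝ)))) i) ∨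
      (∀ i < n, MM Z ((TZ Z (SS G ε a))^[i] p) =
        pq Z (y * ((1 + 1 / (l : ℝ)) * (1 + 1 / (8 * (l : ℝ))))) i) := by
  have hl' : (10 : ℝ) ≤ l := by exact_mod_cast hl
  have hl0 : (0 : ℝ) < l := by linarith
  have hδ : (0 : ℝ) < 1 / (8 * (l : ℝ)) := by positivity
  have h3 : 1 / (l : ℝ) ≤ 1 / 10 := one_div_le_one_div_of_le (by norm_num) hl'
  have h2 : (0 : ℝ) < 1 / (l : ℝ) := by positivity
  obtain ⟨Y1, hY1, H1⟩ := growthZ h Z (MM_log hZ hZ2) n m (1 / (8 * (l : ℝ))) hδ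
  obtain ⟨Y2, hY2, H2⟩ := pat_chain hZ n l hl
  refine ⟨max Y1 Y2, le_max_of_le_right hY2, fun y hy G hG a ha p hp1 hp2 => ?_⟩
  have hy1 : Y1 ≤ y := (le_max_left _ _).trans hy
  have hy2 : Y2 ≤ y := (le_max_right _ _).trans hy
  have hy0 : 0 < y := by linarith
  refine H2 y hy2 (fun i => (TZ Z (SS G ε a))^[i] p) fun i hi => ?_
  have h4 := H1 y hy1 G hG a ha p hp1 (by nlinarith) i hi.le
  have h5 := abs_le.1 h4
  have h6 : (1 : ℝ) ≤ 2 ^ i := one_le_pow₀ (by norm_num)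
  have h7 : 0 ≤ 1 / (8 * (l : ℝ)) * y := by positivity
  have h8 : 1 / (8 * (l : ℝ)) * y ≤ 2 ^ i * (1 / (8 * (l : ℝ)) * y) := le_mul_of_one_le_left h7 h6
  have h9 : (2 : ℝ) ^ i * y ≤ 2 ^ i * p := by gcongr
  have h10 : (2 : ℝ) ^ i * p ≤ 2 ^ i * ((1 + 1 / (l : ℝ)) * y) := by gcongr
  have h11 : 0 ≤ 2 ^ i * (1 / (l : ℝ) * (1 / (8 * (l : ℝ)) * y)) := by positivity
  constructor
  · show 2 ^ i * (y * (1 - 1 / (8 * (l : ℝ)))) ≤ (((TZ Z (SS G ε a))^[i] p : ℕ) : ℝ)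
    have e1 : 2 ^ i * (y * (1 - 1 / (8 * (l : ℝ)))) =
        2 ^ i * y - 2 ^ i * (1 / (8 * (l : ℝ)) * y) := by ring
    rw [e1]
    linarith [h5.1]
  · show (((TZ Z (SS G ε a))^[i] p : ℕ) : ℝ) ≤
      2 ^ i * (y * ((1 + 1 / (l : ℝ)) * (1 + 1 / (8 * (l : ℝ)))))
    have e1 : 2 ^ i * (y * ((1 + 1 / (l : ℝ)) * (1 + 1 / (8 * (l : ℝ))))) =
        2 ^ i * ((1 + 1 / (l : ℝ)) * y) + 2 ^ i * (1 / (8 * (l : ℝ)) * y) +
        2 ^ i * (1 / (l : ℝ) * (1 / (8 * (l : ℝ)) * y)) := by ring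
    rw [e1]
    linarith [h5.2]

theorem fin_dimX {ρ ε : ℕ → ℝ} (h : Hx ρ ε) {Z : ℕ → ℕ}
    (hZ : ∀ j, 2 ^ (j + 10) * (Z j + 1) ≤ Z (j + 1)) (hZ2 : ∀ j, Real.exp (QQ (j + 1)) ≤ Z j)
    (hthr : ∀ j n l : ℕ, n ≤ j → 10 ≤ l → l ≤ j → ∀ y : ℝ, (Z j : ℝ) ≤ 2 ^ (j + 5) * y →
      ∀ G : ℕ → ℝ, Adm ρ G → ∀ μ : ℕ → ℕ, (∀ i, μ i ∣ QQ (j + 1)) →
      (∫ a in Cu (2 * n), (VL μ (SS G ε a) n y ((1 + 1 / (l : ℝ)) * y) -
        kapL (QQ (j + 1)) μ n * (1 / (l : ℝ) * y)) ^ 2) ≤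
        y ^ 2 * Real.exp (-(lam y / 16))) (n : ℕ) (G : ℕ → ℝ) (hG : Adm ρ G) :
    ∀ᵐ a ∂(volume.restrict (Cu (2 * n))),
      Tendsto (fun x : ℕ => (NT (TZ Z (SS G ε a)) n x : ℝ) * Real.log x ^ (n + 1) / x) atTop
        (𝓝 (BH n)) := by
  have hbd : ∀ l : ℕ, 10 ≤ l → (0 : ℝ) < 1 / (l : ℝ) ∧ 1 / (l : ℝ) ≤ 1 / 10 ∧
      (0 : ℝ) < 1 / (8 * (l : ℝ)) ∧ 1 / (8 * (l : ℝ)) ≤ 1 / 80 := by
    intro l hl
    have hl' : (10 : ℝ) ≤ l := by exact_mod_cast hl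
    have hl0 : (0 : ℝ) < l := by linarith
    refine ⟨by positivity, one_div_le_one_div_of_le (by norm_num) hl', by positivity,
      one_div_le_one_div_of_le (by norm_num) (by linarith)⟩
  have h1 : ∀ᵐ a ∂(volume.restrict (Cu (2 * n))), ∀ l : ℕ, 10 ≤ l →
      Tendsto (fun k : ℕ => VL (pq Z ((1 + 1 / (l : ℝ)) ^ k * (1 - 1 / (8 * (l : ℝ)))))
        (SS G ε a) n ((1 + 1 / (l : ℝ)) ^ k) ((1 + 1 / (l : ℝ)) ^ (k + 1)) /
        (1 + 1 / (l : ℝ)) ^ k) atTop (𝓝 (BH n * (1 / (l : ℝ)))) := by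
    rw [ae_all_iff]
    intro l
    by_cases hl : 10 ≤ l
    · obtain ⟨b1, b2, b3, b4⟩ := hbd l hl
      filter_upwards [aeX h hZ hthr n l hl (1 - 1 / (8 * (l : ℝ))) (by linarith) (by linarith)
        G hG] with a ha _
      exact ha
    · exact Eventually.of_forall fun a h => absurd h hl
  have h2 : ∀ᵐ a ∂(volume.restrict (Cu (2 * n))), ∀ l : ℕ, 10 ≤ l →
      Tendsto (fun k : ℕ => VL (pq Z ((1 + 1 / (l : ℝ)) ^ k *
        ((1 + 1 / (l : ℝ)) * (1 + 1 / (8 * (l : ℝ))))))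
        (SS G ε a) n ((1 + 1 / (l : ℝ)) ^ k) ((1 + 1 / (l : ℝ)) ^ (k + 1)) /
        (1 + 1 / (l : ℝ)) ^ k) atTop (𝓝 (BH n * (1 / (l : ℝ)))) := by
    rw [ae_all_iff]
    intro l
    by_cases hl : 10 ≤ l
    · obtain ⟨b1, b2, b3, b4⟩ := hbd l hl
      have b5 : 0 < 1 / (l : ℝ) * (1 / (8 * (l : ℝ))) := mul_pos b1 b3
      have b6 : 1 / (l : ℝ) * (1 / (8 * (l : ℝ))) ≤ 1 / 10 * (1 / 80) :=
        mul_le_mul b2 b4 b3.le (by norm_num)
      have e1 : (1 + 1 / (l : ℝ)) * (1 + 1 / (8 * (l : ℝ))) =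
        1 + 1 / (l : ℝ) + 1 / (8 * (l : ℝ)) + 1 / (l : ℝ) * (1 / (8 * (l : ℝ))) := by ring
      filter_upwards [aeX h hZ hthr n l hl ((1 + 1 / (l : ℝ)) * (1 + 1 / (8 * (l : ℝ))))
        (by rw [e1]; linarith) (by rw [e1]; linarith) G hG] with a ha _
      exact ha
    · exact Eventually.of_forall fun a h => absurd h hl
  have hmeas : MeasurableSet (Cu (2 * n)) := measurableSet_Icc
  filter_upwards [h1, h2, ae_restrict_mem hmeas] with a ha1 ha2 ha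
  refine det_bX (TZ Z (SS G ε a)) (TZ_two (MM_log hZ hZ2) (FinX_lim h hG a)) n (BH n)
    (det_x _ (fun p => FinX_prod _ n) (BH n) (4 * n) (BH_pos n).le (by positivity)
    fun l hl => ⟨Exc Z n l, fun R => exc hZ n l hl R, ?_, ?_⟩)
  · -- the windows without a threshold
    intro δ hδ
    obtain ⟨b1, b2, b3, b4⟩ := hbd l hl
    obtain ⟨Y, hY, HY⟩ := FinX_pat h hZ hZ2 n (2 * n) l hl
    have hr : 1 < 1 + 1 / (l : ℝ) := by linarith
    have e1 : ∀ᶠ k : ℕ in atTop, Y ≤ (1 + 1 / (l : ℝ)) ^ k :=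
      (tendsto_pow_atTop_atTop_of_one_lt hr).eventually_ge_atTop Y
    have e2 := (ha1 l hl).eventually (Metric.ball_mem_nhds _ hδ)
    filter_upwards [e1, e2] with k hk1 hk2 hk3
    rw [Real.dist_eq] at hk2
    have e3 : (∑ p ∈ Finset.Ioc ⌊(1 + 1 / (l : ℝ)) ^ k⌋₊ ⌊(1 + 1 / (l : ℝ)) ^ (k + 1)⌋₊,
        ∏ i ∈ Finset.range (n + 1), th ((TZ Z (SS G ε a))^[i] p)) =
        VL (pq Z ((1 + 1 / (l : ℝ)) ^ k * (1 - 1 / (8 * (l : ℝ)))))
        (SS G ε a) n ((1 + 1 / (l : ℝ)) ^ k) ((1 + 1 / (l : ℝ)) ^ (k + 1)) := by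
      unfold VL
      refine Finset.sum_congr rfl fun p hp => ?_
      rw [Finset.mem_Ioc] at hp
      have hp1 : (1 + 1 / (l : ℝ)) ^ k < p := Nat.lt_of_floor_lt hp.1
      have hp2 : (p : ℝ) ≤ (1 + 1 / (l : ℝ)) * (1 + 1 / (l : ℝ)) ^ k := by
        have h5 := (Nat.cast_le (α := ℝ)).2 hp.2
        have h6 := Nat.floor_le (show (0 : ℝ) ≤ (1 + 1 / (l : ℝ)) ^ (k + 1) by positivity)
        rw [← pow_succ']
        exact h5.trans h6
      have h7 : ∀ i < n, pq Z ((1 + 1 / (l : ℝ)) ^ k * (1 - 1 / (8 * (l : ℝ)))) i =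
          MM Z ((TZ Z (SS G ε a))^[i] p) := by
        rcases HY _ hk1 G hG a ha p hp1 hp2 with h8 | h8
        · exact fun i hi => (h8 i hi).symm
        · intro i hi
          rw [h8 i hi]
          by_contra h9
          exact hk3 ⟨i, hi, h9⟩
      refine Finset.prod_congr rfl fun i hi => ?_
      rw [cl_TZ Z (SS G ε a) p _ n h7 i (by rw [Finset.mem_range] at hi; omega)]
    rw [e3]
    exact hk2.le
  · -- the upper bound
    obtain ⟨b1, b2, b3, b4⟩ := hbd l hl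
    obtain ⟨Y, hY, HY⟩ := FinX_pat h hZ hZ2 n (2 * n) l hl
    have hr : 1 < 1 + 1 / (l : ℝ) := by linarith
    have e1 : ∀ᶠ k : ℕ in atTop, Y ≤ (1 + 1 / (l : ℝ)) ^ k :=
      (tendsto_pow_atTop_atTop_of_one_lt hr).eventually_ge_atTop Y
    have hBH := BH_pos n
    have e2 : ∀ᶠ k : ℕ in atTop, VL (pq Z ((1 + 1 / (l : ℝ)) ^ k * (1 - 1 / (8 * (l : ℝ)))))
        (SS G ε a) n ((1 + 1 / (l : ℝ)) ^ k) ((1 + 1 / (l : ℝ)) ^ (k + 1)) /
        (1 + 1 / (l : ℝ)) ^ k < (BH n + 1) * (1 / (l : ℝ)) :=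
      (ha1 l hl).eventually_lt_const (by nlinarith)
    have e3 : ∀ᶠ k : ℕ in atTop, VL (pq Z ((1 + 1 / (l : ℝ)) ^ k *
        ((1 + 1 / (l : ℝ)) * (1 + 1 / (8 * (l : ℝ))))))
        (SS G ε a) n ((1 + 1 / (l : ℝ)) ^ k) ((1 + 1 / (l : ℝ)) ^ (k + 1)) /
        (1 + 1 / (l : ℝ)) ^ k < (BH n + 1) * (1 / (l : ℝ)) :=
      (ha2 l hl).eventually_lt_const (by nlinarith)
    filter_upwards [e1, e2, e3] with k hk1 hk2 hk3
    have hy0 : 0 < (1 + 1 / (l : ℝ)) ^ k := by positivity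
    have e4 : (∑ p ∈ Finset.Ioc ⌊(1 + 1 / (l : ℝ)) ^ k⌋₊ ⌊(1 + 1 / (l : ℝ)) ^ (k + 1)⌋₊,
        ∏ i ∈ Finset.range (n + 1), th ((TZ Z (SS G ε a))^[i] p)) ≤
        VL (pq Z ((1 + 1 / (l : ℝ)) ^ k * (1 - 1 / (8 * (l : ℝ)))))
        (SS G ε a) n ((1 + 1 / (l : ℝ)) ^ k) ((1 + 1 / (l : ℝ)) ^ (k + 1)) +
        VL (pq Z ((1 + 1 / (l : ℝ)) ^ k *
        ((1 + 1 / (l : ℝ)) * (1 + 1 / (8 * (l : ℝ))))))
        (SS G ε a) n ((1 + 1 / (l : ℝ)) ^ k) ((1 + 1 / (l : ℝ)) ^ (k + 1)) := by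
      unfold VL
      rw [← Finset.sum_add_distrib]
      refine Finset.sum_le_sum fun p hp => ?_
      rw [Finset.mem_Ioc] at hp
      have hp1 : (1 + 1 / (l : ℝ)) ^ k < p := Nat.lt_of_floor_lt hp.1
      have hp2 : (p : ℝ) ≤ (1 + 1 / (l : ℝ)) * (1 + 1 / (l : ℝ)) ^ k := by
        have h5 := (Nat.cast_le (α := ℝ)).2 hp.2
        have h6 := Nat.floor_le (show (0 : ℝ) ≤ (1 + 1 / (l : ℝ)) ^ (k + 1) by positivity)
        rw [← pow_succ']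
        exact h5.trans h6
      rcases HY _ hk1 G hG a ha p hp1 hp2 with h8 | h8
      · have h9 : (∏ i ∈ Finset.range (n + 1), th ((TZ Z (SS G ε a))^[i] p)) =
            ∏ i ∈ Finset.range (n + 1), th (cl (pq Z ((1 + 1 / (l : ℝ)) ^ k *
              (1 - 1 / (8 * (l : ℝ))))) (SS G ε a) p i) := by
          refine Finset.prod_congr rfl fun i hi => ?_
          rw [cl_TZ Z (SS G ε a) p _ n (fun i hi => (h8 i hi).symm) i
            (by rw [Finset.mem_range] at hi; omega)]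
        rw [h9]
        exact le_add_of_nonneg_right (FinX_prod _ n)
      · have h9 : (∏ i ∈ Finset.range (n + 1), th ((TZ Z (SS G ε a))^[i] p)) =
            ∏ i ∈ Finset.range (n + 1), th (cl (pq Z ((1 + 1 / (l : ℝ)) ^ k *
              ((1 + 1 / (l : ℝ)) * (1 + 1 / (8 * (l : ℝ)))))) (SS G ε a) p i) := by
          refine Finset.prod_congr rfl fun i hi => ?_
          rw [cl_TZ Z (SS G ε a) p _ n (fun i hi => (h8 i hi).symm) i
            (by rw [Finset.mem_range] at hi; omega)]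
        rw [h9]
        exact le_add_of_nonneg_left (FinX_prod _ n)
    have e5 := div_le_div_of_nonneg_right e4 hy0.le
    rw [add_div] at e5
    refine e5.trans ?_
    have e6 : 0 ≤ (BH n + 1) * (1 / (l : ℝ)) := by positivity
    linarith

end Pool.Agent.PCx
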