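import Pool.Agent.PCx.Gro
import Pool.Agent.PCx.AvgX

/-!
# The expected values `gg`

`gg_mod`: for `r + 1` the sum depends only on `2x + 1` modulo `μ i`, and `μ i ∣ B`.
`gg_bd`: the number of the `b < B` with `b ≡ c` modulo `μ i` is `B/μ i` (`μ i ∣ B`), so `gg B μ (r+1) i x ≤ (B/φ(B)) max gg B μ r (i+1)`.
`avg_cl`: `avgX` with `A := m * A + 3`, `M = μ i`, `W = gg B μ r (i+1)`, `q = cl i`, `z = SS G ε a q / μ i`, `t = tt m A y`, and
`rangeX`; the main term is `gg B μ (r+1) i (cl i)` by definition.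
-/

namespace Pool.Agent.PCx

open Pool.Agent.PCn

theorem gg_mod {B : ℕ} {μ : ℕ → ℕ} (hμ : ∀ i, μ i ∣ B) (r i x : ℕ) :
    gg B μ r i x = gg B μ r i (x % B) := by
  cases r with
  | zero => rfl
  | succ r =>
    have h1 : 2 * x + 1 ≡ 2 * (x % B) + 1 [MOD μ i] := by
      have h2 : x % B ≡ x [MOD μ i] := (Nat.mod_modEq x B).of_dvd (hμ i)
      exact ((h2.mul_left 2).add_right 1).symm
    have h3 : (Finset.range B).filter (fun b => Nat.Coprime b B ∧ b ≡ 2 * x + 1 [MOD μ i]) =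
        (Finset.range B).filter
          (fun b => Nat.Coprime b B ∧ b ≡ 2 * (x % B) + 1 [MOD μ i]) := by
      apply Finset.filter_congr
      intro b _
      constructor
      · rintro ⟨h4, h5⟩
        exact ⟨h4, h5.trans h1⟩
      · rintro ⟨h4, h5⟩
        exact ⟨h4, h5.trans h1.symm⟩
    show (μ i : ℝ) / B.totient * _ = (μ i : ℝ) / B.totient * _
    rw [h3]

private theorem GgX_card {B M : ℕ} (hB : 0 < B) (hM : M ∣ B) (v : ℕ) :
    ((((Finset.range B).filter
      (fun b => Nat.Coprime b B ∧ b ≡ v [MOD M])).card : ℕ) : ℝ) * M ≤ B := by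
  have hM0 : 0 < M := Nat.pos_of_dvd_of_pos hM hB
  have h1 : ((Finset.range B).filter (fun b => Nat.Coprime b B ∧ b ≡ v [MOD M])).card ≤
      ((Finset.range B).filter (fun b => b ≡ v [MOD M])).card := by
    apply Finset.card_le_card
    intro b hb
    rw [Finset.mem_filter] at hb ⊢
    exact ⟨hb.1, hb.2.2⟩
  have h2 : ((Finset.range B).filter (fun b => b ≡ v [MOD M])).card = B / M := by
    rw [← Nat.count_eq_card_filter_range, Nat.count_modEq_card B hM0 v,
      Nat.mod_eq_zero_of_dvd hM]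
    simp
  rw [h2] at h1
  have h3 : ((Finset.range B).filter (fun b => Nat.Coprime b B ∧ b ≡ v [MOD M])).card * M ≤ B :=
    (Nat.mul_le_mul_right M h1).trans (Nat.div_mul_le_self B M)
  exact_mod_cast h3

theorem gg_bd {B : ℕ} (hB : 0 < B) {μ : ℕ → ℕ} (hμ : ∀ i, μ i ∣ B) (r i x : ℕ) :
    0 ≤ gg B μ r i x ∧ gg B μ r i x ≤ ((B : ℝ) / B.totient) ^ r ∧
      1 ≤ (B : ℝ) / B.totient := by
  have hφ : 0 < B.totient := Nat.totient_pos.mpr hB
  have hφ' : (0 : ℝ) < B.totient := by exact_mod_cast hφ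
  have h1 : 1 ≤ (B : ℝ) / B.totient := by
    rw [le_div_iff₀ hφ', one_mul]
    exact_mod_cast Nat.totient_le B
  have key : ∀ r i x, 0 ≤ gg B μ r i x ∧ gg B μ r i x ≤ ((B : ℝ) / B.totient) ^ r := by
    intro r
    induction r with
    | zero =>
      intro i x
      have h : gg B μ 0 i x = 1 := rfl
      rw [h]
      simp
    | succ r ih =>
      intro i x
      have h : gg B μ (r + 1) i x = (μ i : ℝ) / B.totient *
        ∑ b ∈ (Finset.range B).filter (fun b => Nat.Coprime b B ∧ b ≡ 2 * x + 1 [MOD μ i]),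
          gg B μ r (i + 1) b := rfl
      rw [h]
      have h0 : (0 : ℝ) ≤ (μ i : ℝ) / B.totient := by positivity
      constructor
      · exact mul_nonneg h0 (Finset.sum_nonneg fun b _ => (ih (i + 1) b).1)
      · have h2 : ∑ b ∈ (Finset.range B).filter
            (fun b => Nat.Coprime b B ∧ b ≡ 2 * x + 1 [MOD μ i]), gg B μ r (i + 1) b ≤
            ((Finset.range B).filter
              (fun b => Nat.Coprime b B ∧ b ≡ 2 * x + 1 [MOD μ i])).card •
                ((B : ℝ) / B.totient) ^ r :=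
          Finset.sum_le_card_nsmul _ _ _ fun b _ => (ih (i + 1) b).2
        rw [nsmul_eq_mul] at h2
        have h3 := GgX_card hB (hμ i) (2 * x + 1)
        have hp : (0 : ℝ) ≤ ((B : ℝ) / B.totient) ^ r := by positivity
        calc (μ i : ℝ) / B.totient * ∑ b ∈ (Finset.range B).filter
              (fun b => Nat.Coprime b B ∧ b ≡ 2 * x + 1 [MOD μ i]), gg B μ r (i + 1) b
            ≤ (μ i : ℝ) / B.totient * (((Finset.range B).filter
              (fun b => Nat.Coprime b B ∧ b ≡ 2 * x + 1 [MOD μ i])).card *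
                ((B : ℝ) / B.totient) ^ r) := mul_le_mul_of_nonneg_left h2 h0
          _ = ((((Finset.range B).filter
              (fun b => Nat.Coprime b B ∧ b ≡ 2 * x + 1 [MOD μ i])).card : ℕ) * (μ i : ℝ)) /
                B.totient * ((B : ℝ) / B.totient) ^ r := by ring
          _ ≤ (B : ℝ) / B.totient * ((B : ℝ) / B.totient) ^ r := by
              apply mul_le_mul_of_nonneg_right _ hp
              exact div_le_div_of_nonneg_right h3 hφ'.le
          _ = ((B : ℝ) / B.totient) ^ (r + 1) := by rw [pow_succ]; ring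
  exact ⟨(key r i x).1, (key r i x).2, h1⟩

private theorem GgX_lam (C : ℝ) : ∃ Y : ℝ, ∀ y ≥ Y, C ≤ lam y := by
  have h1 : Filter.Tendsto (fun y : ℝ => lam y) Filter.atTop Filter.atTop := by
    unfold lam
    exact (tendsto_rpow_atTop (by norm_num)).comp Real.tendsto_log_atTop
  exact Filter.eventually_atTop.1 (h1.eventually_ge_atTop C)

theorem avg_cl {ρ ε : ℕ → ℝ} (h : Hx ρ ε) (B n m : ℕ) (hB : 0 < B) (A : ℝ) (hA : 0 ≤ A) :
    ∃ Y : ℝ, 3 ≤ Y ∧ ∀ y ≥ Y, ∀ G : ℕ → ℝ, Adm ρ G → ∀ μ : ℕ → ℕ, (∀ i, μ i ∣ B) →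
      ∀ a ∈ Cu m, ∀ p : ℕ, y < p → (p : ℝ) ≤ 11 / 10 * y → ∀ i < n, ∀ r ≤ n,
      |(1 / tt m A y) * (∫ s in (0 : ℝ)..tt m A y, thc (2 ^ (n + 4) * y)
          ((2 * (cl μ (SS G ε a) p i : ℤ) + 1 +
            μ i * ⌊SS G ε a (cl μ (SS G ε a) p i) / μ i + s⌋).toNat) *
          gg B μ r (i + 1) ((2 * (cl μ (SS G ε a) p i : ℤ) + 1 +
            μ i * ⌊SS G ε a (cl μ (SS G ε a) p i) / μ i + s⌋).toNat)) -
        gg B μ (r + 1) i (cl μ (SS G ε a) p i)| ≤ Real.exp (-lam y) := by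
  have hφ : 0 < B.totient := Nat.totient_pos.mpr hB
  have hφ' : (0 : ℝ) < B.totient := by exact_mod_cast hφ
  have hB1 : (1 : ℝ) ≤ B := by exact_mod_cast hB
  have hq1 : 1 ≤ (B : ℝ) / B.totient := by
    rw [le_div_iff₀ hφ', one_mul]
    exact_mod_cast Nat.totient_le B
  obtain ⟨Y1, hY13, hY1⟩ := avgX B n hB (m * A + 3) (((B : ℝ) / B.totient) ^ n) (by positivity)
  obtain ⟨Y2, hY23, hY2⟩ := rangeX h B n m hB
  obtain ⟨Y3, hY3⟩ := GgX_lam (40 * B)
  refine ⟨max (max Y1 Y2) Y3, hY13.trans ((le_max_left _ _).trans (le_max_left _ _)), ?_⟩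
  intro y hy G hG μ hμ a ha p hp hp1 i hi r hr
  have hy1 : Y1 ≤ y := (le_max_left _ _).trans ((le_max_left _ _).trans hy)
  have hy2 : Y2 ≤ y := (le_max_right _ _).trans ((le_max_left _ _).trans hy)
  have hy3 : Y3 ≤ y := (le_max_right _ _).trans hy
  have hy0 : 0 < y := by linarith
  have hM : 0 < μ i := Nat.pos_of_dvd_of_pos (hμ i) hB
  have hM1 : (1 : ℝ) ≤ μ i := by exact_mod_cast hM
  have hMB : (μ i : ℝ) ≤ B := by exact_mod_cast Nat.le_of_dvd hB (hμ i)
  obtain ⟨h1, h2, h3, -⟩ := hY2 y hy2 G hG a ha μ hμ p hp hp1 i hi.le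
  have hl : 40 * (B : ℝ) ≤ lam y := hY3 y hy3
  have h2i : (1 : ℝ) ≤ 2 ^ i := one_le_pow₀ (by norm_num)
  have h2i' : (2 : ℝ) ^ i ≤ 2 ^ n := pow_le_pow_right₀ (by norm_num) hi.le
  have hq : 7 / 8 * y ≤ (cl μ (SS G ε a) p i : ℝ) := by
    refine le_trans ?_ h1
    have := mul_le_mul_of_nonneg_right h2i hy0.le
    linarith
  have hq' : (cl μ (SS G ε a) p i : ℝ) ≤ 2 ^ (n + 2) * y := by
    refine h2.trans ?_
    have h4 := mul_le_mul_of_nonneg_right h2i' hy0.le
    have h5 : (2 : ℝ) ^ (n + 2) * y = 4 * (2 ^ n * y) := by rw [pow_add]; ring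
    have h6 : (0 : ℝ) ≤ 2 ^ n * y := by positivity
    rw [h5]
    linarith
  have hz : |SS G ε a (cl μ (SS G ε a) p i) / μ i| ≤ y / (40 * μ i) := by
    rw [abs_div, abs_of_pos (by linarith : (0 : ℝ) < (μ i : ℝ)), div_le_div_iff₀ (by linarith)
      (by linarith)]
    have h4 : |SS G ε a (cl μ (SS G ε a) p i)| ≤ y / 40 := by
      refine h3.trans ?_
      apply div_le_div_of_nonneg_left hy0.le (by norm_num)
      linarith
    have h5 := mul_le_mul_of_nonneg_right h4 (by linarith : (0 : ℝ) ≤ 40 * (μ i : ℝ))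
    linarith
  have ht : tt m A y ≤ y / (40 * μ i) := by
    have h4 : Real.exp (-((m * A + 3) * lam y)) ≤ 1 / (40 * μ i) := by
      rw [Real.exp_neg, ← one_div]
      apply one_div_le_one_div_of_le (by linarith)
      have h5 : 0 ≤ (m : ℝ) * A := by positivity
      have h6 : (m * A + 3) * lam y + 1 ≤ Real.exp ((m * A + 3) * lam y) := Real.add_one_le_exp _
      have h7 : 1 * lam y ≤ (m * A + 3) * lam y :=
        mul_le_mul_of_nonneg_right (by linarith) (by linarith)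
      linarith
    have h5 := mul_le_mul_of_nonneg_left h4 hy0.le
    unfold tt
    calc y * Real.exp (-((m * A + 3) * lam y)) ≤ y * (1 / (40 * μ i)) := h5
      _ = y / (40 * μ i) := by ring
  have hW : ∀ c, 0 ≤ gg B μ r (i + 1) c ∧ gg B μ r (i + 1) c ≤ ((B : ℝ) / B.totient) ^ n := by
    intro c
    obtain ⟨h4, h5, -⟩ := gg_bd hB hμ r (i + 1) c
    exact ⟨h4, h5.trans (pow_le_pow_right₀ hq1 hr)⟩
  exact hY1 y hy1 (μ i) (hμ i) (gg B μ r (i + 1)) (fun c => gg_mod hμ r (i + 1) c) hW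
    (cl μ (SS G ε a) p i) hq hq' (SS G ε a (cl μ (SS G ε a) p i) / μ i) hz (tt m A y) le_rfl ht

end Pool.Agent.PCx
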