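import Pool.Agent.PCx.Bas

/-!
# Size and residue classes of the terms of a chain, uniformly in the base function

For `a` in the cube and `q ≥ 9` (`log q ≥ 2`): `|SS G ε a q| ≤ (ρ q + 2 ε q) q` (`|pf ε a q| ≤ ε q * q * ∑_j (log q)^{-j}`, geometric
series; `ε q > 0` for large `q`), so `|SS G ε a q| ≤ η q` for all `q ≥ Q(η)`, uniformly in `G` and `a`.
`Tr M S q = 2q + 1 + M ⌊S q / M⌋`, and `S q - M ≤ M ⌊S q/M⌋ ≤ S q`, so `|Tr M S q - 2q| ≤ η q + M + 1`, and `Tr M S q` is positive and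
congruent to `2q + 1` modulo `M`.  Induction on `i`: `|c_{i+1} - 2^(i+1) p| ≤ 2 |c_i - 2^i p| + η c_i + B + 1`, and
`c_i ≤ 2^(i+1) y`; choose `η` small and `y` large.
`rangeX`: `growthX` with `δ = 1/(40 B)` (`≤ 1/16`).  `thX`: as `th_bd` in `Pool/Agent/PCn/Growth.lean`.
`growthZ`: the same for the map `TZ Z`, whose modulus `MM Z q` is `≤ log q` for large `q`.
-/

set_option linter.all false
namespace Pool.Agent.PCx

open Pool.Agent.PCn Filter Topology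

private theorem Gro_SS {ρ ε : ℕ → ℝ} (h : Hx ρ ε) (m : ℕ) {η : ℝ} (hη : 0 < η) :
    ∃ Q : ℕ, ∀ q : ℕ, Q ≤ q → ∀ G : ℕ → ℝ, Adm ρ G → ∀ a ∈ Cu m, |SS G ε a q| ≤ η * q := by
  have h1 : ∀ᶠ q : ℕ in atTop, |ρ q| < η / 2 := by
    have := (h.ρ0.abs).eventually_lt_const (u := η / 2) (by simpa using half_pos hη)
    exact this
  have h2 : ∀ᶠ q : ℕ in atTop, |ε q| * (2 * m) < η / 2 := by
    have h3 : Tendsto (fun q => |ε q| * (2 * (m : ℝ))) atTop (𝓝 (|0| * (2 * (m : ℝ)))) :=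
      h.ε0.abs.mul_const _
    exact h3.eventually_lt_const (u := η / 2) (by simpa using half_pos hη)
  obtain ⟨Q, hQ⟩ := eventually_atTop.mp (h1.and h2)
  refine ⟨max Q 3, fun q hq G hGa a ha => ?_⟩
  obtain ⟨h3, h4⟩ := hQ q (le_trans (le_max_left _ _) hq)
  have hq3 : 3 ≤ q := le_trans (le_max_right _ _) hq
  have hq0 : (0 : ℝ) < q := by
    have : (3 : ℝ) ≤ q := by exact_mod_cast hq3
    linarith
  have hlog : 1 ≤ Real.log q := by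
    have h5 : Real.exp 1 ≤ q := by
      have h6 : Real.exp 1 < 2.7182818286 := Real.exp_one_lt_d9
      have : (3 : ℝ) ≤ q := by exact_mod_cast hq3
      linarith
    rwa [Real.le_log_iff_exp_le hq0]
  have hG : |G q| ≤ η / 2 * q :=
    (hGa q).trans (mul_le_mul_of_nonneg_right ((le_abs_self _).trans h3.le) hq0.le)
  have hsum : |∑ j : Fin m, a j / Real.log q ^ (j : ℕ)| ≤ 2 * m := by
    refine (Finset.abs_sum_le_sum_abs _ _).trans ?_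
    have h5 : ∀ j ∈ (Finset.univ : Finset (Fin m)), |a j / Real.log q ^ (j : ℕ)| ≤ 2 := by
      intro j _
      have h6 : 1 ≤ Real.log q ^ (j : ℕ) := one_le_pow₀ hlog
      have h8 : (0 : ℝ) ≤ a j := ha.1 j
      have h9 : a j ≤ 1 := ha.2 j
      have h7 : |a j| ≤ 2 := abs_le.mpr ⟨by linarith, by linarith⟩
      rw [abs_div, abs_of_pos (by linarith : (0 : ℝ) < Real.log q ^ (j : ℕ)),
        div_le_iff₀ (by linarith)]
      nlinarith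
    refine (Finset.sum_le_sum h5).trans ?_
    rw [Finset.sum_const, Finset.card_univ, Fintype.card_fin, nsmul_eq_mul]
    linarith
  have hpf : |pf ε a q| ≤ η / 2 * q := by
    unfold pf
    rw [abs_mul, abs_mul, Nat.abs_cast]
    calc |ε q| * q * |∑ j : Fin m, a j / Real.log q ^ (j : ℕ)|
        ≤ |ε q| * q * (2 * m) := mul_le_mul_of_nonneg_left hsum (by positivity)
      _ = (|ε q| * (2 * m)) * q := by ring
      _ ≤ η / 2 * q := mul_le_mul_of_nonneg_right h4.le hq0.le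
  unfold SS
  calc |G q + pf ε a q| ≤ |G q| + |pf ε a q| := abs_add_le _ _
    _ ≤ η / 2 * q + η / 2 * q := add_le_add hG hpf
    _ = η * q := by ring

private theorem Gro_step {M : ℕ} (hM : 0 < M) {S : ℕ → ℝ} {q : ℕ} {η : ℝ}
    (hη1 : η ≤ 1) (hS : |S q| ≤ η * q) (hq : (M : ℝ) ≤ q) :
    ((Tr M S q : ℕ) : ℤ) = 2 * (q : ℤ) + 1 + M * ⌊S q / M⌋ ∧
      |(Tr M S q : ℝ) - 2 * q| ≤ η * q + M + 1 := by
  have hM1 : (1 : ℝ) ≤ M := by exact_mod_cast hM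
  have hM0 : (0 : ℝ) < M := by linarith
  have hq0 : (0 : ℝ) ≤ q := Nat.cast_nonneg q
  obtain ⟨h1, h2⟩ := abs_le.mp hS
  have h3 : (M : ℝ) * (⌊S q / M⌋ : ℝ) ≤ S q := by
    have := mul_le_mul_of_nonneg_left (Int.floor_le (S q / M)) hM0.le
    rwa [mul_div_cancel₀ _ hM0.ne'] at this
  have h4 : S q - M < (M : ℝ) * (⌊S q / M⌋ : ℝ) := by
    have := mul_lt_mul_of_pos_left (Int.sub_one_lt_floor (S q / M)) hM0
    rw [mul_sub, mul_div_cancel₀ _ hM0.ne', mul_one] at this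
    exact this
  have h5 : η * q ≤ q := by nlinarith
  have hpos : (0 : ℝ) < 2 * (q : ℝ) + 1 + M * (⌊S q / M⌋ : ℝ) := by linarith
  have hposZ : (0 : ℤ) < 2 * (q : ℤ) + 1 + M * ⌊S q / M⌋ := by exact_mod_cast hpos
  have e : ((Tr M S q : ℕ) : ℤ) = 2 * (q : ℤ) + 1 + M * ⌊S q / M⌋ := by
    unfold Tr
    exact Int.toNat_of_nonneg hposZ.le
  have eR : (Tr M S q : ℝ) = 2 * (q : ℝ) + 1 + M * (⌊S q / M⌋ : ℝ) := by
    have := congrArg (fun z : ℤ => (z : ℝ)) e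
    push_cast at this
    exact this
  refine ⟨e, ?_⟩
  rw [eR, abs_le]
  constructor <;> linarith

private theorem Gro_mod {M : ℕ} {q c : ℕ} {f : ℤ} (e : (q : ℤ) = 2 * (c : ℤ) + 1 + M * f) :
    q ≡ 2 * c + 1 [MOD M] := by
  rw [← Int.natCast_modEq_iff]
  push_cast
  rw [e]
  have : (2 * (c : ℤ) + 1 + M * f) ≡ 2 * (c : ℤ) + 1 + 0 [ZMOD M] := by
    refine Int.ModEq.add_left _ ?_
    exact (Int.modEq_zero_iff_dvd.mpr (dvd_mul_right _ _))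
  simpa using this

private theorem Gro_ind {κ y : ℝ} {n p : ℕ} (hκ : 0 < κ) (hκn : 4 ^ n * κ ≤ 1 / 4)
    (hp : y < p) (hp1 : (p : ℝ) ≤ 11 / 10 * y) (hy : 0 < y) (c : ℕ → ℕ) (hc0 : c 0 = p)
    (hstep : ∀ i < n, 3 / 4 * y ≤ c i → |(c (i + 1) : ℝ) - 2 * c i| ≤ κ * c i + κ * y) :
    ∀ i ≤ n, |(c i : ℝ) - 2 ^ i * p| ≤ (4 ^ i - 1) * κ * y ∧ 3 / 4 * y ≤ c i ∧
      (c i : ℝ) ≤ 2 * 2 ^ i * y := by
  have haux : ∀ i ≤ n, |(c i : ℝ) - 2 ^ i * p| ≤ (4 ^ i - 1) * κ * y → 3 / 4 * y ≤ c i ∧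
      (c i : ℝ) ≤ 2 * 2 ^ i * y := by
    intro i hi h
    obtain ⟨h1, h2⟩ := abs_le.1 h
    have h3 : (4 : ℝ) ^ i ≤ 4 ^ n := pow_le_pow_right₀ (by norm_num) hi
    have h4 : ((4 : ℝ) ^ i - 1) * κ * y ≤ 1 / 4 * y := by
      apply mul_le_mul_of_nonneg_right _ hy.le
      nlinarith
    have h5 : (1 : ℝ) ≤ 2 ^ i := one_le_pow₀ (by norm_num)
    constructor
    · have : y ≤ 2 ^ i * p := by nlinarith
      linarith
    · have h6 : (2 : ℝ) ^ i * p ≤ 2 ^ i * (11 / 10 * y) := mul_le_mul_of_nonneg_left hp1 (by linarith)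
      have h7 : 1 / 4 * y ≤ 1 / 4 * (2 ^ i * y) := by nlinarith
      nlinarith
  intro i
  induction i with
  | zero =>
    intro _
    have h0 : |(c 0 : ℝ) - 2 ^ 0 * p| ≤ (4 ^ 0 - 1) * κ * y := by
      rw [hc0]; simp
    exact ⟨h0, haux 0 (Nat.zero_le _) h0⟩
  | succ i ih =>
    intro hi
    obtain ⟨h1, h2, h3⟩ := ih (by omega)
    have h4 := hstep i (by omega) h2
    have h5 : |(c (i + 1) : ℝ) - 2 ^ (i + 1) * p| ≤ (4 ^ (i + 1) - 1) * κ * y := by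
      have e : (c (i + 1) : ℝ) - 2 ^ (i + 1) * p =
          ((c (i + 1) : ℝ) - 2 * c i) + 2 * ((c i : ℝ) - 2 ^ i * p) := by ring
      rw [e]
      refine (abs_add_le _ _).trans ?_
      rw [abs_mul, abs_two]
      have h6 : κ * (c i : ℝ) ≤ κ * (2 * 2 ^ i * y) := mul_le_mul_of_nonneg_left h3 hκ.le
      have h7 : (2 : ℝ) ^ i ≤ 4 ^ i := pow_le_pow_left₀ (by norm_num) (by norm_num) i
      have h8 : (2 : ℝ) ^ i * (κ * y) ≤ 4 ^ i * (κ * y) :=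
        mul_le_mul_of_nonneg_right h7 (by positivity)
      rw [pow_succ]
      nlinarith
    exact ⟨h5, haux (i + 1) hi h5⟩

theorem growthX {ρ ε : ℕ → ℝ} (h : Hx ρ ε) (B n m : ℕ) (δ : ℝ) (hδ : 0 < δ) :
    ∃ Y : ℝ, 3 ≤ Y ∧ ∀ y ≥ Y, ∀ G : ℕ → ℝ, Adm ρ G → ∀ a ∈ Cu m,
    ∀ μ : ℕ → ℕ, (∀ i, 0 < μ i ∧ μ i ≤ B) → ∀ p : ℕ, y < p → (p : ℝ) ≤ 11 / 10 * y → ∀ i ≤ n,
      |(cl μ (SS G ε a) p i : ℝ) - 2 ^ i * p| ≤ δ * y ∧
      |SS G ε a (cl μ (SS G ε a) p i)| ≤ δ * y ∧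
      cl μ (SS G ε a) p (i + 1) ≡ 2 * cl μ (SS G ε a) p i + 1 [MOD μ i] := by
  obtain ⟨κ, hκe⟩ : ∃ κ : ℝ, κ = min δ (1 / 2) / (2 * 4 ^ n) := ⟨_, rfl⟩
  have hκ : 0 < κ := by
    rw [hκe]
    have : 0 < min δ (1 / 2) := lt_min hδ (by norm_num)
    positivity
  have hκ2 : 2 * 4 ^ n * κ = min δ (1 / 2) := by
    rw [hκe]; field_simp
  have h4n : (1 : ℝ) ≤ 4 ^ n := one_le_pow₀ (by norm_num)
  have hκδ : 2 * 4 ^ n * κ ≤ δ := hκ2.le.trans (min_le_left _ _)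
  have hκ4 : 4 ^ n * κ ≤ 1 / 4 := by
    have : 2 * 4 ^ n * κ ≤ 1 / 2 := hκ2.le.trans (min_le_right _ _)
    linarith
  have hκ1 : κ ≤ 1 / 4 := by nlinarith
  obtain ⟨Q, hQ⟩ := Gro_SS h m hκ
  refine ⟨max 3 (max (4 / 3 * Q) ((B + 1) / κ)), le_max_left _ _, ?_⟩
  intro y hy G hG a ha μ hμ p hp hp1
  have hy3 : 3 ≤ y := le_trans (le_max_left _ _) hy
  have hyQ : 4 / 3 * Q ≤ y := le_trans (le_trans (le_max_left _ _) (le_max_right _ _)) hy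
  have hyB : (B + 1) / κ ≤ y := le_trans (le_trans (le_max_right _ _) (le_max_right _ _)) hy
  have hy0 : 0 < y := by linarith
  rw [div_le_iff₀ hκ] at hyB
  have hB0 : (0 : ℝ) ≤ B := Nat.cast_nonneg B
  have hBy : (B : ℝ) ≤ 3 / 4 * y := by nlinarith
  -- one step
  have hone : ∀ i, 3 / 4 * y ≤ cl μ (SS G ε a) p i →
      |SS G ε a (cl μ (SS G ε a) p i)| ≤ κ * cl μ (SS G ε a) p i ∧
      |(cl μ (SS G ε a) p (i + 1) : ℝ) - 2 * cl μ (SS G ε a) p i| ≤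
        κ * cl μ (SS G ε a) p i + κ * y ∧
      cl μ (SS G ε a) p (i + 1) ≡ 2 * cl μ (SS G ε a) p i + 1 [MOD μ i] := by
    intro i hi
    have hQi : Q ≤ cl μ (SS G ε a) p i := by
      have : (Q : ℝ) ≤ cl μ (SS G ε a) p i := by linarith
      exact_mod_cast this
    have h1 := hQ _ hQi G hG a ha
    have hμB : ((μ i : ℕ) : ℝ) ≤ B := by exact_mod_cast (hμ i).2
    obtain ⟨e, h2⟩ := Gro_step (hμ i).1 (by linarith : κ ≤ 1) h1
      (hμB.trans (hBy.trans hi))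
    refine ⟨h1, ?_, ?_⟩
    · rw [cl_succ]
      linarith
    · rw [cl_succ]
      exact Gro_mod e
  have hind := Gro_ind hκ hκ4 hp hp1 hy0 (fun i => cl μ (SS G ε a) p i) rfl
    (fun i _ hi => (hone i hi).2.1)
  intro i hi
  obtain ⟨h1, h2, h3⟩ := hind i hi
  obtain ⟨h4, -, h5⟩ := hone i h2
  have h2i : (2 : ℝ) ^ i ≤ 4 ^ n := (pow_le_pow_left₀ (by norm_num) (by norm_num) i).trans
    (pow_le_pow_right₀ (by norm_num) hi)
  have h4i : (4 : ℝ) ^ i ≤ 4 ^ n := pow_le_pow_right₀ (by norm_num) hi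
  refine ⟨h1.trans ?_, h4.trans ?_, h5⟩
  · refine mul_le_mul_of_nonneg_right ?_ hy0.le
    nlinarith
  · calc κ * (cl μ (SS G ε a) p i : ℝ) ≤ κ * (2 * 2 ^ i * y) :=
          mul_le_mul_of_nonneg_left h3 hκ.le
      _ ≤ κ * (2 * 4 ^ n * y) := by
          refine mul_le_mul_of_nonneg_left ?_ hκ.le
          nlinarith
      _ = (2 * 4 ^ n * κ) * y := by ring
      _ ≤ δ * y := mul_le_mul_of_nonneg_right hκδ hy0.le

theorem rangeX {ρ ε : ℕ → ℝ} (h : Hx ρ ε) (B n m : ℕ) (hB : 0 < B) :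
    ∃ Y : ℝ, 3 ≤ Y ∧ ∀ y ≥ Y, ∀ G : ℕ → ℝ, Adm ρ G → ∀ a ∈ Cu m,
    ∀ μ : ℕ → ℕ, (∀ i, μ i ∣ B) → ∀ p : ℕ, y < p → (p : ℝ) ≤ 11 / 10 * y → ∀ i ≤ n,
      7 / 8 * 2 ^ i * y ≤ cl μ (SS G ε a) p i ∧
      (cl μ (SS G ε a) p i : ℝ) ≤ 5 / 4 * 2 ^ i * y ∧
      |SS G ε a (cl μ (SS G ε a) p i)| ≤ y / (40 * B) ∧
      cl μ (SS G ε a) p (i + 1) ≡ 2 * cl μ (SS G ε a) p i + 1 [MOD μ i] := by
  have hB1 : (1 : ℝ) ≤ B := by exact_mod_cast hB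
  have hδ : (0 : ℝ) < 1 / (40 * B) := by positivity
  obtain ⟨Y, hY3, hY⟩ := growthX h B n m (1 / (40 * B)) hδ
  refine ⟨Y, hY3, fun y hy G hG a ha μ hμ p hp hp1 i hi => ?_⟩
  have hμ' : ∀ i, 0 < μ i ∧ μ i ≤ B := fun i =>
    ⟨Nat.pos_of_dvd_of_pos (hμ i) hB, Nat.le_of_dvd hB (hμ i)⟩
  obtain ⟨h1, h2, h3⟩ := hY y hy G hG a ha μ hμ' p hp hp1 i hi
  have hy0 : 0 < y := by linarith
  have hδ1 : 1 / (40 * (B : ℝ)) ≤ 1 / 40 := by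
    apply one_div_le_one_div_of_le (by norm_num)
    linarith
  have h4 : 1 / (40 * (B : ℝ)) * y ≤ 1 / 40 * y := mul_le_mul_of_nonneg_right hδ1 hy0.le
  obtain ⟨h5, h6⟩ := abs_le.1 h1
  have h2i : (1 : ℝ) ≤ 2 ^ i := one_le_pow₀ (by norm_num)
  have h7 : (2 : ℝ) ^ i * y ≤ 2 ^ i * p := mul_le_mul_of_nonneg_left hp.le (by linarith)
  have h8 : (2 : ℝ) ^ i * p ≤ 2 ^ i * (11 / 10 * y) := mul_le_mul_of_nonneg_left hp1 (by linarith)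
  have h9 : 1 * y ≤ 2 ^ i * y := mul_le_mul_of_nonneg_right h2i hy0.le
  refine ⟨by linarith, by linarith, ?_, h3⟩
  refine h2.trans (le_of_eq ?_)
  ring

theorem thX {ρ ε : ℕ → ℝ} (h : Hx ρ ε) (B n m : ℕ) (hB : 0 < B) :
    ∃ Y : ℝ, 3 ≤ Y ∧ ∀ y ≥ Y, ∀ G : ℕ → ℝ, Adm ρ G → ∀ a ∈ Cu m,
    ∀ μ : ℕ → ℕ, (∀ i, μ i ∣ B) → ∀ p : ℕ, y < p → (p : ℝ) ≤ 11 / 10 * y → ∀ i ≤ n,
      0 ≤ th (cl μ (SS G ε a) p i) ∧
      th (cl μ (SS G ε a) p i) ≤ Real.log (2 ^ (n + 4) * y) ∧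
      thc (2 ^ (n + 4) * y) (cl μ (SS G ε a) p i) = th (cl μ (SS G ε a) p i) := by
  obtain ⟨Y, hY3, hY⟩ := rangeX h B n m hB
  refine ⟨Y, hY3, fun y hy G hG a ha μ hμ p hp hp1 i hi => ?_⟩
  obtain ⟨h1, h2, -, -⟩ := hY y hy G hG a ha μ hμ p hp hp1 i hi
  have hy3 : 3 ≤ y := le_trans hY3 hy
  have hy0 : 0 < y := by linarith
  have h2i : (1 : ℝ) ≤ 2 ^ i := one_le_pow₀ (by norm_num)
  have h2i' : (2 : ℝ) ^ i ≤ 2 ^ n := pow_le_pow_right₀ (by norm_num) hi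
  have h3 : (cl μ (SS G ε a) p i : ℝ) ≤ 2 ^ (n + 4) * y := by
    refine h2.trans (mul_le_mul_of_nonneg_right ?_ hy0.le)
    rw [pow_add]
    nlinarith
  have h4 : (1 : ℝ) ≤ cl μ (SS G ε a) p i := by
    refine le_trans ?_ h1
    nlinarith
  have h5 : 0 ≤ Real.log (cl μ (SS G ε a) p i) := Real.log_nonneg h4
  have h6 : Real.log (cl μ (SS G ε a) p i) ≤ Real.log (2 ^ (n + 4) * y) :=
    Real.log_le_log (by linarith) h3
  refine ⟨?_, ?_, ?_⟩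
  · unfold th
    split_ifs
    · exact h5
    · exact le_rfl
  · unfold th
    split_ifs
    · exact h6
    · exact h5.trans h6
  · unfold thc
    rw [if_pos h3]

theorem growthZ {ρ ε : ℕ → ℝ} (h : Hx ρ ε) (Z : ℕ → ℕ)
    (hZ : ∀ᶠ q : ℕ in Filter.atTop, (MM Z q : ℝ) ≤ Real.log q) (n m : ℕ) (δ : ℝ) (hδ : 0 < δ) :
    ∃ Y : ℝ, 3 ≤ Y ∧ ∀ y ≥ Y, ∀ G : ℕ → ℝ, Adm ρ G → ∀ a ∈ Cu m,
    ∀ p : ℕ, y < p → (p : ℝ) ≤ 11 / 10 * y → ∀ i ≤ n,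
      |(((TZ Z (SS G ε a))^[i] p : ℕ) : ℝ) - 2 ^ i * p| ≤ δ * y := by
  obtain ⟨κ, hκe⟩ : ∃ κ : ℝ, κ = min δ (1 / 2) / (2 * 4 ^ n) := ⟨_, rfl⟩
  have hκ : 0 < κ := by
    rw [hκe]
    have : 0 < min δ (1 / 2) := lt_min hδ (by norm_num)
    positivity
  have hκ2 : 2 * 4 ^ n * κ = min δ (1 / 2) := by
    rw [hκe]; field_simp
  have h4n : (1 : ℝ) ≤ 4 ^ n := one_le_pow₀ (by norm_num)
  have hκδ : 2 * 4 ^ n * κ ≤ δ := hκ2.le.trans (min_le_left _ _)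
  have hκ4 : 4 ^ n * κ ≤ 1 / 4 := by
    have : 2 * 4 ^ n * κ ≤ 1 / 2 := hκ2.le.trans (min_le_right _ _)
    linarith
  have hκ1 : κ ≤ 1 / 4 := by nlinarith
  obtain ⟨Q, hQ⟩ := Gro_SS h m (half_pos hκ)
  have hlog : ∀ᶠ q : ℕ in atTop, Real.log q + 1 ≤ κ / 2 * q := by
    have h1 : ∀ᶠ x : ℝ in atTop, Real.log x ≤ κ / 4 * x := by
      have := Real.isLittleO_log_id_atTop.bound (show (0 : ℝ) < κ / 4 by positivity)
      filter_upwards [this, eventually_ge_atTop 1] with x hx hx1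
      rw [Real.norm_of_nonneg (Real.log_nonneg hx1), id, Real.norm_of_nonneg (by linarith)] at hx
      exact hx
    have h2 : ∀ᶠ x : ℝ in atTop, 1 ≤ κ / 4 * x := by
      filter_upwards [eventually_ge_atTop (4 / κ)] with x hx
      rw [div_le_iff₀ hκ] at hx
      linarith
    have h3 : ∀ᶠ x : ℝ in atTop, Real.log x + 1 ≤ κ / 2 * x := by
      filter_upwards [h1, h2] with x h4 h5
      linarith
    exact tendsto_natCast_atTop_atTop.eventually h3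
  obtain ⟨Q2, hQ2⟩ := eventually_atTop.mp (hZ.and hlog)
  refine ⟨max 3 (4 / 3 * (max Q Q2 : ℕ)), le_max_left _ _, ?_⟩
  intro y hy G hG a ha p hp hp1
  have hy3 : 3 ≤ y := le_trans (le_max_left _ _) hy
  have hyQ : 4 / 3 * ((max Q Q2 : ℕ) : ℝ) ≤ y := le_trans (le_max_right _ _) hy
  have hy0 : 0 < y := by linarith
  have hone : ∀ i, 3 / 4 * y ≤ (((TZ Z (SS G ε a))^[i] p : ℕ) : ℝ) →
      |(((TZ Z (SS G ε a))^[i + 1] p : ℕ) : ℝ) - 2 * (((TZ Z (SS G ε a))^[i] p : ℕ) : ℝ)| ≤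
        κ * (((TZ Z (SS G ε a))^[i] p : ℕ) : ℝ) + κ * y := by
    intro i hi
    rw [Function.iterate_succ_apply']
    set q := (TZ Z (SS G ε a))^[i] p with hq
    have hQi : max Q Q2 ≤ q := by
      have : ((max Q Q2 : ℕ) : ℝ) ≤ q := by linarith
      exact_mod_cast this
    have h1 := hQ q ((le_max_left _ _).trans hQi) G hG a ha
    obtain ⟨h2, h3⟩ := hQ2 q ((le_max_right _ _).trans hQi)
    have hq0 : (0 : ℝ) ≤ q := Nat.cast_nonneg q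
    have hM0 : 0 < MM Z q := QQ_pos _
    have h4 : (MM Z q : ℝ) ≤ q := by nlinarith
    obtain ⟨-, h5⟩ := Gro_step hM0 (by linarith : κ / 2 ≤ 1) h1 h4
    show |(Tr (MM Z q) (SS G ε a) q : ℝ) - 2 * q| ≤ _
    have h6 : 0 ≤ κ * y := by positivity
    linarith
  have hind := Gro_ind hκ hκ4 hp hp1 hy0 (fun i => (TZ Z (SS G ε a))^[i] p) rfl
    (fun i _ hi => hone i hi)
  intro i hi
  obtain ⟨h1, -, -⟩ := hind i hi
  have h4i : (4 : ℝ) ^ i ≤ 4 ^ n := pow_le_pow_right₀ (by norm_num) hi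
  refine h1.trans ?_
  refine mul_le_mul_of_nonneg_right ?_ hy0.le
  nlinarith

end Pool.Agent.PCx
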