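import Pool.Agent.PCx.FinX

/-!
# Infinitely many parameters

As `Pool/Agent/PCn/InfD.lean`, with `ρ q = |g q| / q + 2 |ε q|` and `Z` from `thrX`.  `m = 2n`, `cl' a j = max 0 (min 1 (a j))`,
`S' a q = SI g ε (cl' a) q` for `q ≥ 9` and `0` for `q < 9` (measurable in `a`: limit of partial sums).  For `b` in the box let
`G b q = g q + ε q * q * ∑' j, (if j < m then 0 else b j)/(log q)^j` for `q ≥ 9` and `0` for `q < 9`; `Adm ρ (G b)` as
`∑_j (log q)^(-j) ≤ 2` for `log q ≥ 2`; for `x` in the cube `S' (comb m x b) q = SS (G b) ε x q` for `q ≥ 9`.  So `fin_dimX` and `nt_congr`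
(`TZ_two`, `MM_log`) give the limit for `S' (comb m x b)` for almost every `x`, `ae_comb` (measurability of
`a ↦ NT (TZ Z (S' a)) n x` as in `measurable_ch`) gives it for `S' a` for almost every `a`, and `nt_congr` again for `SI g ε a` for `a` in
the box (`ae_box`; `si_small'`).
-/

namespace Pool.Agent.PCx

open MeasureTheory Filter Topology Pool.Agent.PCn

private theorem InfX_log {q : ℕ} (hq : 9 ≤ q) : 2 ≤ Real.log q := by
  have h9 : (9 : ℝ) ≤ q := by exact_mod_cast hq
  rw [Real.le_log_iff_exp_le (by linarith)]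
  refine le_trans ?_ h9
  have h1 : Real.exp 2 = Real.exp 1 * Real.exp 1 := by
    rw [← Real.exp_add]; norm_num
  have h2 := Real.exp_one_lt_d9
  have h3 := Real.exp_pos 1
  rw [h1]
  nlinarith

private theorem InfX_term {q : ℕ} (hq : 9 ≤ q) {a : ℕ → ℝ} (ha : ∀ j, a j ∈ Set.Icc (0 : ℝ) 1)
    (j : ℕ) : ‖a j / Real.log q ^ j‖ ≤ (1 / 2 : ℝ) ^ j := by
  have h1 := InfX_log hq
  have h2 : (2 : ℝ) ^ j ≤ Real.log q ^ j := pow_le_pow_left₀ (by norm_num) h1 j
  have h3 : (0 : ℝ) < 2 ^ j := by positivity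
  rw [norm_div, Real.norm_eq_abs, abs_of_nonneg (ha j).1, Real.norm_eq_abs,
    abs_of_pos (lt_of_lt_of_le h3 h2), one_div, inv_pow, ← one_div]
  exact div_le_div₀ zero_le_one (ha j).2 h3 h2

private theorem InfX_summable {q : ℕ} (hq : 9 ≤ q) {a : ℕ → ℝ}
    (ha : ∀ j, a j ∈ Set.Icc (0 : ℝ) 1) : Summable fun j : ℕ => a j / Real.log q ^ j :=
  Summable.of_norm_bounded summable_geometric_two (InfX_term hq ha)

private theorem InfX_bound {q : ℕ} (hq : 9 ≤ q) {a : ℕ → ℝ}
    (ha : ∀ j, a j ∈ Set.Icc (0 : ℝ) 1) : |∑' j : ℕ, a j / Real.log q ^ j| ≤ 2 := by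
  have h := tsum_of_norm_bounded hasSum_geometric_two (InfX_term hq ha)
  rwa [Real.norm_eq_abs] at h

theorem si_small' {g ε : ℕ → ℝ} (hg : Tendsto (fun q : ℕ => g q / q) atTop (𝓝 0))
    (hε : Tendsto ε atTop (𝓝 0)) (a : ℕ → ℝ) (ha : ∀ j, a j ∈ Set.Icc (0 : ℝ) 1) :
    Tendsto (fun q : ℕ => SI g ε a q / q) atTop (𝓝 0) := by
  have h1 : Tendsto (fun q : ℕ => ε q * ∑' j : ℕ, a j / Real.log q ^ j) atTop (𝓝 0) := by
    have h2 : Tendsto (fun q : ℕ => |ε q| * 2) atTop (𝓝 0) := by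
      have := hε.abs.mul_const (2 : ℝ)
      rwa [abs_zero, zero_mul] at this
    refine squeeze_zero_norm' ?_ h2
    filter_upwards [eventually_ge_atTop 9] with q hq
    rw [Real.norm_eq_abs, abs_mul]
    exact mul_le_mul_of_nonneg_left (InfX_bound hq ha) (abs_nonneg _)
  have h3 := hg.add h1
  rw [add_zero] at h3
  refine h3.congr' ?_
  filter_upwards [eventually_ge_atTop 1] with q hq
  have hq0 : (q : ℝ) ≠ 0 := by
    have : q ≠ 0 := by omega
    exact_mod_cast this
  unfold SI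
  field_simp

/-- the parameters cut off to the unit interval -/
private noncomputable def InfX_cl (a : ℕ → ℝ) (j : ℕ) : ℝ := max 0 (min 1 (a j))

private theorem InfX_cl_mem (a : ℕ → ℝ) (j : ℕ) : InfX_cl a j ∈ Set.Icc (0 : ℝ) 1 :=
  ⟨le_max_left _ _, max_le zero_le_one (min_le_left _ _)⟩

private theorem InfX_cl_eq {a : ℕ → ℝ} {j : ℕ} (h : a j ∈ Set.Icc (0 : ℝ) 1) :
    InfX_cl a j = a j := by
  unfold InfX_cl
  rw [min_eq_right h.2, max_eq_right h.1]

/-- the map, with the parameters cut off, and `0` below `9` -/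
private noncomputable def InfX_S (g ε : ℕ → ℝ) (a : ℕ → ℝ) (q : ℕ) : ℝ :=
  if 9 ≤ q then SI g ε (InfX_cl a) q else 0

private theorem InfX_S_meas (g ε : ℕ → ℝ) (q : ℕ) :
    Measurable fun a : ℕ → ℝ => InfX_S g ε a q := by
  unfold InfX_S
  by_cases hq : 9 ≤ q
  · simp only [if_pos hq]
    unfold SI
    refine Measurable.const_add (Measurable.const_mul ?_ _) _
    refine measurable_of_tendsto_metrizable
      (f := fun N : ℕ => fun a : ℕ → ℝ => ∑ j ∈ Finset.range N, InfX_cl a j / Real.log q ^ j)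
      (fun N => ?_) ?_
    · refine Finset.measurable_fun_sum _ fun j _ => ?_
      unfold InfX_cl
      exact ((measurable_const.max (measurable_const.min (measurable_pi_apply j)))).div_const _
    · rw [tendsto_pi_nhds]
      intro a
      exact (InfX_summable hq (InfX_cl_mem a)).hasSum.tendsto_sum_nat
  · simp only [if_neg hq]
    exact measurable_const

private theorem InfX_TZ_meas {X : Type*} [MeasurableSpace X] (Z : ℕ → ℕ) (S : X → ℕ → ℝ)
    (hS : ∀ q, Measurable (fun x => S x q)) (q : ℕ) :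
    Measurable fun x => TZ Z (S x) q := by
  unfold TZ Tr
  have h1 : Measurable fun x => ⌊S x q / (MM Z q : ℝ)⌋ :=
    Int.measurable_floor.comp ((hS q).div_const _)
  exact (Measurable.of_discrete
    (f := fun z : ℤ => (2 * (q : ℤ) + 1 + (MM Z q : ℤ) * z).toNat)).comp h1

private theorem InfX_iter_meas {X : Type*} [MeasurableSpace X] (Z : ℕ → ℕ) (S : X → ℕ → ℝ)
    (hS : ∀ q, Measurable (fun x => S x q)) (p i : ℕ) :
    Measurable fun x => (TZ Z (S x))^[i] p := by
  induction i with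
  | zero => simp
  | succ i ih =>
    simp only [Function.iterate_succ_apply']
    have h1 : Measurable fun z : X × ℕ => TZ Z (S z.1) z.2 :=
      measurable_from_prod_countable_left fun q => InfX_TZ_meas Z S hS q
    have h2 : Measurable fun x => ((x, (TZ Z (S x))^[i] p) : X × ℕ) := measurable_id'.prodMk ih
    have h3 : Measurable ((fun z : X × ℕ => TZ Z (S z.1) z.2) ∘
        fun x => ((x, (TZ Z (S x))^[i] p) : X × ℕ)) := h1.comp h2
    simp only [Function.comp_def] at h3
    exact h3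

open Classical in
private theorem InfX_NT_meas (Z : ℕ → ℕ) (g ε : ℕ → ℝ) (n x : ℕ) :
    Measurable fun a : ℕ → ℝ => (NT (TZ Z (InfX_S g ε a)) n x : ℝ) := by
  have h1 : ∀ a : ℕ → ℝ, (NT (TZ Z (InfX_S g ε a)) n x : ℝ) = ∑ p ∈ Finset.range (x + 1),
      if ∀ i ≤ n, ((TZ Z (InfX_S g ε a))^[i] p).Prime then (1 : ℝ) else 0 := by
    intro a
    unfold NT
    rw [Finset.card_filter]
    push_cast
    rfl
  simp only [h1]
  refine Finset.measurable_fun_sum _ fun p _ => ?_
  refine Measurable.ite ?_ measurable_const measurable_const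
  have h2 : {a : ℕ → ℝ | ∀ i ≤ n, ((TZ Z (InfX_S g ε a))^[i] p).Prime} =
      ⋂ i : ℕ, ⋂ _ : i ≤ n, {a : ℕ → ℝ | ((TZ Z (InfX_S g ε a))^[i] p).Prime} := by
    ext a
    simp
  rw [h2]
  refine MeasurableSet.iInter fun i => MeasurableSet.iInter fun _ => ?_
  exact InfX_iter_meas Z (InfX_S g ε) (InfX_S_meas g ε) p i
    (MeasurableSet.of_discrete (s := {k : ℕ | k.Prime}))

/-- the base function: the terms from `m` on, and `0` below `9` -/
private noncomputable def InfX_G (g ε : ℕ → ℝ) (m : ℕ) (b : ℕ → ℝ) (q : ℕ) : ℝ :=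
  if 9 ≤ q then SI g ε (fun j => if j < m then 0 else b j) q else 0

private theorem InfX_split {m q : ℕ} (hq : 9 ≤ q) (g ε : ℕ → ℝ) (x : Fin m → ℝ) (b : ℕ → ℝ)
    (hx : ∀ j, x j ∈ Set.Icc (0 : ℝ) 1) (hb : ∀ j, b j ∈ Set.Icc (0 : ℝ) 1) :
    SS (InfX_G g ε m b) ε x q = InfX_S g ε (comb m x b) q := by
  have hc : ∀ j, comb m x b j ∈ Set.Icc (0 : ℝ) 1 := by
    intro j
    unfold comb
    split_ifs with h
    · exact hx _
    · exact hb _
  have hc' : InfX_cl (comb m x b) = comb m x b := by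
    funext j
    exact InfX_cl_eq (hc j)
  have hd : ∀ j, (if j < m then 0 else b j) ∈ Set.Icc (0 : ℝ) 1 := by
    intro j
    split_ifs with h
    · exact ⟨le_rfl, zero_le_one⟩
    · exact hb _
  unfold InfX_S
  rw [if_pos hq, hc']
  unfold SS pf InfX_G SI
  rw [if_pos hq]
  have h1 : ∑' j : ℕ, comb m x b j / Real.log q ^ j =
      (∑ j : Fin m, x j / Real.log q ^ (j : ℕ)) +
        ∑' j : ℕ, (if j < m then 0 else b j) / Real.log q ^ j := by
    rw [← (InfX_summable hq hc).sum_add_tsum_nat_add m,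
      ← (InfX_summable hq hd).sum_add_tsum_nat_add m]
    have h2 : ∑ i ∈ Finset.range m, (if i < m then 0 else b i) / Real.log q ^ i = 0 := by
      refine Finset.sum_eq_zero fun i hi => ?_
      rw [if_pos (Finset.mem_range.1 hi), zero_div]
    have h3 : ∑ i ∈ Finset.range m, comb m x b i / Real.log q ^ i =
        ∑ j : Fin m, x j / Real.log q ^ (j : ℕ) := by
      rw [← Fin.sum_univ_eq_sum_range (fun i => comb m x b i / Real.log q ^ i) m]
      refine Finset.sum_congr rfl fun j _ => ?_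
      have : comb m x b j = x j := by
        unfold comb
        rw [dif_pos j.2]
      rw [this]
    have h4 : ∀ i : ℕ, comb m x b (i + m) / Real.log q ^ (i + m) =
        (if i + m < m then 0 else b (i + m)) / Real.log q ^ (i + m) := by
      intro i
      have h5 : ¬ i + m < m := by omega
      rw [if_neg h5]
      unfold comb
      rw [dif_neg h5]
    rw [h2, h3, tsum_congr h4, zero_add]
  rw [h1]
  ring

/-- the majorant -/
private noncomputable def InfX_ρ (g ε : ℕ → ℝ) (q : ℕ) : ℝ := |g q| / q + 2 * |ε q|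

private theorem InfX_adm {g ε : ℕ → ℝ} (m : ℕ) (b : ℕ → ℝ) (hb : ∀ j, b j ∈ Set.Icc (0 : ℝ) 1) :
    Adm (InfX_ρ g ε) (InfX_G g ε m b) := by
  intro q
  have hd : ∀ j, (if j < m then 0 else b j) ∈ Set.Icc (0 : ℝ) 1 := by
    intro j
    split_ifs with h
    · exact ⟨le_rfl, zero_le_one⟩
    · exact hb _
  unfold InfX_G InfX_ρ
  split_ifs with hq
  · have hq0 : (0 : ℝ) < q := by
      have : 0 < q := by omega
      exact_mod_cast this
    have h1 := InfX_bound hq hd
    unfold SI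
    refine (abs_add_le _ _).trans ?_
    rw [abs_mul, abs_mul, abs_of_pos hq0, add_mul, div_mul_cancel₀ _ hq0.ne']
    have h2 : |ε q| * q * |∑' j : ℕ, (if j < m then 0 else b j) / Real.log q ^ j| ≤
        |ε q| * q * 2 := mul_le_mul_of_nonneg_left h1 (by positivity)
    linarith
  · rw [abs_zero]
    positivity

theorem inf_dimX {g ε : ℕ → ℝ} (hg : Tendsto (fun q : ℕ => g q / q) atTop (𝓝 0))
    (hε : Tendsto ε atTop (𝓝 0))
    (hlow : ∀ᶠ q : ℕ in atTop, Real.exp (-(Real.log q) ^ (1 / 31 : ℝ)) ≤ ε q) :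
    ∃ Z : ℕ → ℕ, (∀ j, 2 ^ (j + 10) * (Z j + 1) ≤ Z (j + 1)) ∧
      (∀ j, Real.exp (QQ (j + 1)) ≤ Z j) ∧ ∀ n : ℕ, ∀ᵐ a ∂muI,
      Tendsto (fun x : ℕ => (NT (TZ Z (SI g ε a)) n x : ℝ) * Real.log x ^ (n + 1) / x) atTop
        (𝓝 (BH n)) := by
  have hx : Hx (InfX_ρ g ε) ε := by
    refine ⟨?_, hε, hlow⟩
    have h1 : Tendsto (fun q : ℕ => |g q / q| + 2 * |ε q|) atTop (𝓝 0) := by
      have h2 := hg.abs.add (hε.abs.const_mul 2)
      rwa [abs_zero, mul_zero, add_zero] at h2
    refine h1.congr fun q => ?_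
    unfold InfX_ρ
    rw [abs_div, Nat.abs_cast]
  obtain ⟨Z, hZ, hZ2, hthr⟩ := thrX hx
  refine ⟨Z, hZ, hZ2, fun n => ?_⟩
  have hM := MM_log hZ hZ2
  have key : ∀ᵐ a ∂muI, Tendsto (fun x : ℕ => (NT (TZ Z (InfX_S g ε a)) n x : ℝ) *
      Real.log x ^ (n + 1) / x) atTop (𝓝 (BH n)) := by
    refine ae_comb (2 * n) ?_ ?_
    · refine measurableSet_tendsto _ fun x => ?_
      exact ((InfX_NT_meas Z g ε n x).mul_const _).div_const _
    · filter_upwards [ae_box] with b hb
      filter_upwards [fin_dimX hx hZ hZ2 hthr n _ (InfX_adm (2 * n) b hb),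
        ae_restrict_mem (μ := (volume : Measure (Fin (2 * n) → ℝ))) (s := Cu (2 * n))
          measurableSet_Icc] with x hxx hxC
      have hx' : ∀ j, x j ∈ Set.Icc (0 : ℝ) 1 := fun j => ⟨hxC.1 j, hxC.2 j⟩
      have hc : ∀ j, comb (2 * n) x b j ∈ Set.Icc (0 : ℝ) 1 := by
        intro j
        unfold comb
        split_ifs with h
        · exact hx' _
        · exact hb _
      have hS : Tendsto (fun q : ℕ => SS (InfX_G g ε (2 * n) b) ε x q / q) atTop (𝓝 0) := by
        refine (si_small' hg hε _ hc).congr' ?_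
        filter_upwards [eventually_ge_atTop 9] with q hq
        rw [InfX_split hq g ε x b hx' hb]
        unfold InfX_S
        rw [if_pos hq]
        have hc' : InfX_cl (comb (2 * n) x b) = comb (2 * n) x b := by
          funext j
          exact InfX_cl_eq (hc j)
        rw [hc']
      refine nt_congr _ _ (TZ_two hM hS) 9 (fun q hq => ?_) n _ hxx
      unfold TZ Tr
      rw [InfX_split hq g ε x b hx' hb]
  filter_upwards [key, ae_box] with a ha hb
  have hcl : InfX_cl a = a := by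
    funext j
    exact InfX_cl_eq (hb j)
  have hS : Tendsto (fun q : ℕ => InfX_S g ε a q / q) atTop (𝓝 0) := by
    refine (si_small' hg hε a hb).congr' ?_
    filter_upwards [eventually_ge_atTop 9] with q hq
    unfold InfX_S
    rw [if_pos hq, hcl]
  refine nt_congr _ _ (TZ_two hM hS) 9 (fun q hq => ?_) n _ ha
  unfold TZ Tr InfX_S
  rw [if_pos hq, hcl]

end Pool.Agent.PCx
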