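import Pool.Agent.PCx.SepX
import Pool.Agent.PCx.GgX

/-!
# The expectation for two chains

Adapt `Pool/Agent/PCn/Pair.lean`.  `E_i = SepX μ G ε m y p p' i`,
`J_i = ∫_{Cu m} 1[E_i] (∏_{j=1}^i θ(c_j) θ(c'_j)) gg B μ (n-i) i c_i * gg B μ (n-i) i c'_i`, `J_0 ≤ gg B μ n 0 p * gg B μ n 0 p'`.
For `i < n`: `J_{i+1} ≤ ∫ 1[E_i] (...)_{i+1}`, and `twoX` twice (first the moving chain `p'`, index `i`, the other chain `p` with
`k = i + 1`, `f c = thc (2^(n+4) y) c * gg B μ (n-i-1) (i+1) c`, `κ = gg B μ (n-i) i c'_i`; then the moving chain `p`, the other chain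
`p'` with `k = i`) gives `J_{i+1} ≤ J_i + C e^{-3λ/4}` (`avg_cl`, `thX`, `gg_bd`, `logs`).
On `Cu m \ E_n` (`sepX`) the product is at most `(log (2^(n+4) y))^{2n}`.
-/

namespace Pool.Agent.PCx

open MeasureTheory Pool.Agent.PCn

open Classical in
/-- indicator of separation up to `i`, times the two products -/
private noncomputable def PairX_W (y : ℝ) (m i r s : ℕ) (x x' : ℕ → ℕ) : ℝ :=
  if (∀ j ≤ i, y * Real.exp (-(Asq m j * lam y)) ≤ |(x j : ℝ) - x' j|) then
    (∏ j ∈ Finset.Icc 1 r, th (x j)) * ∏ j ∈ Finset.Icc 1 s, th (x' j) else 0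

private theorem PairX_W_congr (y : ℝ) (m i r s : ℕ) (x x' z z' : ℕ → ℕ)
    (h1 : ∀ j ≤ max i r, z j = x j) (h2 : ∀ j ≤ max i s, z' j = x' j) :
    PairX_W y m i r s z z' = PairX_W y m i r s x x' := by
  unfold PairX_W
  have e1 : (∀ j ≤ i, y * Real.exp (-(Asq m j * lam y)) ≤ |(z j : ℝ) - z' j|) ↔
      (∀ j ≤ i, y * Real.exp (-(Asq m j * lam y)) ≤ |(x j : ℝ) - x' j|) := by
    refine forall_congr' fun j => forall_congr' fun hj => ?_
    rw [h1 j (le_trans hj (le_max_left _ _)), h2 j (le_trans hj (le_max_left _ _))]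
  have e2 : (∏ j ∈ Finset.Icc 1 r, th (z j)) = ∏ j ∈ Finset.Icc 1 r, th (x j) := by
    refine Finset.prod_congr rfl fun j hj => ?_
    rw [h1 j (le_trans (Finset.mem_Icc.1 hj).2 (le_max_right _ _))]
  have e3 : (∏ j ∈ Finset.Icc 1 s, th (z' j)) = ∏ j ∈ Finset.Icc 1 s, th (x' j) := by
    refine Finset.prod_congr rfl fun j hj => ?_
    rw [h2 j (le_trans (Finset.mem_Icc.1 hj).2 (le_max_right _ _))]
  simp only [e1, e2, e3]

private theorem PairX_W_tr (y : ℝ) (m i r s R R' : ℕ) (x x' : ℕ → ℕ)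
    (h1 : max i r ≤ R) (h2 : max i s ≤ R') :
    PairX_W y m i r s (tr R x) (tr R' x') = PairX_W y m i r s x x' := by
  refine PairX_W_congr y m i r s x x' _ _ (fun j hj => ?_) (fun j hj => ?_)
  · simp [tr, le_trans hj h1]
  · simp [tr, le_trans hj h2]

private theorem PairX_W_succ_right (y : ℝ) (m i r s : ℕ) (x x' : ℕ → ℕ) :
    PairX_W y m i r (s + 1) x x' = PairX_W y m i r s x x' * th (x' (s + 1)) := by
  unfold PairX_W
  rw [Finset.prod_Icc_succ_top (by omega : 1 ≤ s + 1)]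
  split_ifs
  · ring
  · simp

private theorem PairX_W_succ_left (y : ℝ) (m i r s : ℕ) (x x' : ℕ → ℕ) :
    PairX_W y m i (r + 1) s x x' = PairX_W y m i r s x x' * th (x (r + 1)) := by
  unfold PairX_W
  rw [Finset.prod_Icc_succ_top (by omega : 1 ≤ r + 1)]
  split_ifs
  · ring
  · simp

private theorem PairX_W_nonneg (y : ℝ) (m i r s : ℕ) (x x' : ℕ → ℕ)
    (h1 : ∀ j ∈ Finset.Icc 1 r, 0 ≤ th (x j)) (h2 : ∀ j ∈ Finset.Icc 1 s, 0 ≤ th (x' j)) :
    0 ≤ PairX_W y m i r s x x' := by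
  unfold PairX_W
  split_ifs
  · exact mul_nonneg (Finset.prod_nonneg h1) (Finset.prod_nonneg h2)
  · exact le_refl _

private theorem PairX_W_le (y : ℝ) (m i r s : ℕ) (x x' : ℕ → ℕ) (B : ℝ) (hB : 1 ≤ B) (K : ℕ)
    (hK : r + s ≤ K)
    (h1 : ∀ j ∈ Finset.Icc 1 r, 0 ≤ th (x j) ∧ th (x j) ≤ B)
    (h2 : ∀ j ∈ Finset.Icc 1 s, 0 ≤ th (x' j) ∧ th (x' j) ≤ B) :
    PairX_W y m i r s x x' ≤ B ^ K := by
  have hB0 : 0 ≤ B := by linarith
  have p1 : (∏ j ∈ Finset.Icc 1 r, th (x j)) ≤ B ^ r := by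
    calc (∏ j ∈ Finset.Icc 1 r, th (x j)) ≤ ∏ j ∈ Finset.Icc 1 r, B :=
          Finset.prod_le_prod (fun j hj => (h1 j hj).1) (fun j hj => (h1 j hj).2)
      _ = B ^ r := by simp
  have p2 : (∏ j ∈ Finset.Icc 1 s, th (x' j)) ≤ B ^ s := by
    calc (∏ j ∈ Finset.Icc 1 s, th (x' j)) ≤ ∏ j ∈ Finset.Icc 1 s, B :=
          Finset.prod_le_prod (fun j hj => (h2 j hj).1) (fun j hj => (h2 j hj).2)
      _ = B ^ s := by simp
  have p3 : (∏ j ∈ Finset.Icc 1 r, th (x j)) * ∏ j ∈ Finset.Icc 1 s, th (x' j) ≤ B ^ K := by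
    calc (∏ j ∈ Finset.Icc 1 r, th (x j)) * ∏ j ∈ Finset.Icc 1 s, th (x' j)
        ≤ B ^ r * B ^ s := mul_le_mul p1 p2 (Finset.prod_nonneg fun j hj => (h2 j hj).1)
          (by positivity)
      _ = B ^ (r + s) := by rw [pow_add]
      _ ≤ B ^ K := pow_le_pow_right₀ hB hK
  unfold PairX_W
  split_ifs
  · exact p3
  · positivity

private theorem PairX_W_mono (y : ℝ) (m i r s : ℕ) (x x' : ℕ → ℕ)
    (h1 : ∀ j ∈ Finset.Icc 1 r, 0 ≤ th (x j)) (h2 : ∀ j ∈ Finset.Icc 1 s, 0 ≤ th (x' j)) :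
    PairX_W y m (i + 1) r s x x' ≤ PairX_W y m i r s x x' := by
  by_cases hc : ∀ j ≤ i + 1, y * Real.exp (-(Asq m j * lam y)) ≤ |(x j : ℝ) - x' j|
  · have hc' : ∀ j ≤ i, y * Real.exp (-(Asq m j * lam y)) ≤ |(x j : ℝ) - x' j| :=
      fun j hj => hc j (by omega)
    unfold PairX_W
    rw [if_pos hc, if_pos hc']
  · have : PairX_W y m (i + 1) r s x x' = 0 := by
      unfold PairX_W
      rw [if_neg hc]
    rw [this]
    exact PairX_W_nonneg y m i r s x x' h1 h2

private theorem PairX_unif (P : ℕ → ℝ → Prop) (h : ∀ i, ∃ Y : ℝ, 3 ≤ Y ∧ ∀ y ≥ Y, P i y) (n : ℕ) :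
    ∃ Y : ℝ, 3 ≤ Y ∧ ∀ y ≥ Y, ∀ i < n, P i y := by
  induction n with
  | zero => exact ⟨3, le_refl _, fun y _ i hi => absurd hi (Nat.not_lt_zero _)⟩
  | succ n ih =>
    obtain ⟨Y1, h1, h1'⟩ := ih
    obtain ⟨Y2, h2, h2'⟩ := h n
    refine ⟨max Y1 Y2, le_max_of_le_left h1, fun y hy i hi => ?_⟩
    rcases Nat.lt_succ_iff_lt_or_eq.1 hi with hi | hi
    · exact h1' y (le_trans (le_max_left _ _) hy) i hi
    · subst hi
      exact h2' y (le_trans (le_max_right _ _) hy)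

private theorem PairX_lam_large (B : ℝ) : ∃ Y : ℝ, 3 ≤ Y ∧ ∀ y ≥ Y, B ≤ lam y := by
  have h1 : Filter.Tendsto lam Filter.atTop Filter.atTop := by
    unfold lam
    exact (tendsto_rpow_atTop (by norm_num)).comp Real.tendsto_log_atTop
  obtain ⟨Y, hY⟩ := Filter.eventually_atTop.1 (h1.eventually_ge_atTop B)
  exact ⟨max 3 Y, le_max_left _ _, fun y hy => hY y (le_trans (le_max_right _ _) hy)⟩

private theorem PairX_Cu_meas (m : ℕ) : MeasurableSet (Cu m) := measurableSet_Icc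

private theorem PairX_Cu_vol (m : ℕ) : volume (Cu m) = 1 := by
  unfold Cu
  rw [Real.volume_Icc_pi]
  simp

private theorem PairX_Cu_real (m : ℕ) : volume.real (Cu m) = 1 := by
  rw [Measure.real, PairX_Cu_vol]
  simp



/-- measurability of `W` along the chains -/
private theorem PairX_W_meas (μ : ℕ → ℕ) (G ε : ℕ → ℝ) (m : ℕ) (y : ℝ) (p p' i r s : ℕ) :
    Measurable (fun a : Fin m → ℝ =>
      PairX_W y m i r s (cl μ (SS G ε a) p) (cl μ (SS G ε a) p')) := by
  have h := measurable_trX (X := Fin m → ℝ) μ (fun a => SS G ε a)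
    (fun q => measurable_SS G ε q) p p' (max i r) (max i s) (PairX_W y m i r s)
  have e : (fun a : Fin m → ℝ => PairX_W y m i r s (tr (max i r) (cl μ (SS G ε a) p))
      (tr (max i s) (cl μ (SS G ε a) p'))) =
      fun a : Fin m → ℝ => PairX_W y m i r s (cl μ (SS G ε a) p) (cl μ (SS G ε a) p') := by
    funext a
    exact PairX_W_tr y m i r s _ _ _ _ (le_refl _) (le_refl _)
  rw [← e]
  exact h

private theorem PairX_g_meas (μ : ℕ → ℕ) (G ε : ℕ → ℝ) (m : ℕ) (p j : ℕ) (g : ℕ → ℝ) :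
    Measurable (fun a : Fin m → ℝ => g (cl μ (SS G ε a) p j)) :=
  (measurable_of_countable g).comp
    (measurable_cl (X := Fin m → ℝ) μ (fun a => SS G ε a) (fun q => measurable_SS G ε q) p j)

/-- the integral of the induction -/
private noncomputable def PairX_J (B : ℕ) (μ : ℕ → ℕ) (G ε : ℕ → ℝ) (n m : ℕ) (y : ℝ) (p p' i : ℕ) :
    ℝ :=
  ∫ a in Cu m, PairX_W y m i i i (cl μ (SS G ε a) p) (cl μ (SS G ε a) p') *
    (gg B μ (n - i) i (cl μ (SS G ε a) p i) * gg B μ (n - i) i (cl μ (SS G ε a) p' i))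

/-- one step: the inequality between the integrals -/
private theorem PairX_stepJ {ρ ε : ℕ → ℝ} (h : Hx ρ ε) (B n m : ℕ) (hB : 0 < B)
    (hm : 2 * n ≤ m) (i : ℕ) :
    ∃ Y : ℝ, 3 ≤ Y ∧ ∀ y ≥ Y, i < n → ∀ G : ℕ → ℝ, Adm ρ G → ∀ μ : ℕ → ℕ, (∀ i, μ i ∣ B) →
    ∀ p p' : ℕ, y < p → (p : ℝ) ≤ 11 / 10 * y → y < p' →
    (p' : ℝ) ≤ 11 / 10 * y →
    PairX_J B μ G ε n m y p p' (i + 1) ≤ PairX_J B μ G ε n m y p p' i +
        4 * Real.exp (-(3 / 4 * lam y)) := by
  by_cases hi : i < n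
  swap
  · exact ⟨3, le_refl _, fun y _ hh => absurd hh hi⟩
  obtain ⟨r, hr⟩ : ∃ r, n = i + 1 + r := ⟨n - (i + 1), by omega⟩
  have hr1 : n - (i + 1) = r := by omega
  have hr2 : n - i = r + 1 := by omega
  obtain ⟨Y1, h1, H1⟩ := twoX h B n m hB (Asq m i) (Asq_pos m i)
  obtain ⟨Y2, h2, H2⟩ := avg_cl h B n m hB (Asq m i) (by linarith [Asq_pos m i])
  obtain ⟨Y3, h3, H3⟩ := logs n (2 * n) (1 / 8) (by norm_num)
  obtain ⟨Y4, h4, H4⟩ := thX h B n m hB
  set D : ℝ := (B : ℝ) / B.totient with hD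
  obtain ⟨Y5, h5, H5⟩ := PairX_lam_large (8 * D ^ (2 * n))
  refine ⟨max (max (max Y1 Y2) (max Y3 Y4)) Y5, le_max_of_le_right h5, ?_⟩
  intro y hy _ G hG μ hμ p p' hp1 hp2 hq1 hq2
  have hyA : max (max Y1 Y2) (max Y3 Y4) ≤ y := le_trans (le_max_left _ _) hy
  have hy1 : Y1 ≤ y := le_trans (le_trans (le_max_left _ _) (le_max_left _ _)) hyA
  have hy2 : Y2 ≤ y := le_trans (le_trans (le_max_right _ _) (le_max_left _ _)) hyA
  have hy3 : Y3 ≤ y := le_trans (le_trans (le_max_left _ _) (le_max_right _ _)) hyA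
  have hy4 : Y4 ≤ y := le_trans (le_trans (le_max_right _ _) (le_max_right _ _)) hyA
  have hy5 : Y5 ≤ y := le_trans (le_max_right _ _) hy
  have hgg := fun r i x => gg_bd hB hμ r i x
  have hD1 : 1 ≤ D := (hgg 0 0 0).2.2
  have hDe : D ^ (2 * n) ≤ Real.exp (lam y / 8) := by
    have := H5 y hy5
    have h6 := Real.add_one_le_exp (lam y / 8)
    linarith
  have hgn : ∀ r ≤ n, ∀ i x, gg B μ r i x ≤ D ^ n := fun r hr i x =>
    (hgg r i x).2.1.trans (pow_le_pow_right₀ hD1 hr)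
  have hDn : D ^ n ≤ D ^ (2 * n) := pow_le_pow_right₀ hD1 (by omega)
  have hgg2 : ∀ r ≤ n, ∀ s ≤ n, ∀ i x j x', gg B μ r i x * gg B μ s j x' ≤
      Real.exp (lam y / 8) := by
    intro r hr s hs i x j x'
    refine le_trans ?_ hDe
    calc gg B μ r i x * gg B μ s j x' ≤ D ^ n * D ^ n :=
          mul_le_mul (hgn r hr i x) (hgn s hs j x') (hgg s j x').1 (by positivity)
      _ = D ^ (2 * n) := by rw [← pow_add]; congr 1; ring
  have hgg1 : ∀ r ≤ n, ∀ i x, gg B μ r i x ≤ Real.exp (lam y / 8) := fun r hr i x =>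
    ((hgn r hr i x).trans hDn).trans hDe
  obtain ⟨hl1, hlam, hlog⟩ := H3 y hy3
  set L : ℝ := Real.log (2 ^ (n + 4) * y) with hL
  have hexp : L ^ (2 * n) ≤ Real.exp (lam y / 8) := by
    refine le_trans hlog (le_of_eq ?_)
    congr 1
    ring
  have hee : Real.exp (lam y / 8) * Real.exp (lam y / 8) = Real.exp (lam y / 4) := by
    rw [← Real.exp_add]
    congr 1
    ring
  -- bounds for the factors
  have hth : ∀ a ∈ Cu m, ∀ j ≤ n, 0 ≤ th (cl μ (SS G ε a) p j) ∧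
      th (cl μ (SS G ε a) p j) ≤ L ∧
      thc (2 ^ (n + 4) * y) (cl μ (SS G ε a) p j) = th (cl μ (SS G ε a) p j) :=
    fun a ha j hj => H4 y hy4 G hG a ha μ hμ p hp1 hp2 j hj
  have hth' : ∀ a ∈ Cu m, ∀ j ≤ n, 0 ≤ th (cl μ (SS G ε a) p' j) ∧
      th (cl μ (SS G ε a) p' j) ≤ L ∧
      thc (2 ^ (n + 4) * y) (cl μ (SS G ε a) p' j) = th (cl μ (SS G ε a) p' j) :=
    fun a ha j hj => H4 y hy4 G hG a ha μ hμ p' hq1 hq2 j hj
  have hthc : ∀ c : ℕ, |thc (2 ^ (n + 4) * y) c * gg B μ r (i + 1) c| ≤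
      Real.exp (lam y / 4) := by
    intro c
    have hc : |thc (2 ^ (n + 4) * y) c| ≤ L := by
      unfold thc th
      split_ifs with hc1 hc2
      · have hc0 : (1 : ℝ) ≤ c := by exact_mod_cast hc2.one_lt.le
        rw [abs_of_nonneg (Real.log_nonneg hc0)]
        exact Real.log_le_log (by linarith) hc1
      · simp only [abs_zero]; linarith
      · simp only [abs_zero]; linarith
    have hB1 : L ≤ L ^ (2 * n) := le_self_pow₀ hl1 (by omega)
    rw [abs_mul, abs_of_nonneg (hgg r (i + 1) c).1, ← hee]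
    exact mul_le_mul (le_trans hc (le_trans hB1 hexp)) (hgg1 r (by omega) _ _) (hgg _ _ _).1
      (Real.exp_pos _).le
  have hWb : ∀ a ∈ Cu m, ∀ i' r s : ℕ, r ≤ n → s ≤ n → r + s ≤ 2 * n →
      0 ≤ PairX_W y m i' r s (cl μ (SS G ε a) p) (cl μ (SS G ε a) p') ∧
      PairX_W y m i' r s (cl μ (SS G ε a) p) (cl μ (SS G ε a) p') ≤ Real.exp (lam y / 8) := by
    intro a ha i' r s hr hs hrs
    constructor
    · exact PairX_W_nonneg _ _ _ _ _ _ _
        (fun j hj => (hth a ha j (le_trans (Finset.mem_Icc.1 hj).2 hr)).1)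
        (fun j hj => (hth' a ha j (le_trans (Finset.mem_Icc.1 hj).2 hs)).1)
    · refine le_trans (PairX_W_le _ _ _ _ _ _ _ L hl1 (2 * n) hrs (fun j hj => ?_)
        (fun j hj => ?_)) hexp
      · have := hth a ha j (le_trans (Finset.mem_Icc.1 hj).2 hr)
        exact ⟨this.1, this.2.1⟩
      · have := hth' a ha j (le_trans (Finset.mem_Icc.1 hj).2 hs)
        exact ⟨this.1, this.2.1⟩
  have hint : ∀ i' r s : ℕ, r ≤ n → s ≤ n → r + s ≤ 2 * n → ∀ r1 ≤ n, ∀ s1 ≤ n, ∀ j1 j2 k1 k2 : ℕ,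
      IntegrableOn (fun a => PairX_W y m i' r s (cl μ (SS G ε a) p) (cl μ (SS G ε a) p') *
        (gg B μ r1 j1 (cl μ (SS G ε a) p k1) * gg B μ s1 j2 (cl μ (SS G ε a) p' k2))) (Cu m)
        volume := by
    intro i' r s hr hs hrs r1 hr1 s1 hs1 j1 j2 k1 k2
    refine Measure.integrableOn_of_bounded (M := Real.exp (lam y / 4)) ?_
      ((PairX_W_meas μ G ε m y p p' i' r s).mul ((PairX_g_meas μ G ε m p k1 _).mul
        (PairX_g_meas μ G ε m p' k2 _))).aestronglyMeasurable ?_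
    · rw [PairX_Cu_vol]; exact ENNReal.one_ne_top
    · refine (ae_restrict_iff' (PairX_Cu_meas m)).2 (Filter.Eventually.of_forall fun a ha => ?_)
      have hw := hWb a ha i' r s hr hs hrs
      have hg := hgg2 r1 hr1 s1 hs1 j1 (cl μ (SS G ε a) p k1) j2 (cl μ (SS G ε a) p' k2)
      have hg0 := mul_nonneg (hgg r1 j1 (cl μ (SS G ε a) p k1)).1
        (hgg s1 j2 (cl μ (SS G ε a) p' k2)).1
      rw [Real.norm_eq_abs, abs_of_nonneg (mul_nonneg hw.1 hg0), ← hee]
      exact mul_le_mul hw.2 hg hg0 (Real.exp_pos _).le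
  set e : ℝ := Real.exp (-(3 / 4 * lam y)) with he
  have he1 : Real.exp (lam y / 4) * Real.exp (-lam y) + Real.exp (-lam y) ≤ 2 * e := by
    have a1 : Real.exp (lam y / 4) * Real.exp (-lam y) = e := by
      rw [← Real.exp_add, he]
      congr 1
      ring
    have a2 : Real.exp (-lam y) ≤ e := by
      rw [he]
      apply Real.exp_le_exp.2
      linarith
    linarith
  -- first application: the chain of `p'`
  have A1 := H1 y hy1 G hG μ hμ p' p hq1 hq2 hp1 hp2 i (i + 1) hi (le_refl _) (by omega)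
    (fun x' x => PairX_W y m i (i + 1) i x x' * gg B μ r (i + 1) (x (i + 1)))
    (fun _ _ c => thc (2 ^ (n + 4) * y) c * gg B μ r (i + 1) c)
    (fun x' _ => gg B μ (r + 1) i (x' i)) (Real.exp (-lam y)) (Real.exp_pos _).le
    (by
      intro a ha
      have hw := hWb a ha i (i + 1) i (by omega) (by omega) (by omega)
      have e1 : tr (i + 1) (cl μ (SS G ε a) p) (i + 1) = cl μ (SS G ε a) p (i + 1) := by
        simp [tr]
      simp only [e1]
      rw [PairX_W_tr y m i (i + 1) i (i + 1) i _ _ (by simp) (by simp),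
        abs_of_nonneg (mul_nonneg hw.1 (hgg _ _ _).1), ← hee]
      exact mul_le_mul hw.2 (hgg1 r (by omega) _ _) (hgg _ _ _).1 (Real.exp_pos _).le)
    (fun a ha c => hthc c)
    (by
      intro a ha _ hne
      rw [PairX_W_tr y m i (i + 1) i (i + 1) i _ _ (by simp) (by simp)] at hne
      have hne' := left_ne_zero_of_mul hne
      unfold PairX_W at hne'
      split_ifs at hne' with hc
      · have := hc i (le_refl _)
        rw [abs_sub_comm]
        exact this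
      · exact absurd rfl hne')
    (by
      intro a ha _
      have e1 : tr i (cl μ (SS G ε a) p') i = cl μ (SS G ε a) p' i := by
        simp [tr]
      simp only [e1]
      exact H2 y hy2 G hG μ hμ a ha p' hq1 hq2 i hi r (by omega))
  have A2 := H1 y hy1 G hG μ hμ p p' hp1 hp2 hq1 hq2 i i hi (by omega) (by omega)
    (fun x x' => PairX_W y m i i i x x' * gg B μ (r + 1) i (x' i))
    (fun _ _ c => thc (2 ^ (n + 4) * y) c * gg B μ r (i + 1) c)
    (fun x _ => gg B μ (r + 1) i (x i)) (Real.exp (-lam y)) (Real.exp_pos _).le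
    (by
      intro a ha
      have hw := hWb a ha i i i (by omega) (by omega) (by omega)
      have e1 : tr i (cl μ (SS G ε a) p') i = cl μ (SS G ε a) p' i := by
        simp [tr]
      simp only [e1]
      rw [PairX_W_tr y m i i i i i _ _ (by simp) (by simp),
        abs_of_nonneg (mul_nonneg hw.1 (hgg _ _ _).1), ← hee]
      exact mul_le_mul hw.2 (hgg1 (r + 1) (by omega) _ _) (hgg _ _ _).1 (Real.exp_pos _).le)
    (fun a ha c => hthc c)
    (by
      intro a ha hk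
      omega)
    (by
      intro a ha _
      have e1 : tr i (cl μ (SS G ε a) p) i = cl μ (SS G ε a) p i := by
        simp [tr]
      simp only [e1]
      exact H2 y hy2 G hG μ hμ a ha p hp1 hp2 i hi r (by omega))
  have B1 : (∫ a in Cu m, (fun x' x => PairX_W y m i (i + 1) i x x' *
      gg B μ r (i + 1) (x (i + 1))) (tr i (cl μ (SS G ε a) p'))
      (tr (i + 1) (cl μ (SS G ε a) p)) *
      (fun _ _ c => thc (2 ^ (n + 4) * y) c * gg B μ r (i + 1) c) (tr i (cl μ (SS G ε a) p'))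
      (tr (i + 1) (cl μ (SS G ε a) p)) (cl μ (SS G ε a) p' (i + 1))) =
      ∫ a in Cu m, PairX_W y m i (i + 1) (i + 1) (cl μ (SS G ε a) p) (cl μ (SS G ε a) p') *
        (gg B μ r (i + 1) (cl μ (SS G ε a) p (i + 1)) *
          gg B μ r (i + 1) (cl μ (SS G ε a) p' (i + 1))) := by
    refine setIntegral_congr_fun (PairX_Cu_meas m) fun a ha => ?_
    have e1 : tr (i + 1) (cl μ (SS G ε a) p) (i + 1) = cl μ (SS G ε a) p (i + 1) := by
      simp [tr]
    simp only [e1]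
    rw [PairX_W_tr y m i (i + 1) i (i + 1) i _ _ (by simp) (by simp),
      (hth' a ha (i + 1) (by omega)).2.2, PairX_W_succ_right]
    ring
  have B2 : (∫ a in Cu m, (fun x' x => PairX_W y m i (i + 1) i x x' *
      gg B μ r (i + 1) (x (i + 1))) (tr i (cl μ (SS G ε a) p'))
      (tr (i + 1) (cl μ (SS G ε a) p)) * (fun x' _ => gg B μ (r + 1) i (x' i))
      (tr i (cl μ (SS G ε a) p')) (tr (i + 1) (cl μ (SS G ε a) p))) =
      ∫ a in Cu m, PairX_W y m i (i + 1) i (cl μ (SS G ε a) p) (cl μ (SS G ε a) p') *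
        (gg B μ r (i + 1) (cl μ (SS G ε a) p (i + 1)) *
          gg B μ (r + 1) i (cl μ (SS G ε a) p' i)) := by
    refine setIntegral_congr_fun (PairX_Cu_meas m) fun a ha => ?_
    have e1 : tr (i + 1) (cl μ (SS G ε a) p) (i + 1) = cl μ (SS G ε a) p (i + 1) := by
      simp [tr]
    have e2 : tr i (cl μ (SS G ε a) p') i = cl μ (SS G ε a) p' i := by
      simp [tr]
    simp only [e1, e2]
    rw [PairX_W_tr y m i (i + 1) i (i + 1) i _ _ (by simp) (by simp)]
    ring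
  have B3 : (∫ a in Cu m, (fun x x' => PairX_W y m i i i x x' * gg B μ (r + 1) i (x' i))
      (tr i (cl μ (SS G ε a) p)) (tr i (cl μ (SS G ε a) p')) *
      (fun _ _ c => thc (2 ^ (n + 4) * y) c * gg B μ r (i + 1) c) (tr i (cl μ (SS G ε a) p))
      (tr i (cl μ (SS G ε a) p')) (cl μ (SS G ε a) p (i + 1))) =
      ∫ a in Cu m, PairX_W y m i (i + 1) i (cl μ (SS G ε a) p) (cl μ (SS G ε a) p') *
        (gg B μ r (i + 1) (cl μ (SS G ε a) p (i + 1)) *
          gg B μ (r + 1) i (cl μ (SS G ε a) p' i)) := by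
    refine setIntegral_congr_fun (PairX_Cu_meas m) fun a ha => ?_
    have e2 : tr i (cl μ (SS G ε a) p') i = cl μ (SS G ε a) p' i := by
      simp [tr]
    simp only [e2]
    rw [PairX_W_tr y m i i i i i _ _ (by simp) (by simp), (hth a ha (i + 1) (by omega)).2.2,
      PairX_W_succ_left]
    ring
  have B4 : (∫ a in Cu m, (fun x x' => PairX_W y m i i i x x' * gg B μ (r + 1) i (x' i))
      (tr i (cl μ (SS G ε a) p)) (tr i (cl μ (SS G ε a) p')) *
      (fun x _ => gg B μ (r + 1) i (x i)) (tr i (cl μ (SS G ε a) p))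
      (tr i (cl μ (SS G ε a) p'))) =
      ∫ a in Cu m, PairX_W y m i i i (cl μ (SS G ε a) p) (cl μ (SS G ε a) p') *
        (gg B μ (r + 1) i (cl μ (SS G ε a) p i) * gg B μ (r + 1) i (cl μ (SS G ε a) p' i)) := by
    refine setIntegral_congr_fun (PairX_Cu_meas m) fun a ha => ?_
    have e1 : tr i (cl μ (SS G ε a) p) i = cl μ (SS G ε a) p i := by
      simp [tr]
    have e2 : tr i (cl μ (SS G ε a) p') i = cl μ (SS G ε a) p' i := by
      simp [tr]
    simp only [e1, e2]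
    rw [PairX_W_tr y m i i i i i _ _ (by simp) (by simp)]
    ring
  rw [B1, B2] at A1
  rw [B3, B4] at A2
  have C1 := (abs_le.1 A1).2
  have C2 := (abs_le.1 A2).2
  unfold PairX_J
  rw [hr1, hr2]
  have C3 : (∫ a in Cu m, PairX_W y m (i + 1) (i + 1) (i + 1) (cl μ (SS G ε a) p)
      (cl μ (SS G ε a) p') * (gg B μ r (i + 1) (cl μ (SS G ε a) p (i + 1)) *
          gg B μ r (i + 1) (cl μ (SS G ε a) p' (i + 1)))) ≤
      ∫ a in Cu m, PairX_W y m i (i + 1) (i + 1) (cl μ (SS G ε a) p) (cl μ (SS G ε a) p') *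
        (gg B μ r (i + 1) (cl μ (SS G ε a) p (i + 1)) *
          gg B μ r (i + 1) (cl μ (SS G ε a) p' (i + 1))) := by
    refine setIntegral_mono_on
      (hint (i + 1) (i + 1) (i + 1) (by omega) (by omega) (by omega) r (by omega) r (by omega)
        _ _ _ _)
      (hint i (i + 1) (i + 1) (by omega) (by omega) (by omega) r (by omega) r (by omega)
        _ _ _ _) (PairX_Cu_meas m) fun a ha => ?_
    refine mul_le_mul_of_nonneg_right ?_ (mul_nonneg (hgg _ _ _).1 (hgg _ _ _).1)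
    exact PairX_W_mono _ _ _ _ _ _ _
      (fun j hj => (hth a ha j (le_trans (Finset.mem_Icc.1 hj).2 (by omega))).1)
      (fun j hj => (hth' a ha j (le_trans (Finset.mem_Icc.1 hj).2 (by omega))).1)
  linarith

/-- the bound for the integral over the separated part -/
private theorem PairX_iterJ {ρ ε : ℕ → ℝ} (h : Hx ρ ε) (B n m : ℕ) (hB : 0 < B)
    (hm : 2 * n ≤ m) :
    ∃ Y : ℝ, 3 ≤ Y ∧ ∀ y ≥ Y, ∀ G : ℕ → ℝ, Adm ρ G → ∀ μ : ℕ → ℕ, (∀ i, μ i ∣ B) →
    ∀ p p' : ℕ, y < p → (p : ℝ) ≤ 11 / 10 * y → y < p' →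
    (p' : ℝ) ≤ 11 / 10 * y →
    (∫ a in Cu m, PairX_W y m n n n (cl μ (SS G ε a) p) (cl μ (SS G ε a) p')) ≤
      gg B μ n 0 p * gg B μ n 0 p' + 4 * n * Real.exp (-(3 / 4 * lam y)) := by
  obtain ⟨Y, hY3, hY⟩ := PairX_unif _ (PairX_stepJ h B n m hB hm) n
  refine ⟨Y, hY3, fun y hy G hG μ hμ p p' hp1 hp2 hq1 hq2 => ?_⟩
  have hgg := fun r i x => gg_bd hB hμ r i x
  have key : ∀ i ≤ n, PairX_J B μ G ε n m y p p' i ≤
      gg B μ n 0 p * gg B μ n 0 p' + 4 * i * Real.exp (-(3 / 4 * lam y)) := by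
    intro i
    induction i with
    | zero =>
      intro _
      unfold PairX_J
      have h1 : (∫ a in Cu m, PairX_W y m 0 0 0 (cl μ (SS G ε a) p) (cl μ (SS G ε a) p') *
          (gg B μ (n - 0) 0 (cl μ (SS G ε a) p 0) * gg B μ (n - 0) 0 (cl μ (SS G ε a) p' 0))) ≤
          ∫ a in Cu m, gg B μ n 0 p * gg B μ n 0 p' := by
        have hb : ∀ a : Fin m → ℝ, 0 ≤ PairX_W y m 0 0 0 (cl μ (SS G ε a) p)
            (cl μ (SS G ε a) p') ∧
            PairX_W y m 0 0 0 (cl μ (SS G ε a) p) (cl μ (SS G ε a) p') ≤ 1 := by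
          intro a
          unfold PairX_W
          split_ifs <;> simp
        have hgg0 : 0 ≤ gg B μ n 0 p * gg B μ n 0 p' := mul_nonneg (hgg _ _ _).1 (hgg _ _ _).1
        refine integral_mono_of_nonneg ?_ ?_ ?_
        · refine Filter.Eventually.of_forall fun a => ?_
          exact mul_nonneg (hb a).1 hgg0
        · refine integrableOn_const ?_
          rw [PairX_Cu_vol]; exact ENNReal.one_ne_top
        · refine Filter.Eventually.of_forall fun a => ?_
          exact mul_le_of_le_one_left hgg0 (hb a).2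
      rw [setIntegral_const, PairX_Cu_real, one_smul] at h1
      simpa using h1
    | succ i ih =>
      intro hi
      have s1 := hY y hy i (by omega) (by omega) G hG μ hμ p p' hp1 hp2 hq1 hq2
      have s2 := ih (by omega)
      push_cast
      linarith
  have h2 := key n (le_refl _)
  unfold PairX_J at h2
  simp only [Nat.sub_self, gg, mul_one] at h2
  exact h2

theorem pairX {ρ ε : ℕ → ℝ} (h : Hx ρ ε) (B n m : ℕ) (hB : 0 < B) (hm : 2 * n ≤ m) :
    ∃ Y : ℝ, 3 ≤ Y ∧ ∀ y ≥ Y, ∀ G : ℕ → ℝ, Adm ρ G → ∀ μ : ℕ → ℕ, (∀ i, μ i ∣ B) →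
    ∀ p p' : ℕ, y < p → (p : ℝ) ≤ 11 / 10 * y → y < p' →
    (p' : ℝ) ≤ 11 / 10 * y → y * Real.exp (-lam y) ≤ |(p : ℝ) - p'| →
    (∫ a in Cu m, ∏ i ∈ Finset.Icc 1 n,
      th (cl μ (SS G ε a) p i) * th (cl μ (SS G ε a) p' i)) ≤
      gg B μ n 0 p * gg B μ n 0 p' + Real.exp (-(lam y / 4)) := by
  obtain ⟨Y1, h1, H1⟩ := PairX_iterJ h B n m hB hm
  obtain ⟨Y2, h2, H2⟩ := sepX h B n m hB hm
  obtain ⟨Y3, h3, H3⟩ := logs n (2 * n) (1 / 8) (by norm_num)
  obtain ⟨Y4, h4, H4⟩ := thX h B n m hB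
  obtain ⟨Y5, h5, H5⟩ := PairX_lam_large (16 * n)
  refine ⟨max (max (max Y1 Y2) (max Y3 Y4)) Y5, le_max_of_le_right h5, ?_⟩
  intro y hy G hG μ hμ p p' hp1 hp2 hq1 hq2 hpp
  have hyA : max (max Y1 Y2) (max Y3 Y4) ≤ y := le_trans (le_max_left _ _) hy
  have hy1 : Y1 ≤ y := le_trans (le_trans (le_max_left _ _) (le_max_left _ _)) hyA
  have hy2 : Y2 ≤ y := le_trans (le_trans (le_max_right _ _) (le_max_left _ _)) hyA
  have hy3 : Y3 ≤ y := le_trans (le_trans (le_max_left _ _) (le_max_right _ _)) hyA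
  have hy4 : Y4 ≤ y := le_trans (le_trans (le_max_right _ _) (le_max_right _ _)) hyA
  have hy5 : Y5 ≤ y := le_trans (le_max_right _ _) hy
  obtain ⟨hl1, hlam, hlog⟩ := H3 y hy3
  set L : ℝ := Real.log (2 ^ (n + 4) * y) with hL
  have hexp : L ^ (2 * n) ≤ Real.exp (lam y / 8) := by
    refine le_trans hlog (le_of_eq ?_)
    congr 1
    ring
  have hL0 : 0 ≤ L := by linarith
  have hth : ∀ a ∈ Cu m, ∀ j ≤ n, 0 ≤ th (cl μ (SS G ε a) p j) ∧
      th (cl μ (SS G ε a) p j) ≤ L :=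
    fun a ha j hj => ⟨(H4 y hy4 G hG a ha μ hμ p hp1 hp2 j hj).1,
      (H4 y hy4 G hG a ha μ hμ p hp1 hp2 j hj).2.1⟩
  have hth' : ∀ a ∈ Cu m, ∀ j ≤ n, 0 ≤ th (cl μ (SS G ε a) p' j) ∧
      th (cl μ (SS G ε a) p' j) ≤ L :=
    fun a ha j hj => ⟨(H4 y hy4 G hG a ha μ hμ p' hq1 hq2 j hj).1,
      (H4 y hy4 G hG a ha μ hμ p' hq1 hq2 j hj).2.1⟩
  set E : Set (Fin m → ℝ) := SepX μ G ε m y p p' n with hE
  have hEm : MeasurableSet E := sepX_meas μ G ε m y p p' n
  have hWb : ∀ a ∈ Cu m, 0 ≤ PairX_W y m n n n (cl μ (SS G ε a) p) (cl μ (SS G ε a) p') ∧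
      PairX_W y m n n n (cl μ (SS G ε a) p) (cl μ (SS G ε a) p') ≤ L ^ (2 * n) := by
    intro a ha
    constructor
    · exact PairX_W_nonneg _ _ _ _ _ _ _ (fun j hj => (hth a ha j (Finset.mem_Icc.1 hj).2).1)
        (fun j hj => (hth' a ha j (Finset.mem_Icc.1 hj).2).1)
    · exact PairX_W_le _ _ _ _ _ _ _ L hl1 (2 * n) (by omega)
        (fun j hj => hth a ha j (Finset.mem_Icc.1 hj).2)
        (fun j hj => hth' a ha j (Finset.mem_Icc.1 hj).2)
  have hintW : IntegrableOn (fun a => PairX_W y m n n n (cl μ (SS G ε a) p)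
      (cl μ (SS G ε a) p')) (Cu m) volume := by
    refine Measure.integrableOn_of_bounded (M := L ^ (2 * n)) ?_
      (PairX_W_meas μ G ε m y p p' n n n).aestronglyMeasurable ?_
    · rw [PairX_Cu_vol]; exact ENNReal.one_ne_top
    · refine (ae_restrict_iff' (PairX_Cu_meas m)).2 (Filter.Eventually.of_forall fun a ha => ?_)
      rw [Real.norm_eq_abs, abs_of_nonneg (hWb a ha).1]
      exact (hWb a ha).2
  have hintI : IntegrableOn (Set.indicator (Cu m \ E) fun _ : Fin m → ℝ => L ^ (2 * n))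
      (Cu m) volume := by
    have : IntegrableOn (fun _ : Fin m → ℝ => L ^ (2 * n)) (Cu m) volume := by
      refine integrableOn_const ?_
      rw [PairX_Cu_vol]; exact ENNReal.one_ne_top
    exact Integrable.indicator this ((PairX_Cu_meas m).diff hEm)
  -- pointwise comparison
  have hpt : ∀ a ∈ Cu m, (∏ i ∈ Finset.Icc 1 n,
      th (cl μ (SS G ε a) p i) * th (cl μ (SS G ε a) p' i)) ≤
      PairX_W y m n n n (cl μ (SS G ε a) p) (cl μ (SS G ε a) p') +
        Set.indicator (Cu m \ E) (fun _ : Fin m → ℝ => L ^ (2 * n)) a := by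
    intro a ha
    by_cases hc : a ∈ E
    · have hi : Set.indicator (Cu m \ E) (fun _ : Fin m → ℝ => L ^ (2 * n)) a = 0 :=
        Set.indicator_of_notMem (fun hh => hh.2 hc) _
      have hW : PairX_W y m n n n (cl μ (SS G ε a) p) (cl μ (SS G ε a) p') =
          (∏ j ∈ Finset.Icc 1 n, th (cl μ (SS G ε a) p j)) *
            ∏ j ∈ Finset.Icc 1 n, th (cl μ (SS G ε a) p' j) := by
        unfold PairX_W
        exact if_pos hc
      rw [hi, hW, Finset.prod_mul_distrib, add_zero]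
    · have hi : Set.indicator (Cu m \ E) (fun _ : Fin m → ℝ => L ^ (2 * n)) a = L ^ (2 * n) :=
        by
          have hmem : a ∈ Cu m \ E := ⟨ha, hc⟩
          exact Set.indicator_of_mem hmem _
      rw [hi]
      have hp : (∏ i ∈ Finset.Icc 1 n,
          th (cl μ (SS G ε a) p i) * th (cl μ (SS G ε a) p' i)) ≤ L ^ (2 * n) := by
        calc (∏ i ∈ Finset.Icc 1 n, th (cl μ (SS G ε a) p i) * th (cl μ (SS G ε a) p' i))
            ≤ ∏ i ∈ Finset.Icc 1 n, L * L := by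
              refine Finset.prod_le_prod (fun j hj => ?_) (fun j hj => ?_)
              · exact mul_nonneg (hth a ha j (Finset.mem_Icc.1 hj).2).1
                  (hth' a ha j (Finset.mem_Icc.1 hj).2).1
              · exact mul_le_mul (hth a ha j (Finset.mem_Icc.1 hj).2).2
                  (hth' a ha j (Finset.mem_Icc.1 hj).2).2
                  (hth' a ha j (Finset.mem_Icc.1 hj).2).1 hL0
          _ = L ^ (2 * n) := by
              rw [Finset.prod_const, Nat.card_Icc, ← pow_two, ← pow_mul]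
              congr 1
      linarith [(hWb a ha).1]
  have hP0 : ∀ a ∈ Cu m, 0 ≤ ∏ i ∈ Finset.Icc 1 n,
      th (cl μ (SS G ε a) p i) * th (cl μ (SS G ε a) p' i) := fun a ha =>
    Finset.prod_nonneg fun j hj => mul_nonneg (hth a ha j (Finset.mem_Icc.1 hj).2).1
      (hth' a ha j (Finset.mem_Icc.1 hj).2).1
  have hint : (∫ a in Cu m, ∏ i ∈ Finset.Icc 1 n,
      th (cl μ (SS G ε a) p i) * th (cl μ (SS G ε a) p' i)) ≤
      ∫ a in Cu m, (PairX_W y m n n n (cl μ (SS G ε a) p) (cl μ (SS G ε a) p') +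
        Set.indicator (Cu m \ E) (fun _ : Fin m → ℝ => L ^ (2 * n)) a) := by
    refine integral_mono_of_nonneg ?_ (hintW.add hintI) ?_
    · exact (ae_restrict_iff' (PairX_Cu_meas m)).2
        (Filter.Eventually.of_forall fun a ha => hP0 a ha)
    · exact (ae_restrict_iff' (PairX_Cu_meas m)).2
        (Filter.Eventually.of_forall fun a ha => hpt a ha)
  rw [integral_add hintW hintI] at hint
  have hI2 : (∫ a in Cu m, Set.indicator (Cu m \ E) (fun _ : Fin m → ℝ => L ^ (2 * n)) a) ≤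
      Real.exp (lam y / 8) * (n * Real.exp (-(lam y / 2))) := by
    rw [setIntegral_indicator ((PairX_Cu_meas m).diff hEm), setIntegral_const, smul_eq_mul,
      Set.inter_eq_self_of_subset_right Set.sdiff_subset, mul_comm]
    exact mul_le_mul hexp (H2 y hy2 G hG μ hμ p p' hp1 hp2 hq1 hq2 hpp n (le_refl _))
      measureReal_nonneg (Real.exp_pos _).le
  have hJ := H1 y hy1 G hG μ hμ p p' hp1 hp2 hq1 hq2
  -- the error terms
  have hln : 16 * (n : ℝ) ≤ lam y := H5 y hy5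
  have e1 : 4 * n * Real.exp (-(3 / 4 * lam y)) ≤ 1 / 2 * Real.exp (-(lam y / 4)) := by
    have : Real.exp (-(3 / 4 * lam y)) = Real.exp (-(lam y / 2)) * Real.exp (-(lam y / 4)) := by
      rw [← Real.exp_add]; congr 1; ring
    rw [this, ← mul_assoc]
    refine mul_le_mul_of_nonneg_right ?_ (Real.exp_pos _).le
    rw [Real.exp_neg, ← div_eq_mul_inv, div_le_iff₀ (Real.exp_pos _)]
    have := Real.add_one_le_exp (lam y / 2)
    have hq := Real.quadratic_le_exp_of_nonneg (by linarith : 0 ≤ lam y / 2)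
    nlinarith
  have e2 : Real.exp (lam y / 8) * (n * Real.exp (-(lam y / 2))) ≤
      1 / 2 * Real.exp (-(lam y / 4)) := by
    have : Real.exp (lam y / 8) * (n * Real.exp (-(lam y / 2))) =
        (n * Real.exp (-(lam y / 8))) * Real.exp (-(lam y / 4)) := by
      have : Real.exp (lam y / 8) * Real.exp (-(lam y / 2)) =
          Real.exp (-(lam y / 8)) * Real.exp (-(lam y / 4)) := by
        rw [← Real.exp_add, ← Real.exp_add]; congr 1; ring
      calc Real.exp (lam y / 8) * (n * Real.exp (-(lam y / 2)))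
          = n * (Real.exp (lam y / 8) * Real.exp (-(lam y / 2))) := by ring
        _ = _ := by rw [this]; ring
    rw [this]
    refine mul_le_mul_of_nonneg_right ?_ (Real.exp_pos _).le
    rw [Real.exp_neg, ← div_eq_mul_inv, div_le_iff₀ (Real.exp_pos _)]
    have := Real.add_one_le_exp (lam y / 8)
    nlinarith
  linarith

end Pool.Agent.PCx
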