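import Pool.Agent.PCx.GgX

/-!
# The main term

Adapt `Pool/Agent/PCn/Sgd.lean`: split the sum into the classes `b` modulo `B` prime to `B` (`gg_mod`), `theta_window B`.
-/

namespace Pool.Agent.PCx

open Pool.Agent.PCn

private def SgdX_BB (B : ℕ) : Finset ℕ :=
  (Finset.range B).filter (fun b => Nat.Coprime b B)

private theorem SgdX_split {B : ℕ} (hB : 0 < B) {μ : ℕ → ℕ} (hμ : ∀ i, μ i ∣ B) (n : ℕ) (u v : ℕ)
    (hu : B ≤ u) :
    ∑ p ∈ Finset.Ioc u v, th p * gg B μ n 0 p =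
      ∑ b ∈ SgdX_BB B, gg B μ n 0 b *
        ∑ p ∈ (Finset.Ioc u v).filter (fun p => p.Prime ∧ p ≡ b [MOD B]), Real.log p := by
  classical
  have hmaps : ∀ p ∈ Finset.Ioc u v, p % B ∈ Finset.range B := fun p _ =>
    Finset.mem_range.2 (Nat.mod_lt _ hB)
  rw [← Finset.sum_fiberwise_of_maps_to hmaps]
  have hsub : SgdX_BB B ⊆ Finset.range B := Finset.filter_subset _ _
  rw [← Finset.sum_subset hsub]
  · apply Finset.sum_congr rfl
    intro b hb
    have hbM : b < B := Finset.mem_range.1 (hsub hb)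
    rw [Finset.mul_sum, Finset.sum_filter, Finset.sum_filter]
    apply Finset.sum_congr rfl
    intro p _
    have hiff : p % B = b ↔ p ≡ b [MOD B] := by
      unfold Nat.ModEq
      rw [Nat.mod_eq_of_lt hbM]
    by_cases h1 : p % B = b
    · have h2 : p ≡ b [MOD B] := hiff.1 h1
      have h3 : gg B μ n 0 p = gg B μ n 0 b := by
        rw [gg_mod hμ n 0 p, h1]
      by_cases hp : p.Prime
      · rw [if_pos h1, if_pos ⟨hp, h2⟩, h3]
        unfold th
        rw [if_pos hp]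
        ring
      · rw [if_pos h1, if_neg (fun h => hp h.1)]
        unfold th
        rw [if_neg hp, zero_mul]
    · rw [if_neg h1, if_neg (fun h => h1 (hiff.2 h.2))]
  · intro b hb hnb
    apply Finset.sum_eq_zero
    intro p hp
    rw [Finset.mem_filter, Finset.mem_Ioc] at hp
    have hbM : b < B := Finset.mem_range.1 hb
    have hcong : p ≡ b [MOD B] := by
      unfold Nat.ModEq
      rw [Nat.mod_eq_of_lt hbM]
      exact hp.2
    by_cases hpp : p.Prime
    · have hcop : Nat.Coprime p B :=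
        (Nat.Prime.coprime_iff_not_dvd hpp).2 (Nat.not_dvd_of_pos_of_lt hB (lt_of_le_of_lt hu hp.1.1))
      have hcb : Nat.Coprime b B := by
        unfold Nat.Coprime at hcop ⊢
        rw [← hcong.gcd_eq]
        exact hcop
      exact absurd (Finset.mem_filter.2 ⟨hb, hcb⟩) hnb
    · unfold th
      rw [if_neg hpp, zero_mul]

theorem sum_gg (B : ℕ) (hB : 0 < B) (n : ℕ) (r : ℝ) (hr : 1 < r) (hr2 : r ≤ 11 / 10) :
    ∃ C : ℝ, 0 < C ∧ ∀ μ : ℕ → ℕ, (∀ i, μ i ∣ B) → ∀ y : ℝ, 2 ≤ y → (B : ℝ) ≤ y →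
    |∑ p ∈ Finset.Ioc ⌊y⌋₊ ⌊r * y⌋₊, th p * gg B μ n 0 p - kapL B μ n * ((r - 1) * y)| ≤
      C * y * Real.exp (-(Real.log y) ^ (1 / 25 : ℝ)) := by
  obtain ⟨C, hC, hw⟩ := PNE.theta_window B hB
  refine ⟨(SgdX_BB B).card * (((B : ℝ) / B.totient) ^ n * C) + 1, by positivity, ?_⟩
  intro μ hμ y hy hBy
  have hy0 : 0 < y := by linarith
  have hfl : B ≤ ⌊y⌋₊ := Nat.le_floor hBy
  rw [SgdX_split hB hμ n _ _ hfl]
  have hkap : kapL B μ n * ((r - 1) * y) =
      ∑ b ∈ SgdX_BB B, gg B μ n 0 b * ((r * y - y) / B.totient) := by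
    rw [← Finset.sum_mul]
    unfold kapL SgdX_BB
    ring
  rw [hkap, ← Finset.sum_sub_distrib]
  have hE : 0 ≤ y * Real.exp (-(Real.log y) ^ (1 / 25 : ℝ)) := by positivity
  calc |∑ b ∈ SgdX_BB B, (gg B μ n 0 b *
        ∑ p ∈ (Finset.Ioc ⌊y⌋₊ ⌊r * y⌋₊).filter (fun p => p.Prime ∧ p ≡ b [MOD B]), Real.log p -
          gg B μ n 0 b * ((r * y - y) / B.totient))|
      ≤ ∑ b ∈ SgdX_BB B, |gg B μ n 0 b *
        ∑ p ∈ (Finset.Ioc ⌊y⌋₊ ⌊r * y⌋₊).filter (fun p => p.Prime ∧ p ≡ b [MOD B]), Real.log p -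
          gg B μ n 0 b * ((r * y - y) / B.totient)| := Finset.abs_sum_le_sum_abs _ _
    _ ≤ ∑ b ∈ SgdX_BB B, ((B : ℝ) / B.totient) ^ n *
          (C * y * Real.exp (-(Real.log y) ^ (1 / 25 : ℝ))) := by
        apply Finset.sum_le_sum
        intro b hb
        obtain ⟨h0, h1, _⟩ := gg_bd hB hμ n 0 b
        rw [← mul_sub, abs_mul, abs_of_nonneg h0]
        have hw1 := hw b (Finset.mem_filter.1 hb).2 y (r * y) hy (by nlinarith) (by nlinarith)
        exact mul_le_mul h1 hw1 (abs_nonneg _) (h0.trans h1)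
    _ ≤ ((SgdX_BB B).card * (((B : ℝ) / B.totient) ^ n * C) + 1) * y *
          Real.exp (-(Real.log y) ^ (1 / 25 : ℝ)) := by
        rw [Finset.sum_const, nsmul_eq_mul]
        nlinarith [hE]

theorem kapL_bd {B : ℕ} (hB : 0 < B) {μ : ℕ → ℕ} (hμ : ∀ i, μ i ∣ B) (n : ℕ) :
    0 ≤ kapL B μ n ∧ kapL B μ n ≤ ((B : ℝ) / B.totient) ^ n := by
  have hφ : (0 : ℝ) < B.totient := by exact_mod_cast Nat.totient_pos.2 hB
  have hcard : (((Finset.range B).filter (fun b => Nat.Coprime b B)).card : ℝ) = B.totient := by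
    have : ((Finset.range B).filter (fun b => Nat.Coprime b B)).card = B.totient := by
      unfold Nat.totient
      congr 1
      apply Finset.filter_congr
      intro b _
      exact Nat.coprime_comm
    exact_mod_cast this
  unfold kapL
  constructor
  · apply mul_nonneg (by positivity)
    exact Finset.sum_nonneg fun b _ => (gg_bd hB hμ n 0 b).1
  · calc 1 / (B.totient : ℝ) *
          ∑ b ∈ (Finset.range B).filter (fun b => Nat.Coprime b B), gg B μ n 0 b
        ≤ 1 / (B.totient : ℝ) *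
          ∑ b ∈ (Finset.range B).filter (fun b => Nat.Coprime b B), ((B : ℝ) / B.totient) ^ n := by
          apply mul_le_mul_of_nonneg_left _ (by positivity)
          exact Finset.sum_le_sum fun b _ => (gg_bd hB hμ n 0 b).2.1
      _ = ((B : ℝ) / B.totient) ^ n := by
          rw [Finset.sum_const, nsmul_eq_mul, hcard, ← mul_assoc, one_div,
            inv_mul_cancel₀ hφ.ne', one_mul]

end Pool.Agent.PCx
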