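import Pool.Agent.PCx.SglX
import Pool.Agent.PCx.PairX
import Pool.Agent.PCx.SgdX

/-!
# The second moment of a window

Adapt `Pool/Agent/PCn/Mom.lean` (`gd M n p` becomes `gg B μ n 0 p`, `kap M n` becomes `kapL B μ n`, bounded by `kapL_bd`; all the
constants must be uniform in `G` and `μ`).
-/

namespace Pool.Agent.PCx

open MeasureTheory Pool.Agent.PCn

private theorem MomX_vol_Cu (m : ℕ) : volume (Cu m) = 1 := by
  unfold Cu
  rw [Real.volume_Icc_pi]
  simp

/-- number of the elements close to `p` -/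
private theorem MomX_card_close (P : Finset ℕ) (p : ℕ) {δ : ℝ} (hδ : 0 ≤ δ) :
    ((P.filter (fun p' : ℕ => |(p : ℝ) - p'| < δ)).card : ℝ) ≤ 2 * δ + 1 := by
  have hsub : P.filter (fun p' : ℕ => |(p : ℝ) - p'| < δ) ⊆
      Finset.Icc ⌈(p : ℝ) - δ⌉₊ ⌊(p : ℝ) + δ⌋₊ := by
    intro q hq
    rw [Finset.mem_filter] at hq
    obtain ⟨_, hq⟩ := hq
    rw [abs_lt] at hq
    rw [Finset.mem_Icc]
    refine ⟨Nat.ceil_le.2 (by linarith), Nat.le_floor (by linarith)⟩
  have h1 := Finset.card_le_card hsub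
  rw [Nat.card_Icc] at h1
  have h2 : ((⌊(p : ℝ) + δ⌋₊ + 1 - ⌈(p : ℝ) - δ⌉₊ : ℕ) : ℝ) ≤ 2 * δ + 1 := by
    rcases le_total ⌈(p : ℝ) - δ⌉₊ (⌊(p : ℝ) + δ⌋₊ + 1) with hle | hle
    · rw [Nat.cast_sub hle]
      push_cast
      have h3 := Nat.le_ceil ((p : ℝ) - δ)
      have h4 := Nat.floor_le (show 0 ≤ (p : ℝ) + δ by positivity)
      linarith
    · rw [Nat.sub_eq_zero_of_le hle]
      simp only [Nat.cast_zero]
      linarith
  exact le_trans (by exact_mod_cast h1) h2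

private theorem MomX_integral_sq {X : Type*} [MeasurableSpace X] {μ : Measure X}
    [IsProbabilityMeasure μ] (P : Finset ℕ) (w : ℕ → ℝ) (f : ℕ → X → ℝ) (E B : ℝ)
    (hf : ∀ p ∈ P, Measurable (f p)) (hb : ∀ p ∈ P, ∀ᵐ a ∂μ, 0 ≤ f p a ∧ f p a ≤ B) :
    (∫ a, (∑ p ∈ P, w p * f p a - E) ^ 2 ∂μ) =
      ∑ p ∈ P, ∑ p' ∈ P, w p * w p' * (∫ a, f p a * f p' a ∂μ) -
        2 * E * ∑ p ∈ P, w p * (∫ a, f p a ∂μ) + E ^ 2 := by
  have hi1 : ∀ p ∈ P, Integrable (f p) μ := by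
    intro p hp
    refine Integrable.mono' (integrable_const B) (hf p hp).aestronglyMeasurable ?_
    filter_upwards [hb p hp] with a ha
    rw [Real.norm_eq_abs, abs_of_nonneg ha.1]
    exact ha.2
  have hi2 : ∀ p ∈ P, ∀ p' ∈ P, Integrable (fun a => f p a * f p' a) μ := by
    intro p hp p' hp'
    refine Integrable.mono' (integrable_const (B * B))
      ((hf p hp).mul (hf p' hp')).aestronglyMeasurable ?_
    filter_upwards [hb p hp, hb p' hp'] with a ha ha'
    rw [Real.norm_eq_abs, abs_of_nonneg (mul_nonneg ha.1 ha'.1)]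
    exact mul_le_mul ha.2 ha'.2 ha'.1 (ha.1.trans ha.2)
  have hexp : ∀ a, (∑ p ∈ P, w p * f p a - E) ^ 2 =
      ((∑ p ∈ P, ∑ p' ∈ P, w p * w p' * (f p a * f p' a)) -
        (∑ p ∈ P, (2 * E * w p) * f p a)) + E ^ 2 := by
    intro a
    have h1 : (∑ p ∈ P, w p * f p a) ^ 2 =
        ∑ p ∈ P, ∑ p' ∈ P, w p * w p' * (f p a * f p' a) := by
      rw [sq, Finset.sum_mul_sum]
      refine Finset.sum_congr rfl fun p _ => Finset.sum_congr rfl fun p' _ => ?_
      ring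
    have h2 : (∑ p ∈ P, (2 * E * w p) * f p a) = 2 * E * ∑ p ∈ P, w p * f p a := by
      rw [Finset.mul_sum]
      refine Finset.sum_congr rfl fun p _ => ?_
      ring
    rw [← h1, h2]
    ring
  simp_rw [hexp]
  have hI1 : Integrable (fun a => ∑ p ∈ P, ∑ p' ∈ P, w p * w p' * (f p a * f p' a)) μ := by
    refine integrable_finsetSum _ fun p hp => integrable_finsetSum _ fun p' hp' => ?_
    exact (hi2 p hp p' hp').const_mul _
  have hI2 : Integrable (fun a => ∑ p ∈ P, (2 * E * w p) * f p a) μ := by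
    refine integrable_finsetSum _ fun p hp => ?_
    exact (hi1 p hp).const_mul _
  have hI3 : Integrable (fun a => (∑ p ∈ P, ∑ p' ∈ P, w p * w p' * (f p a * f p' a)) -
      ∑ p ∈ P, (2 * E * w p) * f p a) μ := hI1.sub hI2
  rw [integral_add hI3 (integrable_const _), integral_sub hI1 hI2]
  rw [integral_finsetSum _ (fun p hp => integrable_finsetSum _ fun p' hp' =>
    (hi2 p hp p' hp').const_mul _)]
  rw [integral_finsetSum _ (fun p hp => (hi1 p hp).const_mul _)]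
  have e1 : ∑ p ∈ P, (∫ a, ∑ p' ∈ P, w p * w p' * (f p a * f p' a) ∂μ) =
      ∑ p ∈ P, ∑ p' ∈ P, w p * w p' * (∫ a, f p a * f p' a ∂μ) := by
    refine Finset.sum_congr rfl fun p hp => ?_
    rw [integral_finsetSum _ (fun p' hp' => (hi2 p hp p' hp').const_mul _)]
    refine Finset.sum_congr rfl fun p' hp' => ?_
    rw [integral_const_mul]
  have e2 : ∑ p ∈ P, (∫ a, (2 * E * w p) * f p a ∂μ) =
      2 * E * ∑ p ∈ P, w p * (∫ a, f p a ∂μ) := by
    rw [Finset.mul_sum]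
    refine Finset.sum_congr rfl fun p hp => ?_
    rw [integral_const_mul]
    ring
  rw [e1, e2]
  simp

/-- the estimate of the second moment, real numbers only -/
private theorem MomX_est (P : Finset ℕ) (w g J : ℕ → ℝ) (JJ : ℕ → ℕ → ℝ) (E Λ y δ e2 e4 B : ℝ)
    (hE : 0 ≤ E) (hδ : 0 ≤ δ) (he2 : 0 ≤ e2) (he4 : 0 ≤ e4) (hB : 0 ≤ B)
    (hw0 : ∀ p ∈ P, 0 ≤ w p) (hw : ∀ p ∈ P, w p ≤ Λ) (hΛ : 0 ≤ Λ) (hg : ∀ p ∈ P, 0 ≤ g p)
    (hP : (P.card : ℝ) ≤ y)
    (hJ : ∀ p ∈ P, |J p - g p| ≤ e2)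
    (hJ1 : ∀ p ∈ P, ∀ p' ∈ P, δ ≤ |(p : ℝ) - p'| → JJ p p' ≤ g p * g p' + e4)
    (hJ2 : ∀ p ∈ P, ∀ p' ∈ P, JJ p p' ≤ B) :
    ∑ p ∈ P, ∑ p' ∈ P, w p * w p' * JJ p p' - 2 * E * ∑ p ∈ P, w p * J p + E ^ 2 ≤
      (∑ p ∈ P, w p * g p - E) ^ 2 + e4 * (Λ * y) ^ 2 + Λ ^ 2 * B * (y * (2 * δ + 1)) +
        2 * E * e2 * (Λ * y) := by
  have hsw : ∑ p ∈ P, w p ≤ Λ * y := by
    calc ∑ p ∈ P, w p ≤ ∑ p ∈ P, Λ := Finset.sum_le_sum hw
      _ = P.card * Λ := by rw [Finset.sum_const, nsmul_eq_mul]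
      _ ≤ y * Λ := mul_le_mul_of_nonneg_right hP hΛ
      _ = Λ * y := by ring
  have hsw0 : 0 ≤ ∑ p ∈ P, w p := Finset.sum_nonneg hw0
  have h1 : ∑ p ∈ P, w p * g p - e2 * (Λ * y) ≤ ∑ p ∈ P, w p * J p := by
    have : ∑ p ∈ P, w p * g p - e2 * ∑ p ∈ P, w p ≤ ∑ p ∈ P, w p * J p := by
      rw [Finset.mul_sum, ← Finset.sum_sub_distrib]
      refine Finset.sum_le_sum fun p hp => ?_
      have := (abs_le.1 (hJ p hp)).1
      nlinarith [hw0 p hp]
    have h3 := mul_le_mul_of_nonneg_left hsw he2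
    linarith
  have h2 : ∑ p ∈ P, ∑ p' ∈ P, w p * w p' * JJ p p' ≤
      (∑ p ∈ P, w p * g p) ^ 2 + e4 * (Λ * y) ^ 2 + Λ ^ 2 * B * (y * (2 * δ + 1)) := by
    have h21 : ∀ p ∈ P, ∀ p' ∈ P, w p * w p' * JJ p p' ≤
        (w p * g p) * (w p' * g p') + e4 * (w p * w p') +
          Λ ^ 2 * B * (if |(p : ℝ) - p'| < δ then 1 else 0) := by
      intro p hp p' hp'
      have hww : 0 ≤ w p * w p' := mul_nonneg (hw0 p hp) (hw0 p' hp')
      have hww2 : w p * w p' ≤ Λ ^ 2 := by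
        rw [sq]
        exact mul_le_mul (hw p hp) (hw p' hp') (hw0 p' hp') hΛ
      by_cases hc : |(p : ℝ) - p'| < δ
      · rw [if_pos hc, mul_one]
        have h3 : w p * w p' * JJ p p' ≤ w p * w p' * B :=
          mul_le_mul_of_nonneg_left (hJ2 p hp p' hp') hww
        have h4 : w p * w p' * B ≤ Λ ^ 2 * B := mul_le_mul_of_nonneg_right hww2 hB
        have h5 : 0 ≤ (w p * g p) * (w p' * g p') :=
          mul_nonneg (mul_nonneg (hw0 p hp) (hg p hp)) (mul_nonneg (hw0 p' hp') (hg p' hp'))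
        have h6 : 0 ≤ e4 * (w p * w p') := mul_nonneg he4 hww
        linarith
      · rw [if_neg hc, mul_zero, add_zero]
        have h3 : w p * w p' * JJ p p' ≤ w p * w p' * (g p * g p' + e4) :=
          mul_le_mul_of_nonneg_left (hJ1 p hp p' hp' (not_lt.1 hc)) hww
        calc w p * w p' * JJ p p' ≤ w p * w p' * (g p * g p' + e4) := h3
          _ = (w p * g p) * (w p' * g p') + e4 * (w p * w p') := by ring
    calc ∑ p ∈ P, ∑ p' ∈ P, w p * w p' * JJ p p'
        ≤ ∑ p ∈ P, ∑ p' ∈ P, ((w p * g p) * (w p' * g p') + e4 * (w p * w p') +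
          Λ ^ 2 * B * (if |(p : ℝ) - p'| < δ then 1 else 0)) :=
          Finset.sum_le_sum fun p hp => Finset.sum_le_sum fun p' hp' => h21 p hp p' hp'
      _ = (∑ p ∈ P, w p * g p) ^ 2 + e4 * (∑ p ∈ P, w p) ^ 2 +
          Λ ^ 2 * B * ∑ p ∈ P, ∑ p' ∈ P, (if |(p : ℝ) - p'| < δ then (1 : ℝ) else 0) := by
          simp_rw [Finset.sum_add_distrib]
          congr 1
          · congr 1
            · rw [sq, Finset.sum_mul_sum]
            · rw [sq, Finset.sum_mul_sum, Finset.mul_sum]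
              refine Finset.sum_congr rfl fun p _ => ?_
              rw [Finset.mul_sum]
          · rw [Finset.mul_sum]
            refine Finset.sum_congr rfl fun p _ => ?_
            rw [Finset.mul_sum]
      _ ≤ (∑ p ∈ P, w p * g p) ^ 2 + e4 * (Λ * y) ^ 2 + Λ ^ 2 * B * (y * (2 * δ + 1)) := by
          have h3 : (∑ p ∈ P, w p) ^ 2 ≤ (Λ * y) ^ 2 := pow_le_pow_left₀ hsw0 hsw 2
          have h4 : ∑ p ∈ P, ∑ p' ∈ P, (if |(p : ℝ) - p'| < δ then (1 : ℝ) else 0) ≤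
              y * (2 * δ + 1) := by
            calc ∑ p ∈ P, ∑ p' ∈ P, (if |(p : ℝ) - p'| < δ then (1 : ℝ) else 0)
                ≤ ∑ p ∈ P, (2 * δ + 1) := by
                  refine Finset.sum_le_sum fun p _ => ?_
                  rw [Finset.sum_ite, Finset.sum_const, Finset.sum_const, nsmul_eq_mul,
                    mul_one, smul_zero, add_zero]
                  exact MomX_card_close P p hδ
              _ = P.card * (2 * δ + 1) := by rw [Finset.sum_const, nsmul_eq_mul]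
              _ ≤ y * (2 * δ + 1) := mul_le_mul_of_nonneg_right hP (by linarith)
          have h5 := mul_le_mul_of_nonneg_left h3 he4
          have h6 := mul_le_mul_of_nonneg_left h4 (mul_nonneg (sq_nonneg Λ) hB)
          linarith
  have h3 := mul_le_mul_of_nonneg_left h1 (show 0 ≤ 2 * E by linarith)
  nlinarith [h2, h3]

theorem momX {ρ ε : ℕ → ℝ} (h : Hx ρ ε) (B n m : ℕ) (hB : 0 < B) (hm : 2 * n ≤ m) (r : ℝ)
    (hr : 1 < r) (hr2 : r ≤ 11 / 10) : ∃ C Y : ℝ, 0 < C ∧ 3 ≤ Y ∧ ∀ y ≥ Y,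
    ∀ G : ℕ → ℝ, Adm ρ G → ∀ μ : ℕ → ℕ, (∀ i, μ i ∣ B) →
    (∫ a in Cu m, (VL μ (SS G ε a) n y (r * y) - kapL B μ n * ((r - 1) * y)) ^ 2) ≤
      C * y ^ 2 * Real.exp (-(lam y / 8)) := by
  obtain ⟨Y1, hY1, hs⟩ := sglX h B n m hB (by omega)
  obtain ⟨Y2, hY2, hp2⟩ := pairX h B n m hB hm
  obtain ⟨C3, hC3, hW⟩ := sum_gg B hB n r hr hr2
  obtain ⟨Y4, hY4, hth⟩ := thX h B n m hB
  obtain ⟨Y5, hY5, hlog⟩ := logs n (2 * n + 2) (1 / 8) (by norm_num)
  obtain ⟨K0, hK0⟩ : ∃ K0 : ℝ, K0 = ((B : ℝ) / B.totient) ^ n := ⟨_, rfl⟩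
  have hK0' : 0 ≤ K0 := by
    rw [hK0]
    positivity
  refine ⟨C3 ^ 2 + 1 + 3 + 2 * (K0 * (r - 1)),
    max (max (max Y1 Y2) (max Y4 Y5)) (max (B : ℝ) 3), ?_, ?_, ?_⟩
  · have : 0 ≤ K0 * (r - 1) := mul_nonneg hK0' (by linarith)
    positivity
  · exact le_trans (le_max_right _ _) (le_max_right _ _)
  intro y hy G hGA μ hμ
  obtain ⟨kp, hkpdef⟩ : ∃ kp : ℝ, kp = kapL B μ n := ⟨_, rfl⟩
  have hkap : 0 ≤ kp := by rw [hkpdef]; exact (kapL_bd hB hμ n).1
  have hkap2 : kp ≤ K0 := by rw [hkpdef, hK0]; exact (kapL_bd hB hμ n).2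
  rw [← hkpdef]
  have hy1 : Y1 ≤ y := le_trans (le_trans (le_trans (le_max_left _ _) (le_max_left _ _))
    (le_max_left _ _)) hy
  have hy2 : Y2 ≤ y := le_trans (le_trans (le_trans (le_max_right _ _) (le_max_left _ _))
    (le_max_left _ _)) hy
  have hy4 : Y4 ≤ y := le_trans (le_trans (le_trans (le_max_left _ _) (le_max_right _ _))
    (le_max_left _ _)) hy
  have hy5 : Y5 ≤ y := le_trans (le_trans (le_trans (le_max_right _ _) (le_max_right _ _))
    (le_max_left _ _)) hy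
  have hyM : (B : ℝ) ≤ y := le_trans (le_trans (le_max_left _ _) (le_max_right _ _)) hy
  have hy3 : 3 ≤ y := le_trans (le_trans (le_max_right _ _) (le_max_right _ _)) hy
  have hy0 : 0 < y := by linarith
  set P : Finset ℕ := Finset.Ioc ⌊y⌋₊ ⌊r * y⌋₊ with hPdef
  have hPmem : ∀ p ∈ P, y < (p : ℝ) ∧ (p : ℝ) ≤ 11 / 10 * y := by
    intro p hp
    rw [hPdef, Finset.mem_Ioc] at hp
    refine ⟨Nat.lt_of_floor_lt hp.1, ?_⟩
    have h1 : (p : ℝ) ≤ r * y := (Nat.le_floor_iff (by positivity)).1 hp.2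
    have h2 : r * y ≤ 11 / 10 * y := mul_le_mul_of_nonneg_right hr2 hy0.le
    linarith
  have hPcard : (P.card : ℝ) ≤ y := by
    rw [hPdef, Nat.card_Ioc]
    rcases le_total ⌊y⌋₊ ⌊r * y⌋₊ with hle | hle
    · rw [Nat.cast_sub hle]
      have h1 := Nat.floor_le (show 0 ≤ r * y by positivity)
      have h2 := Nat.lt_floor_add_one y
      have h3 : r * y ≤ 11 / 10 * y := mul_le_mul_of_nonneg_right hr2 hy0.le
      linarith
    · rw [Nat.sub_eq_zero_of_le hle]
      simpa using hy0.le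
  obtain ⟨hΛ1, hlam1, hΛK⟩ := hlog y hy5
  set Λ : ℝ := Real.log (2 ^ (n + 4) * y) with hΛdef
  set l : ℝ := lam y with hldef
  have hΛ0 : 0 ≤ Λ := by linarith
  -- the functions
  set f : ℕ → (Fin m → ℝ) → ℝ := fun p a => ∏ i ∈ Finset.Icc 1 n, th (cl μ (SS G ε a) p i)
    with hfdef
  have hth0 : ∀ c : ℕ, 0 ≤ th c := by
    intro c
    unfold th
    split_ifs
    · exact Real.log_natCast_nonneg c
    · exact le_rfl
  have hfm : ∀ p, Measurable (f p) := by
    intro p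
    refine Finset.measurable_prod _ fun i _ => ?_
    exact (measurable_from_top (f := th)).comp
      (measurable_cl μ (fun a : Fin m → ℝ => SS G ε a) (fun q => measurable_SS G ε q) p i)
  have hfb : ∀ p ∈ P, ∀ a ∈ Cu m, 0 ≤ f p a ∧ f p a ≤ Λ ^ n := by
    intro p hp a ha
    refine ⟨Finset.prod_nonneg fun i _ => hth0 _, ?_⟩
    calc f p a ≤ ∏ i ∈ Finset.Icc 1 n, Λ := by
          refine Finset.prod_le_prod (fun i _ => hth0 _) fun i hi => ?_
          exact (hth y hy4 G hGA a ha μ hμ p (hPmem p hp).1 (hPmem p hp).2 i (Finset.mem_Icc.1 hi).2).2.1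
      _ = Λ ^ n := by rw [Finset.prod_const, Nat.card_Icc, Nat.add_sub_cancel]
  have hV : ∀ a : Fin m → ℝ, VL μ (SS G ε a) n y (r * y) = ∑ p ∈ P, th p * f p a := by
    intro a
    unfold VL
    refine Finset.sum_congr rfl fun p _ => ?_
    rw [Finset.prod_range_succ', cl_zero, mul_comm]
    congr 1
    rw [hfdef]
    rw [Finset.range_eq_Ico, Finset.prod_Ico_add' (fun i => th (cl μ (SS G ε a) p i)) 0 n 1]
    rfl
  have hprob : IsProbabilityMeasure (volume.restrict (Cu m)) := by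
    refine ⟨?_⟩
    rw [Measure.restrict_apply_univ, MomX_vol_Cu]
  have hmeas : MeasurableSet (Cu m) := by
    unfold Cu
    exact measurableSet_Icc
  have hint := MomX_integral_sq (μ := volume.restrict (Cu m)) P (fun p => th p) f
    (kp * ((r - 1) * y)) (Λ ^ n) (fun p _ => hfm p) (by
      intro p hp
      filter_upwards [ae_restrict_mem hmeas] with a ha
      exact hfb p hp a ha)
  simp_rw [hV]
  rw [hint]
  have hgd0 : ∀ p, 0 ≤ gg B μ n 0 p := by
    intro p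
    exact (gg_bd hB hμ n 0 p).1
  have hwΛ : ∀ p ∈ P, th p ≤ Λ := by
    intro p hp
    have h0 : (0 : Fin m → ℝ) ∈ Cu m := by
      unfold Cu
      exact ⟨le_rfl, zero_le_one⟩
    have := (hth y hy4 G hGA 0 h0 μ hμ p (hPmem p hp).1 (hPmem p hp).2 0 (Nat.zero_le n)).2.1
    rwa [cl_zero] at this
  have hE0 : 0 ≤ kp * ((r - 1) * y) :=
    mul_nonneg hkap (mul_nonneg (by linarith) hy0.le)
  have key := MomX_est P (fun p => th p) (fun p => gg B μ n 0 p)
    (fun p => ∫ a in Cu m, f p a) (fun p p' => ∫ a in Cu m, f p a * f p' a)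
    (kp * ((r - 1) * y)) Λ y (y * Real.exp (-l)) (Real.exp (-(l / 2)))
    (Real.exp (-(l / 4))) (Λ ^ (2 * n)) hE0 (by positivity) (Real.exp_pos _).le
    (Real.exp_pos _).le (by positivity) (fun p _ => hth0 p) hwΛ hΛ0 (fun p _ => hgd0 p) hPcard
    (fun p hp => hs y hy1 G hGA μ hμ p (hPmem p hp).1 (hPmem p hp).2)
    (by
      intro p hp p' hp' hd
      have := hp2 y hy2 G hGA μ hμ p p' (hPmem p hp).1 (hPmem p hp).2 (hPmem p' hp').1 (hPmem p' hp').2 hd
      simp_rw [Finset.prod_mul_distrib] at this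
      exact this)
    (by
      intro p hp p' hp'
      calc (∫ a in Cu m, f p a * f p' a) ≤ ∫ a in Cu m, Λ ^ (2 * n) := by
            refine setIntegral_mono_on ?_ (integrable_const _) hmeas ?_
            · refine Integrable.mono' (integrable_const (Λ ^ n * Λ ^ n))
                ((hfm p).mul (hfm p')).aestronglyMeasurable ?_
              filter_upwards [ae_restrict_mem hmeas] with a ha
              have h1 := hfb p hp a ha
              have h2 := hfb p' hp' a ha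
              rw [Real.norm_eq_abs, abs_of_nonneg (mul_nonneg h1.1 h2.1)]
              exact mul_le_mul h1.2 h2.2 h2.1 (h1.1.trans h1.2)
            · intro a ha
              have h1 := hfb p hp a ha
              have h2 := hfb p' hp' a ha
              calc f p a * f p' a ≤ Λ ^ n * Λ ^ n :=
                    mul_le_mul h1.2 h2.2 h2.1 (h1.1.trans h1.2)
                _ = Λ ^ (2 * n) := by rw [two_mul, pow_add]
        _ = Λ ^ (2 * n) := by simp)
  refine le_trans key ?_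
  -- final estimate
  have hlogy : 1 ≤ Real.log y := by
    rw [← Real.log_exp 1]
    refine Real.log_le_log (Real.exp_pos 1) ?_
    have := Real.exp_one_lt_d9
    linarith
  have hl_le : l ≤ Real.log y := by
    rw [hldef]
    unfold lam
    calc Real.log y ^ (1 / 28 : ℝ) ≤ Real.log y ^ (1 : ℝ) :=
          Real.rpow_le_rpow_of_exponent_le hlogy (by norm_num)
      _ = Real.log y := Real.rpow_one _
  have hl_25 : l ≤ Real.log y ^ (1 / 25 : ℝ) := by
    rw [hldef]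
    unfold lam
    exact Real.rpow_le_rpow_of_exponent_le hlogy (by norm_num)
  have hδ1 : 1 ≤ y * Real.exp (-l) := by
    have h1 : Real.exp l ≤ y := by
      calc Real.exp l ≤ Real.exp (Real.log y) := Real.exp_le_exp.2 hl_le
        _ = y := Real.exp_log hy0
    calc (1 : ℝ) = Real.exp l * Real.exp (-l) := by rw [← Real.exp_add]; simp
      _ ≤ y * Real.exp (-l) := mul_le_mul_of_nonneg_right h1 (Real.exp_pos _).le
  set e8 : ℝ := Real.exp (-(l / 8)) with he8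
  have he80 : 0 < e8 := Real.exp_pos _
  have hl0 : 0 ≤ l := by linarith
  -- first term
  have t1 : (∑ p ∈ P, th p * gg B μ n 0 p - kp * ((r - 1) * y)) ^ 2 ≤ C3 ^ 2 * y ^ 2 * e8 := by
    have h1 := hW μ hμ y (by linarith) hyM
    rw [← hkpdef] at h1
    have h2 : |∑ p ∈ P, th p * gg B μ n 0 p - kp * ((r - 1) * y)| ≤
        C3 * y * Real.exp (-l) := by
      refine le_trans h1 ?_
      refine mul_le_mul_of_nonneg_left (Real.exp_le_exp.2 (by linarith)) (by positivity)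
    calc (∑ p ∈ P, th p * gg B μ n 0 p - kp * ((r - 1) * y)) ^ 2
        = |∑ p ∈ P, th p * gg B μ n 0 p - kp * ((r - 1) * y)| ^ 2 := (sq_abs _).symm
      _ ≤ (C3 * y * Real.exp (-l)) ^ 2 := pow_le_pow_left₀ (abs_nonneg _) h2 2
      _ = C3 ^ 2 * y ^ 2 * (Real.exp (-l) * Real.exp (-l)) := by ring
      _ = C3 ^ 2 * y ^ 2 * Real.exp (-l + -l) := by rw [Real.exp_add]
      _ ≤ C3 ^ 2 * y ^ 2 * e8 := by
          refine mul_le_mul_of_nonneg_left (Real.exp_le_exp.2 (by linarith)) (by positivity)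
  have hΛ2 : Λ ^ 2 ≤ Real.exp (1 / 8 * l) := by
    refine le_trans ?_ hΛK
    exact pow_le_pow_right₀ hΛ1 (by omega)
  have hΛ1' : Λ ≤ Real.exp (1 / 8 * l) := by
    refine le_trans ?_ hΛK
    calc Λ = Λ ^ 1 := (pow_one _).symm
      _ ≤ Λ ^ (2 * n + 2) := pow_le_pow_right₀ hΛ1 (by omega)
  have t2 : Real.exp (-(l / 4)) * (Λ * y) ^ 2 ≤ 1 * y ^ 2 * e8 := by
    calc Real.exp (-(l / 4)) * (Λ * y) ^ 2 = (Real.exp (-(l / 4)) * Λ ^ 2) * y ^ 2 := by ring
      _ ≤ (Real.exp (-(l / 4)) * Real.exp (1 / 8 * l)) * y ^ 2 := by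
          refine mul_le_mul_of_nonneg_right ?_ (by positivity)
          exact mul_le_mul_of_nonneg_left hΛ2 (Real.exp_pos _).le
      _ = Real.exp (-(l / 4) + 1 / 8 * l) * y ^ 2 := by rw [Real.exp_add]
      _ ≤ e8 * y ^ 2 := by
          refine mul_le_mul_of_nonneg_right (Real.exp_le_exp.2 (by linarith)) (by positivity)
      _ = 1 * y ^ 2 * e8 := by ring
  have t3 : Λ ^ 2 * Λ ^ (2 * n) * (y * (2 * (y * Real.exp (-l)) + 1)) ≤ 3 * y ^ 2 * e8 := by
    have h1 : Λ ^ 2 * Λ ^ (2 * n) ≤ Real.exp (1 / 8 * l) := by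
      refine le_trans (le_of_eq ?_) hΛK
      rw [← pow_add]
      congr 1
      omega
    have h2 : y * (2 * (y * Real.exp (-l)) + 1) ≤ 3 * y ^ 2 * Real.exp (-l) := by
      have : y * (2 * (y * Real.exp (-l)) + 1) ≤ y * (3 * (y * Real.exp (-l))) :=
        mul_le_mul_of_nonneg_left (by linarith) hy0.le
      calc y * (2 * (y * Real.exp (-l)) + 1) ≤ y * (3 * (y * Real.exp (-l))) := this
        _ = 3 * y ^ 2 * Real.exp (-l) := by ring
    calc Λ ^ 2 * Λ ^ (2 * n) * (y * (2 * (y * Real.exp (-l)) + 1))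
        ≤ Real.exp (1 / 8 * l) * (3 * y ^ 2 * Real.exp (-l)) := by
          refine mul_le_mul h1 h2 ?_ (Real.exp_pos _).le
          positivity
      _ = 3 * y ^ 2 * Real.exp (1 / 8 * l + -l) := by rw [Real.exp_add]; ring
      _ ≤ 3 * y ^ 2 * e8 := by
          refine mul_le_mul_of_nonneg_left (Real.exp_le_exp.2 (by linarith)) (by positivity)
  have t4 : 2 * (kp * ((r - 1) * y)) * Real.exp (-(l / 2)) * (Λ * y) ≤
      2 * (K0 * (r - 1)) * y ^ 2 * e8 := by
    have hk : 0 ≤ kp * (r - 1) := mul_nonneg hkap (by linarith)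
    have hk2 : kp * (r - 1) ≤ K0 * (r - 1) := mul_le_mul_of_nonneg_right hkap2 (by linarith)
    calc 2 * (kp * ((r - 1) * y)) * Real.exp (-(l / 2)) * (Λ * y)
        = 2 * (kp * (r - 1)) * y ^ 2 * (Real.exp (-(l / 2)) * Λ) := by ring
      _ ≤ 2 * (kp * (r - 1)) * y ^ 2 * (Real.exp (-(l / 2)) * Real.exp (1 / 8 * l)) := by
          refine mul_le_mul_of_nonneg_left ?_ (by positivity)
          exact mul_le_mul_of_nonneg_left hΛ1' (Real.exp_pos _).le
      _ = 2 * (kp * (r - 1)) * y ^ 2 * Real.exp (-(l / 2) + 1 / 8 * l) := by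
          rw [Real.exp_add]
      _ ≤ 2 * (kp * (r - 1)) * y ^ 2 * e8 := by
          refine mul_le_mul_of_nonneg_left (Real.exp_le_exp.2 (by linarith)) (by positivity)
      _ ≤ 2 * (K0 * (r - 1)) * y ^ 2 * e8 := by
          refine mul_le_mul_of_nonneg_right ?_ he80.le
          refine mul_le_mul_of_nonneg_right ?_ (by positivity)
          linarith
  have hfin : (C3 ^ 2 + 1 + 3 + 2 * (K0 * (r - 1))) * y ^ 2 * e8 =
      C3 ^ 2 * y ^ 2 * e8 + 1 * y ^ 2 * e8 + 3 * y ^ 2 * e8 +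
        2 * (K0 * (r - 1)) * y ^ 2 * e8 := by ring
  rw [hfin]
  linarith [t1, t2, t3, t4]

end Pool.Agent.PCx
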