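import Pool.Agent.PCx.ThrX

/-!
# The patterns of the moduli in a window

`pq Z u i = MM Z ⌊2^i u⌋`, the modulus at the size `2^i u`.
`pat`: let `j' = JJ Z ⌊u⌋`, so `Z (j'-1) ≤ ⌊u⌋ < Z j'` (`JJ_succ`).  As `Z (j'+1) ≥ 2^(j'+10) (Z j' + 1) > 2^n u`, `JJ Z ⌊2^i u⌋`,
`i < n`, takes only the values `j'`, `j' + 1`, and is increasing.  If the value `j' + 1` occurs take `j = j'` (`Z j' ≤ 2^n u`), otherwise
`j = j' - 1`, `i1 = 0`.
`pat_chain`: `r = 1 + 1/l`, `δ = 1/(8l)`; `2^i y (1-δ) ≤ c i ≤ 2^i r y (1+δ)` gives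
`JJ Z ⌊2^i y (1-δ)⌋ ≤ JJ Z (c i) ≤ JJ Z ⌊2^i r y (1+δ)⌋`, with equality everywhere except for at most one `i`, as only one
threshold lies in the whole range and `r (1+δ) < 2 (1-δ)`, and there the difference is at most `1`.
`exc`: if `pq Z (r^k (1-δ)) i ≠ pq Z (r^(k+1) (1+δ)) i` there is a threshold `Z j` with
`2^i r^k (1-δ) < Z j + 1` and `Z j ≤ 2^i r^(k+1) (1+δ)`; for given `i` and `j` this restricts `k` to an interval of length `< 3`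
(`(1+δ)/(1-δ) ≤ 1 + 3δ < r`), so to at most `3` values (or `4`), and for large `J` the range of the sizes for
`k ∈ [J - R, J]`, `i < n` contains at most one threshold.
-/

namespace Pool.Agent.PCx

open Filter Pool.Agent.PCn

/-- the moduli at the sizes `2^i u` -/
noncomputable def pq (Z : ℕ → ℕ) (u : ℝ) (i : ℕ) : ℕ := MM Z ⌊2 ^ i * u⌋₊

private theorem PatX_mono {Z : ℕ → ℕ} (hZ : ∀ j, 2 ^ (j + 10) * (Z j + 1) ≤ Z (j + 1)) :
    StrictMono Z := by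
  refine strictMono_nat_of_lt_succ fun j => ?_
  calc Z j < Z j + 1 := Nat.lt_succ_self _
    _ = 1 * (Z j + 1) := (one_mul _).symm
    _ ≤ 2 ^ (j + 10) * (Z j + 1) := Nat.mul_le_mul_right _ Nat.one_le_two_pow
    _ ≤ Z (j + 1) := hZ j

private theorem PatX_iff {Z : ℕ → ℕ} (hZ : ∀ j, 2 ^ (j + 10) * (Z j + 1) ≤ Z (j + 1)) (j q : ℕ) :
    j < JJ Z q ↔ Z j ≤ q := by
  have hm := PatX_mono hZ
  rcases h : JJ Z q with _ | i
  · have h1 := (JJ_zero hZ q).1 h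
    constructor
    · intro h2
      omega
    · intro h2
      have h3 : Z 0 ≤ Z j := hm.monotone (Nat.zero_le j)
      omega
  · have h1 := (JJ_succ hZ i q).1 h
    constructor
    · intro h2
      exact (hm.monotone (Nat.lt_succ_iff.1 h2)).trans h1.1
    · intro h2
      exact hm.lt_iff_lt.1 (lt_of_le_of_lt h2 h1.2)

private theorem PatX_one {Z : ℕ → ℕ} (hZ : ∀ j, 2 ^ (j + 10) * (Z j + 1) ≤ Z (j + 1)) {u : ℝ}
    {m : ℕ} (hm : m ≤ JJ Z ⌊u⌋₊ + 10) {q : ℕ} (h1 : ⌊u⌋₊ ≤ q)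
    (h2 : (q : ℝ) ≤ 2 ^ m * u) :
    JJ Z q = if Z (JJ Z ⌊u⌋₊) ≤ q then JJ Z ⌊u⌋₊ + 1 else JJ Z ⌊u⌋₊ := by
  have hmono : JJ Z ⌊u⌋₊ ≤ JJ Z q := JJ_mono Z h1
  have hlt : ⌊u⌋₊ < Z (JJ Z ⌊u⌋₊) := by
    by_contra hc
    exact absurd ((PatX_iff hZ _ _).2 (not_lt.1 hc)) (lt_irrefl _)
  generalize hj : JJ Z ⌊u⌋₊ = j at *
  have hq : q < Z (j + 1) := by
    have e1 : u < ⌊u⌋₊ + 1 := Nat.lt_floor_add_one u
    have e2 : ((⌊u⌋₊ : ℝ) + 1) ≤ Z j := by exact_mod_cast hlt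
    have e3 : (2 : ℝ) ^ m ≤ 2 ^ (j + 10) := pow_le_pow_right₀ (by norm_num) hm
    have e4 : ((2 ^ (j + 10) * (Z j + 1) : ℕ) : ℝ) ≤ (Z (j + 1) : ℝ) := by exact_mod_cast hZ j
    push_cast at e4
    have e5 : (q : ℝ) < Z (j + 1) := by
      calc (q : ℝ) ≤ 2 ^ m * u := h2
        _ < 2 ^ m * (⌊u⌋₊ + 1) := mul_lt_mul_of_pos_left e1 (by positivity)
        _ ≤ 2 ^ m * Z j := mul_le_mul_of_nonneg_left e2 (by positivity)
        _ ≤ 2 ^ (j + 10) * Z j := mul_le_mul_of_nonneg_right e3 (Nat.cast_nonneg _)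
        _ ≤ 2 ^ (j + 10) * (Z j + 1) := by
            refine mul_le_mul_of_nonneg_left ?_ (by positivity)
            linarith
        _ ≤ Z (j + 1) := e4
    exact_mod_cast e5
  have h3 : JJ Z q ≤ j + 1 := by
    by_contra hc
    have := (PatX_iff hZ (j + 1) q).1 (not_le.1 hc)
    omega
  split_ifs with h4
  · have := (PatX_iff hZ j q).2 h4
    omega
  · have h5 : JJ Z q ≤ j := by
      by_contra hc
      exact h4 ((PatX_iff hZ j q).1 (not_le.1 hc))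
    omega

private theorem PatX_floor_le {u : ℝ} (hu : 0 ≤ u) (i : ℕ) : ⌊u⌋₊ ≤ ⌊2 ^ i * u⌋₊ := by
  refine Nat.floor_le_floor ?_
  have : (1 : ℝ) ≤ 2 ^ i := one_le_pow₀ (by norm_num)
  nlinarith

theorem pat {Z : ℕ → ℕ} (hZ : ∀ j, 2 ^ (j + 10) * (Z j + 1) ≤ Z (j + 1)) (n j0 : ℕ) :
    ∃ U : ℝ, 1 ≤ U ∧ ∀ u ≥ U, ∃ j ≥ j0, (Z j : ℝ) ≤ 2 ^ (j + 4) * u ∧ ∃ i1 ≤ n, ∀ i < n,
      pq Z u i = if i < i1 then QQ j else QQ (j + 1) := by
  classical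
  refine ⟨(Z (max j0 n) : ℝ) + 1, ?_, ?_⟩
  · have : (0 : ℝ) ≤ Z (max j0 n) := Nat.cast_nonneg _
    linarith
  intro u hu
  have hu0 : (0 : ℝ) ≤ u := by
    have : (0 : ℝ) ≤ Z (max j0 n) := Nat.cast_nonneg _
    linarith
  have h1 : Z (max j0 n) ≤ ⌊u⌋₊ := Nat.le_floor (by linarith)
  have h2 := (PatX_iff hZ _ _).2 h1
  have h3 : j0 ≤ max j0 n := le_max_left _ _
  have h4 : n ≤ max j0 n := le_max_right _ _
  have hone : ∀ i < n, JJ Z ⌊2 ^ i * u⌋₊ =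
      if Z (JJ Z ⌊u⌋₊) ≤ ⌊2 ^ i * u⌋₊ then JJ Z ⌊u⌋₊ + 1 else JJ Z ⌊u⌋₊ := by
    intro i hi
    refine PatX_one hZ (m := n) (by omega) (PatX_floor_le hu0 i) ?_
    calc ((⌊2 ^ i * u⌋₊ : ℕ) : ℝ) ≤ 2 ^ i * u := Nat.floor_le (by positivity)
      _ ≤ 2 ^ n * u := mul_le_mul_of_nonneg_right (pow_le_pow_right₀ (by norm_num) hi.le) hu0
  by_cases hex : ∃ i, i < n ∧ Z (JJ Z ⌊u⌋₊) ≤ ⌊2 ^ i * u⌋₊
  · refine ⟨JJ Z ⌊u⌋₊, by omega, ?_, Nat.find hex, (Nat.find_spec hex).1.le, ?_⟩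
    · obtain ⟨i, hi, hi2⟩ := hex
      have e1 : ((Z (JJ Z ⌊u⌋₊) : ℕ) : ℝ) ≤ ((⌊2 ^ i * u⌋₊ : ℕ) : ℝ) := by exact_mod_cast hi2
      refine e1.trans ((Nat.floor_le (by positivity)).trans ?_)
      exact mul_le_mul_of_nonneg_right (pow_le_pow_right₀ (by norm_num) (by omega)) hu0
    · intro i hi
      unfold pq MM
      rw [hone i hi]
      by_cases h5 : i < Nat.find hex
      · rw [if_pos h5, if_neg fun h => Nat.find_min hex h5 ⟨hi, h⟩]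
      · rw [if_neg h5, if_pos]
        refine (Nat.find_spec hex).2.trans (Nat.floor_le_floor ?_)
        exact mul_le_mul_of_nonneg_right (pow_le_pow_right₀ (by norm_num) (not_lt.1 h5)) hu0
  · refine ⟨JJ Z ⌊u⌋₊ - 1, by omega, ?_, 0, Nat.zero_le _, ?_⟩
    · have e0 : Z (JJ Z ⌊u⌋₊ - 1) ≤ ⌊u⌋₊ := (PatX_iff hZ _ _).1 (by omega)
      have e1 : ((Z (JJ Z ⌊u⌋₊ - 1) : ℕ) : ℝ) ≤ ((⌊u⌋₊ : ℕ) : ℝ) := by exact_mod_cast e0
      refine e1.trans ((Nat.floor_le hu0).trans ?_)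
      have : (1 : ℝ) ≤ 2 ^ (JJ Z ⌊u⌋₊ - 1 + 4) := one_le_pow₀ (by norm_num)
      nlinarith
    · intro i hi
      unfold pq MM
      rw [hone i hi, if_neg fun h => hex ⟨i, hi, h⟩, if_neg (Nat.not_lt_zero i)]
      congr 1
      omega

private theorem PatX_num {l : ℕ} (hl : 10 ≤ l) :
    0 < 1 - 1 / (8 * (l : ℝ)) ∧ 1 / 2 ≤ 1 - 1 / (8 * (l : ℝ)) ∧
    1 - 1 / (8 * (l : ℝ)) ≤ (1 + 1 / (l : ℝ)) * (1 + 1 / (8 * (l : ℝ))) ∧
    (1 + 1 / (l : ℝ)) * (1 + 1 / (8 * (l : ℝ))) < 2 * (1 - 1 / (8 * (l : ℝ))) ∧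
    1 + 1 / (8 * (l : ℝ)) < (1 + 1 / (l : ℝ)) * (1 - 1 / (8 * (l : ℝ))) ∧
    1 < 1 + 1 / (l : ℝ) ∧ 1 + 1 / (l : ℝ) ≤ 2 ∧ 0 < 1 + 1 / (8 * (l : ℝ)) ∧
    1 + 1 / (8 * (l : ℝ)) ≤ 2 * (1 - 1 / (8 * (l : ℝ))) := by
  have hl' : (10 : ℝ) ≤ l := by exact_mod_cast hl
  have h0 : (0 : ℝ) < l := by linarith
  obtain ⟨x, hx⟩ : ∃ x : ℝ, x = 1 / (8 * (l : ℝ)) := ⟨_, rfl⟩
  have hx1 : 1 / (l : ℝ) = 8 * x := by
    rw [hx]
    field_simp
  have hx0 : 0 < x := by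
    rw [hx]
    positivity
  have hx2 : x ≤ 1 / 80 := by
    rw [hx]
    exact one_div_le_one_div_of_le (by norm_num) (by linarith)
  rw [← hx, hx1]
  refine ⟨by linarith, by linarith, by nlinarith, by nlinarith, by nlinarith, by linarith,
    by linarith, by linarith, by linarith⟩

theorem pat_chain {Z : ℕ → ℕ} (hZ : ∀ j, 2 ^ (j + 10) * (Z j + 1) ≤ Z (j + 1)) (n l : ℕ)
    (hl : 10 ≤ l) : ∃ Y : ℝ, 1 ≤ Y ∧ ∀ y ≥ Y, ∀ c : ℕ → ℕ,
    (∀ i < n, 2 ^ i * (y * (1 - 1 / (8 * (l : ℝ)))) ≤ c i ∧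
      (c i : ℝ) ≤ 2 ^ i * (y * ((1 + 1 / (l : ℝ)) * (1 + 1 / (8 * (l : ℝ)))))) →
    (∀ i < n, MM Z (c i) = pq Z (y * (1 - 1 / (8 * (l : ℝ)))) i) ∨
      (∀ i < n, MM Z (c i) = pq Z (y * ((1 + 1 / (l : ℝ)) * (1 + 1 / (8 * (l : ℝ))))) i) := by
  obtain ⟨hn1, hn2, hn3, hn4, -⟩ := PatX_num hl
  generalize 1 - 1 / (8 * (l : ℝ)) = α at *
  generalize (1 + 1 / (l : ℝ)) * (1 + 1 / (8 * (l : ℝ))) = β at *
  have hZn : (0 : ℝ) ≤ Z n := Nat.cast_nonneg _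
  refine ⟨2 * ((Z n : ℝ) + 1), by linarith, ?_⟩
  intro y hy c hc
  have hy0 : 0 < y := by linarith
  obtain ⟨u, hu⟩ : ∃ u, u = y * α := ⟨_, rfl⟩
  obtain ⟨w, hw⟩ : ∃ w, w = y * β := ⟨_, rfl⟩
  rw [← hu, ← hw] at hc ⊢
  have huw : u ≤ w := by
    rw [hu, hw]
    exact mul_le_mul_of_nonneg_left hn3 hy0.le
  have hw2 : w < 2 * u := by
    rw [hu, hw]
    nlinarith
  have huZ : (Z n : ℝ) + 1 ≤ u := by
    rw [hu]
    nlinarith
  have hu0 : 0 ≤ u := by linarith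
  have hw0 : 0 ≤ w := by linarith
  have h1 : Z n ≤ ⌊u⌋₊ := Nat.le_floor (by linarith)
  have h2 := (PatX_iff hZ _ _).2 h1
  -- all values
  have hone : ∀ q : ℕ, ⌊u⌋₊ ≤ q → (q : ℝ) ≤ 2 ^ n * w → JJ Z q =
      if Z (JJ Z ⌊u⌋₊) ≤ q then JJ Z ⌊u⌋₊ + 1 else JJ Z ⌊u⌋₊ := by
    intro q hq1 hq2
    refine PatX_one hZ (m := n + 1) (by omega) hq1 (hq2.trans ?_)
    rw [pow_succ]
    have : (0 : ℝ) < 2 ^ n := by positivity
    nlinarith
  generalize hj : JJ Z ⌊u⌋₊ = j at *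
  have hpow : ∀ i < n, (2 : ℝ) ^ i ≤ 2 ^ n := fun i hi =>
    pow_le_pow_right₀ (by norm_num) (le_of_lt hi)
  have hc1 : ∀ i < n, JJ Z (c i) = if Z j ≤ c i then j + 1 else j := by
    intro i hi
    refine hone _ ?_ ?_
    · refine (PatX_floor_le hu0 i).trans ?_
      exact Nat.floor_le_of_le (hc i hi).1
    · exact (hc i hi).2.trans (mul_le_mul_of_nonneg_right (hpow i hi) hw0)
  have hu1 : ∀ i < n, JJ Z ⌊2 ^ i * u⌋₊ = if Z j ≤ ⌊2 ^ i * u⌋₊ then j + 1 else j := by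
    intro i hi
    refine hone _ (PatX_floor_le hu0 i) ?_
    refine (Nat.floor_le (by positivity)).trans ?_
    exact mul_le_mul (hpow i hi) huw hu0 (by positivity)
  have hw1 : ∀ i < n, JJ Z ⌊2 ^ i * w⌋₊ = if Z j ≤ ⌊2 ^ i * w⌋₊ then j + 1 else j := by
    intro i hi
    refine hone _ ((Nat.floor_le_floor huw).trans (PatX_floor_le hw0 i)) ?_
    refine (Nat.floor_le (by positivity)).trans ?_
    exact mul_le_mul_of_nonneg_right (hpow i hi) hw0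
  by_contra hcon
  rw [not_or] at hcon
  obtain ⟨hA, hB⟩ := hcon
  simp only [not_forall] at hA hB
  obtain ⟨i, hi, hi2⟩ := hA
  obtain ⟨k, hk, hk2⟩ := hB
  unfold pq MM at hi2 hk2
  rw [hc1 i hi, hu1 i hi] at hi2
  rw [hc1 k hk, hw1 k hk] at hk2
  have hcu : ⌊2 ^ i * u⌋₊ ≤ c i := Nat.floor_le_of_le (hc i hi).1
  have hcw : c k ≤ ⌊2 ^ k * w⌋₊ := Nat.le_floor (hc k hk).2
  have i1 : ¬ Z j ≤ ⌊2 ^ i * u⌋₊ := by
    intro h
    rw [if_pos h, if_pos (h.trans hcu)] at hi2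
    exact hi2 rfl
  have i2 : Z j ≤ c i := by
    by_contra h
    rw [if_neg h, if_neg i1] at hi2
    exact hi2 rfl
  have k1 : ¬ Z j ≤ c k := by
    intro h
    rw [if_pos h, if_pos (h.trans hcw)] at hk2
    exact hk2 rfl
  have k2 : Z j ≤ ⌊2 ^ k * w⌋₊ := by
    by_contra h
    rw [if_neg h, if_neg k1] at hk2
    exact hk2 rfl
  have r1 : 2 ^ i * u < Z j := (Nat.floor_lt (by positivity)).1 (not_le.1 i1)
  have r2 : (Z j : ℝ) ≤ 2 ^ i * w := by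
    have : (Z j : ℝ) ≤ c i := by exact_mod_cast i2
    exact this.trans (hc i hi).2
  have r3 : 2 ^ k * u < Z j := by
    have : (c k : ℝ) < Z j := by exact_mod_cast not_le.1 k1
    exact lt_of_le_of_lt (hc k hk).1 this
  have r4 : (Z j : ℝ) ≤ 2 ^ k * w := (Nat.le_floor_iff (by positivity)).1 k2
  have hup : 0 < u := by linarith
  have haux : ∀ a b : ℕ, a < b → (Z j : ℝ) ≤ 2 ^ a * w → 2 ^ b * u < Z j → False := by
    intro a b hab ha hb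
    have e1 : (2 : ℝ) ^ a * 2 ≤ 2 ^ b := by
      rw [← pow_succ]
      exact pow_le_pow_right₀ (by norm_num) hab
    have e2 : (0 : ℝ) < 2 ^ a := by positivity
    nlinarith
  rcases lt_trichotomy i k with h | h | h
  · exact haux i k h r2 r3
  · subst h
    exact k1 i2
  · exact haux k i h r4 r1

/-- the exceptional windows -/
def Exc (Z : ℕ → ℕ) (n l : ℕ) : Set ℕ := {k | ∃ i < n,
  pq Z ((1 + 1 / (l : ℝ)) ^ k * (1 - 1 / (8 * (l : ℝ)))) i ≠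
    pq Z ((1 + 1 / (l : ℝ)) ^ k * ((1 + 1 / (l : ℝ)) * (1 + 1 / (8 * (l : ℝ))))) i}

open Classical in
theorem exc {Z : ℕ → ℕ} (hZ : ∀ j, 2 ^ (j + 10) * (Z j + 1) ≤ Z (j + 1)) (n l : ℕ)
    (hl : 10 ≤ l) (R : ℕ) : ∀ᶠ J : ℕ in atTop,
    (((Finset.Icc (J - R) J).filter (fun k => k ∈ Exc Z n l)).card : ℝ) ≤ 4 * n := by
  obtain ⟨hn1, hn2, hn3, hn4, hn5, hn6, hn7, hn8, hn9⟩ := PatX_num hl
  unfold Exc
  generalize 1 - 1 / (8 * (l : ℝ)) = α at *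
  generalize 1 + 1 / (8 * (l : ℝ)) = γ at *
  generalize 1 + 1 / (l : ℝ) = r at *
  have hr0 : 0 < r := by linarith
  have ht : Tendsto (fun J : ℕ => r ^ (J - R) * α) atTop atTop :=
    Tendsto.atTop_mul_const hn1 ((tendsto_pow_atTop_atTop_of_one_lt hn6).comp
      (tendsto_sub_atTop_nat R))
  filter_upwards [ht.eventually_ge_atTop ((Z (n + R + 2) : ℝ) + 1)] with J hJ
  obtain ⟨u, hu⟩ : ∃ u, u = r ^ (J - R) * α := ⟨_, rfl⟩
  rw [← hu] at hJ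
  have hZn : (0 : ℝ) ≤ Z (n + R + 2) := Nat.cast_nonneg _
  have hu0 : 0 ≤ u := by linarith
  have h1 : Z (n + R + 2) ≤ ⌊u⌋₊ := Nat.le_floor (by linarith)
  have h2 := (PatX_iff hZ _ _).2 h1
  have hone : ∀ q : ℕ, ⌊u⌋₊ ≤ q → (q : ℝ) ≤ 2 ^ (n + R + 2) * u → JJ Z q =
      if Z (JJ Z ⌊u⌋₊) ≤ q then JJ Z ⌊u⌋₊ + 1 else JJ Z ⌊u⌋₊ := by
    intro q hq1 hq2
    exact PatX_one hZ (m := n + R + 2) (by omega) hq1 hq2
  generalize hj : JJ Z ⌊u⌋₊ = j at *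
  -- the windows of one level
  have hlev : ∀ i : ℕ, ((Finset.Icc (J - R) J).filter (fun k =>
      2 ^ i * (r ^ k * α) < Z j ∧ (Z j : ℝ) ≤ 2 ^ i * (r ^ k * (r * γ)))).card ≤ 2 := by
    intro i
    rcases Finset.eq_empty_or_nonempty ((Finset.Icc (J - R) J).filter (fun k =>
      2 ^ i * (r ^ k * α) < Z j ∧ (Z j : ℝ) ≤ 2 ^ i * (r ^ k * (r * γ)))) with h | h
    · rw [h]
      simp
    · have hsub : ((Finset.Icc (J - R) J).filter (fun k =>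
          2 ^ i * (r ^ k * α) < Z j ∧ (Z j : ℝ) ≤ 2 ^ i * (r ^ k * (r * γ)))) ⊆
          Finset.Icc (Finset.min' _ h) (Finset.min' _ h + 1) := by
        intro k hk
        rw [Finset.mem_Icc]
        refine ⟨Finset.min'_le _ _ hk, ?_⟩
        have hm := Finset.min'_mem _ h
        generalize Finset.min' _ h = m at *
        rw [Finset.mem_filter] at hk hm
        by_contra hc
        have hkm : m + 2 ≤ k := by omega
        have e1 : r ^ m * r * r ≤ r ^ k := by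
          rw [← pow_succ, ← pow_succ]
          exact pow_le_pow_right₀ hn6.le hkm
        have e2 : 2 ^ i * (r ^ k * α) < 2 ^ i * (r ^ m * (r * γ)) := lt_of_lt_of_le hk.2.1 hm.2.2
        have e3 : r ^ k * α < r ^ m * (r * γ) := lt_of_mul_lt_mul_left e2 (by positivity)
        have e4 : r ^ m * r * r * α ≤ r ^ k * α := mul_le_mul_of_nonneg_right e1 hn1.le
        have e5 : 0 < r ^ m * r := by positivity
        nlinarith
      refine (Finset.card_le_card hsub).trans ?_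
      rw [Nat.card_Icc]
      omega
  have hsub : ∀ k ∈ Finset.Icc (J - R) J, (∃ i < n,
      pq Z (r ^ k * α) i ≠ pq Z (r ^ k * (r * γ)) i) → k ∈
      (Finset.range n).biUnion (fun i => (Finset.Icc (J - R) J).filter (fun k =>
      2 ^ i * (r ^ k * α) < Z j ∧ (Z j : ℝ) ≤ 2 ^ i * (r ^ k * (r * γ)))) := by
    rintro k hkI ⟨i, hi, hne⟩
    rw [Finset.mem_biUnion]
    refine ⟨i, Finset.mem_range.2 hi, ?_⟩
    rw [Finset.mem_filter]
    refine ⟨hkI, ?_⟩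
    rw [Finset.mem_Icc] at hkI
    have hrk : r ^ (J - R) ≤ r ^ k := pow_le_pow_right₀ hn6.le hkI.1
    have hrk2 : r ^ k ≤ r ^ (J - R) * 2 ^ R := by
      obtain ⟨d, hd⟩ := Nat.exists_eq_add_of_le hkI.1
      have hdR : d ≤ R := by omega
      rw [hd, pow_add]
      refine mul_le_mul_of_nonneg_left ?_ (by positivity)
      calc r ^ d ≤ 2 ^ d := pow_le_pow_left₀ hr0.le hn7 d
        _ ≤ 2 ^ R := pow_le_pow_right₀ (by norm_num) hdR
    have hrp : 0 < r ^ k := by positivity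
    have hrq : 0 < r ^ (J - R) := by positivity
    have huk : u ≤ r ^ k * α := by
      rw [hu]
      exact mul_le_mul_of_nonneg_right hrk hn1.le
    have hkw : r ^ k * α ≤ r ^ k * (r * γ) := mul_le_mul_of_nonneg_left hn3 hrp.le
    have hwu : r ^ k * (r * γ) ≤ 2 ^ (R + 1) * u := by
      have e1 : r * γ ≤ 2 * α := hn4.le
      calc r ^ k * (r * γ) ≤ (r ^ (J - R) * 2 ^ R) * (2 * α) :=
            mul_le_mul hrk2 e1 (by positivity) (by positivity)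
        _ = 2 ^ (R + 1) * u := by
            rw [hu, pow_succ]
            ring
    have hpow : (2 : ℝ) ^ i ≤ 2 ^ n := pow_le_pow_right₀ (by norm_num) hi.le
    have hbig : 2 ^ i * (r ^ k * (r * γ)) ≤ 2 ^ (n + R + 2) * u := by
      calc 2 ^ i * (r ^ k * (r * γ)) ≤ 2 ^ n * (2 ^ (R + 1) * u) :=
            mul_le_mul hpow hwu (by positivity) (by positivity)
        _ = 2 ^ (n + R + 1) * u := by
            rw [← mul_assoc, ← pow_add]
            ring_nf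
        _ ≤ 2 ^ (n + R + 2) * u := by
            refine mul_le_mul_of_nonneg_right ?_ hu0
            exact pow_le_pow_right₀ (by norm_num) (by omega)
    have hA : JJ Z ⌊2 ^ i * (r ^ k * α)⌋₊ =
        if Z j ≤ ⌊2 ^ i * (r ^ k * α)⌋₊ then j + 1 else j := by
      refine hone _ ?_ ?_
      · exact (Nat.floor_le_floor huk).trans (PatX_floor_le (by positivity) i)
      · refine (Nat.floor_le (by positivity)).trans (le_trans ?_ hbig)
        exact mul_le_mul_of_nonneg_left hkw (by positivity)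
    have hB : JJ Z ⌊2 ^ i * (r ^ k * (r * γ))⌋₊ =
        if Z j ≤ ⌊2 ^ i * (r ^ k * (r * γ))⌋₊ then j + 1 else j := by
      refine hone _ ?_ ?_
      · exact (Nat.floor_le_floor (huk.trans hkw)).trans (PatX_floor_le (by positivity) i)
      · exact (Nat.floor_le (by positivity)).trans hbig
    unfold pq MM at hne
    rw [hA, hB] at hne
    have hle : ⌊2 ^ i * (r ^ k * α)⌋₊ ≤ ⌊2 ^ i * (r ^ k * (r * γ))⌋₊ :=
      Nat.floor_le_floor (mul_le_mul_of_nonneg_left hkw (by positivity))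
    have q1 : ¬ Z j ≤ ⌊2 ^ i * (r ^ k * α)⌋₊ := by
      intro h
      rw [if_pos h, if_pos (h.trans hle)] at hne
      exact hne rfl
    have q2 : Z j ≤ ⌊2 ^ i * (r ^ k * (r * γ))⌋₊ := by
      by_contra h
      rw [if_neg h, if_neg q1] at hne
      exact hne rfl
    exact ⟨(Nat.floor_lt (by positivity)).1 (not_le.1 q1),
      (Nat.le_floor_iff (by positivity)).1 q2⟩
  have hcard : ((Finset.range n).biUnion (fun i => (Finset.Icc (J - R) J).filter (fun k =>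
      2 ^ i * (r ^ k * α) < Z j ∧ (Z j : ℝ) ≤ 2 ^ i * (r ^ k * (r * γ))))).card ≤ n * 2 := by
    refine Finset.card_biUnion_le.trans ?_
    refine (Finset.sum_le_sum fun i _ => hlev i).trans ?_
    simp
  refine le_trans (Nat.cast_le.2 (le_trans (Finset.card_le_card (fun k hk => by
      have hk2 := (@Finset.mem_filter ℕ _ (_) _ k).1 hk
      exact hsub k hk2.1 hk2.2)) hcard)) ?_
  push_cast
  have : (0 : ℝ) ≤ n := Nat.cast_nonneg n
  linarith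

end Pool.Agent.PCx
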