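import Pool.Agent.PCx.TwoX

/-!
# Two chains stay separated with large probability

Copy and adapt `Pool/Agent/PCn/Sep.lean` (`Asq` from there; `two` becomes `twoX`, `growth` becomes `rangeX`, `M` becomes `μ i`, `ch M`
becomes `cl μ`; the step of the motion of `S/μ i` is `t`, so `2q + 1 + μ i ⌊z + s⌋` moves by `μ i t`).
-/

namespace Pool.Agent.PCx

open MeasureTheory Pool.Agent.PCn

private theorem SepX_lam : Filter.Tendsto lam Filter.atTop Filter.atTop := by
  unfold lam
  exact (tendsto_rpow_atTop (by norm_num)).comp Real.tendsto_log_atTop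

private theorem SepX_ev (A : ℝ) : ∀ᶠ y in Filter.atTop, 1 ≤ y * Real.exp (-(A * lam y)) := by
  have h1 : Filter.Tendsto (fun x : ℝ => x ^ (27 / 28 : ℝ)) Filter.atTop Filter.atTop :=
    tendsto_rpow_atTop (by norm_num)
  have h2 := (h1.comp Real.tendsto_log_atTop).eventually_ge_atTop A
  filter_upwards [h2, Filter.eventually_gt_atTop 1] with y hy hy1
  have hl : 0 < Real.log y := Real.log_pos hy1
  have e : Real.log y ^ (27 / 28 : ℝ) * lam y = Real.log y := by
    unfold lam
    rw [← Real.rpow_add hl]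
    norm_num
  have h3 : A * lam y ≤ Real.log y := by
    rw [← e]
    refine mul_le_mul_of_nonneg_right hy ?_
    unfold lam
    exact Real.rpow_nonneg hl.le _
  calc (1 : ℝ) ≤ Real.exp (Real.log y - A * lam y) := Real.one_le_exp (by linarith)
    _ = y * Real.exp (-(A * lam y)) := by
      rw [sub_eq_add_neg, Real.exp_add, Real.exp_log (by linarith)]

open Classical in
private theorem SepX_int {M q : ℕ} (hM : 0 < M) {z X D t : ℝ} (hD : 1 ≤ D) (hX : D ≤ X)
    (ht : 0 < t) :
    0 ≤ (∫ s in (0 : ℝ)..t, (if |X - (((2 * (q : ℤ) + 1 + M * ⌊z + s⌋).toNat : ℕ) : ℝ)| < D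
      then (1 : ℝ) else 0)) ∧
    (∫ s in (0 : ℝ)..t, (if |X - (((2 * (q : ℤ) + 1 + M * ⌊z + s⌋).toNat : ℕ) : ℝ)| < D
      then (1 : ℝ) else 0)) ≤ 3 * D := by
  have hM1 : (1 : ℝ) ≤ M := by exact_mod_cast hM
  constructor
  · refine intervalIntegral.integral_nonneg ht.le fun s _ => ?_
    split_ifs <;> norm_num
  · rw [intervalIntegral.integral_of_le ht.le]
    obtain ⟨α, hα⟩ : ∃ α, α = (X - D - 2 * q - 1) / M - z := ⟨_, rfl⟩
    obtain ⟨β, hβ⟩ : ∃ β, β = (X + D - 2 * q - 1) / M + 1 - z := ⟨_, rfl⟩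
    have hαβ : β - α = 2 * D / M + 1 := by
      rw [hα, hβ]
      field_simp
      ring
    have h1 : 2 * D / M ≤ 2 * D := by
      rw [div_le_iff₀ (by linarith)]
      nlinarith
    have h2 : (∫ s in Set.Ioc 0 t, (if |X - (((2 * (q : ℤ) + 1 + M * ⌊z + s⌋).toNat : ℕ) : ℝ)| < D
        then (1 : ℝ) else 0)) ≤ ∫ s in Set.Ioc 0 t, (Set.Ioo α β).indicator 1 s := by
      refine integral_mono_of_nonneg ?_ ?_ ?_
      · refine Filter.Eventually.of_forall fun s => ?_
        change (0 : ℝ) ≤ (if |X - (((2 * (q : ℤ) + 1 + M * ⌊z + s⌋).toNat : ℕ) : ℝ)| < D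
          then (1 : ℝ) else 0)
        split_ifs <;> norm_num
      · exact (integrable_const (1 : ℝ)).indicator measurableSet_Ioo
      · refine Filter.Eventually.of_forall fun s => ?_
        change (if |X - (((2 * (q : ℤ) + 1 + M * ⌊z + s⌋).toNat : ℕ) : ℝ)| < D
          then (1 : ℝ) else 0) ≤ (Set.Ioo α β).indicator 1 s
        split_ifs with hs
        · rw [Set.indicator_of_mem]
          · rfl
          · obtain ⟨w, hw⟩ : ∃ w : ℤ, w = 2 * (q : ℤ) + 1 + M * ⌊z + s⌋ := ⟨_, rfl⟩
            rw [← hw] at hs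
            obtain ⟨hs1, hs2⟩ := abs_lt.1 hs
            have h3 : (0 : ℝ) < (w.toNat : ℝ) := by linarith
            have h4 : 0 < w.toNat := by exact_mod_cast h3
            have h5 : ((w.toNat : ℕ) : ℤ) = w := by omega
            have h6 : ((w.toNat : ℕ) : ℝ) = (w : ℝ) := by exact_mod_cast congrArg (fun v : ℤ => (v : ℝ)) h5
            have h7 : (w : ℝ) = 2 * q + 1 + M * (⌊z + s⌋ : ℝ) := by
              rw [hw]
              push_cast
              ring
            rw [h6, h7] at hs1 hs2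
            have h8 := Int.floor_le (z + s)
            have h9 := Int.lt_floor_add_one (z + s)
            have hM0 : (0 : ℝ) < M := by linarith
            constructor
            · rw [hα, sub_lt_iff_lt_add, div_lt_iff₀ hM0]
              nlinarith
            · rw [hβ, lt_sub_iff_add_lt, ← sub_lt_iff_lt_add, lt_div_iff₀ hM0]
              nlinarith
        · exact Set.indicator_nonneg (fun _ _ => zero_le_one) s
    refine h2.trans ?_
    rw [integral_indicator_one measurableSet_Ioo]
    have h3 : (volume.restrict (Set.Ioc 0 t)).real (Set.Ioo α β) ≤ volume.real (Set.Ioo α β) := by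
      rw [measureReal_restrict_apply measurableSet_Ioo]
      refine measureReal_mono Set.inter_subset_left ?_
      exact measure_Ioo_lt_top.ne
    refine h3.trans ?_
    rw [Real.volume_real_Ioo, hαβ]
    exact max_le (by linarith) (by linarith)

/-- the event that the two chains are separated up to the level `i` -/
def SepX (μ : ℕ → ℕ) (G ε : ℕ → ℝ) (m : ℕ) (y : ℝ) (p p' i : ℕ) : Set (Fin m → ℝ) :=
  {a | ∀ j ≤ i, y * Real.exp (-(Asq m j * lam y)) ≤
    |(cl μ (SS G ε a) p j : ℝ) - cl μ (SS G ε a) p' j|}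

theorem sepX_meas (μ : ℕ → ℕ) (G ε : ℕ → ℝ) (m : ℕ) (y : ℝ) (p p' i : ℕ) :
    MeasurableSet (SepX μ G ε m y p p' i) := by
  have h1 : ∀ q, Measurable (fun a : Fin m → ℝ => SS G ε a q) := fun q => measurable_SS G ε q
  have h2 : SepX μ G ε m y p p' i = ⋂ j ∈ {j : ℕ | j ≤ i}, {a : Fin m → ℝ |
      y * Real.exp (-(Asq m j * lam y)) ≤
        |(cl μ (SS G ε a) p j : ℝ) - cl μ (SS G ε a) p' j|} := by
    ext a
    simp only [Set.mem_iInter]
    rfl
  rw [h2]
  refine MeasurableSet.biInter (Set.to_countable _) fun j _ => ?_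
  refine measurableSet_le measurable_const ?_
  have h3 : Measurable fun a : Fin m → ℝ => (cl μ (SS G ε a) p j : ℝ) :=
    (measurable_from_top (f := fun k : ℕ => (k : ℝ))).comp (measurable_cl μ (SS G ε) h1 p j)
  have h4 : Measurable fun a : Fin m → ℝ => (cl μ (SS G ε a) p' j : ℝ) :=
    (measurable_from_top (f := fun k : ℕ => (k : ℝ))).comp (measurable_cl μ (SS G ε) h1 p' j)
  exact _root_.measurable_abs.comp (h3.sub h4)

open Classical in
private noncomputable def SepX_F (m : ℕ) (y : ℝ) (i : ℕ) (x' x : ℕ → ℕ) : ℝ :=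
  if ∀ j ≤ i, y * Real.exp (-(Asq m j * lam y)) ≤ |(x j : ℝ) - x' j| then 1 else 0

open Classical in
private noncomputable def SepX_f (D : ℝ) (i : ℕ) (_ x : ℕ → ℕ) (c : ℕ) : ℝ :=
  if |(x (i + 1) : ℝ) - c| < D then 1 else 0

open Classical in
private theorem SepX_F_eq (μ : ℕ → ℕ) (G ε : ℕ → ℝ) (m : ℕ) (y : ℝ) (p p' i : ℕ) (a : Fin m → ℝ) :
    SepX_F m y i (tr i (cl μ (SS G ε a) p')) (tr (i + 1) (cl μ (SS G ε a) p)) =
      if a ∈ SepX μ G ε m y p p' i then 1 else 0 := by
  have h1 : (∀ j ≤ i, y * Real.exp (-(Asq m j * lam y)) ≤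
      |((tr (i + 1) (cl μ (SS G ε a) p) j : ℕ) : ℝ) - (tr i (cl μ (SS G ε a) p') j : ℕ)|) ↔
      a ∈ SepX μ G ε m y p p' i := by
    refine forall_congr' fun j => forall_congr' fun hj => ?_
    unfold tr
    rw [if_pos hj, if_pos (by omega)]
  unfold SepX_F
  by_cases h2 : a ∈ SepX μ G ε m y p p' i
  · rw [if_pos h2, if_pos (h1.2 h2)]
  · rw [if_neg h2, if_neg fun h3 => h2 (h1.1 h3)]

open Classical in
private theorem SepX_f_eq (D : ℝ) (i : ℕ) (x' c : ℕ → ℕ) (v : ℕ) :
    SepX_f D i x' (tr (i + 1) c) v = if |(c (i + 1) : ℝ) - v| < D then 1 else 0 := by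
  unfold SepX_f tr
  rw [if_pos le_rfl]

private theorem SepX_Cu {m : ℕ} : volume (Cu m) ≠ ⊤ := by
  unfold Cu
  exact isCompact_Icc.measure_lt_top.ne

theorem sepX {ρ ε : ℕ → ℝ} (h : Hx ρ ε) (B n m : ℕ) (hB : 0 < B) (hm : 2 * n ≤ m) :
    ∃ Y : ℝ, 3 ≤ Y ∧ ∀ y ≥ Y, ∀ G : ℕ → ℝ, Adm ρ G → ∀ μ : ℕ → ℕ, (∀ i, μ i ∣ B) →
    ∀ p p' : ℕ, y < p → (p : ℝ) ≤ 11 / 10 * y → y < p' →
    (p' : ℝ) ≤ 11 / 10 * y → y * Real.exp (-lam y) ≤ |(p : ℝ) - p'| → ∀ i ≤ n,
    volume.real (Cu m \ SepX μ G ε m y p p' i) ≤ i * Real.exp (-(lam y / 2)) := by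
  classical
  choose Yt hYt3 hYt using fun i : ℕ => twoX h B n m hB (Asq m i) (Asq_pos m i)
  obtain ⟨Yg, hYg3, hYg⟩ := rangeX h B n m hB
  have hev : ∀ᶠ y in Filter.atTop, (∀ i ∈ Finset.range n,
      1 ≤ y * Real.exp (-(Asq m (i + 1) * lam y)) ∧ Yt i ≤ y) ∧ 2 ≤ lam y ∧ Yg ≤ y ∧ 3 ≤ y := by
    refine Filter.Eventually.and ?_ (Filter.Eventually.and (SepX_lam.eventually_ge_atTop 2)
      ((Filter.eventually_ge_atTop Yg).and (Filter.eventually_ge_atTop 3)))
    rw [Filter.eventually_all_finset]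
    intro i _
    exact (SepX_ev _).and (Filter.eventually_ge_atTop _)
  obtain ⟨Y, hY⟩ := Filter.eventually_atTop.1 hev
  refine ⟨max Y 3, le_max_right _ _, ?_⟩
  intro y hy G hG μ hμ p p' hp1 hp2 hp1' hp2' hpp i
  obtain ⟨hyi, hlam, hyg, hy3⟩ := hY y (le_trans (le_max_left _ _) hy)
  have hy0 : 0 < y := by linarith
  have hS : ∀ q, Measurable (fun a : Fin m → ℝ => SS G ε a q) := fun q => measurable_SS G ε q
  induction i with
  | zero =>
    intro _
    have h1 : Cu m \ SepX μ G ε m y p p' 0 = ∅ := by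
      rw [Set.sdiff_eq_empty]
      intro a _ j hj
      obtain rfl : j = 0 := by omega
      rw [cl_zero, cl_zero]
      change y * Real.exp (-(1 * lam y)) ≤ _
      rw [one_mul]
      exact hpp
    rw [h1]
    simp
  | succ i ih =>
    intro hi
    have ih' := ih (by omega)
    obtain ⟨hD, hyt⟩ := hyi i (Finset.mem_range.2 (by omega))
    obtain ⟨D, hDe⟩ : ∃ D, D = y * Real.exp (-(Asq m (i + 1) * lam y)) := ⟨_, rfl⟩
    rw [← hDe] at hD
    have hDy : D ≤ y := by
      rw [hDe]
      refine mul_le_of_le_one_right hy0.le ?_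
      rw [Real.exp_le_one_iff]
      have := Asq_pos m (i + 1)
      nlinarith
    -- lower bound of the terms
    have hlow : ∀ a ∈ Cu m, D ≤ (cl μ (SS G ε a) p (i + 1) : ℝ) := by
      intro a ha
      have h1 := (hYg y hyg G hG a ha μ hμ p hp1 hp2 (i + 1) hi).1
      have h2 : (1 : ℝ) ≤ 2 ^ i := one_le_pow₀ (by norm_num)
      have h3 : y ≤ 7 / 8 * 2 ^ (i + 1) * y := by
        rw [pow_succ]
        nlinarith
      linarith
    obtain ⟨t, ht⟩ : ∃ t, t = tt m (Asq m i) y := ⟨_, rfl⟩
    have ht0 : 0 < t := by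
      rw [ht]
      unfold tt
      positivity
    have hDt : D = t * Real.exp (-(3 * lam y)) := by
      rw [hDe, ht]
      unfold tt
      rw [mul_assoc, ← Real.exp_add]
      congr 2
      change -((m * Asq m i + 6) * lam y) = _
      ring
    have key := hYt i y hyt G hG μ hμ p' p hp1' hp2' hp1 hp2 i (i + 1) (by omega) le_rfl (by omega)
      (SepX_F m y i) (SepX_f D i) (fun _ _ => 0) (3 * Real.exp (-(3 * lam y))) (by positivity) ?_ ?_ ?_ ?_
    · -- conclusion
      simp only [mul_zero, integral_zero, sub_zero] at key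
      obtain ⟨E, hE⟩ : ∃ E : Set (Fin m → ℝ), E = SepX μ G ε m y p p' i ∩
        {a | |(cl μ (SS G ε a) p (i + 1) : ℝ) - cl μ (SS G ε a) p' (i + 1)| < D} := ⟨_, rfl⟩
      have hEm : MeasurableSet E := by
        rw [hE]
        refine (sepX_meas μ G ε m y p p' i).inter ?_
        refine measurableSet_lt ?_ measurable_const
        have h3 : Measurable fun a : Fin m → ℝ => (cl μ (SS G ε a) p (i + 1) : ℝ) :=
          (measurable_from_top (f := fun k : ℕ => (k : ℝ))).comp
            (measurable_cl μ (SS G ε) hS p (i + 1))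
        have h4 : Measurable fun a : Fin m → ℝ => (cl μ (SS G ε a) p' (i + 1) : ℝ) :=
          (measurable_from_top (f := fun k : ℕ => (k : ℝ))).comp
            (measurable_cl μ (SS G ε) hS p' (i + 1))
        exact _root_.measurable_abs.comp (h3.sub h4)
      have h1 : (∫ a in Cu m, SepX_F m y i (tr i (cl μ (SS G ε a) p')) (tr (i + 1)
          (cl μ (SS G ε a) p)) * SepX_f D i (tr i (cl μ (SS G ε a) p')) (tr (i + 1)
          (cl μ (SS G ε a) p)) (cl μ (SS G ε a) p' (i + 1))) = volume.real (E ∩ Cu m) := by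
        rw [← measureReal_restrict_apply hEm, ← integral_indicator_one hEm]
        refine integral_congr_ae (Filter.Eventually.of_forall fun a => ?_)
        change SepX_F m y i (tr i (cl μ (SS G ε a) p')) (tr (i + 1) (cl μ (SS G ε a) p)) *
          SepX_f D i (tr i (cl μ (SS G ε a) p')) (tr (i + 1) (cl μ (SS G ε a) p))
          (cl μ (SS G ε a) p' (i + 1)) = E.indicator 1 a
        rw [SepX_F_eq, SepX_f_eq]
        by_cases h2 : a ∈ SepX μ G ε m y p p' i
        · by_cases h3 : |(cl μ (SS G ε a) p (i + 1) : ℝ) - cl μ (SS G ε a) p' (i + 1)| < D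
          · rw [if_pos h2, if_pos h3, Set.indicator_of_mem (by rw [hE]; exact ⟨h2, h3⟩)]
            simp
          · rw [if_neg h3, mul_zero, Set.indicator_of_notMem (by rw [hE]; exact fun h4 => h3 h4.2)]
        · rw [if_neg h2, zero_mul, Set.indicator_of_notMem (by rw [hE]; exact fun h4 => h2 h4.1)]
      rw [h1, abs_of_nonneg measureReal_nonneg] at key
      have h2 : Cu m \ SepX μ G ε m y p p' (i + 1) ⊆
          (Cu m \ SepX μ G ε m y p p' i) ∪ (E ∩ Cu m) := by
        rintro a ⟨ha, hn⟩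
        by_cases h3 : a ∈ SepX μ G ε m y p p' i
        · right
          refine ⟨?_, ha⟩
          rw [hE]
          refine ⟨h3, ?_⟩
          by_contra h4
          apply hn
          intro j hj
          rcases Nat.lt_or_ge j (i + 1) with h5 | h5
          · exact h3 j (by omega)
          · obtain rfl : j = i + 1 := by omega
            rw [← hDe]
            exact not_lt.1 h4
        · exact Or.inl ⟨ha, h3⟩
      have h3 : volume.real (Cu m \ SepX μ G ε m y p p' (i + 1)) ≤
          volume.real (Cu m \ SepX μ G ε m y p p' i) + volume.real (E ∩ Cu m) := by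
        refine (measureReal_mono h2 ?_).trans (measureReal_union_le _ _)
        refine ((measure_mono ?_).trans_lt (lt_top_iff_ne_top.2 SepX_Cu)).ne
        exact Set.union_subset Set.sdiff_subset Set.inter_subset_right
      have h4 : Real.exp (lam y / 4) * (3 * Real.exp (-(3 * lam y))) + Real.exp (-lam y) ≤
          Real.exp (-(lam y / 2)) := by
        have e1 : Real.exp (lam y / 4) * (3 * Real.exp (-(3 * lam y))) =
            3 * Real.exp (-(9 / 4 * lam y)) * Real.exp (-(lam y / 2)) := by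
          rw [mul_left_comm, ← Real.exp_add, mul_assoc, ← Real.exp_add]
          congr 2
          ring
        have e2 : Real.exp (-lam y) = Real.exp (-(lam y / 2)) * Real.exp (-(lam y / 2)) := by
          rw [← Real.exp_add]
          congr 1
          ring
        have e3 : Real.exp (-(lam y / 2)) ≤ 1 / 2 := by
          have : Real.exp (-(lam y / 2)) ≤ Real.exp (-1) := Real.exp_le_exp.2 (by linarith)
          have h5 := Real.exp_neg_one_lt_d9
          linarith
        have e4 : Real.exp (-(9 / 4 * lam y)) ≤ 1 / 8 := by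
          have h6 : Real.exp (-(9 / 4 * lam y)) ≤ Real.exp (-1) ^ 3 := by
            rw [← Real.exp_nat_mul]
            refine Real.exp_le_exp.2 ?_
            push_cast
            linarith
          have h7 : Real.exp (-1) ^ 3 ≤ (1 / 2) ^ 3 := by
            refine pow_le_pow_left₀ (Real.exp_pos _).le ?_ 3
            have h5 := Real.exp_neg_one_lt_d9
            linarith
          linarith
        have e5 := Real.exp_pos (-(lam y / 2))
        rw [e1, e2]
        nlinarith
      push_cast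
      linarith
    · -- F bounded
      intro a _
      rw [SepX_F_eq]
      have h1 : (1 : ℝ) ≤ Real.exp (lam y / 4) := Real.one_le_exp (by linarith)
      split_ifs
      · rw [abs_one]; exact h1
      · rw [abs_zero]; exact (Real.exp_pos _).le
    · -- f bounded
      intro a _ c
      rw [SepX_f_eq]
      have h1 : (1 : ℝ) ≤ Real.exp (lam y / 4) := Real.one_le_exp (by linarith)
      split_ifs
      · rw [abs_one]; exact h1
      · rw [abs_zero]; exact (Real.exp_pos _).le
    · -- separation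
      intro a _ _ hF
      rw [SepX_F_eq] at hF
      have h1 : a ∈ SepX μ G ε m y p p' i := by
        by_contra h2
        rw [if_neg h2] at hF
        exact hF rfl
      have h2 := h1 i le_rfl
      rw [abs_sub_comm] at h2
      exact h2
    · -- the mean value
      intro a ha _
      simp only [SepX_f_eq, sub_zero]
      obtain ⟨h1, h2⟩ := SepX_int (M := μ i) (q := cl μ (SS G ε a) p' i)
        (Nat.pos_of_dvd_of_pos (hμ i) hB)
        (z := SS G ε a (cl μ (SS G ε a) p' i) / μ i) (X := (cl μ (SS G ε a) p (i + 1) : ℝ)) hD (hlow a ha) ht0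
      rw [ht] at h1 h2 hDt ht0
      rw [abs_of_nonneg (mul_nonneg (by positivity) h1), one_div, inv_mul_le_iff₀ ht0]
      refine h2.trans (le_of_eq ?_)
      rw [hDt]
      ring

end Pool.Agent.PCx
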