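import Pool.Agent.PCx.Defs
import Pool.Agent.PCn.Interp
import Pool.Agent.PCn.Flow

/-!
# One step of a chain, uniformly in the base function and the modulus

The proof of `Pool/Agent/PCn/Step.lean`, with constants which depend only on the range where the lower bound for `ε`
holds.
-/

namespace Pool.Agent.PCx

open MeasureTheory Pool.Agent.PCn

open Filter in
private theorem StepU_ev (n k : ℕ) : ∀ᶠ y : ℝ in atTop,
    (2 ^ (n + 3) * Real.log (2 ^ (n + 2) * y) ^ 2) ^ k *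
      Real.exp (Real.log (2 ^ (n + 2) * y) ^ (1 / 30 : ℝ)) * (8 / 7) ≤ Real.exp (lam y) := by
  have hk : (0 : ℝ) ≤ k := Nat.cast_nonneg k
  have e1 : ∀ᶠ L : ℝ in atTop, ‖Real.log L‖ ≤ 1 / (12 * ((k : ℝ) + 1)) * ‖L ^ (1 / 28 : ℝ)‖ :=
    (isLittleO_log_rpow_atTop (show (0 : ℝ) < 1 / 28 by norm_num)).def (by positivity)
  have e2 : ∀ᶠ L : ℝ in atTop, 6 * ((k : ℝ) * Real.log (2 ^ (n + 5))) ≤ L ^ (1 / 28 : ℝ) :=
    (tendsto_rpow_atTop (show (0 : ℝ) < 1 / 28 by norm_num)).eventually_ge_atTop _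
  have e3 : ∀ᶠ L : ℝ in atTop, 3 * Real.log (8 / 7) ≤ L ^ (1 / 28 : ℝ) :=
    (tendsto_rpow_atTop (show (0 : ℝ) < 1 / 28 by norm_num)).eventually_ge_atTop _
  have e4 : ∀ᶠ L : ℝ in atTop, 3 * (2 : ℝ) ^ (1 / 30 : ℝ) ≤ L ^ (1 / 420 : ℝ) :=
    (tendsto_rpow_atTop (show (0 : ℝ) < 1 / 420 by norm_num)).eventually_ge_atTop _
  have e5 : ∀ᶠ L : ℝ in atTop, 1 ≤ L := eventually_ge_atTop _
  have e6 : ∀ᶠ L : ℝ in atTop, Real.log (2 ^ (n + 2)) ≤ L := eventually_ge_atTop _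
  have e7 : ∀ᶠ y : ℝ in atTop, 1 ≤ y := eventually_ge_atTop _
  filter_upwards [Real.tendsto_log_atTop.eventually e1, Real.tendsto_log_atTop.eventually e2,
    Real.tendsto_log_atTop.eventually e3, Real.tendsto_log_atTop.eventually e4,
    Real.tendsto_log_atTop.eventually e5, Real.tendsto_log_atTop.eventually e6, e7]
    with y h1 h2 h3 h4 h5 h6 h7
  obtain ⟨L, hL⟩ : ∃ L, L = Real.log y := ⟨_, rfl⟩
  rw [← hL] at h1 h2 h3 h4 h5 h6
  have hL0 : 0 < L := by linarith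
  have hx : Real.log (2 ^ (n + 2) * y) = Real.log (2 ^ (n + 2)) + L := by
    rw [Real.log_mul (by positivity) (by linarith), hL]
  have hc0 : 0 ≤ Real.log (2 ^ (n + 2)) := Real.log_nonneg (one_le_pow₀ (by norm_num))
  have hx0 : 0 ≤ Real.log (2 ^ (n + 2) * y) := by rw [hx]; linarith
  have hx2 : Real.log (2 ^ (n + 2) * y) ≤ 2 * L := by rw [hx]; linarith
  have hP0 : 0 < L ^ (1 / 28 : ℝ) := Real.rpow_pos_of_pos hL0 _
  have hlL : 0 ≤ Real.log L := Real.log_nonneg h5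
  rw [Real.norm_of_nonneg hlL, Real.norm_of_nonneg hP0.le] at h1
  have f1 : (2 ^ (n + 3) * Real.log (2 ^ (n + 2) * y) ^ 2) ^ k ≤
      Real.exp ((k : ℝ) * (Real.log (2 ^ (n + 5)) + 2 * Real.log L)) := by
    have g1 : 2 ^ (n + 3) * Real.log (2 ^ (n + 2) * y) ^ 2 ≤ 2 ^ (n + 5) * L ^ 2 := by
      have g2 : Real.log (2 ^ (n + 2) * y) ^ 2 ≤ (2 * L) ^ 2 := pow_le_pow_left₀ hx0 hx2 2
      have g3 := mul_le_mul_of_nonneg_left g2 (show (0 : ℝ) ≤ 2 ^ (n + 3) by positivity)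
      refine g3.trans (le_of_eq ?_)
      ring
    have g4 : Real.exp ((k : ℝ) * (Real.log (2 ^ (n + 5)) + 2 * Real.log L)) =
        (2 ^ (n + 5) * L ^ 2) ^ k := by
      rw [Real.exp_nat_mul, Real.exp_add, Real.exp_log (by positivity)]
      congr 2
      rw [two_mul, Real.exp_add, Real.exp_log hL0]
      ring
    rw [g4]
    exact pow_le_pow_left₀ (by positivity) g1 k
  have f2 : Real.log (2 ^ (n + 2) * y) ^ (1 / 30 : ℝ) ≤ L ^ (1 / 28 : ℝ) / 3 := by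
    have g1 : Real.log (2 ^ (n + 2) * y) ^ (1 / 30 : ℝ) ≤ (2 * L) ^ (1 / 30 : ℝ) :=
      Real.rpow_le_rpow hx0 hx2 (by norm_num)
    rw [Real.mul_rpow (by norm_num) hL0.le] at g1
    have g2 : L ^ (1 / 28 : ℝ) = L ^ (1 / 420 : ℝ) * L ^ (1 / 30 : ℝ) := by
      rw [← Real.rpow_add hL0]
      norm_num
    have g3 := mul_le_mul_of_nonneg_right h4 (Real.rpow_nonneg hL0.le (1 / 30 : ℝ))
    rw [← g2] at g3
    linarith
  have f3 : (k : ℝ) * (2 * Real.log L) ≤ L ^ (1 / 28 : ℝ) / 6 := by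
    have g1 : (k : ℝ) * (2 * Real.log L) ≤
        ((k : ℝ) + 1) * (2 * (1 / (12 * ((k : ℝ) + 1)) * L ^ (1 / 28 : ℝ))) := by
      apply mul_le_mul (by linarith) (by linarith) (by positivity) (by positivity)
    refine g1.trans (le_of_eq ?_)
    field_simp
    norm_num
  have f4 : (8 / 7 : ℝ) = Real.exp (Real.log (8 / 7)) := (Real.exp_log (by norm_num)).symm
  have f5 : lam y = L ^ (1 / 28 : ℝ) := by unfold lam; rw [hL]
  rw [f5]
  calc (2 ^ (n + 3) * Real.log (2 ^ (n + 2) * y) ^ 2) ^ k *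
      Real.exp (Real.log (2 ^ (n + 2) * y) ^ (1 / 30 : ℝ)) * (8 / 7)
      ≤ Real.exp ((k : ℝ) * (Real.log (2 ^ (n + 5)) + 2 * Real.log L)) *
        Real.exp (L ^ (1 / 28 : ℝ) / 3) * Real.exp (Real.log (8 / 7)) := by
        rw [← f4]
        apply mul_le_mul_of_nonneg_right _ (by norm_num)
        exact mul_le_mul f1 (Real.exp_le_exp.2 f2) (Real.exp_pos _).le (Real.exp_pos _).le
    _ = Real.exp ((k : ℝ) * (Real.log (2 ^ (n + 5)) + 2 * Real.log L) + L ^ (1 / 28 : ℝ) / 3 +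
        Real.log (8 / 7)) := by
        rw [Real.exp_add, Real.exp_add]
    _ ≤ Real.exp (L ^ (1 / 28 : ℝ)) := by
        apply Real.exp_le_exp.2
        nlinarith

private theorem StepU_SS (G ε : ℕ → ℝ) {m : ℕ} (a v : Fin m → ℝ) (s : ℝ) (r : ℕ) :
    SS G ε (a + s • v) r =
      SS G ε a r + s * (ε r * r * ∑ j : Fin m, v j / Real.log r ^ (j : ℕ)) := by
  unfold SS pf
  have e1 : ∑ j : Fin m, (a + s • v) j / Real.log r ^ (j : ℕ) =
      ∑ j : Fin m, a j / Real.log r ^ (j : ℕ) + s * ∑ j : Fin m, v j / Real.log r ^ (j : ℕ) := by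
    rw [Finset.mul_sum, ← Finset.sum_add_distrib]
    refine Finset.sum_congr rfl fun j _ => ?_
    simp only [Pi.add_apply, Pi.smul_apply, smul_eq_mul]
    ring
  rw [e1]
  ring

private theorem StepU_meas (G ε : ℕ → ℝ) {m : ℕ} {ι : Type} [Countable ι] [MeasurableSpace ι]
    [MeasurableSingletonClass ι] (π : (Fin m → ℝ) → ι) (hπ : Measurable π) (q : ι → ℕ) :
    Measurable fun a : Fin m → ℝ => SS G ε a (q (π a)) := by
  unfold SS pf
  have h1 : ∀ g : ι → ℝ, Measurable fun a : Fin m → ℝ => g (π a) := fun g =>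
    (measurable_of_countable g).comp hπ
  refine (h1 fun i => G (q i)).add ((h1 fun i => ε (q i) * q i).mul ?_)
  refine Finset.measurable_sum _ fun j _ => ?_
  exact (measurable_pi_apply j).div (h1 fun i => Real.log (q i) ^ (j : ℕ))

/-- the vectors of the motion -/
private theorem StepU_vec {ε : ℕ → ℝ} (n m : ℕ) (A : ℝ) (hA : 0 ≤ A) (Q0 : ℕ)
    (hQ0 : ∀ q : ℕ, Q0 ≤ q → Real.exp (-(Real.log q) ^ (1 / 30 : ℝ)) ≤ ε q) {y : ℝ}
    (hy4 : 4 ≤ y) (hyQ : (Q0 : ℝ) ≤ 7 / 8 * y) (hlam : 0 ≤ lam y)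
    (hy : (2 ^ (n + 3) * Real.log (2 ^ (n + 2) * y) ^ 2) ^ (m - 1) *
      Real.exp (Real.log (2 ^ (n + 2) * y) ^ (1 / 30 : ℝ)) * (8 / 7) ≤ Real.exp (lam y))
    (I : Finset ℕ) (q : ℕ) (hI : I.card < m) (hq : 7 / 8 * y ≤ q) (hq2 : (q : ℝ) ≤ 2 ^ (n + 2) * y)
    (hr : ∀ r ∈ I, 7 / 8 * y ≤ r ∧ (r : ℝ) ≤ 2 ^ (n + 2) * y ∧
          y * Real.exp (-(A * lam y)) ≤ |(r : ℝ) - q|) :
    ∃ v : Fin m → ℝ, (∀ r ∈ I, ∑ j : Fin m, v j / Real.log r ^ (j : ℕ) = 0) ∧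
      ε q * q * ∑ j : Fin m, v j / Real.log q ^ (j : ℕ) = 1 ∧
      ∀ j, |v j| ≤ Real.exp ((m * A + 1) * lam y) / y := by
  have h3 : ∀ r : ℕ, 7 / 8 * y ≤ r → 3 ≤ r := by
    intro r hr
    have : (3 : ℝ) ≤ r := by linarith
    exact_mod_cast this
  have hy0 : 0 < y := by linarith
  have hqpos : (0 : ℝ) < q := by linarith
  have hq3 : (3 : ℝ) ≤ q := by exact_mod_cast h3 q hq
  have hεq := hQ0 q (by
    have : (Q0 : ℝ) ≤ q := by linarith
    exact_mod_cast this)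
  have hε0 : 0 < ε q := lt_of_lt_of_le (Real.exp_pos _) hεq
  obtain ⟨v, hv1, hv2, hv3⟩ := interp I q hI (2 ^ (n + 2) * y) (y * Real.exp (-(A * lam y))) (ε q)
    (h3 q hq) hq2 (fun r h => ⟨h3 r (hr r h).1, (hr r h).2.1⟩) (by positivity)
    (fun r h => (hr r h).2.2) hε0
  refine ⟨v, hv1, hv2, fun j => (hv3 j).trans ?_⟩
  obtain ⟨X, hX⟩ : ∃ X, X = Real.log (2 ^ (n + 2) * y) := ⟨_, rfl⟩
  have hlq : Real.log q ≤ X := by
    rw [hX]
    exact Real.log_le_log hqpos hq2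
  have hlq1 : 1 ≤ Real.log q := by
    rw [Real.le_log_iff_exp_le hqpos]
    have := Real.exp_one_lt_d9
    linarith
  have hX1 : 1 ≤ X := hlq1.trans hlq
  rw [← hX] at hy
  have hB : 2 * (2 ^ (n + 2) * y) * Real.log (2 ^ (n + 2) * y) ^ 2 /
      (y * Real.exp (-(A * lam y))) = 2 ^ (n + 3) * X ^ 2 * Real.exp (A * lam y) := by
    rw [← hX, Real.exp_neg]
    field_simp
    ring
  rw [hB]
  have hAl : 0 ≤ A * lam y := mul_nonneg hA hlam
  have hB1 : 1 ≤ 2 ^ (n + 3) * X ^ 2 * Real.exp (A * lam y) := by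
    have g1 : (1 : ℝ) ≤ 2 ^ (n + 3) := one_le_pow₀ (by norm_num)
    have g2 : (1 : ℝ) ≤ X ^ 2 := one_le_pow₀ hX1
    have g3 : 1 ≤ Real.exp (A * lam y) := Real.one_le_exp hAl
    have g4 : (1 : ℝ) ≤ 2 ^ (n + 3) * X ^ 2 := by nlinarith
    nlinarith
  have hP : (2 ^ (n + 3) * X ^ 2 * Real.exp (A * lam y)) ^ I.card ≤
      (2 ^ (n + 3) * X ^ 2) ^ (m - 1) * Real.exp (m * A * lam y) := by
    refine (pow_le_pow_right₀ hB1 (show I.card ≤ m - 1 by omega)).trans ?_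
    rw [mul_pow]
    apply mul_le_mul_of_nonneg_left _ (by positivity)
    rw [← Real.exp_nat_mul]
    apply Real.exp_le_exp.2
    have g1 : ((m - 1 : ℕ) : ℝ) ≤ m := by exact_mod_cast Nat.sub_le m 1
    have g2 := mul_le_mul_of_nonneg_right g1 hAl
    linarith
  have hE : 1 / (ε q * q) ≤ Real.exp (X ^ (1 / 30 : ℝ)) * (8 / 7) / y := by
    rw [div_le_div_iff₀ (by positivity) hy0]
    have g1 : Real.exp (-X ^ (1 / 30 : ℝ)) ≤ ε q := by
      refine le_trans (Real.exp_le_exp.2 ?_) hεq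
      have : Real.log q ^ (1 / 30 : ℝ) ≤ X ^ (1 / 30 : ℝ) :=
        Real.rpow_le_rpow (by linarith) hlq (by norm_num)
      linarith
    have g2 : 1 ≤ Real.exp (X ^ (1 / 30 : ℝ)) * ε q := by
      have := mul_le_mul_of_nonneg_left g1 (Real.exp_pos (X ^ (1 / 30 : ℝ))).le
      rw [← Real.exp_add, add_neg_cancel, Real.exp_zero] at this
      exact this
    have g3 : y ≤ 8 / 7 * q := by linarith
    calc 1 * y ≤ (Real.exp (X ^ (1 / 30 : ℝ)) * ε q) * (8 / 7 * q) :=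
          mul_le_mul g2 g3 hy0.le (by positivity)
      _ = Real.exp (X ^ (1 / 30 : ℝ)) * (8 / 7) * (ε q * q) := by ring
  calc (2 ^ (n + 3) * X ^ 2 * Real.exp (A * lam y)) ^ I.card / (ε q * q)
      = (2 ^ (n + 3) * X ^ 2 * Real.exp (A * lam y)) ^ I.card * (1 / (ε q * q)) := by ring
    _ ≤ ((2 ^ (n + 3) * X ^ 2) ^ (m - 1) * Real.exp (m * A * lam y)) *
        (Real.exp (X ^ (1 / 30 : ℝ)) * (8 / 7) / y) :=
        mul_le_mul hP hE (by positivity) (by positivity)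
    _ = ((2 ^ (n + 3) * X ^ 2) ^ (m - 1) * Real.exp (X ^ (1 / 30 : ℝ)) * (8 / 7)) *
        Real.exp (m * A * lam y) / y := by ring
    _ ≤ Real.exp (lam y) * Real.exp (m * A * lam y) / y := by
        apply div_le_div_of_nonneg_right _ hy0.le
        exact mul_le_mul_of_nonneg_right hy (Real.exp_pos _).le
    _ = Real.exp ((m * A + 1) * lam y) / y := by
        rw [← Real.exp_add]
        congr 2
        ring

theorem step_unif (Q0 n m : ℕ) (A : ℝ) (hA : 0 ≤ A) :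
    ∃ Y : ℝ, 3 ≤ Y ∧ ∀ y ≥ Y, ∀ (M : ℕ) (G ε : ℕ → ℝ),
      (∀ q : ℕ, Q0 ≤ q → Real.exp (-(Real.log q) ^ (1 / 30 : ℝ)) ≤ ε q) →
      ∀ (ι : Type) [Countable ι] [MeasurableSpace ι]
      [MeasurableSingletonClass ι] (π : (Fin m → ℝ) → ι), Measurable π →
      ∀ (I : ι → Finset ℕ) (q : ι → ℕ) (F : ι → ℝ) (f : ι → ℕ → ℝ) (κ : ι → ℝ) (η : ℝ), 0 ≤ η →
      (∀ a a' : Fin m → ℝ, (∀ r ∈ I (π a), SS G ε a r = SS G ε a' r) → π a' = π a) →
      (∀ i, F i ≠ 0 → (I i).card < m ∧ 7 / 8 * y ≤ q i ∧ (q i : ℝ) ≤ 2 ^ (n + 2) * y ∧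
        ∀ r ∈ I i, 7 / 8 * y ≤ r ∧ (r : ℝ) ≤ 2 ^ (n + 2) * y ∧
          y * Real.exp (-(A * lam y)) ≤ |(r : ℝ) - q i|) →
      (∀ i, |F i| ≤ Real.exp (lam y / 4)) →
      (∀ i c, |f i c| ≤ Real.exp (lam y / 4)) →
      (∀ a ∈ Cu m, F (π a) ≠ 0 →
        |(1 / tt m A y) * (∫ s in (0 : ℝ)..tt m A y,
          f (π a) ((2 * (q (π a) : ℤ) + 1 + M * ⌊SS G ε a (q (π a)) + s⌋).toNat)) - κ (π a)| ≤ η) →
      |(∫ a in Cu m, F (π a) * f (π a) (T M (SS G ε a) (q (π a)))) -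
        ∫ a in Cu m, F (π a) * κ (π a)| ≤
        Real.exp (lam y / 4) * η + Real.exp (-lam y) := by
  classical
  have hlamt : Filter.Tendsto lam Filter.atTop Filter.atTop := by
    unfold lam
    exact (tendsto_rpow_atTop (show (0 : ℝ) < 1 / 28 by norm_num)).comp Real.tendsto_log_atTop
  have hev : ∀ᶠ y : ℝ in Filter.atTop, 4 ≤ y ∧ (8 / 7 * Q0 : ℝ) ≤ y ∧ 1 ≤ lam y ∧
      4 * (m : ℝ) * 2 ^ m ≤ Real.exp (lam y / 2) ∧
      (2 ^ (n + 3) * Real.log (2 ^ (n + 2) * y) ^ 2) ^ (m - 1) *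
      Real.exp (Real.log (2 ^ (n + 2) * y) ^ (1 / 30 : ℝ)) * (8 / 7) ≤ Real.exp (lam y) := by
    have e1 : ∀ᶠ x : ℝ in Filter.atTop, 4 * (m : ℝ) * 2 ^ m ≤ Real.exp (x / 2) :=
      (Real.tendsto_exp_atTop.comp
        (Filter.tendsto_id.atTop_div_const (by norm_num))).eventually_ge_atTop _
    exact (Filter.eventually_ge_atTop _).and ((Filter.eventually_ge_atTop _).and
      ((hlamt.eventually_ge_atTop _).and ((hlamt.eventually e1).and (StepU_ev n (m - 1)))))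
  obtain ⟨Y0, hY0⟩ := Filter.eventually_atTop.1 hev
  refine ⟨max Y0 3, le_max_right _ _, ?_⟩
  intro y hyY M G ε hQ0 ι _ _ _ π hπ I q F f κ η hη hdep hgeom hF hf havg
  obtain ⟨hy4, hyQ, hlam1, hyK, hyB⟩ := hY0 y ((le_max_left _ _).trans hyY)
  have hy0 : 0 < y := by linarith
  have hyQ' : (Q0 : ℝ) ≤ 7 / 8 * y := by linarith
  obtain ⟨ρ, hρ⟩ : ∃ ρ, ρ = Real.exp ((m * A + 1) * lam y) / y := ⟨_, rfl⟩
  have hρ0 : 0 ≤ ρ := by rw [hρ]; positivity
  have hex : ∀ i, ∃ v : Fin m → ℝ, (∀ j, |v j| ≤ ρ) ∧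
      (∀ r ∈ I i, ∑ j : Fin m, v j / Real.log r ^ (j : ℕ) = 0) ∧
      (F i ≠ 0 → ε (q i) * q i * ∑ j : Fin m, v j / Real.log (q i) ^ (j : ℕ) = 1) := by
    intro i
    by_cases hFi : F i = 0
    · refine ⟨0, fun j => by simpa using hρ0, fun r _ => by simp, fun h => absurd hFi h⟩
    · obtain ⟨h1, h2, h3, h4⟩ := hgeom i hFi
      obtain ⟨v, hv1, hv2, hv3⟩ := StepU_vec n m A hA Q0 hQ0 hy4 hyQ'
        (by linarith) hyB (I i) (q i) h1 h2 h3 h4
      exact ⟨v, fun j => by rw [hρ]; exact hv3 j, hv1, fun _ => hv2⟩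
  choose v hv1 hv2 hv3 using hex
  have hinv : ∀ (a : Fin m → ℝ) (s : ℝ), π (a + s • v (π a)) = π a := by
    intro a s
    refine hdep a _ fun r hr => ?_
    rw [StepU_SS, hv2 (π a) r hr]
    ring
  obtain ⟨H, hH⟩ : ∃ H : ι → ℝ → ℝ, H = fun i z =>
      F i * f i ((2 * (q i : ℤ) + 1 + M * ⌊z⌋).toNat) := ⟨_, rfl⟩
  have hHm : ∀ i, Measurable (H i) := by
    intro i
    rw [hH]
    exact (measurable_of_countable (fun k : ℤ =>
      F i * f i ((2 * (q i : ℤ) + 1 + M * k).toNat))).comp Int.measurable_floor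
  have hHb : ∀ i z, |H i z| ≤ Real.exp (lam y / 2) := by
    intro i z
    rw [hH]
    simp only
    rw [abs_mul]
    calc |F i| * |f i ((2 * (q i : ℤ) + 1 + M * ⌊z⌋).toNat)| ≤
          Real.exp (lam y / 4) * Real.exp (lam y / 4) :=
          mul_le_mul (hF i) (hf i _) (abs_nonneg _) (Real.exp_pos _).le
      _ = Real.exp (lam y / 2) := by
          rw [← Real.exp_add]
          congr 1
          ring
  have hslide : ∀ (a : Fin m → ℝ) (s : ℝ), (∃ z, H (π a) z ≠ 0) →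
      (fun a : Fin m → ℝ => SS G ε a (q (π a))) (a + s • v (π a)) =
        (fun a : Fin m → ℝ => SS G ε a (q (π a))) a + s := by
    rintro a s ⟨z, hz⟩
    have hFa : F (π a) ≠ 0 := by
      intro h0
      apply hz
      rw [hH]
      simp only
      rw [h0, zero_mul]
    simp only
    rw [hinv a s, StepU_SS, hv3 (π a) hFa, mul_one]
  have ht0 : 0 < tt m A y := by unfold tt; positivity
  have htρ : tt m A y * ρ = Real.exp (-(2 * lam y)) := by
    rw [hρ]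
    unfold tt
    have : y * Real.exp (-((m * A + 3) * lam y)) * (Real.exp ((m * A + 1) * lam y) / y) =
        Real.exp (-((m * A + 3) * lam y)) * Real.exp ((m * A + 1) * lam y) := by
      field_simp
    rw [this, ← Real.exp_add]
    congr 1
    ring
  have htρ4 : tt m A y * ρ ≤ 1 / 4 := by
    rw [htρ]
    have g1 : Real.exp (-(2 * lam y)) ≤ Real.exp (-2) := Real.exp_le_exp.2 (by linarith)
    have g2 : Real.exp (-2) ≤ 1 / 4 := by
      rw [Real.exp_neg, inv_eq_one_div]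
      apply one_div_le_one_div_of_le (by norm_num)
      have g3 : (2 : ℝ) ≤ Real.exp 1 := by
        have := Real.add_one_le_exp (1 : ℝ)
        linarith
      have g4 : Real.exp 2 = Real.exp 1 * Real.exp 1 := by
        rw [← Real.exp_add]
        norm_num
      rw [g4]
      nlinarith
    linarith
  have havg' : ∀ a ∈ Set.Icc (0 : Fin m → ℝ) 1,
      |(1 / tt m A y) * (∫ s in (0 : ℝ)..tt m A y,
        H (π a) ((fun a : Fin m → ℝ => SS G ε a (q (π a))) a + s)) -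
        (fun i => F i * κ i) (π a)| ≤ Real.exp (lam y / 4) * η := by
    intro a ha
    rw [hH]
    simp only
    rw [intervalIntegral.integral_const_mul]
    by_cases hFa : F (π a) = 0
    · rw [hFa]
      simp only [zero_mul, mul_zero, sub_zero, abs_zero]
      positivity
    · have g1 := havg a ha hFa
      have g2 : (1 / tt m A y) * (F (π a) * ∫ s in (0 : ℝ)..tt m A y,
          f (π a) ((2 * (q (π a) : ℤ) + 1 + M * ⌊SS G ε a (q (π a)) + s⌋).toNat)) -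
          F (π a) * κ (π a) = F (π a) * ((1 / tt m A y) * (∫ s in (0 : ℝ)..tt m A y,
          f (π a) ((2 * (q (π a) : ℤ) + 1 + M * ⌊SS G ε a (q (π a)) + s⌋).toNat)) -
          κ (π a)) := by ring
      rw [g2, abs_mul]
      exact mul_le_mul (hF _) g1 (abs_nonneg _) (Real.exp_pos _).le
  have hflow := flow π hπ v ρ hρ0 hv1 hinv (fun a : Fin m → ℝ => SS G ε a (q (π a)))
    (StepU_meas G ε π hπ q) H hHm (Real.exp (lam y / 2)) hHb hslide (fun i => F i * κ i)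
    (tt m A y) (Real.exp (lam y / 4) * η) ht0 htρ4 havg'
  rw [htρ] at hflow
  have hfin : Real.exp (lam y / 2) * (4 * (m : ℝ) * 2 ^ m * Real.exp (-(2 * lam y))) ≤
      Real.exp (-lam y) := by
    calc Real.exp (lam y / 2) * (4 * (m : ℝ) * 2 ^ m * Real.exp (-(2 * lam y)))
        = (4 * (m : ℝ) * 2 ^ m) * (Real.exp (lam y / 2) * Real.exp (-(2 * lam y))) := by ring
      _ ≤ Real.exp (lam y / 2) * (Real.exp (lam y / 2) * Real.exp (-(2 * lam y))) :=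
          mul_le_mul_of_nonneg_right hyK (by positivity)
      _ = Real.exp (-lam y) := by
          rw [← Real.exp_add, ← Real.exp_add]
          congr 1
          ring
  rw [hH] at hflow
  simp only at hflow
  unfold Cu T
  linarith

theorem SS_div (G ε : ℕ → ℝ) (M : ℕ) {m : ℕ} (a : Fin m → ℝ) (q : ℕ) :
    SS (fun q => G q / M) (fun q => ε q / M) a q = SS G ε a q / M := by
  unfold SS pf
  rw [add_div]
  congr 1
  ring

theorem T_div (G ε : ℕ → ℝ) (M : ℕ) {m : ℕ} (a : Fin m → ℝ) (q : ℕ) :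
    T M (SS (fun q => G q / M) (fun q => ε q / M) a) q = Tr M (SS G ε a) q := by
  unfold T Tr
  rw [SS_div]

theorem stepU {ρ ε : ℕ → ℝ} (h : Hx ρ ε) (B n m : ℕ) (A : ℝ) (hA : 0 ≤ A) :
    ∃ Y : ℝ, 3 ≤ Y ∧ ∀ y ≥ Y, ∀ (G : ℕ → ℝ) (M : ℕ), 0 < M → M ≤ B →
      ∀ (ι : Type) [Countable ι] [MeasurableSpace ι]
      [MeasurableSingletonClass ι] (π : (Fin m → ℝ) → ι), Measurable π →
      ∀ (I : ι → Finset ℕ) (q : ι → ℕ) (F : ι → ℝ) (f : ι → ℕ → ℝ) (κ : ι → ℝ) (η : ℝ), 0 ≤ η →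
      (∀ a a' : Fin m → ℝ, (∀ r ∈ I (π a), SS G ε a r = SS G ε a' r) → π a' = π a) →
      (∀ i, F i ≠ 0 → (I i).card < m ∧ 7 / 8 * y ≤ q i ∧ (q i : ℝ) ≤ 2 ^ (n + 2) * y ∧
        ∀ r ∈ I i, 7 / 8 * y ≤ r ∧ (r : ℝ) ≤ 2 ^ (n + 2) * y ∧
          y * Real.exp (-(A * lam y)) ≤ |(r : ℝ) - q i|) →
      (∀ i, |F i| ≤ Real.exp (lam y / 4)) →
      (∀ i c, |f i c| ≤ Real.exp (lam y / 4)) →
      (∀ a ∈ Cu m, F (π a) ≠ 0 →
        |(1 / tt m A y) * (∫ s in (0 : ℝ)..tt m A y,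
          f (π a) ((2 * (q (π a) : ℤ) + 1 + M * ⌊SS G ε a (q (π a)) / M + s⌋).toNat)) -
            κ (π a)| ≤ η) →
      |(∫ a in Cu m, F (π a) * f (π a) (Tr M (SS G ε a) (q (π a)))) -
        ∫ a in Cu m, F (π a) * κ (π a)| ≤
        Real.exp (lam y / 4) * η + Real.exp (-lam y) := by
  have e1 : ∀ᶠ L : ℝ in Filter.atTop, Real.log B + L ^ (1 / 31 : ℝ) ≤ L ^ (1 / 30 : ℝ) := by
    have g1 : ∀ᶠ L : ℝ in Filter.atTop, Real.log B + 1 ≤ L ^ (1 / 930 : ℝ) :=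
      (tendsto_rpow_atTop (show (0 : ℝ) < 1 / 930 by norm_num)).eventually_ge_atTop _
    have g2 : ∀ᶠ L : ℝ in Filter.atTop, (1 : ℝ) ≤ L := Filter.eventually_ge_atTop _
    filter_upwards [g1, g2] with L h1 h2
    have h3 : L ^ (1 / 30 : ℝ) = L ^ (1 / 930 : ℝ) * L ^ (1 / 31 : ℝ) := by
      rw [← Real.rpow_add (by linarith)]
      norm_num
    have h4 : 1 ≤ L ^ (1 / 31 : ℝ) := Real.one_le_rpow h2 (by norm_num)
    have h5 : 0 ≤ Real.log B := Real.log_natCast_nonneg B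
    rw [h3]
    nlinarith
  have e2 : ∀ᶠ q : ℕ in Filter.atTop,
      Real.log B + Real.log q ^ (1 / 31 : ℝ) ≤ Real.log q ^ (1 / 30 : ℝ) :=
    (Real.tendsto_log_atTop.comp tendsto_natCast_atTop_atTop).eventually e1
  obtain ⟨Q0, hQ0⟩ := Filter.eventually_atTop.1 (h.εlow.and e2)
  obtain ⟨Y, hY3, hY⟩ := step_unif Q0 n m A hA
  refine ⟨Y, hY3, ?_⟩
  intro y hy G M hM hMB ι _ _ _ π hπ I q F f κ η hη hdep hgeom hF hf havg
  have hM' : (0 : ℝ) < M := by exact_mod_cast hM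
  have hMB' : (M : ℝ) ≤ B := by exact_mod_cast hMB
  have key := hY y hy M (fun q => G q / M) (fun q => ε q / M) ?_ ι π hπ I q F f κ η hη ?_ hgeom hF
    hf ?_
  · simp only [T_div] at key
    exact key
  · intro r hr
    obtain ⟨h1, h2⟩ := hQ0 r hr
    have hB0 : (0 : ℝ) < B := lt_of_lt_of_le hM' hMB'
    rw [le_div_iff₀ hM']
    calc Real.exp (-Real.log r ^ (1 / 30 : ℝ)) * M
        ≤ Real.exp (-Real.log r ^ (1 / 30 : ℝ)) * Real.exp (Real.log B) := by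
          rw [Real.exp_log hB0]
          exact mul_le_mul_of_nonneg_left hMB' (Real.exp_pos _).le
      _ ≤ Real.exp (-Real.log r ^ (1 / 31 : ℝ)) := by
          rw [← Real.exp_add]
          apply Real.exp_le_exp.2
          linarith
      _ ≤ ε r := h1
  · intro a a' haa
    refine hdep a a' fun r hr => ?_
    have h1 := haa r hr
    rw [SS_div, SS_div, div_left_inj' hM'.ne'] at h1
    exact h1
  · intro a ha hFa
    simp only [SS_div]
    exact havg a ha hFa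

end Pool.Agent.PCx
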