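import Pool.Agent.PCx.GgX
import Pool.Agent.PCx.TwoX

/-!
# The expectation for one chain

Adapt `Pool/Agent/PCn/Sgl.lean`.  `J_i = ∫ (∏_{j=1}^i θ(c_j)) * gg B μ (n-i) i c_i`, `J_0 = gg B μ n 0 p`.  For `i < n`: `twoX` with
`p' = p`, `k = 0`, `A = 1`, `F x x' = ∏_{j=1}^i θ(x_j)`, `f x x' c = thc (2^(n+4) y) c * gg B μ (n-i-1) (i+1) c`,
`κ x x' = gg B μ (n-i) i (x i)`, `η = e^{-λ}` (`avg_cl`) gives `|J_{i+1} - J_i| ≤ 2 e^{-3λ/4}`.  (`thX`, `gg_bd`, `logs` of PCn:
`log(2^(n+4) y) (B/φ(B))^n ≤ e^{λ/4}` for large `y`.)  So `|J_n - J_0| ≤ 2 n e^{-3λ/4} ≤ e^{-λ/2}`.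
-/

namespace Pool.Agent.PCx

open MeasureTheory Pool.Agent.PCn

private theorem SglX_lam : Filter.Tendsto lam Filter.atTop Filter.atTop := by
  unfold lam
  exact (tendsto_rpow_atTop (by norm_num)).comp Real.tendsto_log_atTop

private theorem SglX_vol (m : ℕ) : (∫ _a in Cu m, (1 : ℝ)) = 1 := by
  unfold Cu
  rw [setIntegral_const, smul_eq_mul, mul_one, measureReal_def, Real.volume_Icc_pi]
  simp

private theorem SglX_thc_abs {X : ℝ} (hX : 1 ≤ Real.log X) (c : ℕ) : |thc X c| ≤ Real.log X := by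
  unfold thc th
  split_ifs with h1 h2
  · have hc : (1 : ℝ) ≤ c := by exact_mod_cast h2.one_lt.le
    rw [abs_of_nonneg (Real.log_nonneg hc)]
    exact Real.log_le_log (by linarith) h1
  · rw [abs_zero]
    linarith
  · rw [abs_zero]
    linarith

theorem sglX {ρ ε : ℕ → ℝ} (h : Hx ρ ε) (B n m : ℕ) (hB : 0 < B) (hm : n ≤ m) :
    ∃ Y : ℝ, 3 ≤ Y ∧ ∀ y ≥ Y, ∀ G : ℕ → ℝ, Adm ρ G → ∀ μ : ℕ → ℕ, (∀ i, μ i ∣ B) →
    ∀ p : ℕ, y < p → (p : ℝ) ≤ 11 / 10 * y →
    |(∫ a in Cu m, ∏ i ∈ Finset.Icc 1 n, th (cl μ (SS G ε a) p i)) - gg B μ n 0 p| ≤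
      Real.exp (-(lam y / 2)) := by
  obtain ⟨Y1, hY1, H1⟩ := twoX h B n m hB 1 le_rfl
  obtain ⟨Y2, hY2, H2⟩ := avg_cl h B n m hB 1 zero_le_one
  obtain ⟨Y3, hY3, H3⟩ := thX h B n m hB
  obtain ⟨Y4, hY4, H4⟩ := logs n (n + 1) (1 / 8) (by norm_num)
  set R : ℝ := (B : ℝ) / B.totient with hR
  obtain ⟨Y5, H5⟩ := Filter.eventually_atTop.1
    (SglX_lam.eventually_ge_atTop (8 * Real.log (2 * n + R ^ n + 1)))
  refine ⟨max (max (max Y1 Y2) (max Y3 Y4)) Y5, ?_, ?_⟩
  · exact hY1.trans ((le_max_left _ _).trans ((le_max_left _ _).trans (le_max_left _ _)))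
  intro y hy G hG μ hμ p hp1 hp2
  have hyY1 : y ≥ Y1 := ((le_max_left _ _).trans ((le_max_left _ _).trans (le_max_left _ _))).trans hy
  have hyY2 : y ≥ Y2 := ((le_max_right _ _).trans ((le_max_left _ _).trans (le_max_left _ _))).trans hy
  have hyY3 : y ≥ Y3 := ((le_max_left _ _).trans ((le_max_right _ _).trans (le_max_left _ _))).trans hy
  have hyY4 : y ≥ Y4 := ((le_max_right _ _).trans ((le_max_right _ _).trans (le_max_left _ _))).trans hy
  have hyY5 : y ≥ Y5 := (le_max_right _ _).trans hy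
  obtain ⟨hL1, hlam1, hLpow⟩ := H4 y hyY4
  set X : ℝ := 2 ^ (n + 4) * y with hX
  have hLpow' : Real.log X ^ (n + 1) ≤ Real.exp (lam y / 8) := by
    refine hLpow.trans (le_of_eq ?_)
    congr 1
    ring
  have hR1 : 1 ≤ R := (gg_bd hB hμ 0 0 0).2.2
  have hR0 : 0 ≤ R := by linarith
  have hRn : 0 ≤ R ^ n := pow_nonneg hR0 n
  have hlam5 := H5 y hyY5
  have hpos : (0 : ℝ) < 2 * n + R ^ n + 1 := by positivity
  have h6 : 2 * n + R ^ n + 1 ≤ Real.exp (lam y / 8) := by
    rw [← Real.log_le_iff_le_exp hpos]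
    linarith
  have hRexp : R ^ n ≤ Real.exp (lam y / 8) := by
    have : (0 : ℝ) ≤ n := Nat.cast_nonneg n
    linarith
  have hnexp : (2 * n : ℝ) ≤ Real.exp (lam y / 8) := by linarith
  have hexp8 : Real.exp (lam y / 8) ≤ Real.exp (lam y / 4) := by
    apply Real.exp_le_exp.mpr
    linarith
  set J : ℕ → ℝ := fun i => ∫ a in Cu m, (∏ j ∈ Finset.Icc 1 i, th (cl μ (SS G ε a) p j)) *
    gg B μ (n - i) i (cl μ (SS G ε a) p i) with hJ
  have hstep : ∀ i < n, |J (i + 1) - J i| ≤ 2 * Real.exp (-(3 / 4 * lam y)) := by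
    intro i hi
    have key := H1 y hyY1 G hG μ hμ p p hp1 hp2 hp1 hp2 i 0 hi (Nat.zero_le _) (by omega)
      (fun x _ => ∏ j ∈ Finset.Icc 1 i, th (x j))
      (fun _ _ c => thc X c * gg B μ (n - i - 1) (i + 1) c)
      (fun x _ => gg B μ (n - i) i (x i))
      (Real.exp (-lam y)) (Real.exp_pos _).le
    have hFeq : ∀ a : Fin m → ℝ, ∏ j ∈ Finset.Icc 1 i, th (tr i (cl μ (SS G ε a) p) j) =
        ∏ j ∈ Finset.Icc 1 i, th (cl μ (SS G ε a) p j) := by
      intro a
      refine Finset.prod_congr rfl fun j hj => ?_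
      rw [tr, if_pos (Finset.mem_Icc.mp hj).2]
    have htr : ∀ a : Fin m → ℝ, tr i (cl μ (SS G ε a) p) i = cl μ (SS G ε a) p i := by
      intro a
      rw [tr, if_pos le_rfl]
    have key2 := key ?_ ?_ ?_ ?_
    · have e1 : (∫ a in Cu m, (∏ j ∈ Finset.Icc 1 i, th (tr i (cl μ (SS G ε a) p) j)) *
          (thc X (cl μ (SS G ε a) p (i + 1)) *
            gg B μ (n - i - 1) (i + 1) (cl μ (SS G ε a) p (i + 1)))) = J (i + 1) := by
        rw [hJ]
        refine setIntegral_congr_fun measurableSet_Icc fun a ha => ?_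
        have h3 := (H3 y hyY3 G hG a ha μ hμ p hp1 hp2 (i + 1) hi).2.2
        simp only [hFeq]
        rw [h3, Finset.prod_Icc_succ_top (by omega), ← mul_assoc, Nat.sub_sub]
      have e2 : (∫ a in Cu m, (∏ j ∈ Finset.Icc 1 i, th (tr i (cl μ (SS G ε a) p) j)) *
          gg B μ (n - i) i (tr i (cl μ (SS G ε a) p) i)) = J i := by
        simp only [hFeq, htr]
        rfl
      simp only [e1, e2] at key2
      refine key2.trans ?_
      rw [← Real.exp_add]
      have e3 : lam y / 4 + -lam y = -(3 / 4 * lam y) := by ring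
      have e4 : Real.exp (-lam y) ≤ Real.exp (-(3 / 4 * lam y)) := by
        apply Real.exp_le_exp.mpr
        linarith
      rw [e3]
      linarith
    · intro a ha
      simp only [hFeq]
      have hb : ∀ j ∈ Finset.Icc 1 i, 0 ≤ th (cl μ (SS G ε a) p j) ∧
          th (cl μ (SS G ε a) p j) ≤ Real.log X := by
        intro j hj
        have hj2 := (Finset.mem_Icc.mp hj).2
        have := H3 y hyY3 G hG a ha μ hμ p hp1 hp2 j (by omega)
        exact ⟨this.1, this.2.1⟩
      rw [abs_of_nonneg (Finset.prod_nonneg fun j hj => (hb j hj).1)]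
      calc ∏ j ∈ Finset.Icc 1 i, th (cl μ (SS G ε a) p j)
          ≤ ∏ j ∈ Finset.Icc 1 i, Real.log X :=
            Finset.prod_le_prod (fun j hj => (hb j hj).1) (fun j hj => (hb j hj).2)
        _ = Real.log X ^ i := by simp
        _ ≤ Real.log X ^ (n + 1) := pow_le_pow_right₀ hL1 (by omega)
        _ ≤ _ := hLpow'.trans hexp8
    · intro a ha c
      rw [abs_mul]
      obtain ⟨g0, g1, _⟩ := gg_bd hB hμ (n - i - 1) (i + 1) c
      have g2 : gg B μ (n - i - 1) (i + 1) c ≤ Real.exp (lam y / 8) := by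
        refine g1.trans (le_trans ?_ hRexp)
        exact pow_le_pow_right₀ hR1 (by omega)
      have g3 : |thc X c| ≤ Real.exp (lam y / 8) := by
        refine (SglX_thc_abs hL1 c).trans (le_trans ?_ hLpow')
        calc Real.log X = Real.log X ^ 1 := (pow_one _).symm
          _ ≤ _ := pow_le_pow_right₀ hL1 (by omega)
      rw [abs_of_nonneg g0]
      calc |thc X c| * gg B μ (n - i - 1) (i + 1) c
          ≤ Real.exp (lam y / 8) * Real.exp (lam y / 8) :=
            mul_le_mul g3 g2 g0 (Real.exp_pos _).le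
        _ = Real.exp (lam y / 4) := by
            rw [← Real.exp_add]
            congr 1
            ring
    · intro a _ hk
      omega
    · intro a ha _
      have h2 := H2 y hyY2 G hG μ hμ a ha p hp1 hp2 i hi (n - i - 1) (by omega)
      rw [show n - i - 1 + 1 = n - i by omega] at h2
      simp only [htr]
      exact h2
  have hind : ∀ i ≤ n, |J i - J 0| ≤ 2 * i * Real.exp (-(3 / 4 * lam y)) := by
    intro i
    induction i with
    | zero =>
      intro _
      simp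
    | succ i ih =>
      intro hi
      have h1 := ih (by omega)
      have h2 := hstep i (by omega)
      have e : J (i + 1) - J 0 = (J (i + 1) - J i) + (J i - J 0) := by ring
      rw [e]
      refine (abs_add_le _ _).trans ?_
      push_cast
      linarith
  have hJ0 : J 0 = gg B μ n 0 p := by
    rw [hJ]
    simp only [Finset.Icc_eq_empty (show ¬ (1 : ℕ) ≤ 0 by omega), Finset.prod_empty, one_mul,
      cl_zero, Nat.sub_zero]
    rw [setIntegral_const, smul_eq_mul]
    have hv := SglX_vol m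
    rw [setIntegral_const, smul_eq_mul, mul_one] at hv
    rw [hv, one_mul]
  have hJn : J n = ∫ a in Cu m, ∏ i ∈ Finset.Icc 1 n, th (cl μ (SS G ε a) p i) := by
    rw [hJ]
    simp only [Nat.sub_self, gg, mul_one]
  have hfin := hind n le_rfl
  rw [hJ0, hJn] at hfin
  refine hfin.trans ?_
  calc 2 * n * Real.exp (-(3 / 4 * lam y))
      ≤ Real.exp (lam y / 4) * Real.exp (-(3 / 4 * lam y)) :=
        mul_le_mul_of_nonneg_right (hnexp.trans hexp8) (Real.exp_pos _).le
    _ = Real.exp (-(lam y / 2)) := by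
        rw [← Real.exp_add]
        congr 1
        ring

end Pool.Agent.PCx
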