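import Pool.Agent.PCx.MomX

/-!
# The thresholds

For all `j, n, l` let `Y(j, n, l)` be such that `momX` holds with `B = QQ (j+1)`, `m = 2n`, `r = 1 + 1/l` (`≤ 11/10` for `l ≥ 10`) for
`y ≥ Y(j, n, l)`, and moreover `C ≤ exp(lam y/16)` there.  Choose `Z j` by recursion, at least `exp (QQ (j+1))`,
`2^(j+9) (Z (j-1) + 1)` and `2^(j+5) Y(j, n, l)` for all `n, l ≤ j`.
`JJ_eq`: if `Z` is increasing as in `thrX` then `JJ Z q = j` for `Z (j-1) ≤ q < Z j`, and `JJ Z q = 0` for `q < Z 0` (`Z j ≥ j`).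
`MM_dvd`: `d ∣ (rad d)^j ∣ QQ j` for large `j`.
-/

namespace Pool.Agent.PCx

open MeasureTheory Pool.Agent.PCn

private theorem ThrX_one {ρ ε : ℕ → ℝ} (h : Hx ρ ε) (j n l : ℕ) (hl : 10 ≤ l) :
    ∃ Y : ℝ, ∀ y ≥ Y, ∀ G : ℕ → ℝ, Adm ρ G → ∀ μ : ℕ → ℕ, (∀ i, μ i ∣ QQ (j + 1)) →
    (∫ a in Cu (2 * n), (VL μ (SS G ε a) n y ((1 + 1 / (l : ℝ)) * y) -
      kapL (QQ (j + 1)) μ n * (1 / (l : ℝ) * y)) ^ 2) ≤
      y ^ 2 * Real.exp (-(lam y / 16)) := by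
  have hl' : (10 : ℝ) ≤ l := by exact_mod_cast hl
  have hl0 : 0 < 1 / (l : ℝ) := by positivity
  have hl1 : 1 / (l : ℝ) ≤ 1 / 10 := one_div_le_one_div_of_le (by norm_num) hl'
  obtain ⟨C, Y, hC, hY, hm⟩ := momX h (QQ (j + 1)) n (2 * n) (QQ_pos _) le_rfl (1 + 1 / (l : ℝ))
    (by linarith) (by linarith)
  have hlam : Filter.Tendsto (fun y : ℝ => Real.exp (lam y / 16)) Filter.atTop Filter.atTop := by
    refine Real.tendsto_exp_atTop.comp ?_
    refine Filter.Tendsto.atTop_div_const (by norm_num) ?_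
    exact (tendsto_rpow_atTop (by norm_num)).comp Real.tendsto_log_atTop
  obtain ⟨Y', hY'⟩ := Filter.eventually_atTop.1 (hlam.eventually_ge_atTop C)
  refine ⟨max Y Y', fun y hy G hG μ hμ => ?_⟩
  have h1 := hm y ((le_max_left _ _).trans hy) G hG μ hμ
  have h2 : 1 + 1 / (l : ℝ) - 1 = 1 / (l : ℝ) := by ring
  rw [h2] at h1
  refine h1.trans ?_
  have h3 : C ≤ Real.exp (lam y / 16) := hY' y ((le_max_right _ _).trans hy)
  have h4 : Real.exp (-(lam y / 16)) = Real.exp (lam y / 16) * Real.exp (-(lam y / 8)) := by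
    rw [← Real.exp_add]
    congr 1
    ring
  rw [h4]
  have h5 : 0 ≤ y ^ 2 * Real.exp (-(lam y / 8)) := by positivity
  calc C * y ^ 2 * Real.exp (-(lam y / 8)) = C * (y ^ 2 * Real.exp (-(lam y / 8))) := by ring
    _ ≤ Real.exp (lam y / 16) * (y ^ 2 * Real.exp (-(lam y / 8))) :=
        mul_le_mul_of_nonneg_right h3 h5
    _ = y ^ 2 * (Real.exp (lam y / 16) * Real.exp (-(lam y / 8))) := by ring

/-- the thresholds -/
private def ThrX_Z (W : ℕ → ℕ) : ℕ → ℕ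
  | 0 => W 0
  | j + 1 => W (j + 1) + 2 ^ (j + 10) * (ThrX_Z W j + 1)

private theorem ThrX_Z_le (W : ℕ → ℕ) (j : ℕ) : W j ≤ ThrX_Z W j := by
  cases j with
  | zero => exact le_rfl
  | succ j => exact Nat.le_add_right _ _

theorem thrX {ρ ε : ℕ → ℝ} (h : Hx ρ ε) : ∃ Z : ℕ → ℕ,
    (∀ j, 2 ^ (j + 10) * (Z j + 1) ≤ Z (j + 1)) ∧ (∀ j, Real.exp (QQ (j + 1)) ≤ Z j) ∧
    ∀ j n l : ℕ, n ≤ j → 10 ≤ l → l ≤ j → ∀ y : ℝ, (Z j : ℝ) ≤ 2 ^ (j + 5) * y →
    ∀ G : ℕ → ℝ, Adm ρ G → ∀ μ : ℕ → ℕ, (∀ i, μ i ∣ QQ (j + 1)) →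
    (∫ a in Cu (2 * n), (VL μ (SS G ε a) n y ((1 + 1 / (l : ℝ)) * y) -
      kapL (QQ (j + 1)) μ n * (1 / (l : ℝ) * y)) ^ 2) ≤
      y ^ 2 * Real.exp (-(lam y / 16)) := by
  have h1 : ∀ j n l : ℕ, ∃ Y : ℝ, 10 ≤ l → ∀ y ≥ Y, ∀ G : ℕ → ℝ, Adm ρ G → ∀ μ : ℕ → ℕ,
      (∀ i, μ i ∣ QQ (j + 1)) →
      (∫ a in Cu (2 * n), (VL μ (SS G ε a) n y ((1 + 1 / (l : ℝ)) * y) -
        kapL (QQ (j + 1)) μ n * (1 / (l : ℝ) * y)) ^ 2) ≤
        y ^ 2 * Real.exp (-(lam y / 16)) := by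
    intro j n l
    by_cases hl : 10 ≤ l
    · obtain ⟨Y, hY⟩ := ThrX_one h j n l hl
      exact ⟨Y, fun _ => hY⟩
    · exact ⟨0, fun h' => absurd h' hl⟩
  choose Y hY using h1
  obtain ⟨W, hW⟩ : ∃ W : ℕ → ℕ, W = fun j => ⌈Real.exp (QQ (j + 1))⌉₊ +
      ∑ n ∈ Finset.range (j + 1), ∑ l ∈ Finset.range (j + 1), ⌈2 ^ (j + 5) * |Y j n l|⌉₊ :=
    ⟨_, rfl⟩
  refine ⟨ThrX_Z W, fun j => Nat.le_add_left _ _, fun j => ?_, ?_⟩
  · have h2 : ⌈Real.exp (QQ (j + 1))⌉₊ ≤ ThrX_Z W j := by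
      refine le_trans ?_ (ThrX_Z_le W j)
      rw [hW]
      exact Nat.le_add_right _ _
    exact (Nat.le_ceil _).trans (by exact_mod_cast h2)
  · intro j n l hn hl hlj y hy
    have h2 : ⌈2 ^ (j + 5) * |Y j n l|⌉₊ ≤ ThrX_Z W j := by
      refine le_trans ?_ (ThrX_Z_le W j)
      have h3 : ⌈2 ^ (j + 5) * |Y j n l|⌉₊ ≤
          ∑ l ∈ Finset.range (j + 1), ⌈2 ^ (j + 5) * |Y j n l|⌉₊ :=
        Finset.single_le_sum (f := fun l => ⌈2 ^ (j + 5) * |Y j n l|⌉₊)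
          (fun _ _ => Nat.zero_le _) (Finset.mem_range.2 (by omega))
      have h4 : ∑ l ∈ Finset.range (j + 1), ⌈2 ^ (j + 5) * |Y j n l|⌉₊ ≤
          ∑ n ∈ Finset.range (j + 1), ∑ l ∈ Finset.range (j + 1), ⌈2 ^ (j + 5) * |Y j n l|⌉₊ :=
        Finset.single_le_sum
          (f := fun n => ∑ l ∈ Finset.range (j + 1), ⌈2 ^ (j + 5) * |Y j n l|⌉₊)
          (fun _ _ => Nat.zero_le _) (Finset.mem_range.2 (by omega))
      rw [hW]
      exact (h3.trans h4).trans (Nat.le_add_left _ _)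
    have h3 : (2 ^ (j + 5) * |Y j n l| : ℝ) ≤ 2 ^ (j + 5) * y := by
      refine ((Nat.le_ceil _).trans ?_).trans hy
      exact_mod_cast h2
    have h4 : |Y j n l| ≤ y := le_of_mul_le_mul_left h3 (by positivity)
    exact hY j n l hl y ((le_abs_self _).trans h4)

theorem JJ_mono (Z : ℕ → ℕ) : Monotone (JJ Z) := by
  intro q q' hq
  unfold JJ
  refine Finset.card_le_card fun i hi => ?_
  rw [Finset.mem_filter, Finset.mem_range] at hi ⊢
  omega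

private theorem ThrX_strict {Z : ℕ → ℕ} (hZ : ∀ j, 2 ^ (j + 10) * (Z j + 1) ≤ Z (j + 1)) :
    StrictMono Z := by
  refine strictMono_nat_of_lt_succ fun j => ?_
  have h1 : 1 ≤ 2 ^ (j + 10) := Nat.one_le_two_pow
  have h2 : 1 * (Z j + 1) ≤ 2 ^ (j + 10) * (Z j + 1) := Nat.mul_le_mul_right _ h1
  have := hZ j
  omega

private theorem ThrX_iff {Z : ℕ → ℕ} (hZ : ∀ j, 2 ^ (j + 10) * (Z j + 1) ≤ Z (j + 1))
    (i q : ℕ) : i < JJ Z q ↔ Z i ≤ q := by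
  have hs := ThrX_strict hZ
  constructor
  · intro h
    by_contra hc
    push Not at hc
    have h1 : (Finset.range (q + 1)).filter (fun j => Z j ≤ q) ⊆ Finset.range i := by
      intro k hk
      rw [Finset.mem_filter] at hk
      rw [Finset.mem_range]
      by_contra hki
      push Not at hki
      have := hs.monotone hki
      omega
    have h2 := Finset.card_le_card h1
    rw [Finset.card_range] at h2
    unfold JJ at h
    omega
  · intro h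
    have h1 : Finset.range (i + 1) ⊆ (Finset.range (q + 1)).filter (fun j => Z j ≤ q) := by
      intro k hk
      rw [Finset.mem_range] at hk
      have h2 : Z k ≤ Z i := hs.monotone (by omega)
      have h3 : k ≤ Z k := hs.id_le k
      rw [Finset.mem_filter, Finset.mem_range]
      omega
    have h2 := Finset.card_le_card h1
    rw [Finset.card_range] at h2
    unfold JJ
    omega

theorem JJ_succ {Z : ℕ → ℕ} (hZ : ∀ j, 2 ^ (j + 10) * (Z j + 1) ≤ Z (j + 1)) (j q : ℕ) :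
    JJ Z q = j + 1 ↔ Z j ≤ q ∧ q < Z (j + 1) := by
  have h1 := ThrX_iff hZ j q
  have h2 := ThrX_iff hZ (j + 1) q
  constructor
  · intro h
    refine ⟨h1.1 (by omega), ?_⟩
    by_contra hc
    push Not at hc
    have := h2.2 hc
    omega
  · rintro ⟨h3, h4⟩
    have h5 := h1.2 h3
    by_contra hc
    have h6 : j + 1 < JJ Z q := by omega
    have := h2.1 h6
    omega

theorem JJ_zero {Z : ℕ → ℕ} (hZ : ∀ j, 2 ^ (j + 10) * (Z j + 1) ≤ Z (j + 1)) (q : ℕ) :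
    JJ Z q = 0 ↔ q < Z 0 := by
  have h1 := ThrX_iff hZ 0 q
  constructor
  · intro h
    by_contra hc
    push Not at hc
    have := h1.2 hc
    omega
  · intro h
    by_contra hc
    have := h1.1 (by omega)
    omega

theorem MM_log {Z : ℕ → ℕ} (hZ : ∀ j, 2 ^ (j + 10) * (Z j + 1) ≤ Z (j + 1))
    (hZ2 : ∀ j, Real.exp (QQ (j + 1)) ≤ Z j) :
    ∀ᶠ q : ℕ in Filter.atTop, (MM Z q : ℝ) ≤ Real.log q := by
  filter_upwards [Filter.eventually_ge_atTop (Z 0)] with q hq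
  have h1 : 0 < JJ Z q := (ThrX_iff hZ 0 q).2 hq
  obtain ⟨j, hj⟩ : ∃ j, JJ Z q = j + 1 := ⟨JJ Z q - 1, by omega⟩
  have h2 : Z j ≤ q := (ThrX_iff hZ j q).1 (by omega)
  unfold MM
  rw [hj]
  have h3 : Real.exp (QQ (j + 1)) ≤ q := (hZ2 j).trans (by exact_mod_cast h2)
  rw [Real.le_log_iff_exp_le (lt_of_lt_of_le (Real.exp_pos _) h3)]
  exact h3

private theorem ThrX_dvd {d j : ℕ} (hd : 0 < d) (hj : d ≤ j) : d ∣ QQ j := by
  have h0 : PP j ≠ 0 := (PP_pos j).ne'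
  unfold QQ
  rw [← Nat.factorization_le_iff_dvd hd.ne' (pow_ne_zero _ h0), Nat.factorization_pow]
  intro p
  rw [Finsupp.smul_apply, smul_eq_mul]
  by_cases hp : p ∈ d.primeFactors
  · have hpp : p.Prime := Nat.prime_of_mem_primeFactors hp
    have h1 : p ≤ d := Nat.le_of_dvd hd (Nat.dvd_of_mem_primeFactors hp)
    have h2 : p ∣ PP j := by
      unfold PP primorial
      refine Finset.dvd_prod_of_mem (fun q => q) ?_
      rw [Finset.mem_filter, Finset.mem_range]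
      exact ⟨by omega, hpp⟩
    have h3 : 1 ≤ (PP j).factorization p := (hpp.dvd_iff_one_le_factorization h0).1 h2
    have h4 : d.factorization p < d := Nat.factorization_lt p hd.ne'
    calc d.factorization p ≤ (j + 1) * 1 := by omega
      _ ≤ (j + 1) * (PP j).factorization p := Nat.mul_le_mul_left _ h3
  · rw [← Nat.support_factorization, Finsupp.notMem_support_iff] at hp
    rw [hp]
    exact Nat.zero_le _

theorem MM_dvd {Z : ℕ → ℕ} (hZ : ∀ j, 2 ^ (j + 10) * (Z j + 1) ≤ Z (j + 1)) {d : ℕ}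
    (hd : 0 < d) : ∀ᶠ q : ℕ in Filter.atTop, d ∣ MM Z q := by
  filter_upwards [Filter.eventually_ge_atTop (Z d)] with q hq
  have h1 : d < JJ Z q := (ThrX_iff hZ d q).2 hq
  exact ThrX_dvd hd h1.le

end Pool.Agent.PCx
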